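import Mathlib

/-!
# Linear algebra of self-adjoint matrix Lie algebras

`d` is a subspace of the matrices which is closed under brackets and under the brackets with the
symmetric matrices in `P`.
-/

set_option autoImplicit false

namespace Pool.Agent.E8helper46.FL

open Matrix

variable {n : ℕ}

/-- square matrices -/
abbrev Mat (n : ℕ) : Type := Matrix (Fin n) (Fin n) ℝ

theorem tr_self_nonneg (A : Mat n) : 0 ≤ (A * Aᵀ).trace := by
  rw [Matrix.trace]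
  refine Finset.sum_nonneg fun i _ => ?_
  rw [Matrix.diag_apply, Matrix.mul_apply]
  exact Finset.sum_nonneg fun j _ => by rw [Matrix.transpose_apply]; exact mul_self_nonneg _

theorem tr_self_eq_zero {A : Mat n} (h : (A * Aᵀ).trace = 0) : A = 0 := by
  rw [Matrix.trace, Finset.sum_eq_zero_iff_of_nonneg] at h
  · ext i j
    have h1 := h i (Finset.mem_univ i)
    rw [Matrix.diag_apply, Matrix.mul_apply, Finset.sum_eq_zero_iff_of_nonneg] at h1
    · have h2 := h1 j (Finset.mem_univ j)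
      rw [Matrix.transpose_apply] at h2
      simpa using h2
    · intro j _
      rw [Matrix.transpose_apply]
      exact mul_self_nonneg _
  · intro i _
    rw [Matrix.diag_apply, Matrix.mul_apply]
    exact Finset.sum_nonneg fun j _ => by rw [Matrix.transpose_apply]; exact mul_self_nonneg _

/-- the trace form -/
noncomputable def trForm (n : ℕ) : LinearMap.BilinForm ℝ (Mat n) :=
  LinearMap.mk₂ ℝ (fun A B => (A * Bᵀ).trace)
    (fun A A' B => by rw [add_mul, Matrix.trace_add])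
    (fun c A B => by rw [smul_mul_assoc, Matrix.trace_smul])
    (fun A B B' => by rw [Matrix.transpose_add, mul_add, Matrix.trace_add])
    (fun c A B => by rw [Matrix.transpose_smul, mul_smul_comm, Matrix.trace_smul])

theorem trForm_apply (A B : Mat n) : trForm n A B = (A * Bᵀ).trace := rfl

theorem trForm_comm (A B : Mat n) : (A * Bᵀ).trace = (B * Aᵀ).trace := by
  rw [← Matrix.trace_transpose (B * Aᵀ), Matrix.transpose_mul, Matrix.transpose_transpose]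

/-- orthogonal projection -/
theorem exists_proj (W : Submodule ℝ (Mat n)) (X : Mat n) :
    ∃ Y ∈ W, ∀ Z ∈ W, ((X - Y) * Zᵀ).trace = 0 := by
  have hsymm : (trForm n).IsSymm := ⟨fun A B => by
    rw [trForm_apply, trForm_apply, trForm_comm]⟩
  have hc : IsCompl W ((trForm n).orthogonal W) := by
    refine LinearMap.BilinForm.isCompl_orthogonal_of_restrict_nondegenerate hsymm.isRefl ?_
    rw [LinearMap.BilinForm.nondegenerate_iff_ker_eq_bot, eq_bot_iff]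
    rintro ⟨A, hA⟩ h
    rw [LinearMap.mem_ker] at h
    have h1 : (A * Aᵀ).trace = 0 := congrArg (fun f => f ⟨A, hA⟩) h
    rw [Submodule.mem_bot]
    exact Subtype.ext (tr_self_eq_zero h1)
  have h1 : X ∈ W ⊔ (trForm n).orthogonal W := by rw [hc.sup_eq_top]; exact Submodule.mem_top
  obtain ⟨Y, hY, Z, hZ, rfl⟩ := Submodule.mem_sup.1 h1
  refine ⟨Y, hY, fun Z' hZ' => ?_⟩
  rw [add_sub_cancel_left, trForm_comm]
  exact hZ Z' hZ'

theorem tr_a (A B C : Mat n) : ((A * B - B * A) * C).trace = (B * (C * A - A * C)).trace := by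
  rw [sub_mul, mul_sub, Matrix.trace_sub, Matrix.trace_sub]
  have h1 : (A * B * C).trace = (B * (C * A)).trace := by
    rw [mul_assoc, Matrix.trace_mul_comm, mul_assoc]
  rw [h1, mul_assoc]

theorem tr_b (A B C : Mat n) : ((A * B - B * A) * C).trace = (A * (B * C - C * B)).trace := by
  rw [sub_mul, mul_sub, Matrix.trace_sub, Matrix.trace_sub]
  have h1 : (B * A * C).trace = (A * (C * B)).trace := by
    rw [mul_assoc, Matrix.trace_mul_comm, mul_assoc]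
  rw [h1, mul_assoc]

theorem br_transpose (A B : Mat n) : (A * B - B * A)ᵀ = Bᵀ * Aᵀ - Aᵀ * Bᵀ := by
  rw [Matrix.transpose_sub, Matrix.transpose_mul, Matrix.transpose_mul]

theorem br_tr2 (C Z : Mat n) : Cᵀ * Z - Z * Cᵀ = (Zᵀ * C - C * Zᵀ)ᵀ := by
  rw [br_transpose, Matrix.transpose_transpose]

section main

variable (d : Submodule ℝ (Mat n)) (P : Set (Mat n))
  (hPs : ∀ X ∈ P, Xᵀ = X)
  (hP : ∀ X ∈ P, ∀ Y ∈ d, X * Y - Y * X ∈ d)
  (hd : ∀ Y ∈ d, ∀ Z ∈ d, Y * Z - Z * Y ∈ d)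
  (hdT : ∀ Y ∈ d, ∀ Z ∈ d, Y * Zᵀ - Zᵀ * Y ∈ d)
  (hsym : ∀ Y ∈ d, Y + Yᵀ ∈ P)
  (hflat : ∀ X ∈ P, (∀ Y ∈ P, X * Y = Y * X) → X = 0)

include hPs hP hd hdT hsym hflat in
/-- The Lie algebra is self-adjoint. -/
theorem transpose_mem : ∀ Y ∈ d, Yᵀ ∈ d := by
  obtain ⟨d0, hd0⟩ : ∃ d0 : Submodule ℝ (Mat n), ∀ Y, Y ∈ d0 ↔ Y ∈ d ∧ Yᵀ ∈ d := by
    refine ⟨d ⊓ d.comap (Matrix.transposeLinearEquiv (Fin n) (Fin n) ℝ ℝ).toLinearMap, ?_⟩
    intro Y
    rfl
  -- brackets of elements of `d0`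
  have hd0b : ∀ A ∈ d0, ∀ B ∈ d0, A * B - B * A ∈ d0 := by
    intro A hA B hB
    rw [hd0] at hA hB ⊢
    refine ⟨hd A hA.1 B hB.1, ?_⟩
    rw [br_transpose]
    exact hd _ hB.2 _ hA.2
  have c1 : ∀ Y ∈ d, (∀ Z ∈ d0, (Y * Zᵀ).trace = 0) → ∀ Z ∈ d0, Z * Y - Y * Z = 0 := by
    intro Y hY hYo Z hZ
    have hZ' := (hd0 Z).1 hZ
    have hW : Z * Y - Y * Z ∈ d0 := by
      rw [hd0]
      refine ⟨hd _ hZ'.1 _ hY, ?_⟩
      rw [br_transpose]
      have := d.neg_mem (hdT _ hZ'.2 _ hY)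
      rwa [neg_sub] at this
    apply tr_self_eq_zero
    rw [tr_a]
    rw [br_tr2]
    refine hYo _ (hd0b _ ?_ _ hW)
    rw [hd0, Matrix.transpose_transpose]
    exact ⟨hZ'.2, hZ'.1⟩
  have c2 : ∀ Y ∈ d, (∀ Z ∈ d0, (Y * Zᵀ).trace = 0) → ∀ Y' ∈ d,
      (∀ Z ∈ d0, (Y' * Zᵀ).trace = 0) → Y * Y'ᵀ - Y'ᵀ * Y = 0 := by
    intro Y hY hYo Y' hY' hYo'
    have hW : Y * Y'ᵀ - Y'ᵀ * Y ∈ d0 := by
      rw [hd0]
      refine ⟨hdT _ hY _ hY', ?_⟩
      rw [br_transpose, Matrix.transpose_transpose]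
      exact hdT _ hY' _ hY
    apply tr_self_eq_zero
    rw [tr_b]
    rw [← br_transpose (Y * Y'ᵀ - Y'ᵀ * Y) Y', c1 Y' hY' hYo' _ hW]
    simp
  intro Y hY
  obtain ⟨Y1, hY1, hY2⟩ := exists_proj d0 Y
  obtain ⟨E, hE⟩ : ∃ E, E = Y - Y1 := ⟨_, rfl⟩
  rw [← hE] at hY2
  have hEd : E ∈ d := by rw [hE]; exact d.sub_mem hY ((hd0 Y1).1 hY1).1
  have hcomm : ∀ X ∈ P, X * E = E * X := by
    intro X hX
    have hXE : X * E - E * X ∈ d := hP X hX E hEd
    have hXEo : ∀ Z ∈ d0, ((X * E - E * X) * Zᵀ).trace = 0 := by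
      intro Z hZ
      have hZ' := (hd0 Z).1 hZ
      rw [tr_a]
      have h1 : Zᵀ * X - X * Zᵀ = (X * Z - Z * X)ᵀ := by
        rw [br_transpose, hPs X hX]
      rw [h1]
      refine hY2 _ ?_
      rw [hd0]
      refine ⟨hP X hX Z hZ'.1, ?_⟩
      rw [br_transpose, hPs X hX]
      have := d.neg_mem (hP X hX _ hZ'.2)
      rwa [neg_sub] at this
    have h1 : X * E - E * X = 0 := by
      apply tr_self_eq_zero
      rw [tr_b, c2 E hEd hY2 _ hXE hXEo]
      simp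
    exact sub_eq_zero.1 h1
  have hcommT : ∀ X ∈ P, X * Eᵀ = Eᵀ * X := by
    intro X hX
    have h1 := congrArg Matrix.transpose (hcomm X hX)
    rw [Matrix.transpose_mul, Matrix.transpose_mul, hPs X hX] at h1
    exact h1.symm
  have h0 : E + Eᵀ = 0 := by
    refine hflat _ (hsym E hEd) fun X hX => ?_
    rw [add_mul, mul_add, hcomm X hX, hcommT X hX]
  have hET : Eᵀ = -E := eq_neg_of_add_eq_zero_right h0
  have hE0 : E ∈ d0 := by
    rw [hd0, hET]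
    exact ⟨hEd, d.neg_mem hEd⟩
  have hEz : E = 0 := tr_self_eq_zero (hY2 E hE0)
  have : Y = Y1 := by
    rw [hEz] at hE
    exact (sub_eq_zero.1 hE.symm)
  rw [this]
  exact ((hd0 Y1).1 hY1).2

variable (hT : ∀ Y ∈ d, Yᵀ ∈ d)

include hPs hP hd hT in
/-- decomposition of symmetric elements -/
theorem decomp (X : Mat n) (hX : X ∈ P) (hPd : ∀ X1 ∈ d, X1ᵀ = X1 → X - X1 ∈ P) :
    ∃ X1 ∈ d, X1ᵀ = X1 ∧ X - X1 ∈ P ∧ ∀ Y ∈ d, (X - X1) * Y = Y * (X - X1) := by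
  obtain ⟨X1, hX1, ho⟩ := exists_proj d X
  have hs : X1ᵀ = X1 := by
    have h1 : ∀ Y ∈ d, ((X1 - X1ᵀ) * Yᵀ).trace = 0 := by
      intro Y hY
      have h2 := ho Y hY
      have h3 := ho _ (hT Y hY)
      rw [Matrix.transpose_transpose, ← Matrix.trace_transpose, Matrix.transpose_mul,
        Matrix.transpose_sub, hPs X hX, Matrix.trace_mul_comm] at h3
      have h4 : (X1 - X1ᵀ) * Yᵀ = (X - X1ᵀ) * Yᵀ - (X - X1) * Yᵀ := by
        rw [← sub_mul]
        congr 1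
        abel
      rw [h4, Matrix.trace_sub, h3, h2, sub_zero]
    have h5 : X1 - X1ᵀ = 0 := tr_self_eq_zero (h1 _ (d.sub_mem hX1 (hT _ hX1)))
    exact (sub_eq_zero.1 h5).symm
  refine ⟨X1, hX1, hs, hPd X1 hX1 hs, fun Y hY => ?_⟩
  obtain ⟨X2, hX2⟩ : ∃ X2, X2 = X - X1 := ⟨_, rfl⟩
  have hX2P : X2 ∈ P := by rw [hX2]; exact hPd X1 hX1 hs
  rw [← hX2] at ho ⊢
  have h1 : X2 * Y - Y * X2 = 0 := by
    apply tr_self_eq_zero
    rw [tr_b]
    have h2 := hP X2 hX2P Y hY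
    have h3 := hT _ h2
    have h4 := ho _ (hT _ (hd Y hY _ h3))
    rwa [Matrix.transpose_transpose] at h4
  exact sub_eq_zero.1 h1

include hPs hP hd hsym hflat hT in
/-- The Lie algebra is perfect. -/
theorem perfect (hPd : ∀ X ∈ P, ∀ X1 ∈ d, X1ᵀ = X1 → X - X1 ∈ P)
    (heff : ∀ Y ∈ d, Yᵀ = -Y → (∀ X ∈ P, X * Y = Y * X) → Y = 0) :
    ∀ X ∈ d, X ∈ Submodule.span ℝ {Z | ∃ X ∈ d, ∃ Y ∈ d, Z = X * Y - Y * X} := by
  intro Y hY
  obtain ⟨W, hW⟩ : ∃ W, W = Submodule.span ℝ {Z | ∃ X ∈ d, ∃ Y ∈ d, Z = X * Y - Y * X} :=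
    ⟨_, rfl⟩
  rw [← hW]
  have hWd : W ≤ d := by
    rw [hW, Submodule.span_le]
    rintro _ ⟨A, hA, B, hB, rfl⟩
    exact hd A hA B hB
  have hbr : ∀ A ∈ d, ∀ B ∈ d, A * B - B * A ∈ W := by
    intro A hA B hB
    rw [hW]
    exact Submodule.subset_span ⟨A, hA, B, hB, rfl⟩
  obtain ⟨Y1, hY1, ho⟩ := exists_proj W Y
  obtain ⟨E, hE⟩ : ∃ E, E = Y - Y1 := ⟨_, rfl⟩
  rw [← hE] at ho
  have hEd : E ∈ d := by rw [hE]; exact d.sub_mem hY (hWd hY1)
  have hcd : ∀ Z ∈ d, Z * E = E * Z := by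
    intro Z hZ
    have h1 : Z * E - E * Z = 0 := by
      apply tr_self_eq_zero
      rw [tr_a]
      rw [br_tr2]
      exact ho _ (hbr _ (hT Z hZ) _ (hd Z hZ E hEd))
    exact sub_eq_zero.1 h1
  have hcdT : ∀ Z ∈ d, Z * Eᵀ = Eᵀ * Z := by
    intro Z hZ
    have h1 := congrArg Matrix.transpose (hcd _ (hT Z hZ))
    rw [Matrix.transpose_mul, Matrix.transpose_mul, Matrix.transpose_transpose] at h1
    exact h1.symm
  -- commuting with `d` implies commuting with `P` for elements of `d`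
  have hdP : ∀ F ∈ d, (∀ Z ∈ d, Z * F = F * Z) → ∀ X ∈ P, X * F = F * X := by
    intro F hF hc X hX
    obtain ⟨X1, hX1, -, -, h2⟩ := decomp d P hPs hP hd hT X hX (hPd X hX)
    have h3 := h2 F hF
    have h4 := hc X1 hX1
    rw [sub_mul, mul_sub, h4] at h3
    exact sub_left_inj.1 h3
  have h0 : E + Eᵀ = 0 := by
    refine hflat _ (hsym E hEd) fun X hX => ?_
    rw [add_mul, mul_add, hdP E hEd hcd X hX, hdP _ (hT E hEd) hcdT X hX]
  have hET : Eᵀ = -E := eq_neg_of_add_eq_zero_right h0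
  have hEz : E = 0 := heff E hEd hET (hdP E hEd hcd)
  have : Y = Y1 := by
    rw [hEz] at hE
    exact (sub_eq_zero.1 hE.symm)
  rw [this]
  exact hY1

end main

end Pool.Agent.E8helper46.FL
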