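import Pool.Agent.E8helper46.FL.Raag

/-!
# Branches at the vertices of the Cayley graph of a free product

For a disconnected graph `L` every vertex of the Cayley graph of the right-angled Artin group is a
cut vertex.  Hence the space of vertices has at least three ends.
-/

set_option autoImplicit false

namespace Pool.Agent.E8helper46.FL

open Set Monoid

universe u

/-- A metric space with at least three deep complementary components at every scale. -/
def ThreeEnds (Y : Type*) [MetricSpace Y] : Prop :=
  ∀ D : ℝ, ∃ (B : Set Y) (cls : Y → Fin 3), B.Finite ∧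
    (∀ x y, x ∉ B → y ∉ B → dist x y ≤ D → cls x = cls y) ∧
    ∀ (i : Fin 3) (r : ℝ), ∃ y, ∀ z, dist z y ≤ r → z ∉ B ∧ cls z = i

section word

variable {ι : Type*} {M : ι → Type*} [∀ i, Group (M i)] [DecidableEq ι] [∀ i, DecidableEq (M i)]

/-- the index of the last letter of a word -/
def lastIdx (w : CoprodI.Word M) : Option ι := w.toList.getLast?.map Sigma.fst

theorem lastIdx_cases (i : ι) (w : CoprodI.Word M) (m : M i) :
    lastIdx (CoprodI.of m • w) = none ∨ lastIdx (CoprodI.of m • w) = lastIdx w ∨
      (lastIdx w = none ∧ lastIdx (CoprodI.of m • w) = some i) := by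
  have hrc : ∀ p : CoprodI.Word.Pair M i, (CoprodI.Word.rcons p).toList =
      if p.head = 1 then p.tail.toList else ⟨i, p.head⟩ :: p.tail.toList := by
    intro p
    by_cases h : p.head = 1
    · rw [CoprodI.Word.rcons, dif_pos h, if_pos h]
    · rw [CoprodI.Word.rcons, dif_neg h, if_neg h]
      rfl
  obtain ⟨p, hp⟩ : ∃ p, p = CoprodI.Word.equivPair i w := ⟨_, rfl⟩
  have hw : w = CoprodI.Word.rcons p := by
    rw [hp, ← CoprodI.Word.equivPair_symm, Equiv.symm_apply_apply]
  have hw' : CoprodI.of m • w = CoprodI.Word.rcons { p with head := m * p.head } := by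
    rw [CoprodI.Word.of_smul_def, ← hp]
  have e1 := hrc p
  have e2 := hrc { p with head := m * p.head }
  rw [← hw] at e1
  rw [← hw'] at e2
  simp only at e2
  unfold lastIdx
  rw [e1, e2]
  cases htl : p.tail.toList with
  | nil =>
    split_ifs <;> simp
  | cons a t =>
    split_ifs <;> simp

theorem lastIdx_eq_none (w : CoprodI.Word M) : lastIdx w = none ↔ w = CoprodI.Word.empty := by
  unfold lastIdx
  rw [Option.map_eq_none_iff, List.getLast?_eq_none_iff]
  constructor
  · intro h
    exact CoprodI.Word.ext h
  · rintro rfl
    rfl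

end word

section branch

variable {V : Type u} (L : SimpleGraph V) (side : V → Bool)
  (hside : ∀ a b, L.Adj a b → side a = side b)

/-- the homomorphism to the free product of two copies of the group -/
def split : Raag L →* CoprodI (fun _ : Bool => Raag L) :=
  PresentedGroup.toGroup (f := fun v => CoprodI.of (i := side v) (gen L v)) (by
    rintro _ ⟨a, b, hab, rfl⟩
    have h : ∀ i j, i = j → ∀ x y : Raag L, x * y * x⁻¹ * y⁻¹ = 1 →
        (CoprodI.of (M := fun _ : Bool => Raag L) (i := i) x) *
        (CoprodI.of (M := fun _ : Bool => Raag L) (i := j) y) *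
        (CoprodI.of (M := fun _ : Bool => Raag L) (i := i) x)⁻¹ *
        (CoprodI.of (M := fun _ : Bool => Raag L) (i := j) y)⁻¹ = 1 := by
      rintro i _ rfl x y hxy
      rw [← map_mul, ← map_inv, ← map_inv, ← map_mul, ← map_mul, hxy, map_one]
    have h2 := h _ _ (hside a b hab) (gen L a) (gen L b)
      (PresentedGroup.one_of_mem (rels := raagRels L) ⟨a, b, hab, rfl⟩)
    simpa using h2)

theorem split_gen (v : V) :
    split L side hside (gen L v) = CoprodI.of (i := side v) (gen L v) :=
  PresentedGroup.toGroup.of _

theorem split_left_inv (g : Raag L) :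
    CoprodI.lift (fun _ : Bool => MonoidHom.id (Raag L)) (split L side hside g) = g := by
  have h : (CoprodI.lift (fun _ : Bool => MonoidHom.id (Raag L))).comp (split L side hside) =
      MonoidHom.id _ := by
    refine PresentedGroup.ext fun v => ?_
    show CoprodI.lift (fun _ : Bool => MonoidHom.id (Raag L)) (split L side hside (gen L v)) =
      gen L v
    rw [split_gen, CoprodI.lift_of]
    rfl
  exact DFunLike.congr_fun h g

theorem split_injective : Function.Injective (split L side hside) := by
  intro g h hgh
  rw [← split_left_inv L side hside g, hgh, split_left_inv]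

open Classical in
/-- the branch at the vertex `1` in which a vertex lies -/
noncomputable def branch (g : Raag L) : Option Bool :=
  lastIdx (CoprodI.Word.equiv (split L side hside g)⁻¹)

theorem branch_eq_none (g : Raag L) : branch L side hside g = none ↔ g = 1 := by
  classical
  unfold branch
  rw [lastIdx_eq_none]
  have h0 : (CoprodI.Word.empty : CoprodI.Word fun _ : Bool => Raag L) = CoprodI.Word.equiv 1 :=
    (one_smul (CoprodI fun _ : Bool => Raag L)
      (CoprodI.Word.empty : CoprodI.Word fun _ : Bool => Raag L)).symm
  rw [h0, Equiv.apply_eq_iff_eq, inv_eq_one, ← map_one (split L side hside)]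
  exact (split_injective L side hside).eq_iff

theorem branch_mul (g x : Raag L) (i : Bool) (y : Raag L)
    (hx : split L side hside x = CoprodI.of (i := i) y) :
    branch L side hside (g * x) = none ∨ branch L side hside (g * x) = branch L side hside g ∨
      (branch L side hside g = none ∧ branch L side hside (g * x) = some i) := by
  classical
  have h1 : CoprodI.Word.equiv (split L side hside (g * x))⁻¹ =
      CoprodI.of (M := fun _ : Bool => Raag L) (i := i) y⁻¹ •
        CoprodI.Word.equiv (split L side hside g)⁻¹ := by
    have h3 : ∀ a b : CoprodI fun _ : Bool => Raag L,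
        CoprodI.Word.equiv (a * b) = a • CoprodI.Word.equiv b := fun a b =>
      mul_smul a b (CoprodI.Word.empty : CoprodI.Word fun _ : Bool => Raag L)
    rw [map_mul, mul_inv_rev, hx, ← map_inv]
    exact h3 _ _
  have h2 := lastIdx_cases i (CoprodI.Word.equiv (split L side hside g)⁻¹) y⁻¹
  unfold branch
  rw [h1]
  exact h2

theorem branch_adj {g h : Raag L} (hgh : (cayley L).Adj g h) (hg : g ≠ 1) (hh : h ≠ 1) :
    branch L side hside g = branch L side hside h := by
  have hg' := fun h => hg ((branch_eq_none L side hside g).1 h)
  have hh' := fun h' => hh ((branch_eq_none L side hside h).1 h')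
  obtain ⟨-, v, rfl | rfl⟩ := hgh
  · rcases branch_mul L side hside g _ _ _ (split_gen L side hside v) with h | h | h
    · exact absurd h hh'
    · exact h.symm
    · exact absurd h.1 hg'
  · rcases branch_mul L side hside h _ _ _ (split_gen L side hside v) with h | h | h
    · exact absurd h hg'
    · exact h
    · exact absurd h.1 hh'

theorem branch_gen (v : V) : branch L side hside (gen L v) = some (side v) := by
  have h1 : branch L side hside (1 * gen L v) ≠ none := by
    rw [one_mul, Ne, branch_eq_none]
    exact gen_ne_one L v
  have h2 : branch L side hside 1 = none := (branch_eq_none L side hside 1).2 rfl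
  rcases branch_mul L side hside 1 _ _ _ (split_gen L side hside v) with h | h | h
  · exact absurd h h1
  · exact absurd (h.trans h2) h1
  · rw [one_mul] at h
    exact h.2

/-- branch at `p` -/
theorem branch_walk (p : Raag L) {x y : Raag L} (w : (cayley L).Walk x y)
    (hw : ∀ z ∈ w.support, z ≠ p) :
    branch L side hside (p⁻¹ * x) = branch L side hside (p⁻¹ * y) := by
  induction w with
  | nil => rfl
  | @cons a b c h q ih =>
    rw [SimpleGraph.Walk.support_cons] at hw
    have h1 : ∀ z ∈ q.support, z ≠ p := fun z hz => hw z (List.mem_cons_of_mem _ hz)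
    rw [← ih h1]
    refine branch_adj L side hside (cayley_smul L p⁻¹ h) ?_ ?_
    · intro h2
      refine hw a (by simp) ?_
      rw [inv_mul_eq_one] at h2
      exact h2.symm
    · intro h2
      refine h1 b q.start_mem_support ?_
      rw [inv_mul_eq_one] at h2
      exact h2.symm

/-- points at small distance, not near `p`, are in the same branch at `p` -/
theorem branch_near (p x y : Vert L) (D : ℝ) (hxy : dist x y ≤ D) (hx : D < dist x p) :
    branch L side hside (p.el⁻¹ * x.el) = branch L side hside (p.el⁻¹ * y.el) := by
  classical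
  obtain ⟨w, hw⟩ := walk_of_dist L x y D hxy
  refine branch_walk L side hside p.el w ?_
  rintro z hz rfl
  have h1 := dist_le_walk L x p (w.takeUntil _ hz)
  have h2 : ((w.takeUntil _ hz).length : ℝ) ≤ w.length := by
    exact_mod_cast w.length_takeUntil_le_length hz
  linarith

/-- powers of a generator are in the same branch -/
theorem branch_pow (p a : Raag L) (v : V) (n : ℕ)
    (h : ∀ k ≤ n, p ≠ a * gen L v ^ k) :
    branch L side hside (p⁻¹ * (a * gen L v ^ n)) = branch L side hside (p⁻¹ * a) := by
  induction n with
  | zero => rw [pow_zero, mul_one]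
  | succ n ih =>
    rw [← ih fun k hk => h k (Nat.le_succ_of_le hk)]
    symm
    refine branch_adj L side hside (cayley_smul L p⁻¹ ?_) ?_ ?_
    · refine ⟨?_, v, Or.inl ?_⟩
      · intro h1
        have h2 := mul_left_cancel h1
        rw [pow_succ] at h2
        exact gen_ne_one L v (by simpa using h2.symm)
      · rw [pow_succ, mul_assoc]
    · rw [Ne, inv_mul_eq_one]
      exact h n (Nat.le_succ n)
    · rw [Ne, inv_mul_eq_one]
      exact h (n + 1) le_rfl

theorem branch_base (p g : Raag L) (v : V) (n : ℕ) (hp : p = 1) (hg : g = gen L v) (w : V) :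
    branch L side hside (p⁻¹ * (g * gen L w ^ n)) = some (side v) := by
  subst hp hg
  rw [branch_pow, inv_one, one_mul, branch_gen]
  intro k _ h
  have h1 := congrArg (fun g => (chi L g).toAdd) h
  simp only [map_one, map_mul, map_pow, chi_gen, toAdd_one, toAdd_mul, toAdd_pow,
    toAdd_ofAdd] at h1
  simp at h1
  omega

include hside in
theorem threeEnds_of_side [Finite V] (a b : V) (ha : side a = false) (hb : side b = true) :
    ThreeEnds (Vert L) := by
  classical
  intro D
  obtain ⟨o, ho⟩ : ∃ o : Vert L, o = ⟨1⟩ := ⟨_, rfl⟩
  obtain ⟨pa, hpa⟩ : ∃ pa : Vert L, pa = ⟨gen L a⟩ := ⟨_, rfl⟩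
  obtain ⟨cls, hcls⟩ : ∃ cls : Vert L → Fin 3, cls = fun z =>
      if branch L side hside (o.el⁻¹ * z.el) = some true then 0 else
      if branch L side hside (pa.el⁻¹ * z.el) = some true then 1 else 2 := ⟨_, rfl⟩
  refine ⟨{z | dist z o ≤ D} ∪ {z | dist z pa ≤ D}, cls,
    (vert_ball L o D).union (vert_ball L pa D), ?_, ?_⟩
  · intro x y hx hy hxy
    have h1 := branch_near L side hside o x y D hxy (by
      by_contra h; exact hx (Or.inl (not_lt.1 h)))
    have h2 := branch_near L side hside pa x y D hxy (by
      by_contra h; exact hx (Or.inr (not_lt.1 h)))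
    rw [hcls]
    simp only [h1, h2]
  · -- deep points
    have key : ∀ (i : Fin 3) (r : ℝ) (n : ℕ) (y : Vert L), cls y = i →
        (chi L y.el).toAdd = n + 2 → 2 * |r| + max D 0 < n → ∀ z, dist z y ≤ r →
        z ∉ ({z | dist z o ≤ D} ∪ {z | dist z pa ≤ D} : Set (Vert L)) ∧ cls z = i := by
      intro i r n y hy hn hr z hz
      have h1 := (abs_le.1 ((chi_dist L z y).trans hz)).1
      rw [hn] at h1
      push_cast at h1
      have h2 := (le_abs_self _).trans (chi_dist L z o)
      have h3 := (le_abs_self _).trans (chi_dist L z pa)
      have e1 : (chi L o.el).toAdd = 0 := by rw [ho, map_one]; rfl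
      have e2 : (chi L pa.el).toAdd = 1 := by rw [hpa, chi_gen]; rfl
      rw [e1] at h2
      rw [e2] at h3
      push_cast at h2 h3
      have hD0 := le_max_right D 0
      have hr1 := le_abs_self r
      have hr2 := abs_nonneg r
      have hD := le_max_left D 0
      have h4 : D < dist z o := by linarith
      have h5 : D < dist z pa := by linarith
      refine ⟨?_, ?_⟩
      · rintro (h | h)
        · exact absurd h (not_le.2 h4)
        · exact absurd h (not_le.2 h5)
      · have h6 := branch_near L side hside o z y r hz (by linarith)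
        have h7 := branch_near L side hside pa z y r hz (by linarith)
        rw [← hy, hcls]
        simp only [h6, h7]
    intro i r
    obtain ⟨n, hn⟩ := exists_nat_gt (2 * |r| + max D 0)
    have hoe : o.el = 1 := by rw [ho]
    have hpae : pa.el = gen L a := by rw [hpa]
    have hchi : ∀ v w : V, (chi L (gen L v * gen L w ^ (n + 1))).toAdd = n + 2 := by
      intro v w
      rw [map_mul, map_pow, chi_gen, chi_gen, toAdd_mul, toAdd_pow, toAdd_ofAdd]
      push_cast
      simp
      ring
    have hcan : ∀ w : V, pa.el⁻¹ * (gen L a * gen L w ^ (n + 1)) =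
        o.el⁻¹ * (gen L w * gen L w ^ n) := by
      intro w
      rw [hoe, hpae, inv_mul_cancel_left, inv_one, one_mul, pow_succ']
    fin_cases i
    · refine ⟨⟨gen L b * gen L b ^ (n + 1)⟩, key _ r n _ ?_ (hchi b b) hn⟩
      rw [hcls]
      simp only [branch_base L side hside o.el _ b (n + 1) hoe rfl b, hb, if_true]
      rfl
    · refine ⟨⟨gen L a * gen L b ^ (n + 1)⟩, key _ r n _ ?_ (hchi a b) hn⟩
      rw [hcls]
      simp only [branch_base L side hside o.el _ a (n + 1) hoe rfl b, hcan b,
        branch_base L side hside o.el _ b n hoe rfl b, hb, ha, if_true]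
      simp
    · refine ⟨⟨gen L a * gen L a ^ (n + 1)⟩, key _ r n _ ?_ (hchi a a) hn⟩
      rw [hcls]
      simp only [branch_base L side hside o.el _ a (n + 1) hoe rfl a, hcan a,
        branch_base L side hside o.el _ a n hoe rfl a, ha]
      simp

end branch

/-- **The vertex set has at least three ends if the graph is not connected.** -/
theorem threeEnds_vert {V : Type u} [Finite V] (L : SimpleGraph V) (hL : ¬ L.Preconnected) :
    ThreeEnds (Vert L) := by
  classical
  unfold SimpleGraph.Preconnected at hL
  push Not at hL
  obtain ⟨a, b, hab⟩ := hL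
  refine threeEnds_of_side L (fun v => decide (¬ L.Reachable a v)) ?_ a b ?_ ?_
  · intro u v huv
    have : L.Reachable a u ↔ L.Reachable a v :=
      ⟨fun h => h.trans huv.reachable, fun h => h.trans huv.symm.reachable⟩
    simp [this]
  · simp
  · simpa using hab

end Pool.Agent.E8helper46.FL
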