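import Mathlib

/-!
# Affine functions on CAT(0) symmetric spaces

`HasCN`: the inequality of Bruhat and Tits.  A continuous function on a proper CAT(0) symmetric
space which is changed by a constant under all transvections is changed by a nonzero constant under
an isometry that commutes with all isometries which change the function by a constant, unless the
function is constant.
-/

set_option autoImplicit false

namespace Pool.Agent.E8helper46.FL

/-- The inequality of Bruhat and Tits: any two points `x`, `y` have a point `m` such that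
`d(z, m)² ≤ (d(z, x)² + d(z, y)²) / 2 - d(x, y)² / 4` for all `z`. A complete metric space is CAT(0)
if and only if it satisfies this. -/
def HasCN (M : Type*) [MetricSpace M] : Prop :=
  ∀ x y : M, ∃ m : M, ∀ z : M,
    dist z m ^ 2 ≤ (dist z x ^ 2 + dist z y ^ 2) / 2 - dist x y ^ 2 / 4

/-- `p` is the midpoint of `x` and `y` -/
def IsMid {M : Type*} [MetricSpace M] (p x y : M) : Prop :=
  dist x p = dist x y / 2 ∧ dist y p = dist x y / 2

/-- The isometry `s` is the point reflection (geodesic symmetry) at `p`: for every `x`, `s x` is the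
unique point `y` such that `p` is the midpoint of `x` and `y`. -/
def IsReflection {M : Type*} [MetricSpace M] (s : M ≃ᵢ M) (p : M) : Prop :=
  ∀ x y : M, s x = y ↔ IsMid p x y

section

variable {M : Type*} [MetricSpace M]

theorem IsMid.symm {p x y : M} (h : IsMid p x y) : IsMid p y x := by
  refine ⟨?_, ?_⟩
  · rw [h.2, dist_comm y x]
  · rw [h.1, dist_comm y x]

theorem IsMid.map {p x y : M} (h : IsMid p x y) (g : M ≃ᵢ M) : IsMid (g p) (g x) (g y) := by
  refine ⟨?_, ?_⟩
  · rw [g.isometry.dist_eq, g.isometry.dist_eq, h.1]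
  · rw [g.isometry.dist_eq, g.isometry.dist_eq, h.2]

theorem isMid_self (p : M) : IsMid p p p := by
  refine ⟨by simp, by simp⟩

/-- the point of the CN inequality is a midpoint -/
theorem exists_mid (h : HasCN M) (x y : M) : ∃ m, IsMid m x y ∧
    ∀ z : M, dist z m ^ 2 ≤ (dist z x ^ 2 + dist z y ^ 2) / 2 - dist x y ^ 2 / 4 := by
  obtain ⟨m, hm⟩ := h x y
  refine ⟨m, ?_, hm⟩
  have h1 := hm x
  have h2 := hm y
  rw [dist_self] at h1 h2
  rw [dist_comm y x] at h2
  have h3 : dist x m ≤ dist x y / 2 := by
    apply le_of_sq_le_sq₀ _ (by positivity)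
    nlinarith
  have h4 : dist y m ≤ dist x y / 2 := by
    apply le_of_sq_le_sq₀ _ (by positivity)
    nlinarith
  have h5 := dist_triangle x m y
  rw [dist_comm m y] at h5
  exact ⟨by linarith, by linarith⟩
where
  le_of_sq_le_sq₀ {a b : ℝ} (h : a ^ 2 ≤ b ^ 2) (hb : 0 ≤ b) : a ≤ b := by
    nlinarith [abs_le_of_sq_le_sq h hb, le_abs_self a]

theorem cn_of_mid (h : HasCN M) {m x y : M} (hm : IsMid m x y) (z : M) :
    dist z m ^ 2 ≤ (dist z x ^ 2 + dist z y ^ 2) / 2 - dist x y ^ 2 / 4 := by
  obtain ⟨m', hm', hcn⟩ := exists_mid h x y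
  have h1 := hcn m
  rw [dist_comm m x, dist_comm m y, hm.1, hm.2] at h1
  have h2 : dist m m' = 0 := by
    have : dist m m' ^ 2 ≤ 0 := by nlinarith
    have h3 : (0 : ℝ) ≤ dist m m' := dist_nonneg
    nlinarith [sq_nonneg (dist m m')]
  rw [dist_eq_zero] at h2
  rw [h2]
  exact hcn z

theorem mid_unique (h : HasCN M) {m m' x y : M} (hm : IsMid m x y) (hm' : IsMid m' x y) :
    m = m' := by
  have h1 := cn_of_mid h hm' m
  rw [dist_comm m x, dist_comm m y, hm.1, hm.2] at h1
  have h3 : (0 : ℝ) ≤ dist m m' := dist_nonneg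
  have : dist m m' ^ 2 ≤ 0 := by nlinarith
  have h2 : dist m m' = 0 := by nlinarith [sq_nonneg (dist m m')]
  exact dist_eq_zero.1 h2

/-- convexity of the distance to a point -/
theorem dist_mid_le (h : HasCN M) {m x y : M} (hm : IsMid m x y) (z : M) :
    dist z m ≤ (dist z x + dist z y) / 2 := by
  have h1 := cn_of_mid h hm z
  have h2 : |dist z x - dist z y| ≤ dist x y := by
    rw [abs_le]
    constructor
    · linarith [dist_triangle z x y]
    · have := dist_triangle z y x
      rw [dist_comm y x] at this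
      linarith
  have h3 : (dist z x - dist z y) ^ 2 ≤ dist x y ^ 2 := by
    rw [← sq_abs (dist z x - dist z y)]
    exact pow_le_pow_left₀ (abs_nonneg _) h2 2
  have h4 : dist z m ^ 2 ≤ ((dist z x + dist z y) / 2) ^ 2 := by nlinarith
  have h5 : 0 ≤ (dist z x + dist z y) / 2 := by positivity
  have := abs_le_of_sq_le_sq h4 h5
  exact (le_abs_self _).trans this

/-- the distances along a chain of midpoints add up -/
theorem chain_dist (h : HasCN M) (x : ℕ → M) (hx : ∀ k, IsMid (x (k + 1)) (x k) (x (k + 2))) :
    ∀ n : ℕ, (n : ℝ) * dist (x 0) (x 1) ≤ dist (x 0) (x n) := by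
  have key : ∀ n : ℕ, dist (x 0) (x 1) ≤ dist (x 0) (x (n + 1)) - dist (x 0) (x n) := by
    intro n
    induction n with
    | zero => simp
    | succ n ih =>
      have := dist_mid_le h (hx n) (x 0)
      linarith
  intro n
  induction n with
  | zero => simp
  | succ n ih =>
    have := key n
    push_cast
    linarith

theorem IsReflection.mid {s : M ≃ᵢ M} {p : M} (hs : IsReflection s p) (x : M) :
    IsMid p x (s x) := (hs x (s x)).1 rfl

theorem IsReflection.apply_self {s : M ≃ᵢ M} {p : M} (hs : IsReflection s p) : s p = p :=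
  (hs p p).2 (isMid_self p)

theorem IsReflection.invol {s : M ≃ᵢ M} {p : M} (hs : IsReflection s p) (x : M) : s (s x) = x :=
  (hs (s x) x).2 (hs.mid x).symm

end

section affine

variable {M : Type*} [MetricSpace M]

/-- `F` is changed by a constant under `g` -/
def Shifts (F : M → ℝ) (g : M ≃ᵢ M) : Prop := ∀ x y, F (g x) - F x = F (g y) - F y

/-- `F` is changed by a constant under all transvections -/
def TShift (F : M → ℝ) : Prop := ∀ (p q : M) (s t : M ≃ᵢ M), IsReflection s p → IsReflection t q →
  Shifts F (t.trans s)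

variable (hCN : HasCN M) (hR : ∀ p : M, ∃ s : M ≃ᵢ M, IsReflection s p) {F : M → ℝ}
  (hF : TShift F)

include hCN hR hF in
theorem affine {p x y : M} (h : IsMid p x y) : F p = (F x + F y) / 2 := by
  obtain ⟨n, hn, -⟩ := exists_mid hCN x p
  obtain ⟨s, hs⟩ := hR p
  obtain ⟨t, ht⟩ := hR n
  have h1 := hF p n s t hs ht x p
  have e1 : t x = p := (ht x p).2 hn
  have e2 : t p = x := (ht p x).2 hn.symm
  have e3 : s x = y := (hs x y).2 h
  simp only [IsometryEquiv.trans_apply] at h1
  rw [e1, e2, e3, hs.apply_self] at h1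
  linarith

/-- transvections act transitively -/
theorem exists_transv (hCN : HasCN M) (hR : ∀ p : M, ∃ s : M ≃ᵢ M, IsReflection s p) (x y : M) :
    ∃ (p q : M) (s t : M ≃ᵢ M), IsReflection s p ∧ IsReflection t q ∧ (t.trans s) x = y ∧
      IsMid p x y ∧ q = x := by
  obtain ⟨m, hm, -⟩ := exists_mid hCN x y
  obtain ⟨s, hs⟩ := hR m
  obtain ⟨t, ht⟩ := hR x
  refine ⟨m, x, s, t, hs, ht, ?_, hm, rfl⟩
  simp only [IsometryEquiv.trans_apply]
  rw [ht.apply_self]
  exact (hs x y).2 hm

include hCN hR hF in
theorem scale_up : ∀ (n : ℕ) (x y : M), x ≠ y → 1 ≤ 2 ^ n * dist x y → dist x y ≤ 2 →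
    ∃ y', 1 ≤ dist x y' ∧ dist x y' ≤ 2 ∧ (F y' - F x) * dist x y = (F y - F x) * dist x y' := by
  intro n
  induction n with
  | zero =>
    intro x y _ h1 h2
    exact ⟨y, by simpa using h1, h2, rfl⟩
  | succ n ih =>
    intro x y hxy h1 h2
    by_cases h3 : 1 ≤ dist x y
    · exact ⟨y, h3, h2, rfl⟩
    · push Not at h3
      obtain ⟨s, hs⟩ := hR y
      have hm := hs.mid x
      have e1 : dist x (s x) = 2 * dist x y := by
        have := hm.1
        linarith
      have hpos : 0 < dist x y := dist_pos.2 hxy
      have h4 : x ≠ s x := by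
        intro h
        rw [← h, dist_self] at e1
        linarith
      obtain ⟨y', a1, a2, a3⟩ := ih x (s x) h4 (by rw [e1]; rw [pow_succ] at h1; linarith)
        (by rw [e1]; linarith)
      refine ⟨y', a1, a2, ?_⟩
      have h5 := affine hCN hR hF hm
      have h6 : F (s x) - F x = 2 * (F y - F x) := by linarith
      rw [e1, h6] at a3
      have : 2 * ((F y' - F x) * dist x y) = 2 * ((F y - F x) * dist x y') := by
        linarith
      linarith

include hCN hR hF in
theorem scale_down : ∀ (n : ℕ) (x y : M), x ≠ y → dist x y ≤ 2 ^ n * 2 →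
    ∃ y', 1 ≤ dist x y' ∧ dist x y' ≤ 2 ∧ (F y' - F x) * dist x y = (F y - F x) * dist x y' := by
  intro n
  induction n with
  | zero =>
    intro x y hxy h1
    have hpos : 0 < dist x y := dist_pos.2 hxy
    obtain ⟨k, hk⟩ := pow_unbounded_of_one_lt (1 / dist x y) (by norm_num : (1 : ℝ) < 2)
    refine scale_up hCN hR hF k x y hxy ?_ (by simpa using h1)
    rw [div_lt_iff₀ hpos] at hk
    exact hk.le
  | succ n ih =>
    intro x y hxy h1
    obtain ⟨m, hm, -⟩ := exists_mid hCN x y
    have hpos : 0 < dist x y := dist_pos.2 hxy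
    have e1 : dist x y = 2 * dist x m := by
      have := hm.1
      linarith
    have h4 : x ≠ m := by
      intro h
      rw [← h, dist_self] at e1
      linarith
    obtain ⟨y', a1, a2, a3⟩ := ih x m h4 (by rw [pow_succ] at h1; linarith)
    refine ⟨y', a1, a2, ?_⟩
    have h5 := affine hCN hR hF hm
    have h6 : F y - F x = 2 * (F m - F x) := by linarith
    rw [e1, h6]
    linarith

include hCN hR hF in
theorem scale (x y : M) (hxy : x ≠ y) :
    ∃ y', 1 ≤ dist x y' ∧ dist x y' ≤ 2 ∧ (F y' - F x) * dist x y = (F y - F x) * dist x y' := by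
  obtain ⟨n, hn⟩ := pow_unbounded_of_one_lt (dist x y) (by norm_num : (1 : ℝ) < 2)
  have h0 : (0 : ℝ) < 2 ^ n := by positivity
  exact scale_down hCN hR hF n x y hxy (by linarith)

include hCN hR hF in
/-- the maximal slope is attained everywhere -/
theorem max_slope [ProperSpace M] (hFc : Continuous F) {a b : M} (hab : F a ≠ F b) :
    ∃ C t : ℝ, 0 < C ∧ 0 < t ∧ (∀ x y, F y - F x ≤ C * dist x y) ∧
      ∀ x, ∃ y, dist x y = t ∧ F y - F x = C * t := by
  wlog hlt : F a < F b generalizing a b
  · exact this hab.symm (lt_of_le_of_ne (not_lt.1 hlt) hab.symm)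
  have hne : a ≠ b := fun h => by rw [h] at hlt; exact lt_irrefl _ hlt
  have hK : IsCompact {y : M | 1 ≤ dist a y ∧ dist a y ≤ 2} := by
    have h1 : {y : M | 1 ≤ dist a y ∧ dist a y ≤ 2} ⊆ Metric.closedBall a 2 := by
      intro y hy
      rw [Metric.mem_closedBall, dist_comm]
      exact hy.2
    refine IsCompact.of_isClosed_subset (isCompact_closedBall a 2) ?_ h1
    exact (isClosed_le continuous_const (continuous_const.dist continuous_id)).inter
      (isClosed_le (continuous_const.dist continuous_id) continuous_const)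
  obtain ⟨b', hb1, hb2, hb3⟩ := scale hCN hR hF a b hne
  have hcont : ContinuousOn (fun y => (F y - F a) / dist a y)
      {y : M | 1 ≤ dist a y ∧ dist a y ≤ 2} := by
    refine ContinuousOn.div ?_ ?_ ?_
    · exact (hFc.sub continuous_const).continuousOn
    · exact (continuous_const.dist continuous_id).continuousOn
    · intro y hy h0
      have := hy.1
      rw [h0] at this
      linarith
  obtain ⟨y0, hy0, hmax⟩ := hK.exists_isMaxOn ⟨b', hb1, hb2⟩ hcont
  rw [isMaxOn_iff] at hmax
  have ht : 0 < dist a y0 := by linarith [hy0.1]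
  have hbp : 0 < dist a b := dist_pos.2 hne
  have hCpos : 0 < (F y0 - F a) / dist a y0 := by
    refine lt_of_lt_of_le ?_ (hmax b' ⟨hb1, hb2⟩)
    apply div_pos _ (by linarith)
    have h1 : 0 < (F b - F a) * dist a b' := mul_pos (by linarith) (by linarith)
    rw [← hb3] at h1
    exact pos_of_mul_pos_left h1 hbp.le
  have hLa : ∀ y, F y - F a ≤ (F y0 - F a) / dist a y0 * dist a y := by
    intro y
    by_cases hay : a = y
    · subst hay; simp
    · obtain ⟨y', h1, h2, h3⟩ := scale hCN hR hF a y hay
      have h4 := hmax y' ⟨h1, h2⟩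
      have h5 : 0 < dist a y := dist_pos.2 hay
      have h6 : (F y' - F a) / dist a y' = (F y - F a) / dist a y := by
        rw [div_eq_div_iff (by linarith) h5.ne']
        exact h3
      rw [h6, div_le_iff₀ h5] at h4
      exact h4
  refine ⟨(F y0 - F a) / dist a y0, dist a y0, hCpos, ht, ?_, ?_⟩
  · intro x y
    obtain ⟨p, q, s, t, hs, ht', hx, -, -⟩ := exists_transv hCN hR x a
    have h1 := hF p q s t hs ht' x y
    have h2 := hLa ((t.trans s) y)
    rw [hx] at h1
    have h3 : dist a ((t.trans s) y) = dist x y := by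
      rw [← hx]
      exact (t.trans s).isometry.dist_eq x y
    rw [h3] at h2
    linarith
  · intro x
    obtain ⟨p, q, s, t, hs, ht', hx, -, -⟩ := exists_transv hCN hR a x
    refine ⟨(t.trans s) y0, ?_, ?_⟩
    · rw [← hx]
      exact (t.trans s).isometry.dist_eq a y0
    · have h1 := hF p q s t hs ht' a y0
      rw [hx] at h1
      rw [div_mul_cancel₀ _ ht.ne']
      linarith

include hCN hR in
/-- a map which commutes with all transvections does not decrease distances -/
theorem expand (S : M → M) (hS : ∀ (p q : M) (s t : M ≃ᵢ M), IsReflection s p → IsReflection t q →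
    ∀ z, S ((t.trans s) z) = (t.trans s) (S z)) (x y : M) : dist x y ≤ dist (S x) (S y) := by
  obtain ⟨p, q, s, t, hs, ht, hx, hmid, rfl⟩ := exists_transv hCN hR x y
  obtain ⟨g, hg⟩ : ∃ g : M ≃ᵢ M, g = t.trans s := ⟨_, rfl⟩
  rw [← hg] at hx
  -- `y` is the midpoint of `x` and `g y`
  have h1 : IsMid y q (g y) := by
    have h2 : IsMid q y (t y) := ht.mid y
    have h3 := h2.map s
    have e1 : s q = y := (hs q y).2 hmid
    have e2 : s y = q := (hs y q).2 hmid.symm
    rw [e1, e2] at h3
    rw [hg]
    exact h3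
  -- the orbit of `x`
  obtain ⟨c, hc⟩ : ∃ c : ℕ → M, c = fun n => (g^[n]) q := ⟨_, rfl⟩
  have hc0 : c 0 = q := by rw [hc]; rfl
  have hc1 : c 1 = y := by rw [hc]; exact hx
  have hcs : ∀ n, c (n + 1) = g (c n) := by
    intro n
    rw [hc]
    exact Function.iterate_succ_apply' g n q
  have hmids : ∀ k, IsMid (c (k + 1)) (c k) (c (k + 2)) := by
    intro k
    induction k with
    | zero =>
      rw [hc0, hc1, show (0 + 2) = 1 + 1 from rfl, hcs 1, hc1]
      exact h1
    | succ k ih =>
      have := ih.map g
      rw [← hcs, ← hcs, ← hcs] at this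
      exact this
  have hdist := chain_dist hCN c hmids
  -- displacement of `g` at any point
  have key : ∀ z : M, dist q y ≤ dist z (g z) := by
    intro z
    have h2 : ∀ n : ℕ, dist ((g^[n]) z) z ≤ n * dist z (g z) := by
      intro n
      induction n with
      | zero => simp
      | succ n ih =>
        rw [Function.iterate_succ_apply']
        have e : dist (g (g^[n] z)) (g z) = dist (g^[n] z) z := g.isometry.dist_eq _ _
        have := dist_triangle (g (g^[n] z)) (g z) z
        rw [dist_comm (g z) z] at this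
        push_cast
        linarith
    have hiso : ∀ n : ℕ, ∀ u v : M, dist ((g^[n]) u) ((g^[n]) v) = dist u v := by
      intro n u v
      induction n with
      | zero => rfl
      | succ n ih =>
        rw [Function.iterate_succ_apply', Function.iterate_succ_apply']
        rw [← ih]
        exact g.isometry.dist_eq _ _
    have h3 : ∀ n : ℕ, (n : ℝ) * dist q y ≤ n * dist z (g z) + 2 * dist q z := by
      intro n
      have h4 := hdist n
      rw [hc0, hc1] at h4
      have h5 : c n = (g^[n]) q := by rw [hc]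
      rw [h5] at h4
      have h6 := dist_triangle q z ((g^[n]) q)
      have h7 := dist_triangle z ((g^[n]) z) ((g^[n]) q)
      rw [hiso n z q, dist_comm z ((g^[n]) z)] at h7
      have h8 := h2 n
      rw [dist_comm z q] at h7
      linarith
    by_contra hlt
    push Not at hlt
    obtain ⟨n, hn⟩ := exists_nat_gt (2 * dist q z / (dist q y - dist z (g z)))
    have h9 : 0 < dist q y - dist z (g z) := by linarith
    rw [div_lt_iff₀ h9] at hn
    have := h3 n
    nlinarith
  have h2 := key (S q)
  have h3 : S (g q) = g (S q) := by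
    rw [hg]
    exact hS p q s t hs ht q
  rw [← h3, hx] at h2
  exact h2

include hCN hR hF in
/-- **The shift.** -/
theorem exists_shift [ProperSpace M] (hFc : Continuous F) {a b : M} (hab : F a ≠ F b) :
    ∃ (T : M ≃ᵢ M) (c : ℝ), 0 < c ∧ (∀ x, F (T x) = F x + c) ∧
      ∀ g : M ≃ᵢ M, Shifts F g → ∀ x, g (T x) = T (g x) := by
  classical
  obtain ⟨C, t, hC, ht, hL, hex⟩ := max_slope hCN hR hF hFc hab
  have huniq : ∀ x y y' : M, dist x y = t → F y - F x = C * t → dist x y' = t →
      F y' - F x = C * t → y = y' := by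
    intro x y y' h1 h2 h3 h4
    obtain ⟨m, hm, hcn⟩ := exists_mid hCN y y'
    have h5 := affine hCN hR hF hm
    have h6 := hL x m
    have h7 : F m - F x = C * t := by linarith
    rw [h7] at h6
    have h8 : t ≤ dist x m := le_of_mul_le_mul_left h6 hC
    have h9 := hcn x
    rw [h1, h3] at h9
    have h10 : dist y y' ^ 2 ≤ 0 := by nlinarith
    have h11 : dist y y' = 0 := by nlinarith [sq_nonneg (dist y y'), (dist_nonneg : 0 ≤ dist y y')]
    exact dist_eq_zero.1 h11
  choose T hT1 hT2 using hex
  -- the inverse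
  have hinv : ∀ y, ∃ x, dist x y = t ∧ F y - F x = C * t := by
    intro y
    obtain ⟨s, hs⟩ := hR y
    have hm := hs.mid (T y)
    refine ⟨s (T y), ?_, ?_⟩
    · have h1 := hm.1
      have h2 := hm.2
      rw [dist_comm (T y) y, hT1] at h1
      linarith
    · have := affine hCN hR hF hm
      have := hT2 y
      linarith
  choose S hS1 hS2 using hinv
  have hTS : ∀ y, T (S y) = y := fun y => huniq (S y) _ _ (hT1 _) (hT2 _) (hS1 _) (hS2 _)
  have hST : ∀ x, S (T x) = x := by
    intro x
    -- both `x` and `S (T x)` are at distance `t` below `T x`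
    obtain ⟨s, hs⟩ := hR (T x)
    have h1 := (hs.mid x)
    have h2 := (hs.mid (S (T x)))
    have e1 : dist (T x) (s x) = t ∧ F (s x) - F (T x) = C * t := by
      have h3 := affine hCN hR hF h1
      have := hT2 x
      have h4 := h1.1
      have h5 := h1.2
      rw [hT1] at h4
      rw [dist_comm] at h5
      exact ⟨by linarith, by linarith⟩
    have e2 : dist (T x) (s (S (T x))) = t ∧ F (s (S (T x))) - F (T x) = C * t := by
      have h3 := affine hCN hR hF h2
      have := hS2 (T x)
      have h4 := h2.1
      have h5 := h2.2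
      rw [hS1] at h4
      rw [dist_comm] at h5
      exact ⟨by linarith, by linarith⟩
    have e3 := huniq (T x) _ _ e1.1 e1.2 e2.1 e2.2
    exact (s.injective e3).symm
  have hcomm : ∀ g : M ≃ᵢ M, Shifts F g → ∀ x, g (T x) = T (g x) := by
    intro g hg x
    refine huniq (g x) _ _ ?_ ?_ (hT1 _) (hT2 _)
    · rw [g.isometry.dist_eq, hT1]
    · have h1 := hg (T x) x
      have h2 := hT2 x
      linarith
  have hcommS : ∀ g : M ≃ᵢ M, Shifts F g → ∀ x, g (S x) = S (g x) := by
    intro g hg x
    have h1 := hcomm g hg (S x)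
    rw [hTS] at h1
    rw [h1, hST]
  have hTe := expand hCN hR T fun p q s t hs ht z => (hcomm _ (hF p q s t hs ht) z).symm
  have hSe := expand hCN hR S fun p q s t hs ht z => (hcommS _ (hF p q s t hs ht) z).symm
  have hiso : Isometry T := by
    refine Isometry.of_dist_eq fun x y => le_antisymm ?_ (hTe x y)
    have := hSe (T x) (T y)
    rwa [hST, hST] at this
  refine ⟨⟨⟨T, S, hST, hTS⟩, hiso⟩, C * t, mul_pos hC ht, ?_, hcomm⟩
  intro x
  have := hT2 x
  show F (T x) = F x + C * t
  linarith

end affine

end Pool.Agent.E8helper46.FL
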