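import Pool.Agent.E8helper46.FL.Ideal

/-!
# The center of the group generated by the exponentials is trivial
-/

set_option autoImplicit false

namespace Pool.Agent.E8helper46.FL

open Set Filter Topology Matrix NormedSpace

open scoped Matrix.Norms.L2Operator

variable {n : ℕ}

section

variable {G : Subgroup (Mat n)ˣ} (hG : IsNoncompactType G) (D : Subgroup (Mat n)ˣ)
  (hD : IsClosed (D : Set (Mat n)ˣ)) (hDG : D ≤ G)
  (hAd : ∀ X ∈ SymPart G, ∀ Z ∈ lieAlg D hD,
    (ex X : Mat n) * Z * ((ex X)⁻¹ : (Mat n)ˣ) ∈ lieAlg D hD)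

theorem commute_nor' {Q : Mat n} (hQ : ∀ Y ∈ lieAlg D hD, Q * Y = Y * Q)
    {g : (Mat n)ˣ} (hg : g ∈ Nor D hD) : Q * (g : Mat n) = (g : Mat n) * Q := by
  unfold Nor at hg
  induction hg using Subgroup.closure_induction with
  | mem x hx =>
    obtain ⟨X, hX, rfl⟩ := hx
    exact (commute_ex (hQ X hX).symm).eq.symm
  | one => rw [Units.val_one, one_mul, mul_one]
  | mul x y _ _ hx hy => rw [Units.val_mul, ← mul_assoc, hx, mul_assoc, hy, mul_assoc]
  | inv x _ hx =>
    calc Q * (x⁻¹ : (Mat n)ˣ) = (x⁻¹ : (Mat n)ˣ) * ((x : Mat n) * Q) * (x⁻¹ : (Mat n)ˣ) := by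
          rw [← mul_assoc, Units.inv_mul, one_mul]
      _ = (x⁻¹ : (Mat n)ˣ) * Q := by
          rw [← hx, mul_assoc, mul_assoc, Units.mul_inv, mul_one]

theorem commute_of_ex {Q X : Mat n}
    (h : ∀ t : ℝ, Q * (ex (t • X) : (Mat n)ˣ) = (ex (t • X) : (Mat n)ˣ) * Q) :
    Q * X = X * Q := by
  have h1 := (ex_deriv X).const_mul Q
  have h2 := (ex_deriv X).mul_const Q
  have h3 : (fun t : ℝ => Q * exp (t • X)) = fun t : ℝ => exp (t • X) * Q := by
    ext1 t
    exact h t
  rw [h3] at h1
  exact h1.unique h2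

theorem central_sym (hperf : ∀ X ∈ lieAlg D hD,
      X ∈ Submodule.span ℝ {Z | ∃ X ∈ lieAlg D hD, ∃ Y ∈ lieAlg D hD, Z = X * Y - Y * X})
    {P : (Mat n)ˣ} (hPN : P ∈ Nor D hD) (hPpos : (P : Mat n).PosDef)
    (hPc : ∀ h ∈ Nor D hD, P * h = h * P) : (P : Mat n) = 1 := by
  by_contra hne
  have H : (P : Mat n).IsHermitian := hPpos.1
  obtain ⟨U, hU⟩ : ∃ U : Mat n, U = (H.eigenvectorUnitary : Mat n) := ⟨_, rfl⟩
  have hUU : star U * U = 1 := by
    rw [hU]
    exact Unitary.coe_star_mul_self H.eigenvectorUnitary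
  have hUU' : U * star U = 1 := by
    rw [hU]
    exact Unitary.coe_mul_star_self H.eigenvectorUnitary
  obtain ⟨l, hl⟩ : ∃ l : Fin n → ℝ, l = H.eigenvalues := ⟨_, rfl⟩
  have hlpos : ∀ i, 0 < l i := by
    intro i
    rw [hl]
    exact hPpos.eigenvalues_pos i
  have hspec : (P : Mat n) = U * diagonal l * star U := by
    have h1 := H.spectral_theorem
    rw [Unitary.conjStarAlgAut_apply, ← hU] at h1
    rw [h1]
    congr 2
    ext i j
    rw [hl]
    rfl
  have hP' : star U * (P : Mat n) * U = diagonal l := by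
    rw [hspec]
    have : star U * (U * diagonal l * star U) * U = (star U * U) * diagonal l * (star U * U) := by
      simp only [mul_assoc]
    rw [this, hUU, one_mul, mul_one]
  obtain ⟨i0, hi0⟩ : ∃ i, l i ≠ 1 := by
    by_contra hcon
    push Not at hcon
    apply hne
    have : diagonal l = 1 := by
      rw [← Matrix.diagonal_one]
      congr 1
      ext i
      exact hcon i
    rw [hspec, this, mul_one, hUU']
  obtain ⟨χ, hχ⟩ : ∃ χ : Fin n → ℝ, χ = fun i => if l i = l i0 then 1 else 0 := ⟨_, rfl⟩
  have hχχ : (diagonal χ : Mat n) * diagonal χ = diagonal χ := by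
    rw [Matrix.diagonal_mul_diagonal]
    congr 1
    ext i
    rw [hχ]
    simp only
    split_ifs <;> simp
  have hcomm : ∀ h ∈ Nor D hD, diagonal χ * (star U * ((h : (Mat n)ˣ) : Mat n) * U) =
      (star U * ((h : (Mat n)ˣ) : Mat n) * U) * diagonal χ := by
    intro h hh
    have h1 : diagonal l * (star U * ((h : (Mat n)ˣ) : Mat n) * U) =
        (star U * ((h : (Mat n)ˣ) : Mat n) * U) * diagonal l := by
      rw [← hP']
      have h2 := congrArg Units.val (hPc h hh)
      rw [Units.val_mul, Units.val_mul] at h2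
      have e1 : star U * (P : Mat n) * U * (star U * (h : Mat n) * U) =
          star U * ((P : Mat n) * (U * star U) * (h : Mat n)) * U := by
        simp only [mul_assoc]
      have e2 : star U * (h : Mat n) * U * (star U * (P : Mat n) * U) =
          star U * ((h : Mat n) * (U * star U) * (P : Mat n)) * U := by
        simp only [mul_assoc]
      rw [e1, e2, hUU', mul_one, mul_one, h2]
    ext i j
    have h3 := congrFun (congrFun h1 i) j
    rw [Matrix.diagonal_mul, Matrix.mul_diagonal] at h3 ⊢
    by_cases hij : l i = l j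
    · rw [hχ]
      simp only [hij]
      ring
    · have h4 : (star U * (h : Mat n) * U) i j = 0 := by
        have h5 : (l i - l j) * (star U * (h : Mat n) * U) i j = 0 := by linarith
        rcases mul_eq_zero.1 h5 with h6 | h6
        · exact absurd (sub_eq_zero.1 h6) hij
        · exact h6
      rw [h4]
      ring
  obtain ⟨B, hB⟩ : ∃ B : Mat n → Mat n, ∀ A, B A =
      diagonal χ * (star U * A * U) + (1 - diagonal χ) := ⟨_, fun _ => rfl⟩
  have hBmul : ∀ a b : Nor D hD, B ((a : (Mat n)ˣ) * (b : (Mat n)ˣ) : (Mat n)ˣ) =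
      B (a : (Mat n)ˣ) * B (b : (Mat n)ˣ) := by
    rintro ⟨a, ha⟩ ⟨b, hb⟩
    rw [hB, hB, hB]
    have h1 := hcomm a ha
    show diagonal χ * (star U * ((a * b : (Mat n)ˣ) : Mat n) * U) + (1 - diagonal χ) =
      (diagonal χ * (star U * (a : Mat n) * U) + (1 - diagonal χ)) *
        (diagonal χ * (star U * (b : Mat n) * U) + (1 - diagonal χ))
    have e1 : star U * ((a * b : (Mat n)ˣ) : Mat n) * U =
        (star U * (a : Mat n) * U) * (star U * (b : Mat n) * U) := by
      have : (star U * (a : Mat n) * U) * (star U * (b : Mat n) * U) =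
          star U * ((a : Mat n) * (U * star U) * (b : Mat n)) * U := by simp only [mul_assoc]
      rw [this, hUU', mul_one, Units.val_mul]
    rw [e1]
    generalize star U * (a : Mat n) * U = x at h1
    generalize star U * (b : Mat n) * U = y
    generalize (diagonal χ : Mat n) = c at h1 hχχ
    have e2 : c * x * (c * y) = c * (x * y) := by
      rw [h1, ← mul_assoc, mul_assoc x c c, hχχ, ← h1, mul_assoc]
    have e3 : c * x * (1 - c) = 0 := by
      rw [h1, mul_assoc, mul_sub, mul_one, hχχ, sub_self, mul_zero]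
    have e4 : (1 - c) * (c * y) = 0 := by
      rw [← mul_assoc, sub_mul, one_mul, hχχ, sub_self, zero_mul]
    have e5 : (1 - c) * (1 - c) = 1 - c := by
      rw [mul_sub, mul_one, sub_mul, one_mul, hχχ, sub_self, sub_zero]
    rw [add_mul, mul_add, mul_add, e2, e3, e4, e5, add_zero, zero_add]
  have hB1 : B 1 = 1 := by
    rw [hB, mul_one, hUU, mul_one, add_sub_cancel]
  have hdet : ∀ a : Nor D hD, (B (a : (Mat n)ˣ)).det ≠ 0 := by
    intro a h0
    have h1 := hBmul a a⁻¹
    rw [Subgroup.coe_inv, mul_inv_cancel, Units.val_one, hB1] at h1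
    have h2 := congrArg Matrix.det h1
    rw [Matrix.det_one, Matrix.det_mul, h0, zero_mul] at h2
    exact one_ne_zero h2
  have hf := hom_nor D hD hperf (Nor D hD) le_rfl
    (fun a => Real.log (B (a : (Mat n)ˣ)).det) (fun a b => by
      show Real.log (B ((a : (Mat n)ˣ) * (b : (Mat n)ˣ) : (Mat n)ˣ)).det = _
      rw [hBmul, Matrix.det_mul, Real.log_mul (hdet a) (hdet b)]) (by
      refine Continuous.log ?_ hdet
      refine Continuous.matrix_det ?_
      have : (fun a : Nor D hD => B (a : (Mat n)ˣ)) = fun a : Nor D hD =>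
          diagonal χ * (star U * ((a : (Mat n)ˣ) : Mat n) * U) + (1 - diagonal χ) := by
        ext1 a
        exact hB _
      rw [this]
      have hc : Continuous fun a : Nor D hD => ((a : (Mat n)ˣ) : Mat n) :=
        Units.continuous_val.comp continuous_subtype_val
      exact (continuous_const.mul ((continuous_const.mul hc).mul continuous_const)).add
        continuous_const) P hPN
  simp only at hf
  have hBP : B (P : Mat n) = diagonal fun i => if l i = l i0 then l i0 else 1 := by
    rw [hB, hP', Matrix.diagonal_mul_diagonal, ← Matrix.diagonal_one, Matrix.diagonal_sub,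
      Matrix.diagonal_add]
    congr 1
    ext i
    rw [hχ]
    simp only
    split_ifs with h
    · rw [h]; ring
    · ring
  rw [hBP, Matrix.det_diagonal, Finset.prod_ite, Finset.prod_const, Finset.prod_const_one,
    mul_one, Real.log_pow] at hf
  rcases mul_eq_zero.1 hf with h | h
  · have h1 : (Finset.univ.filter fun i => l i = l i0).card = 0 := by exact_mod_cast h
    rw [Finset.card_eq_zero, Finset.filter_eq_empty_iff] at h1
    exact h1 (Finset.mem_univ i0) rfl
  · rcases Real.log_eq_zero.1 h with h | h | h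
    · exact (hlpos i0).ne' h
    · exact hi0 h
    · have := hlpos i0
      linarith

include hG hDG hAd in
/-- **The center is trivial.** -/
theorem nor_center {g : (Mat n)ˣ} (hg : g ∈ Nor D hD) (hc : ∀ h ∈ Nor D hD, g * h = h * g) :
    g = 1 := by
  have hperf := lie_perfect hG D hD hDG hAd
  have hct : ∀ h ∈ Nor D hD, tu g * h = h * tu g := by
    intro h hh
    have h1 := congrArg tu (hc (tu h) (nor_tu hG D hD hDG hAd hh))
    rw [tu_mul, tu_mul, tu_tu] at h1
    exact h1.symm
  have hPN : tu g * g ∈ Nor D hD := Subgroup.mul_mem _ (nor_tu hG D hD hDG hAd hg) hg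
  have hPc : ∀ h ∈ Nor D hD, tu g * g * h = h * (tu g * g) := by
    intro h hh
    rw [mul_assoc, hc h hh, ← mul_assoc, hct h hh, mul_assoc]
  have hPpos : ((tu g * g : (Mat n)ˣ) : Mat n).PosDef := by
    rw [Units.val_mul, tu_val]
    have h1 : Function.Injective (g : Mat n).mulVec := by
      intro v w h
      have h2 := congrArg (fun x => (↑g⁻¹ : Mat n).mulVec x) h
      simp only [Matrix.mulVec_mulVec, Units.inv_mul, Matrix.one_mulVec] at h2
      exact h2
    have := Matrix.PosDef.conjTranspose_mul_self (g : Mat n) h1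
    rwa [Matrix.conjTranspose_eq_transpose_of_trivial] at this
  have h1 := central_sym D hD hperf hPN hPpos hPc
  have horth : (g : Mat n)ᵀ * g = 1 := by
    rw [Units.val_mul, tu_val] at h1
    exact h1
  refine hG.faithful g (hDG (nor_le D hD hg)) horth fun X hX => ?_
  obtain ⟨X1, hX1, -, -, hcX⟩ := decomp (lieAlg D hD) (SymPart G) (fun _ hX => hX.1)
    (br_P D hD hAd) (br_d D hD) (lieD_transpose hG D hD hDG hAd) X hX (sub_sym hG D hD hDG X hX)
  have h2 : (g : Mat n) * X1 = X1 * (g : Mat n) := by
    refine commute_of_ex fun t => ?_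
    have h3 := congrArg Units.val (hc _ (ex_mem_nor D hD ((lieAlg D hD).smul_mem t hX1)))
    rw [Units.val_mul, Units.val_mul] at h3
    exact h3
  have h3 := commute_nor' D hD hcX hg
  rw [sub_mul, mul_sub, h2] at h3
  exact (sub_left_inj.1 h3).symm

end

end Pool.Agent.E8helper46.FL
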