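import Pool.Agent.E8helper46.FL.Lat

/-!
# The central element and the splitting
-/

set_option autoImplicit false

namespace Pool.Agent.E8helper46.FL

open Set

section psi

variable {G : Type*} [Group G]

theorem exists_psi (S : Set G) (hSf : S.Finite) (hS : Subgroup.closure S = ⊤) (c : G → ℝ)
    (hc : ∀ a b, c (a * b) = c a + c b) (z : G) (hz : c z ≠ 0) :
    ∃ ψ : G →* Multiplicative ℤ, ψ z ≠ 1 := by
  have h1 : c 1 = 0 := by
    have := hc 1 1
    rw [mul_one] at this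
    linarith
  have hinv : ∀ a, c a⁻¹ = - c a := by
    intro a
    have := hc a a⁻¹
    rw [mul_inv_cancel, h1] at this
    linarith
  obtain ⟨A, hA⟩ : ∃ A : Submodule ℤ ℝ, A = Submodule.span ℤ (c '' S) := ⟨_, rfl⟩
  have hmem : ∀ g, c g ∈ A := by
    intro g
    have hg : g ∈ Subgroup.closure S := by rw [hS]; exact Subgroup.mem_top g
    induction hg using Subgroup.closure_induction with
    | mem x hx => rw [hA]; exact Submodule.subset_span ⟨x, hx, rfl⟩
    | one => rw [h1]; exact A.zero_mem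
    | mul x y _ _ hx hy => rw [hc]; exact A.add_mem hx hy
    | inv x _ hx => rw [hinv]; exact A.neg_mem hx
  have hfin : Module.Finite ℤ A := by
    rw [hA]
    exact Module.Finite.span_of_finite ℤ (hSf.image c)
  have hfree : Module.Free ℤ A := inferInstance
  have h2 : ¬ ∀ f : Module.Dual ℤ A, f ⟨c z, hmem z⟩ = 0 := by
    rw [Module.forall_dual_apply_eq_zero_iff]
    intro h
    exact hz (congrArg Subtype.val h)
  push Not at h2
  obtain ⟨f, hf⟩ := h2
  refine ⟨⟨⟨fun g => Multiplicative.ofAdd (f ⟨c g, hmem g⟩), ?_⟩, ?_⟩, ?_⟩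
  · have : (⟨c 1, hmem 1⟩ : A) = 0 := Subtype.ext h1
    rw [this, map_zero]
    rfl
  · intro a b
    have : (⟨c (a * b), hmem _⟩ : A) = ⟨c a, hmem a⟩ + ⟨c b, hmem b⟩ := Subtype.ext (hc a b)
    show Multiplicative.ofAdd (f ⟨c (a * b), hmem _⟩) = _
    rw [this, map_add]
    rfl
  · intro h
    exact hf h

theorem finiteIndex_of_psi (ψ : G →* Multiplicative ℤ) (z : G) (hz : ψ z ≠ 1) :
    (ψ.ker ⊔ Subgroup.zpowers z).FiniteIndex := by
  obtain ⟨d, hd⟩ : ∃ d, d = (ψ z).toAdd.natAbs := ⟨_, rfl⟩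
  have hd0 : d ≠ 0 := by
    intro h
    rw [hd, Int.natAbs_eq_zero] at h
    exact hz (Multiplicative.toAdd.injective h)
  have : NeZero d := ⟨hd0⟩
  obtain ⟨θ, hθ⟩ : ∃ θ : G →* Multiplicative (ZMod d),
      θ = (AddMonoidHom.toMultiplicative (Int.castAddHom (ZMod d))).comp ψ := ⟨_, rfl⟩
  have hfin : Finite (Multiplicative (ZMod d)) :=
    Finite.of_equiv (ZMod d) Multiplicative.ofAdd
  have h1 : θ.ker.FiniteIndex := inferInstance
  refine @Subgroup.finiteIndex_of_le _ _ _ _ h1 ?_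
  intro g hg
  rw [MonoidHom.mem_ker, hθ] at hg
  have h2 : (((ψ g).toAdd : ℤ) : ZMod d) = 0 := hg
  rw [ZMod.intCast_zmod_eq_zero_iff_dvd, hd, Int.natAbs_dvd] at h2
  obtain ⟨k, hk⟩ := h2
  have h3 : g * (z ^ k)⁻¹ ∈ ψ.ker := by
    rw [MonoidHom.mem_ker, map_mul, map_inv, map_zpow, mul_inv_eq_one]
    apply Multiplicative.toAdd.injective
    rw [toAdd_zpow, hk, smul_eq_mul, mul_comm]
  have h4 : g = (g * (z ^ k)⁻¹) * z ^ k := by rw [inv_mul_cancel_right]
  rw [h4]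
  exact Subgroup.mul_mem_sup h3 ⟨k, rfl⟩

theorem zpowers_inf (ψ : G →* Multiplicative ℤ) (z : G) (hz : ψ z ≠ 1) :
    ψ.ker ⊓ Subgroup.zpowers z = ⊥ ∧ Infinite (Subgroup.zpowers z) := by
  have h0 : (ψ z).toAdd ≠ 0 := fun h => hz (Multiplicative.toAdd.injective h)
  have h1 : ∀ n : ℤ, ψ (z ^ n) = 1 → n = 0 := by
    intro n h
    rw [map_zpow] at h
    have h2 := congrArg Multiplicative.toAdd h
    rw [toAdd_zpow, toAdd_one, smul_eq_mul] at h2
    rcases mul_eq_zero.1 h2 with h | h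
    · exact h
    · exact absurd h h0
  constructor
  · rw [eq_bot_iff]
    rintro x ⟨hx1, hx2⟩
    obtain ⟨n, rfl⟩ := hx2
    have := h1 n hx1
    subst this
    simp
  · refine Infinite.of_injective (fun n : ℤ => (⟨z ^ n, ⟨n, rfl⟩⟩ : Subgroup.zpowers z)) ?_
    intro a b hab
    have h2 : z ^ a = z ^ b := congrArg Subtype.val hab
    have h3 : z ^ (a - b) = 1 := by rw [zpow_sub, h2, mul_inv_cancel]
    have := h1 _ (by rw [h3, map_one])
    omega

end psi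

section

variable {M Y G : Type*} [MetricSpace M] [MetricSpace Y] [Group G] (p : G →* (M ≃ᵢ M))
  (q : G →* (Y ≃ᵢ Y)) (x0 : M) (y0 : Y)

theorem disp_conj {X : Type*} [MetricSpace X] (u s : X ≃ᵢ X) (x : X) :
    dist ((u * s * u⁻¹) x) x ≤ 2 * dist (u x) x + dist (s x) x := by
  have e1 : (u * s * u⁻¹) x = u (s (u⁻¹ x)) := rfl
  have e3 : dist (u⁻¹ x) x = dist (u x) x := by
    have h1 := u.isometry.dist_eq (u⁻¹ x) x
    have e2 : u (u⁻¹ x) = x := u.apply_symm_apply x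
    rw [e2] at h1
    rw [← h1, dist_comm]
  have h1 := dist_triangle (u (s (u⁻¹ x))) (u (s x)) x
  have h2 := dist_triangle (u (s x)) (u x) x
  rw [u.isometry.dist_eq] at h1 h2
  rw [s.isometry.dist_eq, e3] at h1
  rw [e1]
  linarith

theorem exists_central [ProperSpace M]
    (hP : ∀ r : ℝ, {γ : G | dist (p γ x0) x0 ≤ r ∧ dist (q γ y0) y0 ≤ r}.Finite)
    (hC : ∃ R : ℝ, ∀ (x : M) (y : Y), ∃ γ : G, dist (p γ x0) x ≤ R ∧ dist (q γ y0) y ≤ R)
    (S : Set G) (hSf : S.Finite) (hS : Subgroup.closure S = ⊤)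
    (F : M → ℝ) (hF : Continuous F) (c : G → ℝ) (hc : ∀ γ x, F (p γ x) = F x + c γ)
    (T : M ≃ᵢ M) (c0 : ℝ) (hc0 : 0 < c0) (hT : ∀ x, F (T x) = F x + c0)
    (hTc : ∀ γ x, p γ (T x) = T (p γ x)) :
    ∃ z : G, (∀ g, z * g = g * z) ∧ c z ≠ 0 := by
  classical
  obtain ⟨R, hR⟩ := hC
  -- bound of `F`
  obtain ⟨C, hC⟩ := ((isCompact_closedBall x0 R).image
    (hF.sub (continuous_const (y := F x0))).abs).bddAbove
  have hC' : ∀ x, dist x x0 ≤ R → |F x - F x0| ≤ C := fun x hx => hC ⟨x, hx, rfl⟩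
  obtain ⟨N, hN⟩ := exists_nat_gt (2 * C / c0)
  rw [div_lt_iff₀ hc0] at hN
  have hTF : ∀ (n : ℕ) x, F ((T ^ n) x) = F x + n * c0 := by
    intro n x
    induction n with
    | zero => simp
    | succ n ih =>
      have : (T ^ (n + 1)) x = T ((T ^ n) x) := by rw [pow_succ']; rfl
      rw [this, hT, ih]
      push_cast
      ring
  have hTn : ∀ (n : ℕ) (γ : G), T ^ n * p γ = p γ * T ^ n := by
    intro n γ
    have h1 : Commute T (p γ) := by
      ext x
      exact (hTc γ x).symm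
    exact h1.pow_left n
  -- the elements
  have hex : ∀ n : ℕ, ∃ γ : G, dist ((T ^ n * p γ) x0) x0 ≤ R ∧ dist (q γ y0) y0 ≤ R := by
    intro n
    obtain ⟨γ, h1, h2⟩ := hR ((T ^ n)⁻¹ x0) y0
    refine ⟨γ, ?_, h2⟩
    have e1 : (T ^ n * p γ) x0 = (T ^ n) (p γ x0) := rfl
    have e2 : (T ^ n) ((T ^ n)⁻¹ x0) = x0 := (T ^ n).apply_symm_apply x0
    have h3 := (T ^ n).isometry.dist_eq (p γ x0) ((T ^ n)⁻¹ x0)
    rw [e2] at h3
    rw [e1, h3]
    exact h1
  choose γ hγ1 hγ2 using hex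
  obtain ⟨B1, hB1⟩ := (hSf.image fun s => dist (p s x0) x0).bddAbove
  obtain ⟨B2, hB2⟩ := (hSf.image fun s => dist (q s y0) y0).bddAbove
  obtain ⟨r, hr⟩ : ∃ r, r = 2 * R + max B1 B2 := ⟨_, rfl⟩
  have hmem : ∀ (n : ℕ) (s : S),
      γ n * s * (γ n)⁻¹ ∈ {γ : G | dist (p γ x0) x0 ≤ r ∧ dist (q γ y0) y0 ≤ r} := by
    rintro n ⟨s, hs⟩
    have h1 : dist (p s x0) x0 ≤ B1 := hB1 ⟨s, hs, rfl⟩
    have h2 : dist (q s y0) y0 ≤ B2 := hB2 ⟨s, hs, rfl⟩
    refine ⟨?_, ?_⟩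
    · have e : p (γ n * s * (γ n)⁻¹) = (T ^ n * p (γ n)) * p s * (T ^ n * p (γ n))⁻¹ := by
        have h3 := hTn n (γ n * s * (γ n)⁻¹)
        rw [map_mul, map_mul, map_inv] at h3 ⊢
        rw [mul_inv_rev]
        have h4 : T ^ n * p (γ n) * p s * ((p (γ n))⁻¹ * (T ^ n)⁻¹) =
            (T ^ n * (p (γ n) * p s * (p (γ n))⁻¹)) * (T ^ n)⁻¹ := by group
        rw [h4, h3, mul_inv_cancel_right]
      rw [e]
      refine (disp_conj _ _ _).trans ?_
      have := hγ1 n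
      have := le_max_left B1 B2
      rw [hr]
      linarith
    · have e : q (γ n * s * (γ n)⁻¹) = q (γ n) * q s * (q (γ n))⁻¹ := by
        rw [map_mul, map_mul, map_inv]
      rw [e]
      refine (disp_conj _ _ _).trans ?_
      have := hγ2 n
      have := le_max_right B1 B2
      rw [hr]
      linarith
  have hfin : Finite {γ : G | dist (p γ x0) x0 ≤ r ∧ dist (q γ y0) y0 ≤ r} := hP r
  have hSfin : Finite S := hSf
  obtain ⟨m, n, hmn, heq⟩ := Finite.exists_ne_map_eq_of_infinite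
    (fun k : ℕ => fun s : S => (⟨γ (N * k) * s * (γ (N * k))⁻¹, hmem (N * k) s⟩ :
      {γ : G | dist (p γ x0) x0 ≤ r ∧ dist (q γ y0) y0 ≤ r}))
  have heq' : ∀ s ∈ S, γ (N * m) * s * (γ (N * m))⁻¹ = γ (N * n) * s * (γ (N * n))⁻¹ := by
    intro s hs
    exact congrArg Subtype.val (congrFun heq ⟨s, hs⟩)
  refine ⟨(γ (N * n))⁻¹ * γ (N * m), ?_, ?_⟩
  · have hcomm : ∀ s ∈ S, (γ (N * n))⁻¹ * γ (N * m) * s = s * ((γ (N * n))⁻¹ * γ (N * m)) := by
      intro s hs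
      have h1 := heq' s hs
      have h2 : (γ (N * n))⁻¹ * γ (N * m) * s =
          (γ (N * n))⁻¹ * (γ (N * m) * s * (γ (N * m))⁻¹) * γ (N * m) := by group
      rw [h2, h1]
      group
    intro g
    have hg : g ∈ Subgroup.closure S := by rw [hS]; exact Subgroup.mem_top g
    generalize (γ (N * n))⁻¹ * γ (N * m) = z at hcomm
    induction hg using Subgroup.closure_induction with
    | mem x hx => exact hcomm x hx
    | one => rw [mul_one, one_mul]
    | mul x y _ _ hx hy => rw [← mul_assoc, hx, mul_assoc, hy, mul_assoc]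
    | inv x _ hx =>
      rw [eq_inv_mul_iff_mul_eq, ← mul_assoc, ← hx, mul_inv_cancel_right]
  · have h1 : ∀ k, |c (γ k) + k * c0| ≤ C := by
      intro k
      have h2 := hC' _ (hγ1 k)
      have h3 : (T ^ k * p (γ k)) x0 = (T ^ k) (p (γ k) x0) := rfl
      rw [h3, hTF, hc] at h2
      have h4 : F x0 + c (γ k) + k * c0 - F x0 = c (γ k) + k * c0 := by ring
      rwa [h4] at h2
    have hadd : ∀ a b, c (a * b) = c a + c b := by
      intro a b
      have h2 := hc (a * b) x0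
      have h3 : p (a * b) x0 = p a (p b x0) := by rw [map_mul]; rfl
      rw [h3, hc, hc] at h2
      linarith
    have hone : c 1 = 0 := by
      have := hadd 1 1
      rw [mul_one] at this
      linarith
    have hcinv : ∀ a, c a⁻¹ = - c a := by
      intro a
      have := hadd a a⁻¹
      rw [mul_inv_cancel, hone] at this
      linarith
    intro h0
    rw [hadd, hcinv] at h0
    have h2 := abs_le.1 (h1 (N * m))
    have h3 := abs_le.1 (h1 (N * n))
    push_cast at h2 h3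
    have h4 : |(N : ℝ) * c0 * ((m : ℝ) - n)| ≤ 2 * C := by
      rw [abs_le]
      constructor <;> nlinarith
    have h5 : (1 : ℝ) ≤ |(m : ℝ) - n| := by
      have h6 : (1 : ℤ) ≤ |(m : ℤ) - n| := by
        apply Int.one_le_abs
        omega
      exact_mod_cast h6
    have hCpos : 0 ≤ C := (abs_nonneg _).trans (h1 0)
    have hNpos : 0 ≤ (N : ℝ) * c0 := by positivity
    rw [abs_mul, abs_of_nonneg hNpos] at h4
    nlinarith

/-- The kernel is infinite. -/
theorem infinite_ker [ProperSpace M]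
    (A1 : ∀ y : Y, ∀ r : ℝ, {z : Y | dist z y ≤ r}.Finite)
    (hC : ∃ R : ℝ, ∀ (x : M) (y : Y), ∃ γ : G, dist (p γ x0) x ≤ R ∧ dist (q γ y0) y ≤ R)
    (hYi : ∀ r : ℝ, ∃ y, r < dist y y0)
    (F : M → ℝ) (hF : Continuous F) (T : M ≃ᵢ M) (c0 : ℝ) (hc0 : 0 < c0)
    (hT : ∀ x, F (T x) = F x + c0) (z : G) (hzc : ∀ g, z * g = g * z)
    (ψ : G →* Multiplicative ℤ) (hz : ψ z ≠ 1) : Infinite ψ.ker := by
  classical
  by_contra hni
  rw [not_infinite_iff_finite] at hni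
  have hTF : ∀ (n : ℕ) x, F ((T ^ n) x) = F x + n * c0 := by
    intro n x
    induction n with
    | zero => simp
    | succ n ih =>
      have : (T ^ (n + 1)) x = T ((T ^ n) x) := by rw [pow_succ']; rfl
      rw [this, hT, ih]
      push_cast
      ring
  -- the stabilizer is infinite
  have hinf : ¬ (stab q y0 : Set G).Finite := by
    intro hfin
    obtain ⟨D, hD⟩ := stab_A2 p q x0 y0 hC A1
    obtain ⟨B, hB⟩ := (hfin.image fun l => dist (p l x0) x0).bddAbove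
    obtain ⟨C, hC2⟩ := ((isCompact_closedBall x0 (D + B)).image hF).bddAbove
    obtain ⟨n, hn⟩ := exists_nat_gt ((C - F x0) / c0)
    rw [div_lt_iff₀ hc0] at hn
    obtain ⟨l, hl, h1⟩ := hD ((T ^ n) x0)
    have h2 : dist (p l x0) x0 ≤ B := hB ⟨l, hl, rfl⟩
    have h3 : dist ((T ^ n) x0) x0 ≤ D + B := by
      have := dist_triangle ((T ^ n) x0) (p l x0) x0
      rw [dist_comm ((T ^ n) x0) (p l x0)] at this
      linarith
    have h4 : F ((T ^ n) x0) ≤ C := hC2 ⟨_, h3, rfl⟩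
    rw [hTF] at h4
    linarith
  obtain ⟨l, hl, hlk⟩ : ∃ l ∈ stab q y0, l ∉ ψ.ker := by
    by_contra hcon
    push Not at hcon
    exact hinf ((Set.toFinite (ψ.ker : Set G)).subset hcon)
  have hψl : (ψ l).toAdd ≠ 0 := fun h => hlk (Multiplicative.toAdd.injective h)
  have hψz : (ψ z).toAdd ≠ 0 := fun h => hz (Multiplicative.toAdd.injective h)
  -- a power of `z` in the stabilizer
  obtain ⟨w, hw⟩ : ∃ w, w = l ^ (ψ z).toAdd * z ^ (-(ψ l).toAdd) := ⟨_, rfl⟩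
  have hwk : w ∈ ψ.ker := by
    rw [MonoidHom.mem_ker, hw, map_mul, map_zpow, map_zpow]
    apply Multiplicative.toAdd.injective
    rw [toAdd_mul, toAdd_zpow, toAdd_zpow, toAdd_one, smul_eq_mul, smul_eq_mul]
    ring
  obtain ⟨m, hm, hwm⟩ : ∃ m : ℕ, 0 < m ∧ w ^ m = 1 := by
    have h1 := isOfFinOrder_of_finite (⟨w, hwk⟩ : ψ.ker)
    obtain ⟨m, hm, h2⟩ := h1.exists_pow_eq_one
    exact ⟨m, hm, congrArg Subtype.val h2⟩
  have hcz : ∀ g, Commute z g := hzc
  have hzw : z ^ ((ψ l).toAdd * m) = l ^ ((ψ z).toAdd * m) := by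
    have hcomm : Commute (l ^ (ψ z).toAdd) (z ^ (-(ψ l).toAdd)) :=
      ((hcz l).symm.zpow_zpow _ _)
    rw [hw, hcomm.mul_pow, ← zpow_natCast, ← zpow_natCast, ← zpow_mul, ← zpow_mul,
      neg_mul, zpow_neg, mul_inv_eq_one] at hwm
    exact hwm.symm
  obtain ⟨E, hE⟩ : ∃ E, E = z ^ ((ψ l).toAdd * m) := ⟨_, rfl⟩
  have hEs : E ∈ stab q y0 := by
    rw [hE, hzw]
    exact (stab q y0).zpow_mem hl _
  have hEψ : (ψ E).toAdd ≠ 0 := by
    rw [hE, map_zpow, toAdd_zpow, smul_eq_mul]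
    refine mul_ne_zero (mul_ne_zero hψl ?_) hψz
    exact_mod_cast hm.ne'
  -- the orbit is finite
  have hW : {g : G | 0 ≤ (ψ g).toAdd ∧ (ψ g).toAdd < |(ψ E).toAdd|}.Finite := by
    refine Set.Finite.of_finite_fibers (fun g => (ψ g).toAdd) ?_ ?_
    · refine (Set.finite_Ico (0 : ℤ) |(ψ E).toAdd|).subset ?_
      rintro _ ⟨g, hg, rfl⟩
      exact hg
    · rintro _ ⟨g, -, rfl⟩
      refine ((Set.toFinite (ψ.ker : Set G)).image fun k => g * k).subset ?_
      rintro g' ⟨-, hg'⟩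
      refine ⟨g⁻¹ * g', ?_, mul_inv_cancel_left _ _⟩
      show ψ (g⁻¹ * g') = 1
      rw [map_mul, map_inv, inv_mul_eq_one]
      exact (Multiplicative.toAdd.injective hg').symm
  have horb : ∀ g : G, ∃ g' ∈ {g : G | 0 ≤ (ψ g).toAdd ∧ (ψ g).toAdd < |(ψ E).toAdd|},
      q g y0 = q g' y0 := by
    intro g
    refine ⟨g * E ^ (-((ψ g).toAdd / (ψ E).toAdd)), ?_, ?_⟩
    · have e : (ψ (g * E ^ (-((ψ g).toAdd / (ψ E).toAdd)))).toAdd =
          (ψ g).toAdd % (ψ E).toAdd := by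
        rw [map_mul, map_zpow, toAdd_mul, toAdd_zpow, smul_eq_mul, Int.emod_def]
        ring
      show 0 ≤ _ ∧ _ < _
      rw [e]
      exact ⟨Int.emod_nonneg _ hEψ, Int.emod_lt_abs _ hEψ⟩
    · have h1 := (stab q y0).zpow_mem hEs (-((ψ g).toAdd / (ψ E).toAdd))
      have h2 : q (g * E ^ (-((ψ g).toAdd / (ψ E).toAdd))) y0 =
          q g (q (E ^ (-((ψ g).toAdd / (ψ E).toAdd))) y0) := by rw [map_mul]; rfl
      rw [h2, show q (E ^ (-((ψ g).toAdd / (ψ E).toAdd))) y0 = y0 from h1]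
  obtain ⟨R, hR⟩ := hC
  obtain ⟨B, hB⟩ := (hW.image fun g => dist (q g y0) y0).bddAbove
  obtain ⟨y, hy⟩ := hYi (R + B)
  obtain ⟨g, -, h1⟩ := hR x0 y
  obtain ⟨g', hg', h2⟩ := horb g
  have h3 : dist (q g' y0) y0 ≤ B := hB ⟨g', hg', rfl⟩
  rw [h2] at h1
  have := dist_triangle y (q g' y0) y0
  rw [dist_comm y (q g' y0)] at this
  linarith

end

end Pool.Agent.E8helper46.FL
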