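import Pool.Agent.E8helper46.FL.Iso

/-!
# Uniform lattices in products of isometry groups
-/

set_option autoImplicit false

namespace Pool.Agent.E8helper46.FL

open Set Filter Topology

section top

variable {M Y : Type*} [MetricSpace M] [MetricSpace Y] [ProperSpace M] [ProperSpace Y]
  (Γ : Subgroup ((M ≃ᵢ M) × (Y ≃ᵢ Y))) (x0 : M) (y0 : Y)

theorem lattice_finite (hd : DiscreteTopology Γ) (r : ℝ) :
    {g : (M ≃ᵢ M) × (Y ≃ᵢ Y) | g ∈ Γ ∧ dist (g.1 x0) x0 ≤ r ∧ dist (g.2 y0) y0 ≤ r}.Finite := by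
  have hcl : IsClosed (Γ : Set ((M ≃ᵢ M) × (Y ≃ᵢ Y))) := Subgroup.isClosed_of_discrete
  have hK : IsCompact ({g : M ≃ᵢ M | dist (g x0) x0 ≤ r} ×ˢ {g : Y ≃ᵢ Y | dist (g y0) y0 ≤ r}) :=
    (isCompact_bdd x0 r).prod (isCompact_bdd y0 r)
  have h1 := hK.inter_left hcl
  have h2 : DiscreteTopology ↥((Γ : Set ((M ≃ᵢ M) × (Y ≃ᵢ Y))) ∩
      {g : M ≃ᵢ M | dist (g x0) x0 ≤ r} ×ˢ {g : Y ≃ᵢ Y | dist (g y0) y0 ≤ r}) :=
    DiscreteTopology.of_subset (s := (Γ : Set ((M ≃ᵢ M) × (Y ≃ᵢ Y)))) hd inter_subset_left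
  refine (h1.finite ⟨h2⟩).subset ?_
  rintro g ⟨h3, h4, h5⟩
  exact ⟨h3, h4, h5⟩

theorem lattice_cobounded (hc : CompactSpace (((M ≃ᵢ M) × (Y ≃ᵢ Y)) ⧸ Γ)) :
    ∃ R : ℝ, ∀ g : (M ≃ᵢ M) × (Y ≃ᵢ Y), ∃ γ ∈ Γ, dist ((g * γ).1 x0) x0 < R ∧
      dist ((g * γ).2 y0) y0 < R := by
  obtain ⟨U, hU⟩ : ∃ U : ℕ → Set ((M ≃ᵢ M) × (Y ≃ᵢ Y)),
      U = fun (n : ℕ) => {g : (M ≃ᵢ M) × (Y ≃ᵢ Y) | dist (g.1 x0) x0 < n ∧
        dist (g.2 y0) y0 < n} := ⟨_, rfl⟩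
  have hUo : ∀ n, IsOpen (U n) := by
    intro n
    rw [hU]
    refine IsOpen.inter ?_ ?_
    · exact isOpen_lt (((continuous_ev x0).comp continuous_fst).dist continuous_const)
        continuous_const
    · exact isOpen_lt (((continuous_ev y0).comp continuous_snd).dist continuous_const)
        continuous_const
  have hmono : ∀ m n, m ≤ n → U m ⊆ U n := by
    intro m n hmn g hg
    rw [hU] at hg ⊢
    have : (m : ℝ) ≤ n := by exact_mod_cast hmn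
    exact ⟨hg.1.trans_le this, hg.2.trans_le this⟩
  have hcov : (Set.univ : Set (((M ≃ᵢ M) × (Y ≃ᵢ Y)) ⧸ Γ)) ⊆
      ⋃ n, (QuotientGroup.mk : _ → ((M ≃ᵢ M) × (Y ≃ᵢ Y)) ⧸ Γ) '' U n := by
    intro q _
    obtain ⟨g, rfl⟩ := QuotientGroup.mk_surjective q
    obtain ⟨n, hn⟩ := exists_nat_gt (max (dist (g.1 x0) x0) (dist (g.2 y0) y0))
    rw [mem_iUnion]
    refine ⟨n, g, ?_, rfl⟩
    rw [hU]
    exact ⟨(le_max_left _ _).trans_lt hn, (le_max_right _ _).trans_lt hn⟩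
  obtain ⟨n, hn⟩ := isCompact_univ.elim_directed_cover
    (fun n => (QuotientGroup.mk : _ → ((M ≃ᵢ M) × (Y ≃ᵢ Y)) ⧸ Γ) '' U n)
    (fun n => QuotientGroup.isOpenMap_coe _ (hUo n)) hcov
    (fun m n => ⟨max m n, image_mono (hmono _ _ (le_max_left _ _)),
      image_mono (hmono _ _ (le_max_right _ _))⟩)
  refine ⟨n, fun g => ?_⟩
  obtain ⟨h, hh, he⟩ := hn (mem_univ (QuotientGroup.mk g))
  refine ⟨g⁻¹ * h, ?_, ?_⟩
  · exact QuotientGroup.eq.1 he.symm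
  · rw [mul_inv_cancel_left]
    rw [hU] at hh
    exact hh

end top

section abs

variable {M Y G : Type*} [MetricSpace M] [MetricSpace Y] [Group G] (p : G →* (M ≃ᵢ M))
  (q : G →* (Y ≃ᵢ Y)) (x0 : M) (y0 : Y)

/-- The stabilizer of a point with a finite set of relevant translates is cobounded on the other
factor. -/
theorem cobdd_stab (S : Subgroup G) (w0 : Y) (W : Set Y) (hW : W.Finite) (D : ℝ)
    (h : ∀ x, ∃ l ∈ S, dist (p l x0) x ≤ D ∧ q l⁻¹ w0 ∈ W) :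
    ∃ D' : ℝ, ∀ x, ∃ l ∈ S, q l w0 = w0 ∧ dist (p l x0) x ≤ D' := by
  classical
  have h1 : ∃ δ : Y → G, ∀ w, (∃ d ∈ S, q d w = w0) → δ w ∈ S ∧ q (δ w) w = w0 := by
    refine ⟨fun w => if h : ∃ d ∈ S, q d w = w0 then h.choose else 1, fun w hw => ?_⟩
    simp only [dif_pos hw]
    exact hw.choose_spec
  obtain ⟨δ, hδ⟩ := h1
  obtain ⟨B, hB⟩ := (hW.image fun w => dist (p (δ w)⁻¹ x0) x0).bddAbove
  refine ⟨B + D, fun x => ?_⟩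
  obtain ⟨l, hl, h2, h3⟩ := h x
  have h4 := hδ (q l⁻¹ w0) ⟨l, hl, by
    have : q l (q l⁻¹ w0) = (q (l * l⁻¹) : Y ≃ᵢ Y) w0 := by rw [map_mul]; rfl
    rw [this, mul_inv_cancel, map_one]
    rfl⟩
  obtain ⟨d, hd⟩ : ∃ d, d = δ (q l⁻¹ w0) := ⟨_, rfl⟩
  rw [← hd] at h4
  have h5 : dist (p d⁻¹ x0) x0 ≤ B := by
    rw [hd]
    exact hB ⟨_, h3, rfl⟩
  refine ⟨l * d⁻¹, S.mul_mem hl (S.inv_mem h4.1), ?_, ?_⟩
  · have e1 : q d⁻¹ w0 = q l⁻¹ w0 := by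
      have : q d⁻¹ (q d (q l⁻¹ w0)) = q l⁻¹ w0 := by
        have : q d⁻¹ (q d (q l⁻¹ w0)) = (q (d⁻¹ * d) : Y ≃ᵢ Y) (q l⁻¹ w0) := by rw [map_mul]; rfl
        rw [this, inv_mul_cancel, map_one]
        rfl
      rw [h4.2] at this
      exact this
    have e2 : (q (l * d⁻¹)) w0 = q l (q d⁻¹ w0) := by rw [map_mul]; rfl
    rw [e2, e1]
    have : q l (q l⁻¹ w0) = (q (l * l⁻¹) : Y ≃ᵢ Y) w0 := by rw [map_mul]; rfl
    rw [this, mul_inv_cancel, map_one]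
    rfl
  · have e2 : (p (l * d⁻¹)) x0 = p l (p d⁻¹ x0) := by rw [map_mul]; rfl
    have e3 : dist (p l (p d⁻¹ x0)) (p l x0) = dist (p d⁻¹ x0) x0 := (p l).isometry.dist_eq _ _
    have := dist_triangle (p l (p d⁻¹ x0)) (p l x0) x
    rw [e2]
    linarith

/-- the stabilizer of `y0` -/
def stab : Subgroup G where
  carrier := {l | q l y0 = y0}
  one_mem' := by
    show q 1 y0 = y0
    rw [map_one]; rfl
  mul_mem' := by
    intro a b ha hb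
    show q (a * b) y0 = y0
    have : (q (a * b)) y0 = q a (q b y0) := by rw [map_mul]; rfl
    rw [this, show q b y0 = y0 from hb, show q a y0 = y0 from ha]
  inv_mem' := by
    intro a ha
    show q a⁻¹ y0 = y0
    have h1 : q a⁻¹ (q a y0) = y0 := by
      have : q a⁻¹ (q a y0) = (q (a⁻¹ * a) : Y ≃ᵢ Y) y0 := by rw [map_mul]; rfl
      rw [this, inv_mul_cancel, map_one]; rfl
    rwa [show q a y0 = y0 from ha] at h1

theorem mem_stab {l : G} : l ∈ stab q y0 ↔ q l y0 = y0 := Iff.rfl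

variable (hP : ∀ r : ℝ, {γ : G | dist (p γ x0) x0 ≤ r ∧ dist (q γ y0) y0 ≤ r}.Finite)
  (hC : ∃ R : ℝ, ∀ (x : M) (y : Y), ∃ γ : G, dist (p γ x0) x ≤ R ∧ dist (q γ y0) y ≤ R)
  (hY : ∀ (y : Y) (r : ℝ), {z : Y | dist z y ≤ r}.Finite)

include hP in
theorem stab_A1 (r : ℝ) : {l : G | l ∈ stab q y0 ∧ dist (p l x0) x0 ≤ r}.Finite := by
  refine (hP (max r 0)).subset ?_
  rintro l ⟨h1, h2⟩
  refine ⟨h2.trans (le_max_left _ _), ?_⟩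
  rw [show q l y0 = y0 from h1, dist_self]
  exact le_max_right _ _

theorem inv_dist (l : G) (w z : Y) : dist (q l⁻¹ w) z = dist w (q l z) := by
  have h1 : q l (q l⁻¹ w) = w := by
    have : q l (q l⁻¹ w) = (q (l * l⁻¹) : Y ≃ᵢ Y) w := by rw [map_mul]; rfl
    rw [this, mul_inv_cancel, map_one]; rfl
  rw [← (q l).isometry.dist_eq, h1]

include hC hY in
theorem stab_A2 : ∃ D : ℝ, ∀ x, ∃ l ∈ stab q y0, dist (p l x0) x ≤ D := by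
  obtain ⟨R, hR⟩ := hC
  obtain ⟨D, hD⟩ := cobdd_stab p q x0 ⊤ y0 {z | dist z y0 ≤ R} (hY y0 R) R (fun x => by
    obtain ⟨γ, h1, h2⟩ := hR x y0
    refine ⟨γ, Subgroup.mem_top _, h1, ?_⟩
    show dist (q γ⁻¹ y0) y0 ≤ R
    rw [inv_dist, dist_comm]
    exact h2)
  refine ⟨D, fun x => ?_⟩
  obtain ⟨l, -, h1, h2⟩ := hD x
  exact ⟨l, h1, h2⟩

include hC hY in
theorem stab_A3 (γ : G) :
    ∃ D : ℝ, ∀ x, ∃ l ∈ stab q y0, γ * l * γ⁻¹ ∈ stab q y0 ∧ dist (p l x0) x ≤ D := by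
  obtain ⟨D0, hD0⟩ := stab_A2 p q x0 y0 hC hY
  obtain ⟨w0, hw0⟩ : ∃ w0, w0 = q γ⁻¹ y0 := ⟨_, rfl⟩
  obtain ⟨D, hD⟩ := cobdd_stab p q x0 (stab q y0) w0 {z | dist z y0 ≤ dist w0 y0}
    (hY y0 _) D0 (fun x => by
      obtain ⟨l, hl, h1⟩ := hD0 x
      refine ⟨l, hl, h1, ?_⟩
      show dist (q l⁻¹ w0) y0 ≤ dist w0 y0
      rw [inv_dist, show q l y0 = y0 from hl])
  refine ⟨D, fun x => ?_⟩
  obtain ⟨l, hl, h1, h2⟩ := hD x
  refine ⟨l, hl, ?_, h2⟩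
  show q (γ * l * γ⁻¹) y0 = y0
  have e : q (γ * l * γ⁻¹) y0 = q γ (q l (q γ⁻¹ y0)) := by rw [map_mul, map_mul]; rfl
  rw [e, ← hw0, h1, hw0]
  have : q γ (q γ⁻¹ y0) = (q (γ * γ⁻¹) : Y ≃ᵢ Y) y0 := by rw [map_mul]; rfl
  rw [this, mul_inv_cancel, map_one]; rfl

end abs

end Pool.Agent.E8helper46.FL
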