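import Pool.Agent.E8helper46.FL.Star
import Pool.Agent.E8helper46.FL.Lat

/-!
# Translations of the Euclidean factor
-/

set_option autoImplicit false
set_option linter.unusedSectionVars false

namespace Pool.Agent.E8helper46.FL

open Set Filter Topology MeasureTheory

/-- the product of two isometries -/
def prodI {E Q : Type*} [MetricSpace E] [MetricSpace Q] (a : E ≃ᵢ E) (b : Q ≃ᵢ Q) :
    (E × Q) ≃ᵢ (E × Q) where
  toFun x := (a x.1, b x.2)
  invFun x := (a.symm x.1, b.symm x.2)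
  left_inv x := by
    ext
    · exact a.symm_apply_apply x.1
    · exact b.symm_apply_apply x.2
  right_inv x := by
    ext
    · exact a.apply_symm_apply x.1
    · exact b.apply_symm_apply x.2
  isometry_toFun := by
    refine Isometry.of_dist_eq fun x y => ?_
    rw [Prod.dist_eq, Prod.dist_eq, a.isometry.dist_eq, b.isometry.dist_eq]

theorem prodI_apply {E Q : Type*} [MetricSpace E] [MetricSpace Q] (a : E ≃ᵢ E) (b : Q ≃ᵢ Q)
    (x : E × Q) : prodI a b x = (a x.1, b x.2) := rfl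

/-- the product homomorphism -/
def prodHom {E Q G : Type*} [MetricSpace E] [MetricSpace Q] [Group G] (a : G →* (E ≃ᵢ E))
    (b : G →* (Q ≃ᵢ Q)) : G →* ((E × Q) ≃ᵢ (E × Q)) where
  toFun g := prodI (a g) (b g)
  map_one' := by
    rw [map_one, map_one]
    rfl
  map_mul' g h := by
    rw [map_mul, map_mul]
    rfl

theorem prodHom_apply {E Q G : Type*} [MetricSpace E] [MetricSpace Q] [Group G]
    (a : G →* (E ≃ᵢ E)) (b : G →* (Q ≃ᵢ Q)) (g : G) (x : E × Q) :
    prodHom a b g x = (a g x.1, b g x.2) := rfl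

theorem prod_mid {E Q : Type*} [MetricSpace E] [MetricSpace Q]
    (h1 : ∀ x y : E, ∃ m, IsMid m x y) (h2 : ∀ x y : Q, ∃ m, IsMid m x y) (x y : E × Q) :
    ∃ m, IsMid m x y := by
  obtain ⟨m1, hm1⟩ := h1 x.1 y.1
  obtain ⟨m2, hm2⟩ := h2 x.2 y.2
  refine ⟨(m1, m2), ?_, ?_⟩
  · rw [Prod.dist_eq, Prod.dist_eq, hm1.1, hm2.1, max_div_div_right (by norm_num)]
  · rw [Prod.dist_eq, Prod.dist_eq, hm1.2, hm2.2, max_div_div_right (by norm_num)]

section maxp

variable {M : Type*} [MetricSpace M] [ProperSpace M] [MeasurableSpace M] [BorelSpace M]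
  (ν : Measure M) [IsFiniteMeasureOnCompacts ν] [ν.IsOpenPosMeasure]

/-- the strong maximum principle -/
theorem max_principle' (hmid : ∀ x y : M, ∃ m, IsMid m x y) {R : ℝ} (hR : 0 < R) {u : M → ℝ}
    (hu : Continuous u) (b : M) (hb : ∀ x, u x ≤ u b) (hP : ∀ x, av ν R u x = u x) (y : M) :
    u y = u b := by
  have step : ∀ x, u x = u b → ∀ y, dist x y < R → u y = u b := by
    intro x hx y hy
    by_contra hne
    have hlt : u y < u b := lt_of_le_of_ne (hb y) hne
    have h1 : 0 < kint ν R (fun z => u b - u z) x := by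
      refine ((ker_cont_right R x).mul
        (continuous_const.sub hu)).integral_pos_of_hasCompactSupport_nonneg_nonzero
        (x := y) (ker_hcs R x _) (fun z => ?_) ?_
      · exact mul_nonneg (ker_nonneg R x z) (sub_nonneg.2 (hb z))
      · exact mul_ne_zero (ker_pos hy).ne' (sub_pos.2 hlt).ne'
    have h2 : 0 < av ν R (fun z => u b - u z) x := div_pos h1 (kint_one_pos ν hR x)
    rw [av_sub ν R continuous_const hu, av_const ν hR, hP, hx] at h2
    linarith
  have main : ∀ n : ℕ, ∀ x, u x = u b → ∀ y, dist x y < 2 ^ n * R → u y = u b := by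
    intro n
    induction n with
    | zero =>
      intro x hx y hy
      exact step x hx y (by simpa using hy)
    | succ n ih =>
      intro x hx y hy
      obtain ⟨m, hm⟩ := hmid x y
      rw [pow_succ] at hy
      have h1 : dist x m < 2 ^ n * R := by rw [hm.1]; linarith
      have h2 : dist m y < 2 ^ n * R := by rw [dist_comm, hm.2]; linarith
      exact ih m (ih x hx m h1) y h2
  obtain ⟨n, hn⟩ := pow_unbounded_of_one_lt (dist b y / R) (by norm_num : (1 : ℝ) < 2)
  rw [div_lt_iff₀ hR] at hn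
  exact main n b rfl y hn

/-- the harmonic function with its harmonicity -/
theorem exists_harmonic' (hmid : ∀ x y : M, ∃ m, IsMid m x y) {Γ : Type*} [Group Γ]
    (p : Γ →* (M ≃ᵢ M)) (hν : ∀ γ, MeasurePreserving (p γ) ν ν) (Λ : Subgroup Γ) (x0 : M)
    (φ : Γ → ℝ) (hφ : ∀ a b, φ (a * b) = φ a + φ b)
    (A1 : ∀ r : ℝ, {l : Γ | l ∈ Λ ∧ dist (p l x0) x0 ≤ r}.Finite)
    (A2 : ∃ D : ℝ, ∀ x, ∃ l ∈ Λ, dist (p l x0) x ≤ D)
    (A3 : ∀ γ : Γ, ∃ D : ℝ, ∀ x, ∃ l ∈ Λ, γ * l * γ⁻¹ ∈ Λ ∧ dist (p l x0) x ≤ D) :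
    ∃ R : ℝ, 0 < R ∧ ∃ F : M → ℝ, Continuous F ∧
      (∀ x y, av ν R F x - F x = av ν R F y - F y) ∧
      ∃ c : Γ → ℝ, (∀ γ x, F (p γ x) = F x + c γ) ∧ ∀ l ∈ Λ, c l = φ l := by
  obtain ⟨R, hR, F, hFc, hF, hP⟩ := exists_harmonic_one ν p hν Λ x0 φ hφ A1 A2
  have hone : φ 1 = 0 := by
    have := hφ 1 1
    rw [mul_one] at this
    linarith
  have hinvφ : ∀ a, φ a⁻¹ = - φ a := by
    intro a
    have := hφ a a⁻¹
    rw [mul_inv_cancel, hone] at this
    linarith
  refine ⟨R, hR, F, hFc, hP, fun γ => F (p γ x0) - F x0, ?_, ?_⟩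
  · intro γ x
    obtain ⟨D, hD⟩ := A3 γ
    have hpc : Continuous (p γ) := (p γ).continuous
    have key := max_principle ν x0 hmid (p '' {l : Γ | l ∈ Λ ∧ γ * l * γ⁻¹ ∈ Λ}) (D := D)
      (fun x => by
        obtain ⟨l, hl, hl2, h⟩ := hD x
        exact ⟨p l, ⟨l, ⟨hl, hl2⟩, rfl⟩, h⟩) hR (u := fun x => F (p γ x) - F x)
      ((hFc.comp hpc).sub hFc) ?_ ?_ x x0
    · linarith
    · rintro _ ⟨l, ⟨hl, hl2⟩, rfl⟩ x
      have e1 : p γ (p l x) = p (γ * l * γ⁻¹) (p γ x) := by
        have : p (γ * l * γ⁻¹) (p γ x) = (p ((γ * l * γ⁻¹) * γ) : M ≃ᵢ M) x := by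
          rw [map_mul _ (γ * l * γ⁻¹) γ]; rfl
        rw [this, inv_mul_cancel_right, map_mul]
        rfl
      show F (p γ (p l x)) - F (p l x) = F (p γ x) - F x
      rw [e1, hF _ hl2, hF _ hl, hφ, hφ, hinvφ]
      ring
    · intro x
      have hFp : Continuous (fun y => F (p γ y)) := hFc.comp hpc
      rw [av_sub ν R hFp hFc]
      have h1 := hP (p γ x) x
      have h2 := av_map ν R (p γ) (hν γ) F x
      rw [h2]
      linarith
  · intro l hl
    show F (p l x0) - F x0 = φ l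
    rw [hF l hl]
    ring

end maxp

section cliff

variable {E : Type*} [NormedAddCommGroup E] [InnerProductSpace ℝ E] [FiniteDimensional ℝ E]

theorem lin_part (a : E ≃ᵢ E) : ∃ A : E ≃ₗᵢ[ℝ] E, ∀ e v, a (e + v) = a e + A v := by
  refine ⟨a.toRealAffineIsometryEquiv.linearIsometryEquiv, fun e v => ?_⟩
  have h := a.toRealAffineIsometryEquiv.map_vadd e v
  rw [vadd_eq_add, vadd_eq_add] at h
  rw [add_comm e v, add_comm (a e)]
  exact h

variable {Q : Type*} [MetricSpace Q] [ProperSpace Q] [MeasurableSpace (E × Q)]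
  [BorelSpace (E × Q)] (ν : Measure (E × Q)) [IsFiniteMeasureOnCompacts ν] [ν.IsOpenPosMeasure]
  (hν : ∀ g : (E × Q) ≃ᵢ (E × Q), MeasurePreserving g ν ν)

/-- translation -/
def trl (v : E) : (E × Q) ≃ᵢ (E × Q) := prodI (IsometryEquiv.addRight v) (IsometryEquiv.refl Q)

theorem trl_apply (v : E) (x : E × Q) : trl v x = (x.1 + v, x.2) := rfl

include hν in
theorem cliff (hmid : ∀ x y : E × Q, ∃ m, IsMid m x y) {G : Type*} [Group G]
    (pE : G →* (E ≃ᵢ E)) (pQ : G →* (Q ≃ᵢ Q)) {R : ℝ} (hR : 0 < R) (F : E × Q → ℝ)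
    (hFc : Continuous F) (hav : ∀ x y, av ν R F x - F x = av ν R F y - F y) (c : G → ℝ)
    (hF : ∀ γ x, F (prodHom pE pQ γ x) = F x + c γ) (x0 : E × Q) (D : ℝ)
    (hcob : ∀ x, ∃ γ, dist (prodHom pE pQ γ x0) x ≤ D) (v1 : E) (x1 : E × Q)
    (hne : F (trl v1 x1) ≠ F x1) :
    ∃ T : (E × Q) ≃ᵢ (E × Q), ∃ c0 : ℝ, 0 < c0 ∧ (∀ x, F (T x) = F x + c0) ∧
      ∀ γ x, prodHom pE pQ γ (T x) = T (prodHom pE pQ γ x) := by
  have hA := fun γ => lin_part (pE γ)
  choose A hA using hA
  obtain ⟨Δ, hΔ⟩ : ∃ Δ : E → E × Q → ℝ, ∀ v x, Δ v x = F (trl v x) - F x := ⟨_, fun _ _ => rfl⟩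
  have hpT : ∀ γ v x, prodHom pE pQ γ (trl v x) = trl (A γ v) (prodHom pE pQ γ x) := by
    intro γ v x
    rw [prodHom_apply, prodHom_apply, trl_apply, trl_apply]
    simp only
    rw [hA]
  have hΔ2 : ∀ γ v x, Δ (A γ v) (prodHom pE pQ γ x) = Δ v x := by
    intro γ v x
    rw [hΔ, hΔ, ← hpT, hF, hF]
    ring
  have hΔadd : ∀ v w x, Δ (v + w) x = Δ v (trl w x) + Δ w x := by
    intro v w x
    rw [hΔ, hΔ, hΔ]
    have : trl (v + w) x = trl v (trl w x) := by
      rw [trl_apply, trl_apply, trl_apply]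
      simp only
      rw [add_comm v w, add_assoc]
    rw [this]
    ring
  have hΔc : Continuous fun z : E × (E × Q) => Δ z.1 z.2 := by
    have h1 : Continuous fun z : E × (E × Q) => (z.2.1 + z.1, z.2.2) :=
      ((continuous_fst.comp continuous_snd).add continuous_fst).prodMk
        (continuous_snd.comp continuous_snd)
    have h2 : (fun z : E × (E × Q) => Δ z.1 z.2) = fun z => F (z.2.1 + z.1, z.2.2) - F z.2 := by
      ext z
      rw [hΔ]
      rfl
    rw [h2]
    exact (hFc.comp h1).sub (hFc.comp continuous_snd)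
  obtain ⟨r, hr⟩ : ∃ r, r = ‖v1‖ := ⟨_, rfl⟩
  have hr0 : 0 ≤ r := hr ▸ norm_nonneg v1
  have hD0 : 0 ≤ D := by
    obtain ⟨γ, hγ⟩ := hcob x0
    exact dist_nonneg.trans hγ
  obtain ⟨⟨v0, xs⟩, hv0, hmax⟩ := ((isCompact_closedBall (0 : E) r).prod
    (isCompact_closedBall x0 D)).exists_isMaxOn
    ⟨(0, x0), Metric.mem_closedBall_self hr0, Metric.mem_closedBall_self hD0⟩ hΔc.continuousOn
  rw [isMaxOn_iff] at hmax
  have hmax' : ∀ v x, ‖v‖ ≤ r → Δ v x ≤ Δ v0 xs := by
    intro v x hv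
    obtain ⟨γ, hγ⟩ := hcob x
    have h1 := hΔ2 γ ((A γ).symm v) (prodHom pE pQ γ⁻¹ x)
    rw [p_apply_inv, (A γ).apply_symm_apply] at h1
    rw [h1]
    refine hmax ((A γ).symm v, prodHom pE pQ γ⁻¹ x) ⟨?_, ?_⟩
    · rw [mem_closedBall_zero_iff]
      show ‖(A γ).symm v‖ ≤ r
      rw [LinearIsometryEquiv.norm_map]
      exact hv
    · rw [Metric.mem_closedBall]
      show dist (prodHom pE pQ γ⁻¹ x) x0 ≤ D
      rw [← (prodHom pE pQ γ).isometry.dist_eq, p_apply_inv, dist_comm]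
      exact hγ
  obtain ⟨s, hs⟩ : ∃ s, s = Δ v0 xs := ⟨_, rfl⟩
  rw [← hs] at hmax'
  have hv0r : ‖v0‖ ≤ r := mem_closedBall_zero_iff.1 hv0.1
  have hs0 : 0 < s := by
    rcases lt_or_gt_of_ne hne with h | h
    · have h1 := hmax' (-v1) (trl v1 x1) (by rw [norm_neg, hr])
      rw [hΔ] at h1
      have h2 : trl (-v1) (trl v1 x1) = x1 := by
        rw [trl_apply, trl_apply]
        simp
      rw [h2] at h1
      linarith
    · have h1 := hmax' v1 x1 hr.ge
      rw [hΔ] at h1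
      linarith
  have hconst : ∀ x, Δ v0 x = s := by
    intro x
    rw [hs]
    have hFp : Continuous (fun y => F (trl v0 y)) := hFc.comp (trl v0).continuous
    refine max_principle' ν hmid hR (u := fun x => Δ v0 x)
      (hΔc.comp (continuous_const.prodMk continuous_id)) xs
      (fun x => by rw [← hs]; exact hmax' v0 x hv0r) (fun x => ?_) x
    have e : (fun x => Δ v0 x) = fun x => F (trl v0 x) - F x := by
      ext x
      exact hΔ v0 x
    rw [e, av_sub ν R hFp hFc, av_map ν R (trl v0) (hν _) F x]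
    have h1 := hav (trl v0 x) x
    rw [hΔ]
    linarith
  -- sums
  have hle : ∀ (u : E) (t : ℝ), (∀ x, Δ u x ≤ t) → ∀ (K : ℕ) x, Δ (K • u) x ≤ K * t := by
    intro u t hu K
    induction K with
    | zero =>
      intro x
      rw [zero_smul, hΔ, trl_apply]
      simp
    | succ K ih =>
      intro x
      rw [add_smul, one_smul, hΔadd]
      have h1 := ih (trl u x)
      have h2 := hu x
      push_cast
      linarith
  have hge : ∀ (u : E) (t : ℝ), (∀ x, t ≤ Δ u x) → ∀ (K : ℕ) x, K * t ≤ Δ (K • u) x := by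
    intro u t hu K
    induction K with
    | zero =>
      intro x
      rw [zero_smul, hΔ, trl_apply]
      simp
    | succ K ih =>
      intro x
      rw [add_smul, one_smul, hΔadd]
      have h1 := ih (trl u x)
      have h2 := hu x
      push_cast
      linarith
  have huniq : ∀ w, ‖w‖ ≤ r → (∀ x, Δ w x = s) → w = v0 := by
    intro w hw hws
    by_contra hwne
    have h1 : ‖(1 / 2 : ℝ) • w + (1 / 2 : ℝ) • v0‖ < r :=
      norm_combo_lt_of_ne hw hv0r hwne (by norm_num) (by norm_num) (by norm_num)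
    rw [← smul_add, norm_smul] at h1
    have h2 : ‖w + v0‖ < 2 * r := by
      rw [Real.norm_of_nonneg (by norm_num)] at h1
      linarith
    obtain ⟨N, hN⟩ := exists_nat_gt (r / (2 * r - ‖w + v0‖))
    have hpos : 0 < 2 * r - ‖w + v0‖ := by linarith
    rw [div_lt_iff₀ hpos] at hN
    have hrpos : 0 < r := by
      have := norm_nonneg (w + v0)
      linarith
    have hN1 : 1 ≤ N := by
      by_contra hcon
      have : N = 0 := by omega
      rw [this] at hN
      simp at hN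
      linarith
    obtain ⟨K, hK⟩ : ∃ K : ℕ, K + 1 = 2 * N := ⟨2 * N - 1, by omega⟩
    have hK0 : (0 : ℝ) < K := by
      have : 0 < K := by omega
      exact_mod_cast this
    have hKr : (K : ℝ) + 1 = 2 * N := by exact_mod_cast hK
    obtain ⟨u, hu⟩ : ∃ u, u = ((N : ℝ) / K) • (w + v0) := ⟨_, rfl⟩
    have hur : ‖u‖ ≤ r := by
      rw [hu, norm_smul, Real.norm_of_nonneg (by positivity), div_mul_eq_mul_div,
        div_le_iff₀ hK0]
      nlinarith
    have hKu : K • u = N • (w + v0) := by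
      rw [hu, ← Nat.cast_smul_eq_nsmul ℝ, ← Nat.cast_smul_eq_nsmul ℝ, smul_smul,
        mul_div_cancel₀ _ hK0.ne']
    have h3 := hle u s (fun x => hmax' u x hur) K x0
    have h4 := hge (w + v0) (2 * s) (fun x => by
      rw [hΔadd, hws, hconst]
      linarith) N x0
    rw [hKu] at h3
    nlinarith
  refine ⟨trl v0, s, hs0, fun x => ?_, fun γ x => ?_⟩
  · have := hconst x
    rw [hΔ] at this
    linarith
  · rw [hpT]
    have h1 : A γ v0 = v0 := by
      refine huniq _ ?_ fun x => ?_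
      · rw [LinearIsometryEquiv.norm_map]
        exact hv0r
      · have h2 := hΔ2 γ v0 (prodHom pE pQ γ⁻¹ x)
        rw [p_apply_inv] at h2
        rw [h2, hconst]
    rw [h1]

end cliff

end Pool.Agent.E8helper46.FL
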