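import Pool.Agent.E8helper46.FL.Branch

/-!
# Characters which vanish on vertex stabilizers

If a group acts coboundedly on a space with at least three ends, then a character with finitely
generated kernel does not vanish on the stabilizer of a point.
-/

set_option autoImplicit false

namespace Pool.Agent.E8helper46.FL

open Set

section

variable {Y G : Type*} [MetricSpace Y] [Group G] (q : G →* (Y ≃ᵢ Y)) (y0 : Y)

theorem orbit_dist (a b : G) : dist (q (a * b) y0) (q a y0) = dist (q b y0) y0 := by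
  have : q (a * b) y0 = q a (q b y0) := by rw [map_mul]; rfl
  rw [this]
  exact (q a).isometry.dist_eq _ _

variable {q y0}

theorem one_side (φ : G →* Multiplicative ℤ) (t : G) (ht : φ t = Multiplicative.ofAdd 1)
    (S : Set G) (hS : Subgroup.closure S = φ.ker) (D : ℝ)
    (hSD : ∀ s ∈ S, dist (q s y0) y0 ≤ D) (htD : dist (q t y0) y0 ≤ D)
    (B : Set Y) (cls : Y → Fin 3)
    (hcls : ∀ x y, x ∉ B → y ∉ B → dist x y ≤ D → cls x = cls y) (T : ℤ)
    (hT : ∀ γ, q γ y0 ∈ B → (φ γ).toAdd ≤ T) :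
    ∀ γ γ', T < (φ γ).toAdd → T < (φ γ').toAdd → cls (q γ y0) = cls (q γ' y0) := by
  have hB : ∀ γ, T < (φ γ).toAdd → q γ y0 ∉ B := fun γ h hb => absurd (hT γ hb) (not_le.2 h)
  have hlev : ∀ k ∈ φ.ker, ∀ γ, T < (φ γ).toAdd → cls (q (γ * k) y0) = cls (q γ y0) := by
    intro k hk
    rw [← hS] at hk
    have hmem : ∀ x ∈ Subgroup.closure S, φ x = 1 := by
      intro x hx
      rw [hS] at hx
      exact hx
    induction hk using Subgroup.closure_induction with
    | mem x hx =>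
      intro γ hγ
      refine hcls _ _ (hB _ ?_) (hB _ hγ) ?_
      · rw [map_mul, hmem x (Subgroup.subset_closure hx), mul_one]
        exact hγ
      · rw [orbit_dist]
        exact hSD x hx
    | one => intro γ _; rw [mul_one]
    | mul x y hx hy ihx ihy =>
      intro γ hγ
      rw [← mul_assoc, ihy (γ * x) (by rw [map_mul, hmem x hx, mul_one]; exact hγ), ihx γ hγ]
    | inv x hx ih =>
      intro γ hγ
      have h1 := ih (γ * x⁻¹) (by
        rw [map_mul, map_inv, hmem x hx, inv_one, mul_one]; exact hγ)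
      rw [inv_mul_cancel_right] at h1
      exact h1.symm
  have hpow : ∀ (m : ℕ) (γ : G), T < (φ γ).toAdd →
      T < (φ (γ * t ^ m)).toAdd ∧ cls (q (γ * t ^ m) y0) = cls (q γ y0) := by
    intro m γ hγ
    induction m with
    | zero => rw [pow_zero, mul_one]; exact ⟨hγ, rfl⟩
    | succ m ih =>
      have h1 : T < (φ (γ * t ^ (m + 1))).toAdd := by
        rw [pow_succ, ← mul_assoc, map_mul, ht, toAdd_mul, toAdd_ofAdd]
        have := ih.1
        omega
      refine ⟨h1, ?_⟩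
      rw [← ih.2]
      refine hcls _ _ (hB _ h1) (hB _ ih.1) ?_
      rw [pow_succ, ← mul_assoc, orbit_dist]
      exact htD
  have key : ∀ γ γ', T < (φ γ).toAdd → (φ γ).toAdd ≤ (φ γ').toAdd →
      cls (q γ y0) = cls (q γ' y0) := by
    intro γ γ' hγ hle
    obtain ⟨m, hm⟩ := Int.eq_ofNat_of_zero_le (sub_nonneg.2 hle)
    obtain ⟨h1, h2⟩ := hpow m γ hγ
    have h3 : (γ * t ^ m)⁻¹ * γ' ∈ φ.ker := by
      rw [MonoidHom.mem_ker, map_mul, map_inv, map_mul, map_pow, ht]
      apply Multiplicative.toAdd.injective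
      rw [toAdd_mul, toAdd_inv, toAdd_mul, toAdd_pow, toAdd_ofAdd, toAdd_one]
      simp
      omega
    have h4 := hlev _ h3 _ h1
    rw [mul_inv_cancel_left] at h4
    rw [h4, h2]
  intro γ γ' h1 h2
  rcases le_total (φ γ).toAdd (φ γ').toAdd with h | h
  · exact key γ γ' h1 h
  · exact (key γ' γ h2 h).symm

theorem no_fibre (φ : G →* Multiplicative ℤ) (hφ : Function.Surjective φ) (hK : φ.ker.FG)
    (h0 : ∀ γ, q γ y0 = y0 → φ γ = 1) (hC : ∃ R : ℝ, ∀ y, ∃ γ, dist (q γ y0) y ≤ R)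
    (hE : ThreeEnds Y) : False := by
  classical
  obtain ⟨S, hS⟩ := hK
  obtain ⟨t, ht⟩ := hφ (Multiplicative.ofAdd 1)
  obtain ⟨R, hR⟩ := hC
  obtain ⟨D0, hD0⟩ := (S.finite_toSet.image fun s => dist (q s y0) y0).bddAbove
  obtain ⟨D, hD⟩ : ∃ D, D = max D0 (dist (q t y0) y0) := ⟨_, rfl⟩
  have hSD : ∀ s ∈ (S : Set G), dist (q s y0) y0 ≤ D := fun s hs => by
    rw [hD]; exact (hD0 ⟨s, hs, rfl⟩).trans (le_max_left _ _)
  have htD : dist (q t y0) y0 ≤ D := by rw [hD]; exact le_max_right _ _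
  obtain ⟨B, cls, hBf, hcls, hdeep⟩ := hE D
  -- the function on the orbit
  have hwell : ∀ γ γ', q γ y0 = q γ' y0 → φ γ = φ γ' := by
    intro γ γ' h
    have h1 : q (γ'⁻¹ * γ) y0 = y0 := by
      have e1 : q (γ'⁻¹ * γ) y0 = q γ'⁻¹ (q γ y0) := by rw [map_mul]; rfl
      have e2 : q γ'⁻¹ (q γ' y0) = (q (γ'⁻¹ * γ') : Y ≃ᵢ Y) y0 := by rw [map_mul]; rfl
      rw [e1, h, e2, inv_mul_cancel, map_one]
      rfl
    have h2 := h0 _ h1
    rw [map_mul, map_inv, inv_mul_eq_one] at h2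
    exact h2.symm
  obtain ⟨ψ, hψ⟩ : ∃ ψ : Y → ℤ, ∀ γ, ψ (q γ y0) = (φ γ).toAdd := by
    refine ⟨fun y => if h : ∃ γ, q γ y0 = y then (φ h.choose).toAdd else 0, fun γ => ?_⟩
    have h : ∃ γ', q γ' y0 = q γ y0 := ⟨γ, rfl⟩
    simp only [dif_pos h]
    rw [hwell _ _ h.choose_spec]
  obtain ⟨T, hT⟩ := (hBf.image fun y => |ψ y|).bddAbove
  have hT' : ∀ γ, q γ y0 ∈ B → |(φ γ).toAdd| ≤ T := by
    intro γ h
    rw [← hψ]
    exact hT ⟨_, h, rfl⟩
  have hpos := one_side φ t ht S hS D hSD htD B cls hcls T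
    fun γ h => (le_abs_self _).trans (hT' γ h)
  have hneg := one_side φ⁻¹ t⁻¹ (by rw [MonoidHom.inv_apply, map_inv, inv_inv, ht]) S
    (by
      rw [hS]
      ext x
      rw [MonoidHom.mem_ker, MonoidHom.mem_ker, MonoidHom.inv_apply, inv_eq_one]) D hSD
    (by
      have h1 := orbit_dist q y0 t t⁻¹
      rw [mul_inv_cancel, map_one] at h1
      rw [← h1, dist_comm]
      exact htD) B cls hcls T
    fun γ h => by
      rw [MonoidHom.inv_apply, toAdd_inv]
      exact (neg_le_abs _).trans (hT' γ h)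
  obtain ⟨N, hN⟩ : ∃ N : ℕ, T < N := ⟨T.toNat + 1, by
    have := Int.self_le_toNat T; push_cast; omega⟩
  have htp : ∀ n : ℕ, (φ (t ^ n)).toAdd = n := by
    intro n
    rw [map_pow, ht, toAdd_pow, toAdd_ofAdd]
    simp
  obtain ⟨i, hi1, hi2⟩ : ∃ i : Fin 3, i ≠ cls (q (t ^ N) y0) ∧ i ≠ cls (q (t ^ N)⁻¹ y0) := by
    generalize cls (q (t ^ N) y0) = a
    generalize cls (q (t ^ N)⁻¹ y0) = b
    revert a b
    decide
  obtain ⟨y, hy⟩ := hdeep i (R + (2 * N : ℕ) * D)
  obtain ⟨γ, hγ⟩ := hR y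
  have hD0 : 0 ≤ D := dist_nonneg.trans htD
  have hself := hy (q γ y0) (hγ.trans (by
    have : (0 : ℝ) ≤ (2 * N : ℕ) * D := by positivity
    linarith))
  have hlt1 : (φ γ).toAdd ≤ T := by
    by_contra hcon
    have h1 := hpos γ (t ^ N) (not_le.1 hcon) (by rw [htp]; exact hN)
    exact hi1 (hself.2.symm.trans h1)
  have hlt2 : -T ≤ (φ γ).toAdd := by
    by_contra hcon
    have h1 := hneg γ (t ^ N)⁻¹ (by
      rw [MonoidHom.inv_apply, toAdd_inv]
      have := not_le.1 hcon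
      omega) (by
      rw [MonoidHom.inv_apply, toAdd_inv, map_inv, toAdd_inv, htp]
      omega)
    exact hi2 (hself.2.symm.trans h1)
  have hdist : ∀ m : ℕ, dist (q (γ * t ^ m) y0) (q γ y0) ≤ m * D := by
    intro m
    induction m with
    | zero => simp
    | succ m ih =>
      have h1 := dist_triangle (q (γ * t ^ (m + 1)) y0) (q (γ * t ^ m) y0) (q γ y0)
      have h2 : dist (q (γ * t ^ (m + 1)) y0) (q (γ * t ^ m) y0) ≤ D := by
        rw [pow_succ, ← mul_assoc, orbit_dist]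
        exact htD
      push_cast
      linarith
  have hfar := hy (q (γ * t ^ (2 * N)) y0) (by
    have h1 := dist_triangle (q (γ * t ^ (2 * N)) y0) (q γ y0) y
    have h2 := hdist (2 * N)
    linarith)
  have h3 := hpos (γ * t ^ (2 * N)) (t ^ N) (by
    rw [map_mul, toAdd_mul, htp]
    push_cast
    omega) (by rw [htp]; exact hN)
  exact hi1 (hfar.2.symm.trans h3)

end

end Pool.Agent.E8helper46.FL
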