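import Pool.Agent.E8helper46.FL.Iso

/-!
# The invariant measure of a homogeneous proper metric space
-/

set_option autoImplicit false

namespace Pool.Agent.E8helper46.FL

open Set Filter Topology MeasureTheory

theorem exists_measure (M : Type*) [MetricSpace M] [ProperSpace M] [Nonempty M]
    [MeasurableSpace M] [BorelSpace M] (htrans : ∀ x y : M, ∃ g : M ≃ᵢ M, g x = y) :
    ∃ ν : Measure M, IsFiniteMeasureOnCompacts ν ∧ ν.IsOpenPosMeasure ∧
      ∀ g : M ≃ᵢ M, MeasurePreserving g ν ν := by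
  obtain ⟨x0⟩ := (inferInstance : Nonempty M)
  let _ : MeasurableSpace (M ≃ᵢ M) := borel _
  have _ : BorelSpace (M ≃ᵢ M) := ⟨rfl⟩
  obtain ⟨μ, hμ⟩ : ∃ μ : Measure (M ≃ᵢ M), μ = Measure.haar := ⟨_, rfl⟩
  have hμh : μ.IsHaarMeasure := hμ ▸ inferInstance
  have hev : Measurable (fun g : M ≃ᵢ M => g x0) := (continuous_ev x0).measurable
  refine ⟨μ.map (fun g => g x0), ⟨fun K hK => ?_⟩, ⟨fun U hU hne => ?_⟩, fun g => ⟨?_, ?_⟩⟩
  · obtain ⟨r, hr⟩ := hK.isBounded.subset_closedBall x0
    rw [Measure.map_apply hev hK.measurableSet]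
    refine lt_of_le_of_lt (measure_mono ?_) (isCompact_bdd x0 r).measure_lt_top
    intro g hg
    exact hr hg
  · rw [Measure.map_apply hev hU.measurableSet]
    have ho : IsOpen ((fun g : M ≃ᵢ M => g x0) ⁻¹' U) := hU.preimage (continuous_ev x0)
    have hn : ((fun g : M ≃ᵢ M => g x0) ⁻¹' U).Nonempty := by
      obtain ⟨y, hy⟩ := hne
      obtain ⟨g, hg⟩ := htrans x0 y
      exact ⟨g, by rw [mem_preimage, hg]; exact hy⟩
    exact (ho.measure_pos μ hn).ne'
  · exact g.continuous.measurable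
  · rw [Measure.map_map g.continuous.measurable hev]
    have e : (⇑g ∘ fun h : M ≃ᵢ M => h x0) = (fun h : M ≃ᵢ M => h x0) ∘ fun h => g * h := by
      ext h
      rfl
    rw [e, ← Measure.map_map hev (continuous_const_mul g).measurable, map_mul_left_eq_self]

end Pool.Agent.E8helper46.FL
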