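import Pool.Agent.E8helper46.FL.Mark

/-!
# Harmonic functions for homomorphisms of commensurated cocompact subgroups
-/

set_option autoImplicit false
set_option linter.unusedSectionVars false

namespace Pool.Agent.E8helper46.FL

open Set Filter Topology MeasureTheory

section equi

variable {M : Type*} [MetricSpace M] {Γ : Type*} [Group Γ] (p : Γ →* (M ≃ᵢ M)) (Λ : Subgroup Γ)
  (x0 : M)

/-- a continuous function which is changed by `φ l` under the elements `l` of `Λ` -/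
theorem exists_equivariant (φ : Γ → ℝ) (hφ : ∀ a b, φ (a * b) = φ a + φ b)
    (A1 : ∀ r : ℝ, {l : Γ | l ∈ Λ ∧ dist (p l x0) x0 ≤ r}.Finite) {D : ℝ}
    (A2 : ∀ x, ∃ l ∈ Λ, dist (p l x0) x ≤ D) :
    ∃ F : M → ℝ, Continuous F ∧ ∀ l ∈ Λ, ∀ x, F (p l x) = F x + φ l := by
  obtain ⟨ψ, hψ⟩ : ∃ ψ : Λ → M → ℝ, ψ = fun (l : Λ) x => ker (D + 1) x (p l x0) := ⟨_, rfl⟩
  have hψc : ∀ l, Continuous (ψ l) := by
    intro l
    rw [hψ]
    exact (ker_cont (D + 1)).comp (continuous_id.prodMk continuous_const)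
  have hψ0 : ∀ l x, 0 ≤ ψ l x := by
    intro l x
    rw [hψ]
    exact ker_nonneg _ _ _
  have hfin : ∀ (x1 : M) (r : ℝ), {l : Λ | dist (p l x0) x1 ≤ r}.Finite := by
    intro x1 r
    have h1 := (A1 (r + dist x1 x0)).preimage (f := ((↑) : Λ → Γ)) Subtype.coe_injective.injOn
    refine h1.subset fun l hl => ?_
    refine ⟨l.2, ?_⟩
    have := dist_triangle (p l x0) x1 x0
    have h2 : dist (p l x0) x1 ≤ r := hl
    linarith
  have hsupp : ∀ l x, ψ l x ≠ 0 → dist (p l x0) x ≤ D + 1 := by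
    intro l x h
    by_contra hlt
    push Not at hlt
    apply h
    rw [hψ]
    apply ker_eq_zero
    rw [dist_comm]
    exact hlt.le
  have hlf : LocallyFinite fun l : Λ => Function.support (ψ l) := by
    intro x1
    refine ⟨Metric.ball x1 1, Metric.ball_mem_nhds x1 one_pos, ?_⟩
    refine (hfin x1 (D + 2)).subset ?_
    rintro l ⟨y, hy1, hy2⟩
    rw [Metric.mem_ball] at hy2
    have := hsupp l y hy1
    have := dist_triangle (p l x0) y x1
    show dist (p l x0) x1 ≤ D + 2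
    linarith
  have hfs : ∀ x, (fun l : Λ => ψ l x).HasFiniteSupport := by
    intro x
    refine (hfin x (D + 1)).subset fun l hl => hsupp l x hl
  have hfs' : ∀ x, (fun l : Λ => φ l * ψ l x).HasFiniteSupport := by
    intro x
    refine (hfs x).subset fun l hl => ?_
    intro (h : ψ l x = 0)
    apply hl
    show φ l * ψ l x = 0
    rw [h, mul_zero]
  obtain ⟨S, hS⟩ : ∃ S : M → ℝ, S = fun x => ∑ᶠ l : Λ, ψ l x := ⟨_, rfl⟩
  obtain ⟨N, hN⟩ : ∃ N : M → ℝ, N = fun x => ∑ᶠ l : Λ, φ l * ψ l x := ⟨_, rfl⟩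
  have hSc : Continuous S := by
    rw [hS]
    exact continuous_finsum hψc hlf
  have hNc : Continuous N := by
    rw [hN]
    refine continuous_finsum (fun l => continuous_const.mul (hψc l)) ?_
    refine hlf.subset fun l x hx (h : ψ l x = 0) => hx ?_
    show φ l * ψ l x = 0
    rw [h, mul_zero]
  have hSpos : ∀ x, 0 < S x := by
    intro x
    obtain ⟨l, hl, hlD⟩ := A2 x
    have h1 : ψ ⟨l, hl⟩ x ≤ S x := by
      rw [hS]
      exact single_le_finsum ⟨l, hl⟩ (hfs x) fun l => hψ0 l x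
    refine lt_of_lt_of_le ?_ h1
    rw [hψ]
    apply ker_pos
    rw [dist_comm]
    show dist (p l x0) x < D + 1
    linarith
  have hψm : ∀ (m l : Λ) (x : M), ψ l (p m x) = ψ (m⁻¹ * l) x := by
    intro m l x
    rw [hψ]
    show ker (D + 1) (p m x) (p l x0) = ker (D + 1) x (p ((m⁻¹ * l : Λ) : Γ) x0)
    rw [← ker_map (D + 1) (p m) x]
    congr 1
    have : (p m) ((p ((m⁻¹ * l : Λ) : Γ)) x0) = (p (m * (m⁻¹ * l : Λ)) : M ≃ᵢ M) x0 := by
      rw [map_mul]; rfl
    rw [this]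
    congr 2
    rw [Subgroup.coe_mul, Subgroup.coe_inv, mul_inv_cancel_left]
  have hSm : ∀ (m : Λ) (x : M), S (p m x) = S x := by
    intro m x
    rw [hS]
    show ∑ᶠ l : Λ, ψ l (p m x) = ∑ᶠ l : Λ, ψ l x
    simp_rw [hψm m]
    exact finsum_comp_equiv (Equiv.mulLeft m⁻¹) (f := fun l => ψ l x)
  have hNm : ∀ (m : Λ) (x : M), N (p m x) = φ m * S x + N x := by
    intro m x
    rw [hN, hS]
    show ∑ᶠ l : Λ, φ l * ψ l (p m x) = φ m * ∑ᶠ l : Λ, ψ l x + ∑ᶠ l : Λ, φ l * ψ l x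
    simp_rw [hψm m]
    have h1 : ∀ l : Λ, φ l * ψ (m⁻¹ * l) x =
        (fun l : Λ => φ m * ψ l x + φ l * ψ l x) (Equiv.mulLeft m⁻¹ l) := by
      intro l
      show φ l * ψ (m⁻¹ * l) x = φ m * ψ (m⁻¹ * l) x + φ ((m⁻¹ * l : Λ) : Γ) * ψ (m⁻¹ * l) x
      have : φ l = φ m + φ ((m⁻¹ * l : Λ) : Γ) := by
        rw [← hφ, Subgroup.coe_mul, Subgroup.coe_inv, mul_inv_cancel_left]
      rw [this]
      ring
    simp_rw [h1]
    rw [finsum_comp_equiv (Equiv.mulLeft m⁻¹) (f := fun l => φ m * ψ l x + φ l * ψ l x)]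
    rw [mul_finsum]
    refine finsum_add_distrib ?_ (hfs' x)
    refine (hfs x).subset fun l hl (h : ψ l x = 0) => hl ?_
    show φ m * ψ l x = 0
    rw [h, mul_zero]
  refine ⟨fun x => N x / S x, hNc.div hSc fun x => (hSpos x).ne', fun l hl x => ?_⟩
  have h1 := hSm ⟨l, hl⟩ x
  have h2 := hNm ⟨l, hl⟩ x
  simp only at h1 h2
  show N (p l x) / S (p l x) = N x / S x + φ l
  rw [h1, h2, add_div, mul_div_assoc, div_self (hSpos x).ne']
  ring

end equi

section harm

variable {M : Type*} [MetricSpace M] [ProperSpace M] [MeasurableSpace M] [BorelSpace M]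
  (ν : Measure M) [IsFiniteMeasureOnCompacts ν] [ν.IsOpenPosMeasure]
  {Γ : Type*} [Group Γ] (p : Γ →* (M ≃ᵢ M)) (hν : ∀ γ, MeasurePreserving (p γ) ν ν)
  (Λ : Subgroup Γ) (x0 : M)

/-- continuous functions invariant under a cobounded set of isometries attain their bounds -/
theorem attains (Q : Set (M ≃ᵢ M)) {D : ℝ} (hQ : ∀ x, ∃ g ∈ Q, dist (g x0) x ≤ D)
    {u : M → ℝ} (hu : Continuous u) (hinv : ∀ g ∈ Q, ∀ x, u (g x) = u x) :
    ∃ a b : M, dist a x0 ≤ D ∧ dist b x0 ≤ D ∧ (∀ x, u a ≤ u x) ∧ ∀ x, u x ≤ u b := by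
  have hne : (Metric.closedBall x0 D).Nonempty := by
    obtain ⟨g, -, h⟩ := hQ x0
    exact ⟨x0, Metric.mem_closedBall_self (dist_nonneg.trans h)⟩
  obtain ⟨a, ha, hamin⟩ := (isCompact_closedBall x0 D).exists_isMinOn hne hu.continuousOn
  obtain ⟨b, hb, hbmax⟩ := (isCompact_closedBall x0 D).exists_isMaxOn hne hu.continuousOn
  rw [isMinOn_iff] at hamin
  rw [isMaxOn_iff] at hbmax
  have hmove : ∀ x, ∃ y ∈ Metric.closedBall x0 D, u x = u y := by
    intro x
    obtain ⟨g, hg, hd⟩ := hQ x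
    refine ⟨g.symm x, ?_, ?_⟩
    · rw [Metric.mem_closedBall, dist_comm]
      have : dist x0 (g.symm x) = dist (g x0) (g (g.symm x)) := (g.isometry.dist_eq _ _).symm
      rw [this, g.apply_symm_apply]
      exact hd
    · conv_lhs => rw [← g.apply_symm_apply x]
      exact hinv g hg _
  refine ⟨a, b, ha, hb, fun x => ?_, fun x => ?_⟩
  · obtain ⟨y, hy, e⟩ := hmove x
    rw [e]
    exact hamin y hy
  · obtain ⟨y, hy, e⟩ := hmove x
    rw [e]
    exact hbmax y hy

include hν in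
theorem exists_harmonic_one (φ : Γ → ℝ) (hφ : ∀ a b, φ (a * b) = φ a + φ b)
    (A1 : ∀ r : ℝ, {l : Γ | l ∈ Λ ∧ dist (p l x0) x0 ≤ r}.Finite)
    (A2 : ∃ D : ℝ, ∀ x, ∃ l ∈ Λ, dist (p l x0) x ≤ D) :
    ∃ R : ℝ, 0 < R ∧ ∃ F : M → ℝ, Continuous F ∧ (∀ l ∈ Λ, ∀ x, F (p l x) = F x + φ l) ∧
      ∀ x y, av ν R F x - F x = av ν R F y - F y := by
  obtain ⟨D0, hD0⟩ := A2
  obtain ⟨D, hD⟩ : ∃ D, D = max D0 1 := ⟨_, rfl⟩
  have hDpos : 0 < D := hD ▸ lt_max_of_lt_right one_pos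
  have hDc : ∀ x, ∃ l ∈ Λ, dist (p l x0) x ≤ D := by
    intro x
    obtain ⟨l, hl, h⟩ := hD0 x
    exact ⟨l, hl, h.trans (hD ▸ le_max_left _ _)⟩
  obtain ⟨F0, hF0c, hF0⟩ := exists_equivariant p Λ x0 φ hφ A1 hDc
  obtain ⟨R, hR⟩ : ∃ R, R = 2 * D + 1 := ⟨_, rfl⟩
  have hRpos : 0 < R := by linarith
  obtain ⟨θ, hθ0, hθ1, hθ⟩ := contraction ν x0 hDpos (R := R) (by linarith)
  obtain ⟨f, hf0, hfs⟩ : ∃ f : ℕ → M → ℝ, f 0 = F0 ∧ ∀ n, f (n + 1) = av ν R (f n) :=
    ⟨fun n => Nat.rec F0 (fun _ g => av ν R g) n, rfl, fun n => rfl⟩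
  have hfc : ∀ n, Continuous (f n) := by
    intro n
    induction n with
    | zero => rw [hf0]; exact hF0c
    | succ n ih => rw [hfs]; exact av_cont ν hRpos ih
  have hfe : ∀ n, ∀ l ∈ Λ, ∀ x, f n (p l x) = f n x + φ l := by
    intro n
    induction n with
    | zero => rw [hf0]; exact hF0
    | succ n ih =>
      intro l hl x
      rw [hfs]
      exact av_shift ν hRpos (p l) (hν l) (hfc n) (ih l hl) x
  obtain ⟨u, hu⟩ : ∃ u : ℕ → M → ℝ, u = fun n x => f (n + 1) x - f n x := ⟨_, rfl⟩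
  have huc : ∀ n, Continuous (u n) := by
    intro n
    rw [hu]
    exact (hfc (n + 1)).sub (hfc n)
  have hue : ∀ n, ∀ l ∈ Λ, ∀ x, u n (p l x) = u n x := by
    intro n l hl x
    rw [hu]
    show f (n + 1) (p l x) - f n (p l x) = f (n + 1) x - f n x
    rw [hfe _ l hl, hfe _ l hl]
    ring
  have hus : ∀ n, u (n + 1) = av ν R (u n) := by
    intro n
    rw [hu]
    ext x
    show f (n + 1 + 1) x - f (n + 1) x = av ν R (fun x => f (n + 1) x - f n x) x
    rw [av_sub ν R (hfc _) (hfc _), ← hfs, ← hfs]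
  have hatt := fun n => attains x0 (p '' (Λ : Set Γ)) (D := D)
    (fun x => by
      obtain ⟨l, hl, h⟩ := hDc x
      exact ⟨p l, ⟨l, hl, rfl⟩, h⟩) (huc n)
    (by
      rintro _ ⟨l, hl, rfl⟩ x
      exact hue n l hl x)
  obtain ⟨a0, b0, -, -, ha0, hb0⟩ := hatt 0
  obtain ⟨c, hc⟩ : ∃ c, c = u 0 b0 - u 0 a0 := ⟨_, rfl⟩
  have hc0 : 0 ≤ c := by
    have := ha0 b0
    linarith
  have hosc : ∀ n x y, u n x - u n y ≤ c * θ ^ n := by
    intro n
    induction n with
    | zero =>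
      intro x y
      have h1 := ha0 y
      have h2 := hb0 x
      rw [pow_zero, mul_one]
      linarith
    | succ n ih =>
      intro x y
      obtain ⟨a, b, -, -, ha, hb⟩ := hatt n
      obtain ⟨a', b', ha1, hb1, ha', hb'⟩ := hatt (n + 1)
      have h1 := hθ (u n) (huc n) (u n a) (u n b) ha hb a' b' ha1 hb1
      rw [← hus] at h1
      have h2 := ih b a
      have h3 := ha' y
      have h4 := hb' x
      have h5 : θ * (u n b - u n a) ≤ θ * (c * θ ^ n) := mul_le_mul_of_nonneg_left h2 hθ0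
      rw [pow_succ]
      linarith
  obtain ⟨g, hg⟩ : ∃ g : ℕ → M → ℝ, g = fun n x => f n x - f n x0 := ⟨_, rfl⟩
  have hgd : ∀ x n, dist (g n x) (g (n + 1) x) ≤ c * θ ^ n := by
    intro x n
    rw [dist_comm, Real.dist_eq, hg]
    show |f (n + 1) x - f (n + 1) x0 - (f n x - f n x0)| ≤ c * θ ^ n
    have h1 := hosc n x x0
    have h2 := hosc n x0 x
    rw [hu] at h1 h2
    simp only at h1 h2
    rw [abs_le]
    constructor <;> linarith
  have hlim : ∀ x, ∃ z, Tendsto (fun n => g n x) atTop (𝓝 z) := fun x =>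
    cauchySeq_tendsto_of_complete (cauchySeq_of_le_geometric θ c hθ1 (hgd x))
  choose F hF using hlim
  have hFd : ∀ x n, dist (g n x) (F x) ≤ c * θ ^ n / (1 - θ) := fun x n =>
    dist_le_of_le_geometric_of_tendsto θ c hθ1 (hgd x) (hF x) n
  have hgc : ∀ n, Continuous (g n) := by
    intro n
    rw [hg]
    exact (hfc n).sub continuous_const
  have hsmall : Tendsto (fun n : ℕ => c * θ ^ n / (1 - θ)) atTop (𝓝 0) := by
    have := ((tendsto_pow_atTop_nhds_zero_of_lt_one hθ0 hθ1).const_mul c).div_const (1 - θ)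
    simpa using this
  have hFc : Continuous F := by
    have hunif : TendstoUniformly g F atTop := by
      rw [Metric.tendstoUniformly_iff]
      intro ε hε
      filter_upwards [hsmall.eventually_lt_const hε] with n hn x
      rw [dist_comm]
      exact (hFd x n).trans_lt hn
    exact hunif.continuous (Eventually.frequently (Eventually.of_forall hgc))
  refine ⟨R, hRpos, F, hFc, ?_, ?_⟩
  · intro l hl x
    refine tendsto_nhds_unique (hF (p l x)) ?_
    refine ((hF x).add_const (φ l)).congr fun n => ?_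
    rw [hg]
    show f n x - f n x0 + φ l = f n (p l x) - f n x0
    rw [hfe n l hl]
    ring
  · -- the averages converge
    have hav : ∀ x, Tendsto (fun n => av ν R (g n) x) atTop (𝓝 (av ν R F x)) := by
      intro x
      rw [tendsto_iff_dist_tendsto_zero]
      refine squeeze_zero (fun _ => dist_nonneg) (fun n => ?_) hsmall
      rw [Real.dist_eq, ← av_sub ν R (hgc n) hFc, abs_le]
      have h1 : ∀ y, |g n y - F y| ≤ c * θ ^ n / (1 - θ) := fun y => by
        rw [← Real.dist_eq]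
        exact hFd y n
      exact ⟨le_av ν hRpos ((hgc n).sub hFc) (fun y => (abs_le.1 (h1 y)).1) x,
        av_le ν hRpos ((hgc n).sub hFc) (fun y => (abs_le.1 (h1 y)).2) x⟩
    have hrel : ∀ n x, av ν R (g n) x - g (n + 1) x = f (n + 1) x0 - f n x0 := by
      intro n x
      have h1 : g n = fun y => f n y - (fun _ => f n x0) y := by rw [hg]
      have h2 : av ν R (g n) x = f (n + 1) x - f n x0 := by
        rw [h1, av_sub ν R (hfc n) continuous_const, av_const ν hRpos, ← hfs]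
      have h3 : g (n + 1) x = f (n + 1) x - f (n + 1) x0 := by rw [hg]
      rw [h2, h3]
      ring
    intro x y
    have h1 := (hav x).sub ((hF x).comp (tendsto_add_atTop_nat 1))
    have h2 := (hav y).sub ((hF y).comp (tendsto_add_atTop_nat 1))
    refine tendsto_nhds_unique h1 (h2.congr fun n => ?_)
    show av ν R (g n) y - g (n + 1) y = av ν R (g n) x - g (n + 1) x
    rw [hrel, hrel]

/-- the maximum principle -/
theorem max_principle (hmid : ∀ x y : M, ∃ m, IsMid m x y) (Q : Set (M ≃ᵢ M)) {D : ℝ}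
    (hQ : ∀ x, ∃ g ∈ Q, dist (g x0) x ≤ D) {R : ℝ} (hR : 0 < R) {u : M → ℝ} (hu : Continuous u)
    (hinv : ∀ g ∈ Q, ∀ x, u (g x) = u x) (hP : ∀ x, av ν R u x = u x) (x y : M) : u x = u y := by
  obtain ⟨-, b, -, -, -, hb⟩ := attains x0 Q hQ hu hinv
  have step : ∀ x, u x = u b → ∀ y, dist x y < R → u y = u b := by
    intro x hx y hy
    by_contra hne
    have hlt : u y < u b := lt_of_le_of_ne (hb y) hne
    have h1 : 0 < kint ν R (fun z => u b - u z) x := by
      refine ((ker_cont_right R x).mul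
        (continuous_const.sub hu)).integral_pos_of_hasCompactSupport_nonneg_nonzero
        (x := y) (ker_hcs R x _) (fun z => ?_) ?_
      · exact mul_nonneg (ker_nonneg R x z) (sub_nonneg.2 (hb z))
      · exact mul_ne_zero (ker_pos hy).ne' (sub_pos.2 hlt).ne'
    have h2 : 0 < av ν R (fun z => u b - u z) x := div_pos h1 (kint_one_pos ν hR x)
    rw [av_sub ν R continuous_const hu, av_const ν hR, hP, hx] at h2
    linarith
  have main : ∀ n : ℕ, ∀ x, u x = u b → ∀ y, dist x y < 2 ^ n * R → u y = u b := by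
    intro n
    induction n with
    | zero =>
      intro x hx y hy
      exact step x hx y (by simpa using hy)
    | succ n ih =>
      intro x hx y hy
      obtain ⟨m, hm⟩ := hmid x y
      rw [pow_succ] at hy
      have h1 : dist x m < 2 ^ n * R := by rw [hm.1]; linarith
      have h2 : dist m y < 2 ^ n * R := by rw [dist_comm, hm.2]; linarith
      exact ih m (ih x hx m h1) y h2
  have all : ∀ y, u y = u b := by
    intro y
    obtain ⟨n, hn⟩ := pow_unbounded_of_one_lt (dist b y / R) (by norm_num : (1 : ℝ) < 2)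
    rw [div_lt_iff₀ hR] at hn
    exact main n b rfl y hn
  rw [all x, all y]

include hν in
/-- **The harmonic function.** -/
theorem exists_harmonic (hmid : ∀ x y : M, ∃ m, IsMid m x y) (φ : Γ → ℝ)
    (hφ : ∀ a b, φ (a * b) = φ a + φ b)
    (A1 : ∀ r : ℝ, {l : Γ | l ∈ Λ ∧ dist (p l x0) x0 ≤ r}.Finite)
    (A2 : ∃ D : ℝ, ∀ x, ∃ l ∈ Λ, dist (p l x0) x ≤ D)
    (A3 : ∀ γ : Γ, ∃ D : ℝ, ∀ x, ∃ l ∈ Λ, γ * l * γ⁻¹ ∈ Λ ∧ dist (p l x0) x ≤ D) :
    ∃ F : M → ℝ, Continuous F ∧ ∃ c : Γ → ℝ, (∀ γ x, F (p γ x) = F x + c γ) ∧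
      ∀ l ∈ Λ, c l = φ l := by
  obtain ⟨R, hR, F, hFc, hF, hP⟩ := exists_harmonic_one ν p hν Λ x0 φ hφ A1 A2
  have hone : φ 1 = 0 := by
    have := hφ 1 1
    rw [mul_one] at this
    linarith
  have hinvφ : ∀ a, φ a⁻¹ = - φ a := by
    intro a
    have := hφ a a⁻¹
    rw [mul_inv_cancel, hone] at this
    linarith
  refine ⟨F, hFc, fun γ => F (p γ x0) - F x0, ?_, ?_⟩
  · intro γ x
    obtain ⟨D, hD⟩ := A3 γ
    have hpc : Continuous (p γ) := (p γ).continuous
    have key := max_principle ν x0 hmid (p '' {l : Γ | l ∈ Λ ∧ γ * l * γ⁻¹ ∈ Λ}) (D := D)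
      (fun x => by
        obtain ⟨l, hl, hl2, h⟩ := hD x
        exact ⟨p l, ⟨l, ⟨hl, hl2⟩, rfl⟩, h⟩) hR (u := fun x => F (p γ x) - F x)
      ((hFc.comp hpc).sub hFc) ?_ ?_ x x0
    · linarith
    · rintro _ ⟨l, ⟨hl, hl2⟩, rfl⟩ x
      have e1 : p γ (p l x) = p (γ * l * γ⁻¹) (p γ x) := by
        have : p (γ * l * γ⁻¹) (p γ x) = (p ((γ * l * γ⁻¹) * γ) : M ≃ᵢ M) x := by
          rw [map_mul _ (γ * l * γ⁻¹) γ]; rfl
        rw [this, inv_mul_cancel_right, map_mul]
        rfl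
      show F (p γ (p l x)) - F (p l x) = F (p γ x) - F x
      rw [e1, hF _ hl2, hF _ hl, hφ, hφ, hinvφ]
      ring
    · intro x
      have hFp : Continuous (fun y => F (p γ y)) := hFc.comp hpc
      rw [av_sub ν R hFp hFc]
      have h1 := hP (p γ x) x
      have h2 := av_map ν R (p γ) (hν γ) F x
      rw [h2]
      linarith
  · intro l hl
    show F (p l x0) - F x0 = φ l
    rw [hF l hl]
    ring

end harm

end Pool.Agent.E8helper46.FL
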