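import Pool.Agent.E8helper46.FL.CN
import Pool.Agent.E8helper46.FL.Harm
import Pool.Agent.E8helper46.FL.Haar
import Pool.Agent.E8helper46.FL.Ends
import Pool.Agent.E8helper46.FL.Center

/-!
# The core of the argument
-/

set_option autoImplicit false

namespace Pool.Agent.E8helper46.FL

open Set MeasureTheory

theorem exists_reflect {M : Type*} [MetricSpace M] (hCN : HasCN M)
    (hR : ∀ p : M, ∃ s : M ≃ᵢ M, IsReflection s p) (x y : M) : ∃ g : M ≃ᵢ M, g x = y := by
  obtain ⟨m, hm, -⟩ := exists_mid hCN x y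
  obtain ⟨s, hs⟩ := hR m
  exact ⟨s, (hs x y).2 hm⟩

theorem unbounded_of_threeEnds {Y : Type*} [MetricSpace Y] (hE : ThreeEnds Y) (y0 : Y) (r : ℝ) :
    ∃ y, r < dist y y0 := by
  obtain ⟨B, cls, -, -, h⟩ := hE 0
  by_contra hcon
  push Not at hcon
  obtain ⟨y, hy⟩ := h 0 (2 * r)
  obtain ⟨y', hy'⟩ := h 1 (2 * r)
  have h1 : ∀ a b : Y, dist a b ≤ 2 * r := by
    intro a b
    have h2 := hcon a
    have h3 := hcon b
    have h4 := dist_triangle a y0 b
    rw [dist_comm y0 b] at h4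
    linarith
  have h2 := (hy y (h1 _ _)).2
  have h3 := (hy' y (h1 _ _)).2
  rw [h2] at h3
  exact absurd h3 (by decide)

theorem core {M Y G : Type*} [MetricSpace M] [MetricSpace Y] [Group G] [ProperSpace M]
    (hCN : HasCN M) (hR : ∀ p : M, ∃ s : M ≃ᵢ M, IsReflection s p)
    (p : G →* (M ≃ᵢ M)) (q : G →* (Y ≃ᵢ Y)) (x0 : M) (y0 : Y)
    (hP : ∀ r : ℝ, {γ : G | dist (p γ x0) x0 ≤ r ∧ dist (q γ y0) y0 ≤ r}.Finite)
    (hC : ∃ R : ℝ, ∀ (x : M) (y : Y), ∃ γ : G, dist (p γ x0) x ≤ R ∧ dist (q γ y0) y ≤ R)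
    (hY : ∀ (y : Y) (r : ℝ), {z : Y | dist z y ≤ r}.Finite)
    (hE : ThreeEnds Y) (hirr : NotProduct G) (φ : G →* Multiplicative ℤ)
    (hφ : Function.Surjective φ) (hK : φ.ker.FG)
    (hD : ∀ s t : M ≃ᵢ M, ∀ a b : M, IsReflection s a → IsReflection t b →
      t.trans s ∈ closure (Set.range p)) : False := by
  classical
  let _ : MeasurableSpace M := borel M
  have _ : BorelSpace M := ⟨rfl⟩
  have _ : Nonempty M := ⟨x0⟩
  obtain ⟨ν, hν1, hν2, hν3⟩ := exists_measure M (exists_reflect hCN hR)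
  have hf : ∀ a b : G, ((φ (a * b)).toAdd : ℝ) = (φ a).toAdd + (φ b).toAdd := by
    intro a b
    rw [map_mul, toAdd_mul]
    push_cast
    ring
  obtain ⟨F, hFc, c, hFe, hcφ⟩ := exists_harmonic ν p (fun γ => hν3 (p γ)) (stab q y0) x0
    (fun x y => (exists_mid hCN x y).imp fun _ h => h.1)
    (fun γ => ((φ γ).toAdd : ℝ)) hf (stab_A1 p q x0 y0 hP)
    (stab_A2 p q x0 y0 hC hY) (stab_A3 p q x0 y0 hC hY)
  by_cases hconst : ∃ a b, F a ≠ F b
  · obtain ⟨a, b, hab⟩ := hconst
    -- all transvections shift `F`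
    have hcl : IsClosed {g : M ≃ᵢ M | Shifts F g} := by
      have h1 : {g : M ≃ᵢ M | Shifts F g} =
          ⋂ x, ⋂ y, {g : M ≃ᵢ M | F (g x) - F x = F (g y) - F y} := by
        ext g
        simp only [mem_iInter]
        rfl
      rw [h1]
      exact isClosed_iInter fun x => isClosed_iInter fun y =>
        isClosed_eq ((hFc.comp (continuous_ev x)).sub continuous_const)
          ((hFc.comp (continuous_ev y)).sub continuous_const)
    have hsub : Set.range p ⊆ {g : M ≃ᵢ M | Shifts F g} := by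
      rintro _ ⟨γ, rfl⟩ x y
      rw [hFe, hFe]
      ring
    have hTS : TShift F := fun a b s t hs ht =>
      (hcl.closure_subset_iff.2 hsub) (hD s t a b hs ht)
    obtain ⟨T, c0, hc0, hT, hTc⟩ := exists_shift hCN hR hTS hFc hab
    -- generators
    obtain ⟨S, hS⟩ := hK
    obtain ⟨t, ht⟩ := hφ (Multiplicative.ofAdd 1)
    have hgen : Subgroup.closure ((S : Set G) ∪ {t}) = ⊤ := by
      rw [eq_top_iff]
      intro g _
      have h1 : g * (t ^ (φ g).toAdd)⁻¹ ∈ φ.ker := by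
        rw [MonoidHom.mem_ker, map_mul, map_inv, map_zpow, ht, mul_inv_eq_one]
        apply Multiplicative.toAdd.injective
        rw [toAdd_zpow, toAdd_ofAdd, smul_eq_mul, mul_one]
      rw [← hS] at h1
      have h2 := Subgroup.closure_mono (subset_union_left (t := {t})) h1
      have h3 : t ∈ Subgroup.closure ((S : Set G) ∪ {t}) := Subgroup.subset_closure (Or.inr rfl)
      have h4 := Subgroup.mul_mem _ h2 (Subgroup.zpow_mem _ h3 (φ g).toAdd)
      rwa [inv_mul_cancel_right] at h4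
    have hfin : ((S : Set G) ∪ {t}).Finite := S.finite_toSet.union (finite_singleton t)
    obtain ⟨z, hz, hcz⟩ := exists_central p q x0 y0 hP hC _ hfin hgen F hFc c hFe T c0 hc0 hT
      (fun γ x => hTc (p γ) (hsub ⟨γ, rfl⟩) x)
    have hadd : ∀ a b, c (a * b) = c a + c b := by
      intro a b
      have h2 := hFe (a * b) x0
      have h3 : p (a * b) x0 = p a (p b x0) := by rw [map_mul]; rfl
      rw [h3, hFe, hFe] at h2
      linarith
    obtain ⟨ψ, hψ⟩ := exists_psi _ hfin hgen c hadd z hcz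
    have hinf := infinite_ker p q x0 y0 hY hC (unbounded_of_threeEnds hE y0) F hFc T c0 hc0 hT z
      hz ψ hψ
    obtain ⟨h1, h2⟩ := zpowers_inf ψ z hψ
    refine hirr ψ.ker (Subgroup.zpowers z) hinf h2 ?_ h1 (finiteIndex_of_psi ψ z hψ)
    rintro a - _ ⟨n, rfl⟩
    exact ((show Commute z a from hz a).symm.zpow_right n).eq
  · push Not at hconst
    refine no_fibre φ hφ hK ?_ ?_ hE (q := q) (y0 := y0)
    · intro γ hγ
      have h1 := hcφ γ hγ
      have h2 := hFe γ x0
      rw [hconst _ x0] at h2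
      have h3 : ((φ γ).toAdd : ℝ) = 0 := by linarith
      apply Multiplicative.toAdd.injective
      rw [toAdd_one]
      exact_mod_cast h3
    · obtain ⟨R, hR⟩ := hC
      refine ⟨R, fun y => ?_⟩
      obtain ⟨γ, -, h⟩ := hR x0 y
      exact ⟨γ, h⟩

end Pool.Agent.E8helper46.FL
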