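import Pool.Agent.E8helper46.FL.StarG
import Pool.Agent.E8helper46.FL.Center

/-!
# The splitting of a lattice with a normal subgroup of a special form
-/

set_option autoImplicit false
set_option linter.unusedSectionVars false

namespace Pool.Agent.E8helper46.FL

open Set Filter Topology

open scoped Matrix.Norms.L2Operator

section

variable {X : Type*} [MetricSpace X] {Γ : Type*} [Group Γ] (p : Γ →* (X ≃ᵢ X)) (x0 : X)

theorem dist_mul (a b : Γ) : dist (p (a * b) x0) x0 ≤ dist (p a x0) x0 + dist (p b x0) x0 := by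
  have h1 := dist_triangle (p (a * b) x0) (p a x0) x0
  rw [p_mul_apply, (p a).isometry.dist_eq] at h1
  rw [p_mul_apply]
  linarith

theorem dist_inv_mul (a b : Γ) : dist (p (a⁻¹ * b) x0) x0 = dist (p b x0) (p a x0) := by
  rw [← (p a).isometry.dist_eq, ← p_mul_apply, mul_inv_cancel_left]

end

variable {E : Type*} [NormedAddCommGroup E] [InnerProductSpace ℝ E] [FiniteDimensional ℝ E]
  {n : ℕ} {Y : Type*} [MetricSpace Y] {Γ : Type*} [Group Γ]
  (pE : Γ →* (E ≃ᵢ E)) (pM : Γ →* (Mat n)ˣ) (q : Γ →* (Y ≃ᵢ Y)) (y0 : Y)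

/-- the elements of a small displacement -/
def Small (r : ℝ) : Set Γ := {γ | dist (pE γ 0) 0 ≤ r ∧ len (pM γ) ≤ r ∧ dist (q γ y0) y0 ≤ r}

theorem small_mono {r s : ℝ} (h : r ≤ s) {γ : Γ} (hγ : γ ∈ Small pE pM q y0 r) :
    γ ∈ Small pE pM q y0 s := ⟨hγ.1.trans h, hγ.2.1.trans h, hγ.2.2.trans h⟩

/-- the normal subgroup -/
def SubA (N : Subgroup (Mat n)ˣ) : Subgroup Γ := N.comap pM

theorem mem_subA {N : Subgroup (Mat n)ˣ} {γ : Γ} : γ ∈ SubA pM N ↔ pM γ ∈ N := Iff.rfl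

variable (N : Subgroup (Mat n)ˣ)
  (hP : ∀ r : ℝ, (Small pE pM q y0 r).Finite)
  (hC : ∃ R : ℝ, ∀ (e : E), ∀ m ∈ N, ∀ (y : Y), ∃ γ : Γ, dist (pE γ 0) e ≤ R ∧
    len (m⁻¹ * pM γ) ≤ R ∧ dist (q γ y0) y ≤ R)
  (hN1 : ∀ γ, ∀ h ∈ N, pM γ * h * (pM γ)⁻¹ ∈ N)
  (hN2 : ∀ P : (Mat n)ˣ → Prop, (∀ m ∈ N, ∀ h ∈ N, len h ≤ 1 → P m → P (m * h)) → P 1 →
    ∀ m ∈ N, P m)
  (hN3 : ∀ r : ℝ, ∃ F : Finset Γ, ∀ m ∈ N, ∀ γ : Γ, len (m⁻¹ * pM γ) ≤ r →
    ∃ δ ∈ F, m⁻¹ * pM γ * (pM δ)⁻¹ ∈ N)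
  (hN4 : ∀ γ, ∃ k z m : (Mat n)ˣ, len k = 0 ∧ m ∈ N ∧ (∀ h ∈ N, z * h = h * z) ∧
    pM γ = k * z * m)
  (hN5 : ∀ g ∈ N, (∀ γ, pM γ ∈ N → g * pM γ = pM γ * g) → g = 1)
  (hYc : ∀ P : Y → Prop, (∀ y y', dist y y' ≤ 1 → P y → P y') → ∀ y y', P y → P y')
  (hYu : ∀ r : ℝ, ∃ y, r < dist y y0)
  (hrig : ∀ (ζ : Y ≃ᵢ Y) (C : ℝ), (∀ y, dist (ζ y) y ≤ C) → ζ = 1)

include hC hN3 in
theorem cob : ∃ R : ℝ, ∀ (e : E), ∀ m ∈ N, ∀ (y : Y), ∃ a ∈ SubA pM N, dist (pE a 0) e ≤ R ∧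
    len (m⁻¹ * pM a) ≤ R ∧ dist (q a y0) y ≤ R := by
  classical
  obtain ⟨R, hR⟩ := hC
  obtain ⟨F, hF⟩ := hN3 R
  obtain ⟨B, hB⟩ : ∃ B : ℝ, ∀ δ ∈ F, δ⁻¹ ∈ Small pE pM q y0 B := by
    obtain ⟨B1, hB1⟩ := (F.finite_toSet.image fun δ => dist (pE δ⁻¹ 0) 0).bddAbove
    obtain ⟨B2, hB2⟩ := (F.finite_toSet.image fun δ => len (pM δ⁻¹)).bddAbove
    obtain ⟨B3, hB3⟩ := (F.finite_toSet.image fun δ => dist (q δ⁻¹ y0) y0).bddAbove
    refine ⟨max B1 (max B2 B3), fun δ hδ => ⟨?_, ?_, ?_⟩⟩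
    · exact (hB1 ⟨δ, hδ, rfl⟩).trans (le_max_left _ _)
    · exact (hB2 ⟨δ, hδ, rfl⟩).trans ((le_max_left _ _).trans (le_max_right _ _))
    · exact (hB3 ⟨δ, hδ, rfl⟩).trans ((le_max_right _ _).trans (le_max_right _ _))
  refine ⟨B + R, fun e m hm y => ?_⟩
  obtain ⟨γ, h1, h2, h3⟩ := hR e m hm y
  obtain ⟨δ, hδ, h4⟩ := hF m hm γ h2
  obtain ⟨b1, b2, b3⟩ := hB δ hδ
  refine ⟨γ * δ⁻¹, ?_, ?_, ?_, ?_⟩
  · rw [mem_subA, map_mul, map_inv]
    have := N.mul_mem hm h4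
    rwa [← mul_assoc, ← mul_assoc, mul_inv_cancel, one_mul] at this
  · rw [p_mul_apply]
    have := dist_triangle (pE γ (pE δ⁻¹ 0)) (pE γ 0) e
    rw [(pE γ).isometry.dist_eq] at this
    linarith
  · rw [map_mul, ← mul_assoc]
    have := len_mul (m⁻¹ * pM γ) (pM δ⁻¹)
    linarith
  · rw [p_mul_apply]
    have := dist_triangle (q γ (q δ⁻¹ y0)) (q γ y0) y
    rw [(q γ).isometry.dist_eq] at this
    linarith

include hP hC hN2 hN3 hYc in
theorem fgA : ∃ S : Set Γ, S.Finite ∧ Subgroup.closure S = SubA pM N := by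
  classical
  obtain ⟨R, hR⟩ := cob pE pM q y0 N hC hN3
  obtain ⟨S, hS⟩ : ∃ S : Set Γ, S = {a | a ∈ SubA pM N ∧ a ∈ Small pE pM q y0 (2 * R + 1)} :=
    ⟨_, rfl⟩
  have hR0 : 0 ≤ R := by
    obtain ⟨a, -, h, -⟩ := hR 0 1 N.one_mem y0
    exact dist_nonneg.trans h
  have hSf : S.Finite := (hP (2 * R + 1)).subset (by rw [hS]; exact fun a ha => ha.2)
  refine ⟨S, hSf, le_antisymm ?_ ?_⟩
  · rw [Subgroup.closure_le, hS]
    exact fun a ha => ha.1
  obtain ⟨C, hCd⟩ : ∃ C : E → (Mat n)ˣ → Y → Prop, ∀ e m y, C e m y ↔ ∀ a ∈ SubA pM N,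
      dist (pE a 0) e ≤ R → len (m⁻¹ * pM a) ≤ R → dist (q a y0) y ≤ R →
        a ∈ Subgroup.closure S := ⟨_, fun _ _ _ => Iff.rfl⟩
  have hbase : C 0 1 y0 := by
    rw [hCd]
    intro a ha h1 h2 h3
    apply Subgroup.subset_closure
    rw [hS]
    rw [inv_one, one_mul] at h2
    exact ⟨ha, by linarith, by linarith, by linarith⟩
  have hstep : ∀ e m y e' m' y', m ∈ N → dist e e' ≤ 1 → len (m⁻¹ * m') ≤ 1 →
      dist y y' ≤ 1 → C e m y → C e' m' y' := by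
    intro e m y e' m' y' hm d1 d2 d3 h
    rw [hCd] at h ⊢
    intro a' ha' h1 h2 h3
    obtain ⟨a, ha, k1, k2, k3⟩ := hR e m hm y
    have h4 := h a ha k1 k2 k3
    have h5 : a⁻¹ * a' ∈ S := by
      rw [hS]
      refine ⟨(SubA pM N).mul_mem ((SubA pM N).inv_mem ha) ha', ?_, ?_, ?_⟩
      · rw [dist_inv_mul]
        have t1 := dist_triangle (pE a' 0) e' (pE a 0)
        have t2 := dist_triangle e' e (pE a 0)
        rw [dist_comm e' e, dist_comm e (pE a 0)] at t2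
        linarith
      · rw [map_mul, map_inv]
        have e1 : (pM a)⁻¹ * pM a' = (m⁻¹ * pM a)⁻¹ * ((m⁻¹ * m') * (m'⁻¹ * pM a')) := by group
        rw [e1]
        have t1 := len_mul (m⁻¹ * pM a)⁻¹ ((m⁻¹ * m') * (m'⁻¹ * pM a'))
        have t2 := len_mul (m⁻¹ * m') (m'⁻¹ * pM a')
        rw [len_inv] at t1
        linarith
      · rw [dist_inv_mul]
        have t1 := dist_triangle (q a' y0) y' (q a y0)
        have t2 := dist_triangle y' y (q a y0)
        rw [dist_comm y' y, dist_comm y (q a y0)] at t2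
        linarith
    have h6 := Subgroup.mul_mem _ h4 (Subgroup.subset_closure h5)
    rwa [mul_inv_cancel_left] at h6
  have hE : ∀ e : E, C e 1 y0 := by
    intro e
    obtain ⟨K, hK⟩ := exists_nat_gt ‖e‖
    have hK0 : (0 : ℝ) < K := (norm_nonneg e).trans_lt hK
    obtain ⟨u, hu⟩ : ∃ u, u = (1 / (K : ℝ)) • e := ⟨_, rfl⟩
    have hun : ‖u‖ ≤ 1 := by
      rw [hu, norm_smul, Real.norm_of_nonneg (by positivity), one_div, inv_mul_le_iff₀ hK0,
        mul_one]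
      exact hK.le
    have hj : ∀ j : ℕ, C (j • u) 1 y0 := by
      intro j
      induction j with
      | zero => rw [zero_smul]; exact hbase
      | succ j ih =>
        refine hstep _ 1 y0 _ 1 y0 N.one_mem ?_ ?_ ?_ ih
        · rw [add_smul, one_smul, dist_self_add_right]
          exact hun
        · rw [inv_one, one_mul, len_one]
          exact zero_le_one
        · rw [dist_self]
          exact zero_le_one
    have h1 := hj K
    rw [hu, ← Nat.cast_smul_eq_nsmul ℝ, smul_smul, mul_one_div_cancel hK0.ne', one_smul] at h1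
    exact h1
  have hEY : ∀ (e : E) (y : Y), C e 1 y := by
    intro e y
    refine hYc (fun y => C e 1 y) (fun y y' hyy' h => ?_) y0 y (hE e)
    refine hstep _ 1 y _ 1 y' N.one_mem ?_ ?_ hyy' h
    · rw [dist_self]
      exact zero_le_one
    · rw [inv_one, one_mul, len_one]
      exact zero_le_one
  have hall : ∀ (e : E) (y : Y), ∀ m ∈ N, C e m y := by
    intro e y
    refine hN2 (fun m => C e m y) (fun m hm h hh hl hCm => ?_) (hEY e y)
    refine hstep _ m y _ (m * h) y hm ?_ ?_ ?_ hCm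
    · rw [dist_self]
      exact zero_le_one
    · rw [inv_mul_cancel_left]
      exact hl
    · rw [dist_self]
      exact zero_le_one
  intro a ha
  have h1 := hall (pE a 0) (q a y0) (pM a) ha
  rw [hCd] at h1
  refine h1 a ha ?_ ?_ ?_
  · rw [dist_self]; exact hR0
  · rw [inv_mul_cancel, len_one]; exact hR0
  · rw [dist_self]; exact hR0

include hP hC hN1 hN2 hN3 hN4 hYc in
theorem finite_index :
    (SubA pM N ⊔ Subgroup.centralizer (SubA pM N : Set Γ)).FiniteIndex := by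
  classical
  obtain ⟨R, hR⟩ := cob pE pM q y0 N hC hN3
  obtain ⟨S, hSf, hS⟩ := fgA pE pM q y0 N hP hC hN2 hN3 hYc
  obtain ⟨B, hB⟩ : ∃ B : ℝ, ∀ s ∈ S, s ∈ Small pE pM q y0 B := by
    obtain ⟨B1, hB1⟩ := (hSf.image fun δ => dist (pE δ 0) 0).bddAbove
    obtain ⟨B2, hB2⟩ := (hSf.image fun δ => len (pM δ)).bddAbove
    obtain ⟨B3, hB3⟩ := (hSf.image fun δ => dist (q δ y0) y0).bddAbove
    refine ⟨max B1 (max B2 B3), fun δ hδ => ⟨?_, ?_, ?_⟩⟩
    · exact (hB1 ⟨δ, hδ, rfl⟩).trans (le_max_left _ _)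
    · exact (hB2 ⟨δ, hδ, rfl⟩).trans ((le_max_left _ _).trans (le_max_right _ _))
    · exact (hB3 ⟨δ, hδ, rfl⟩).trans ((le_max_right _ _).trans (le_max_right _ _))
  have hSA : ∀ s ∈ S, pM s ∈ N := by
    intro s hs
    have : s ∈ SubA pM N := hS ▸ Subgroup.subset_closure hs
    exact this
  -- the corrected elements
  have hcor : ∀ γ : Γ, ∃ a ∈ SubA pM N, ∀ s ∈ S,
      (γ * a) * s * (γ * a)⁻¹ ∈ Small pE pM q y0 (2 * R + B) := by
    intro γ
    obtain ⟨k, z, m, hk, hm, hz, he⟩ := hN4 γ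
    obtain ⟨a, ha, h1, h2, h3⟩ := hR (pE γ⁻¹ 0) m⁻¹ (N.inv_mem hm) (q γ⁻¹ y0)
    rw [inv_inv] at h2
    have d1 : dist (pE (γ * a) 0) 0 ≤ R := by
      have : dist (pE (γ * a) 0) 0 = dist (pE a 0) (pE γ⁻¹ 0) := by
        rw [p_mul_apply, ← (pE γ).isometry.dist_eq (pE a 0), p_apply_inv]
      rw [this]
      exact h1
    have d3 : dist (q (γ * a) y0) y0 ≤ R := by
      have : dist (q (γ * a) y0) y0 = dist (q a y0) (q γ⁻¹ y0) := by
        rw [p_mul_apply, ← (q γ).isometry.dist_eq (q a y0), p_apply_inv]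
      rw [this]
      exact h3
    refine ⟨a, ha, fun s hs => ⟨?_, ?_, ?_⟩⟩
    · have := disp_conj (pE (γ * a)) (pE s) 0
      rw [← map_inv, ← map_mul, ← map_mul] at this
      have := (hB s hs).1
      linarith
    · have hm' : m * pM a ∈ N := N.mul_mem hm ha
      have hc := hz _ (N.mul_mem (N.mul_mem hm' (hSA s hs)) (N.inv_mem hm'))
      have e1 : pM ((γ * a) * s * (γ * a)⁻¹) =
          k * ((m * pM a) * pM s * (m * pM a)⁻¹) * k⁻¹ := by
        rw [map_mul, map_mul, map_inv, map_mul, he]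
        have e2 : k * z * m * pM a * pM s * (k * z * m * pM a)⁻¹ =
            k * (z * ((m * pM a) * pM s * (m * pM a)⁻¹)) * (z⁻¹ * k⁻¹) := by group
        rw [e2, hc]
        group
      rw [e1]
      have t1 := len_mul (k * ((m * pM a) * pM s * (m * pM a)⁻¹)) k⁻¹
      have t2 := len_mul k ((m * pM a) * pM s * (m * pM a)⁻¹)
      have t3 := len_mul ((m * pM a) * pM s) (m * pM a)⁻¹
      have t4 := len_mul (m * pM a) (pM s)
      rw [len_inv] at t1 t3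
      have := (hB s hs).2.1
      linarith
    · have := disp_conj (q (γ * a)) (q s) y0
      rw [← map_inv, ← map_mul, ← map_mul] at this
      have := (hB s hs).2.2
      linarith
  choose a ha hsm using hcor
  obtain ⟨f, hf⟩ : ∃ f : Γ → S → Small pE pM q y0 (2 * R + B), ∀ γ s,
      ((f γ s : Small pE pM q y0 (2 * R + B)) : Γ) = (γ * a γ) * s * (γ * a γ)⁻¹ :=
    ⟨fun γ s => ⟨_, hsm γ s s.2⟩, fun _ _ => rfl⟩
  have hWf : Finite (Small pE pM q y0 (2 * R + B)) := hP _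
  have hSf' : Finite S := hSf
  obtain ⟨AB, hAB⟩ : ∃ AB, AB = SubA pM N ⊔ Subgroup.centralizer (SubA pM N : Set Γ) := ⟨_, rfl⟩
  have hinj : ∀ γ1 γ2, f γ1 = f γ2 → γ1⁻¹ * γ2 ∈ AB := by
    intro γ1 γ2 h
    have h1 : ∀ s ∈ S, (γ1 * a γ1) * s * (γ1 * a γ1)⁻¹ = (γ2 * a γ2) * s * (γ2 * a γ2)⁻¹ := by
      intro s hs
      rw [← hf γ1 ⟨s, hs⟩, ← hf γ2 ⟨s, hs⟩, h]
    obtain ⟨w, hw⟩ : ∃ w, w = (γ1 * a γ1)⁻¹ * (γ2 * a γ2) := ⟨_, rfl⟩
    have h2 : ∀ s ∈ S, s * w = w * s := by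
      intro s hs
      have h3 := h1 s hs
      rw [hw]
      calc s * ((γ1 * a γ1)⁻¹ * (γ2 * a γ2)) =
          (γ1 * a γ1)⁻¹ * ((γ1 * a γ1) * s * (γ1 * a γ1)⁻¹) * (γ2 * a γ2) := by group
        _ = (γ1 * a γ1)⁻¹ * (γ2 * a γ2) * s := by rw [h3]; group
    have h3 : w ∈ Subgroup.centralizer (SubA pM N : Set Γ) := by
      rw [Subgroup.mem_centralizer_iff]
      intro b hb
      have hb' : b ∈ Subgroup.closure S := by rw [hS]; exact hb
      induction hb' using Subgroup.closure_induction with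
      | mem x hx => exact h2 x hx
      | one => rw [one_mul, mul_one]
      | mul x y hx hy ihx ihy =>
        rw [hS] at hx hy
        rw [mul_assoc, ihy hy, ← mul_assoc, ihx hx, mul_assoc]
      | inv x hx ih =>
        rw [hS] at hx
        have h4 := ih hx
        rw [inv_mul_eq_iff_eq_mul, ← mul_assoc, h4, mul_inv_cancel_right]
    have h4 : γ1⁻¹ * γ2 = a γ1 * w * (a γ2)⁻¹ := by
      rw [hw]
      group
    rw [h4, hAB]
    refine Subgroup.mul_mem _ (Subgroup.mul_mem _ ?_ ?_) (Subgroup.inv_mem _ ?_)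
    · exact Subgroup.mem_sup_left (ha γ1)
    · exact Subgroup.mem_sup_right h3
    · exact Subgroup.mem_sup_left (ha γ2)
  rw [← hAB]
  have hfin : Finite (Γ ⧸ AB) := by
    refine Finite.of_injective (fun x : Γ ⧸ AB => f x.out) ?_
    intro x y hxy
    have h1 := hinj _ _ hxy
    rw [← QuotientGroup.eq, QuotientGroup.out_eq', QuotientGroup.out_eq'] at h1
    exact h1
  exact Subgroup.finiteIndex_of_finite_quotient

include hC hN3 hYu in
theorem infA : Infinite (SubA pM N : Subgroup Γ) := by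
  classical
  by_contra hni
  rw [not_infinite_iff_finite] at hni
  obtain ⟨R, hR⟩ := cob pE pM q y0 N hC hN3
  obtain ⟨B, hB⟩ := ((Set.toFinite (SubA pM N : Set Γ)).image fun a => dist (q a y0) y0).bddAbove
  obtain ⟨y, hy⟩ := hYu (R + B)
  obtain ⟨a, ha, -, -, h1⟩ := hR 0 1 N.one_mem y
  have h2 : dist (q a y0) y0 ≤ B := hB ⟨a, ha, rfl⟩
  have := dist_triangle y (q a y0) y0
  rw [dist_comm y (q a y0)] at this
  linarith

theorem additive_pow (c : Γ → ℝ) (hc : ∀ a b, c (a * b) = c a + c b) (a : Γ) (m : ℕ) :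
    c (a ^ m) = m * c a := by
  induction m with
  | zero =>
    have := hc 1 1
    rw [mul_one] at this
    rw [pow_zero]
    push_cast
    linarith
  | succ m ih =>
    rw [pow_succ, hc, ih]
    push_cast
    ring

/-- an additive function which vanishes on `A`, where `A ⊔ B` has finite index and `B` is finite -/
theorem zero_of_finite (A B : Subgroup Γ) (h : (A ⊔ B).FiniteIndex) (hB : Finite B) (c : Γ → ℝ)
    (hc : ∀ a b, c (a * b) = c a + c b) (hA : ∀ a ∈ A, c a = 0) (γ : Γ) : c γ = 0 := by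
  have h1 : c 1 = 0 := by
    have := hc 1 1
    rw [mul_one] at this
    linarith
  obtain ⟨K, hK⟩ : ∃ K : Subgroup Γ, ∀ x, x ∈ K ↔ c x = 0 := by
    refine ⟨⟨⟨⟨{x | c x = 0}, ?_⟩, h1⟩, ?_⟩, fun x => Iff.rfl⟩
    · intro a b ha hb
      show c (a * b) = 0
      rw [hc, show c a = 0 from ha, show c b = 0 from hb, add_zero]
    · intro a ha
      have h2 := hc a a⁻¹
      rw [mul_inv_cancel, h1, show c a = 0 from ha, zero_add] at h2
      exact h2.symm
  have hle : A ⊔ B ≤ K := by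
    refine sup_le (fun a ha => (hK a).2 (hA a ha)) fun b hb => ?_
    rw [hK]
    obtain ⟨m, hm, h2⟩ := (isOfFinOrder_of_finite (⟨b, hb⟩ : B)).exists_pow_eq_one
    have h3 : b ^ m = 1 := congrArg Subtype.val h2
    have h4 := additive_pow c hc b m
    rw [h3, h1] at h4
    rcases mul_eq_zero.1 h4.symm with h5 | h5
    · exact absurd (by exact_mod_cast h5) hm.ne'
    · exact h5
  obtain ⟨m, hm, -, h2⟩ := Subgroup.exists_pow_mem_of_index_ne_zero h.index_ne_zero γ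
  have h3 := (hK _).1 (hle h2)
  rw [additive_pow c hc] at h3
  rcases mul_eq_zero.1 h3 with h5 | h5
  · exact absurd (by exact_mod_cast h5) hm.ne'
  · exact h5

include hC hN3 hYu in
/-- the case of a translation -/
theorem trans_case (hFG : Group.FG Γ) (hirr : NotProduct Γ) (Γ1 : Subgroup Γ)
    (hΓ1 : Γ1.FiniteIndex) (hA1 : SubA pM N ≤ Γ1) (z : Γ) (hz1 : z ∈ Γ1) (hqz : q z = 1)
    (hzc : ∀ g ∈ Γ1, z * g = g * z) (v : E) (hv : v ≠ 0) (hEz : ∀ e, pE z e = e + v) : False := by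
  classical
  -- the additive function
  have hadd : ∀ a b : Γ1, inner ℝ v (pE ((a * b : Γ1) : Γ) 0) =
      inner ℝ v (pE (a : Γ) 0) + inner ℝ v (pE (b : Γ) 0) := by
    rintro ⟨a, ha⟩ ⟨b, hb⟩
    obtain ⟨A, hA⟩ := lin_part (pE a)
    have h1 : A v = v := by
      have h2 : pE a (pE z 0) = pE z (pE a 0) := by
        rw [← p_mul_apply, ← p_mul_apply, hzc a ha]
      rw [hEz, hEz, hA] at h2
      exact add_left_cancel h2
    show inner ℝ v (pE (a * b) 0) = inner ℝ v (pE a 0) + inner ℝ v (pE b 0)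
    have h3 : pE (a * b) 0 = pE a 0 + A (pE b 0) := by
      rw [p_mul_apply, ← hA, zero_add]
    have h4 : inner ℝ v (A (pE b 0)) = inner ℝ v (pE b 0) := by
      conv_lhs => rw [← h1]
      rw [LinearIsometryEquiv.inner_map_map]
    rw [h3, inner_add_right, h4]
  have hFG1 : Group.FG Γ1 := Subgroup.fg_of_index_ne_zero Γ1
  obtain ⟨S, hS, hSf⟩ := Group.fg_iff.1 hFG1
  obtain ⟨ψ, hψ⟩ := exists_psi S hSf hS (fun a : Γ1 => inner ℝ v (pE (a : Γ) 0)) hadd ⟨z, hz1⟩ (by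
    show inner ℝ v (pE z 0) ≠ 0
    rw [hEz, zero_add, real_inner_self_eq_norm_sq]
    exact pow_ne_zero 2 (norm_ne_zero_iff.2 hv))
  obtain ⟨h1, h2⟩ := zpowers_inf ψ _ hψ
  have h3 := finiteIndex_of_psi ψ _ hψ
  -- the kernel is infinite
  have hinf : Infinite ψ.ker := by
    by_contra hni
    rw [not_infinite_iff_finite] at hni
    obtain ⟨Z, hZ⟩ : ∃ Z : Γ1, Z = ⟨z, hz1⟩ := ⟨_, rfl⟩
    rw [← hZ] at hψ
    have hEψ : (ψ Z).toAdd ≠ 0 := fun h => hψ (Multiplicative.toAdd.injective h)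
    have hW : {g : Γ1 | 0 ≤ (ψ g).toAdd ∧ (ψ g).toAdd < |(ψ Z).toAdd|}.Finite := by
      refine Set.Finite.of_finite_fibers (fun g => (ψ g).toAdd) ?_ ?_
      · refine (Set.finite_Ico (0 : ℤ) |(ψ Z).toAdd|).subset ?_
        rintro _ ⟨g, hg, rfl⟩
        exact hg
      · rintro _ ⟨g, -, rfl⟩
        refine ((Set.toFinite (ψ.ker : Set Γ1)).image fun k => g * k).subset ?_
        rintro g' ⟨-, hg'⟩
        refine ⟨g⁻¹ * g', ?_, mul_inv_cancel_left _ _⟩
        show ψ (g⁻¹ * g') = 1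
        rw [map_mul, map_inv, inv_mul_eq_one]
        exact (Multiplicative.toAdd.injective hg').symm
    have horb : ∀ g : Γ1, ∃ g' ∈ {g : Γ1 | 0 ≤ (ψ g).toAdd ∧ (ψ g).toAdd < |(ψ Z).toAdd|},
        q (g : Γ) y0 = q (g' : Γ) y0 := by
      intro g
      refine ⟨g * Z ^ (-((ψ g).toAdd / (ψ Z).toAdd)), ?_, ?_⟩
      · have e : (ψ (g * Z ^ (-((ψ g).toAdd / (ψ Z).toAdd)))).toAdd =
            (ψ g).toAdd % (ψ Z).toAdd := by
          rw [map_mul, map_zpow, toAdd_mul, toAdd_zpow, smul_eq_mul, Int.emod_def]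
          ring
        show 0 ≤ _ ∧ _ < _
        rw [e]
        exact ⟨Int.emod_nonneg _ hEψ, Int.emod_lt_abs _ hEψ⟩
      · rw [Subgroup.coe_mul, Subgroup.coe_zpow, map_mul, map_zpow, hZ]
        show _ = (q (g : Γ) * (q z) ^ _) y0
        rw [hqz, one_zpow, mul_one]
    obtain ⟨R, hR⟩ := cob pE pM q y0 N hC hN3
    obtain ⟨B, hB⟩ := (hW.image fun g : Γ1 => dist (q (g : Γ) y0) y0).bddAbove
    obtain ⟨y, hy⟩ := hYu (R + B)
    obtain ⟨g, hg, -, -, h4⟩ := hR 0 1 N.one_mem y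
    obtain ⟨g', hg', h5⟩ := horb ⟨g, hA1 hg⟩
    have h6 : dist (q (g' : Γ) y0) y0 ≤ B := hB ⟨g', hg', rfl⟩
    have h7 : q g y0 = q (g' : Γ) y0 := h5
    rw [h7] at h4
    have := dist_triangle y (q (g' : Γ) y0) y0
    rw [dist_comm y (q (g' : Γ) y0)] at this
    linarith
  obtain ⟨K, hK⟩ : ∃ K, K = ψ.ker.map Γ1.subtype := ⟨_, rfl⟩
  obtain ⟨W, hW⟩ : ∃ W, W = (Subgroup.zpowers (⟨z, hz1⟩ : Γ1)).map Γ1.subtype := ⟨_, rfl⟩
  refine hirr K W ?_ ?_ ?_ ?_ ?_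
  · rw [hK]
    exact (ψ.ker.equivMapOfInjective Γ1.subtype Γ1.subtype_injective).toEquiv.infinite_iff.1 hinf
  · rw [hW]
    exact ((Subgroup.zpowers (⟨z, hz1⟩ : Γ1)).equivMapOfInjective Γ1.subtype
      Γ1.subtype_injective).toEquiv.infinite_iff.1 h2
  · rw [hK, hW]
    rintro _ ⟨a, -, rfl⟩ _ ⟨_, ⟨j, rfl⟩, rfl⟩
    have h4 : Commute z (a : Γ) := hzc a a.2
    have h5 := (h4.symm.zpow_right j).eq
    exact h5
  · rw [hK, hW, ← Subgroup.map_inf _ _ _ Γ1.subtype_injective, h1, Subgroup.map_bot]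
  · rw [hK, hW, ← Subgroup.map_sup]
    refine ⟨?_⟩
    rw [Subgroup.index_map_subtype]
    exact mul_ne_zero h3.index_ne_zero hΓ1.index_ne_zero

include hP hC hN1 hN2 hN3 hN4 hN5 hYc hYu hrig in
/-- **the soft part** -/
theorem soft (hinj : ∀ γ : Γ, pE γ = 1 → pM γ = 1 → q γ = 1 → γ = 1) (hFG : Group.FG Γ)
    (hirr : NotProduct Γ) (c : Γ → ℝ) (hc : ∀ a b, c (a * b) = c a + c b)
    (hcA : ∀ γ, pM γ ∈ N → c γ = 0) (γ : Γ) : c γ = 0 := by
  classical
  by_contra hne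
  have hfi := finite_index pE pM q y0 N hP hC hN1 hN2 hN3 hN4 hYc
  obtain ⟨A, hA⟩ : ∃ A, A = SubA pM N := ⟨_, rfl⟩
  obtain ⟨B, hB⟩ : ∃ B, B = Subgroup.centralizer (A : Set Γ) := ⟨_, rfl⟩
  have hAi : Infinite A := hA ▸ infA pE pM q y0 N hC hN3 hYu
  have hBi : Infinite B := by
    by_contra hni
    rw [not_infinite_iff_finite] at hni
    refine hne (zero_of_finite A B ?_ hni c hc (fun a ha => hcA a ?_) γ)
    · rw [hB, hA]
      exact hfi
    · rw [hA] at ha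
      exact ha
  have hcomm : ∀ a ∈ A, ∀ b ∈ B, a * b = b * a := by
    intro a ha b hb
    rw [hB] at hb
    exact Subgroup.mem_centralizer_iff.1 hb a ha
  by_cases hbot : A ⊓ B = ⊥
  · refine hirr A B hAi hBi hcomm hbot ?_
    rw [hB, hA]
    exact hfi
  obtain ⟨z', hz, hz1⟩ : ∃ z : Γ, z ∈ A ⊓ B ∧ z ≠ 1 := by
    obtain ⟨z, hz⟩ := Subgroup.ne_bot_iff_exists_ne_one.1 hbot
    exact ⟨z, z.2, fun h => hz (Subtype.ext h)⟩
  obtain ⟨hzA, hzB⟩ := hz
  obtain ⟨R, hR⟩ := cob pE pM q y0 N hC hN3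
  have hcz : ∀ a ∈ A, z' * a = a * z' := fun a ha => (hcomm a ha z' hzB).symm
  -- the action on `Y`
  have hqz : q z' = 1 := by
    refine hrig _ (2 * R + dist (q z' y0) y0) fun y => ?_
    obtain ⟨a, ha, -, -, h1⟩ := hR 0 1 N.one_mem y
    rw [← hA] at ha
    have t1 := dist_triangle (q z' y) (q z' (q a y0)) y
    have t2 := dist_triangle (q z' (q a y0)) (q a y0) y
    have e1 : q z' (q a y0) = q a (q z' y0) := by
      rw [← p_mul_apply, ← p_mul_apply, hcz a ha]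
    have e2 : dist (q z' (q a y0)) (q a y0) = dist (q z' y0) y0 := by
      rw [e1, (q a).isometry.dist_eq]
    rw [(q z').isometry.dist_eq, dist_comm y] at t1
    linarith
  -- the matrix
  have hMz : pM z' = 1 := by
    refine hN5 _ (by rw [hA] at hzA; exact hzA) fun γ hγ => ?_
    rw [← map_mul, ← map_mul, hcz γ (by rw [hA]; exact hγ)]
  -- the Euclidean part
  obtain ⟨L, hL⟩ := lin_part (pE z')
  have hdisp : ∀ e, dist (pE z' e) e ≤ 2 * R + dist (pE z' 0) 0 := by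
    intro y
    obtain ⟨a, ha, h1, -, -⟩ := hR y 1 N.one_mem y0
    rw [← hA] at ha
    have t1 := dist_triangle (pE z' y) (pE z' (pE a 0)) y
    have t2 := dist_triangle (pE z' (pE a 0)) (pE a 0) y
    have e1 : pE z' (pE a 0) = pE a (pE z' 0) := by
      rw [← p_mul_apply, ← p_mul_apply, hcz a ha]
    have e2 : dist (pE z' (pE a 0)) (pE a 0) = dist (pE z' 0) 0 := by
      rw [e1, (pE a).isometry.dist_eq]
    rw [(pE z').isometry.dist_eq, dist_comm y] at t1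
    linarith
  have hLid : ∀ e, L e = e := by
    intro e
    by_contra hne'
    have hpos : 0 < ‖L e - e‖ := norm_pos_iff.2 (sub_ne_zero.2 hne')
    obtain ⟨K, hK⟩ := exists_nat_gt ((2 * R + dist (pE z' 0) 0 + ‖pE z' 0‖) / ‖L e - e‖)
    rw [div_lt_iff₀ hpos] at hK
    have h1 := hdisp ((K : ℝ) • e)
    have h2 : pE z' ((K : ℝ) • e) = pE z' 0 + (K : ℝ) • L e := by
      have h3 := hL 0 ((K : ℝ) • e)
      rw [zero_add] at h3
      rw [h3, L.map_smul]
    rw [h2, dist_eq_norm] at h1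
    have h3 : pE z' 0 + (K : ℝ) • L e - (K : ℝ) • e = pE z' 0 + (K : ℝ) • (L e - e) := by
      rw [smul_sub]
      abel
    rw [h3] at h1
    have h4 : ‖(K : ℝ) • (L e - e)‖ ≤ ‖pE z' 0 + (K : ℝ) • (L e - e)‖ + ‖pE z' 0‖ := by
      have := norm_sub_le (pE z' 0 + (K : ℝ) • (L e - e)) (pE z' 0)
      rwa [add_sub_cancel_left] at this
    rw [norm_smul, Real.norm_of_nonneg (by positivity)] at h4
    linarith
  have hEz : ∀ e, pE z' e = e + pE z' 0 := by
    intro e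
    have := hL 0 e
    rw [zero_add, hLid] at this
    rw [this, add_comm]
  have hv : pE z' 0 ≠ 0 := by
    intro h0
    apply hz1
    refine hinj z' ?_ hMz hqz
    ext1 e
    rw [hEz, h0, add_zero]
    rfl
  refine trans_case pE pM q y0 N hC hN3 hYu hFG hirr (A ⊔ B) ?_ ?_ z' (Subgroup.mem_sup_left hzA)
    hqz ?_ (pE z' 0) hv hEz
  · rw [hB, hA]
    exact hfi
  · rw [hA]
    exact le_sup_left
  · intro g hg
    have hle : A ⊔ B ≤ Subgroup.centralizer {z'} := by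
      refine sup_le (fun a ha => ?_) fun b hb => ?_
      · rw [Subgroup.mem_centralizer_iff]
        intro h hh
        rw [Set.mem_singleton_iff.1 hh]
        exact hcz a ha
      · rw [Subgroup.mem_centralizer_iff]
        intro h hh
        rw [Set.mem_singleton_iff.1 hh]
        exact hcomm z' hzA b hb
    exact Subgroup.mem_centralizer_iff.1 (hle hg) z' rfl

end Pool.Agent.E8helper46.FL
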