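import Pool.Agent.E8helper46.FL.Dens
import Pool.Agent.E8helper46.FL.Soft
import Pool.Agent.E8helper46.FL.Core

/-!
# The core of the argument for products of Euclidean spaces and groups of noncompact type
-/

set_option autoImplicit false
set_option linter.unusedSectionVars false

namespace Pool.Agent.E8helper46.FL

open Set Filter Topology MeasureTheory

open scoped Matrix.Norms.L2Operator

section

variable {M Y G : Type*} [MetricSpace M] [MetricSpace Y] [Group G]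

/-- a translation commuting with the group is impossible -/
theorem no_trans [ProperSpace M] (p : G →* (M ≃ᵢ M)) (q : G →* (Y ≃ᵢ Y)) (x0 : M) (y0 : Y)
    (hP : ∀ r : ℝ, {γ : G | dist (p γ x0) x0 ≤ r ∧ dist (q γ y0) y0 ≤ r}.Finite)
    (hC : ∃ R : ℝ, ∀ (x : M) (y : Y), ∃ γ : G, dist (p γ x0) x ≤ R ∧ dist (q γ y0) y ≤ R)
    (hY : ∀ (y : Y) (r : ℝ), {z : Y | dist z y ≤ r}.Finite)
    (hYu : ∀ r : ℝ, ∃ y, r < dist y y0) (hirr : NotProduct G)
    (S : Set G) (hfin : S.Finite) (hgen : Subgroup.closure S = ⊤)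
    (F : M → ℝ) (hFc : Continuous F) (c : G → ℝ) (hFe : ∀ γ x, F (p γ x) = F x + c γ)
    (hadd : ∀ a b, c (a * b) = c a + c b)
    (T : M ≃ᵢ M) (c0 : ℝ) (hc0 : 0 < c0) (hT : ∀ x, F (T x) = F x + c0)
    (hTc : ∀ γ x, p γ (T x) = T (p γ x)) : False := by
  obtain ⟨z, hz, hcz⟩ := exists_central p q x0 y0 hP hC _ hfin hgen F hFc c hFe T c0 hc0 hT hTc
  obtain ⟨ψ, hψ⟩ := exists_psi _ hfin hgen c hadd z hcz
  have hinf := infinite_ker p q x0 y0 hY hC hYu F hFc T c0 hc0 hT z hz ψ hψ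
  obtain ⟨h1, h2⟩ := zpowers_inf ψ z hψ
  refine hirr ψ.ker (Subgroup.zpowers z) hinf h2 ?_ h1 (finiteIndex_of_psi ψ z hψ)
  rintro a - _ ⟨n, rfl⟩
  exact ((show Commute z a from hz a).symm.zpow_right n).eq

theorem gen_of_ker (φ : G →* Multiplicative ℤ) (hφ : Function.Surjective φ) (hK : φ.ker.FG) :
    ∃ S : Set G, S.Finite ∧ Subgroup.closure S = ⊤ := by
  classical
  obtain ⟨S, hS⟩ := hK
  obtain ⟨t, ht⟩ := hφ (Multiplicative.ofAdd 1)
  refine ⟨(S : Set G) ∪ {t}, S.finite_toSet.union (finite_singleton t), ?_⟩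
  rw [eq_top_iff]
  intro g _
  have h1 : g * (t ^ (φ g).toAdd)⁻¹ ∈ φ.ker := by
    rw [MonoidHom.mem_ker, map_mul, map_inv, map_zpow, ht, mul_inv_eq_one]
    apply Multiplicative.toAdd.injective
    rw [toAdd_zpow, toAdd_ofAdd, smul_eq_mul, mul_one]
  rw [← hS] at h1
  have h2 := Subgroup.closure_mono (subset_union_left (t := {t})) h1
  have h3 : t ∈ Subgroup.closure ((S : Set G) ∪ {t}) := Subgroup.subset_closure (Or.inr rfl)
  have h4 := Subgroup.mul_mem _ h2 (Subgroup.zpow_mem _ h3 (φ g).toAdd)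
  rwa [inv_mul_cancel_right] at h4

end

section

variable {E : Type*} [NormedAddCommGroup E] [InnerProductSpace ℝ E] [FiniteDimensional ℝ E]
  {n : ℕ} {G : Subgroup (Mat n)ˣ} (hG : IsNoncompactType G) {Y : Type*} [MetricSpace Y]
  {Γ : Type*} [Group Γ]

include hG in
theorem core2 (pE : Γ →* (E ≃ᵢ E)) (pG : Γ →* G) (q : Γ →* (Y ≃ᵢ Y)) (y0 : Y)
    (hinj : ∀ γ : Γ, pE γ = 1 → pG γ = 1 → q γ = 1 → γ = 1)
    (hP : ∀ r : ℝ, {γ : Γ | dist (pE γ 0) 0 ≤ r ∧ len ((pG γ : G) : (Mat n)ˣ) ≤ r ∧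
      dist (q γ y0) y0 ≤ r}.Finite)
    (hC : ∃ R : ℝ, ∀ (e : E) (g : G) (y : Y), ∃ γ : Γ, dist (pE γ 0) e ≤ R ∧
      len ((g : (Mat n)ˣ)⁻¹ * ((pG γ : G) : (Mat n)ˣ)) ≤ R ∧ dist (q γ y0) y ≤ R)
    (hY : ∀ (y : Y) (r : ℝ), {z : Y | dist z y ≤ r}.Finite)
    (hE : ThreeEnds Y)
    (hYc : ∀ P : Y → Prop, (∀ y y', dist y y' ≤ 1 → P y → P y') → ∀ y y', P y → P y')
    (hrig : ∀ (ζ : Y ≃ᵢ Y) (C : ℝ), (∀ y, dist (ζ y) y ≤ C) → ζ = 1)
    (hirr : NotProduct Γ) (φ : Γ →* Multiplicative ℤ)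
    (hφ : Function.Surjective φ) (hK : φ.ker.FG) : False := by
  classical
  have hprop : ProperSpace (SG G) := sg_proper hG.closed
  let _ : MeasurableSpace (E × SG G) := borel _
  have _ : BorelSpace (E × SG G) := ⟨rfl⟩
  have _ : Nonempty (E × SG G) := ⟨(0, pt 1)⟩
  obtain ⟨ν, hν1, hν2, hν3⟩ := exists_measure (E × SG G) (prod_trans hG)
  obtain ⟨p, hp⟩ : ∃ p : Γ →* ((E × SG G) ≃ᵢ (E × SG G)), p = prodHom pE (act.comp pG) :=
    ⟨_, rfl⟩
  obtain ⟨x0, hx0⟩ : ∃ x0 : E × SG G, x0 = (0, pt 1) := ⟨_, rfl⟩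
  have hmid : ∀ x y : E × SG G, ∃ m, IsMid m x y := prod_mid eucl_mid (sg_mid hG)
  have hdist : ∀ (γ : Γ) (e : E) (g : G), dist (p γ x0) (e, pt g) =
      max (dist (pE γ 0) e) (len ((g : (Mat n)ˣ)⁻¹ * ((pG γ : G) : (Mat n)ˣ))) := by
    intro γ e g
    rw [hp, hx0, prodHom_apply, Prod.dist_eq]
    congr 1
    show dist (act (pG γ) (pt 1)) (pt g) = _
    rw [act_pt, mul_one, dist_comm, dist_pt]
  have hdist0 : ∀ γ : Γ, dist (p γ x0) x0 =
      max (dist (pE γ 0) 0) (len ((pG γ : G) : (Mat n)ˣ)) := by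
    intro γ
    have := hdist γ 0 1
    rw [Subgroup.coe_one, inv_one, one_mul, ← hx0] at this
    exact this
  have hP' : ∀ r : ℝ, {γ : Γ | dist (p γ x0) x0 ≤ r ∧ dist (q γ y0) y0 ≤ r}.Finite := by
    intro r
    refine (hP r).subset ?_
    rintro γ ⟨h1, h2⟩
    rw [hdist0, max_le_iff] at h1
    exact ⟨h1.1, h1.2, h2⟩
  have hC' : ∃ R : ℝ, ∀ (x : E × SG G) (y : Y), ∃ γ : Γ, dist (p γ x0) x ≤ R ∧
      dist (q γ y0) y ≤ R := by
    obtain ⟨R, hR⟩ := hC
    refine ⟨R, ?_⟩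
    rintro ⟨e, x⟩ y
    obtain ⟨g, rfl⟩ := pt_surj x
    obtain ⟨γ, h1, h2, h3⟩ := hR e g y
    refine ⟨γ, ?_, h3⟩
    rw [hdist]
    exact max_le h1 h2
  obtain ⟨S, hSf, hS⟩ := gen_of_ker φ hφ hK
  have hFG : Group.FG Γ := Group.fg_iff.2 ⟨S, hS, hSf⟩
  have hYu := unbounded_of_threeEnds hE y0
  have hf : ∀ a b : Γ, ((φ (a * b)).toAdd : ℝ) = (φ a).toAdd + (φ b).toAdd := by
    intro a b
    rw [map_mul, toAdd_mul]
    push_cast
    ring
  have hA1 := stab_A1 p q x0 y0 hP'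
  have hA2 := stab_A2 p q x0 y0 hC' hY
  obtain ⟨R, hR, F, hFc, hFh, c, hFe, hcφ⟩ := exists_harmonic' ν hmid p (fun γ => hν3 (p γ))
    (stab q y0) x0 (fun γ => ((φ γ).toAdd : ℝ)) hf hA1 hA2 (stab_A3 p q x0 y0 hC' hY)
  have hadd : ∀ a b, c (a * b) = c a + c b := by
    intro a b
    have h2 := hFe (a * b) x0
    have h3 : p (a * b) x0 = p a (p b x0) := by rw [map_mul]; rfl
    rw [h3, hFe, hFe] at h2
    linarith
  by_cases hinv : ∀ (v : E) (x : E × SG G), F (trl v x) = F x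
  swap
  · -- translations of the Euclidean factor
    push Not at hinv
    obtain ⟨v1, x1, hne⟩ := hinv
    obtain ⟨D, hD⟩ := hC'
    obtain ⟨T, c0, hc0, hT, hTc⟩ := cliff ν hν3 hmid pE (act.comp pG) hR F hFc hFh c
      (by rw [← hp]; exact hFe) x0 D (fun x => by
        obtain ⟨γ, h1, -⟩ := hD x y0
        exact ⟨γ, by rw [← hp]; exact h1⟩) v1 x1 hne
    refine no_trans p q x0 y0 hP' ⟨D, hD⟩ hY hYu hirr S hSf hS F hFc c hFe hadd T c0 hc0 hT ?_
    rw [hp]
    exact hTc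
  · -- the function does not depend on the Euclidean factor
    have hF0 : ∀ (e : E) (x : SG G), F (e, x) = F (0, x) := by
      intro e x
      have h1 := hinv e (0, x)
      rw [trl_apply] at h1
      simp only [zero_add] at h1
      exact h1
    have hAd : ∀ X ∈ SymPart G, ∀ Z ∈ lieAlg (Cl pG) (cl_closed pG),
        (ex X : Mat n) * Z * ((ex X)⁻¹ : (Mat n)ˣ) ∈ lieAlg (Cl pG) (cl_closed pG) := by
      refine conj_inv (E := E) hG (Λ := stab q y0) (pE.comp (stab q y0).subtype)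
        (pG.comp (stab q y0).subtype) ?_ ?_ (Cl pG) (cl_closed pG)
        (fun l => mem_cl pG l)
      · intro r
        have h1 := (hA1 r).preimage (f := ((↑) : stab q y0 → Γ)) Subtype.coe_injective.injOn
        refine h1.subset fun l hl => ⟨l.2, ?_⟩
        rw [hp, hx0]
        exact hl
      · obtain ⟨D, hD⟩ := hA2
        refine ⟨D, fun x => ?_⟩
        obtain ⟨l, hl, h1⟩ := hD x
        rw [hp, hx0] at h1
        exact ⟨⟨l, hl⟩, h1⟩
    -- the extension of `c`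
    have hle := cl_le hG pG
    have hshift : ∀ u : Cl pG, ∀ x : SG G, F (0, act ⟨u, hle u.2⟩ x) - F (0, x) =
        F (0, act ⟨u, hle u.2⟩ (pt 1)) - F (0, pt 1) := by
      rintro ⟨u, hu⟩ x
      by_contra hne
      have hcl : Continuous fun g : G =>
          F (0, act g x) - F (0, x) - (F (0, act g (pt 1)) - F (0, pt 1)) := by
        refine Continuous.sub (Continuous.sub ?_ continuous_const)
          (Continuous.sub ?_ continuous_const)
        · exact hFc.comp (continuous_const.prodMk (act_cont x))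
        · exact hFc.comp (continuous_const.prodMk (act_cont (pt 1)))
      have hopen : IsOpen {g : G |
          F (0, act g x) - F (0, x) - (F (0, act g (pt 1)) - F (0, pt 1)) ≠ 0} :=
        isOpen_ne_fun hcl continuous_const
      obtain ⟨O, hO, hOe⟩ := isOpen_induced_iff.1 hopen
      have huO : u ∈ O := by
        have : (⟨u, hle hu⟩ : G) ∈ Subtype.val ⁻¹' O := by
          rw [hOe]
          exact sub_ne_zero.2 hne
        exact this
      obtain ⟨γ, hγ⟩ := cl_near pG hu O hO huO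
      have h1 : pG γ ∈ {g : G |
          F (0, act g x) - F (0, x) - (F (0, act g (pt 1)) - F (0, pt 1)) ≠ 0} := by
        rw [← hOe]
        exact hγ
      apply h1
      have key : ∀ x, F (0, act (pG γ) x) = F (0, x) + c γ := by
        intro x
        have h2 := hFe γ (0, x)
        rw [hp, prodHom_apply, hF0] at h2
        exact h2
      rw [key, key]
      ring
    obtain ⟨f, hfd⟩ : ∃ f : Cl pG → ℝ, ∀ u : Cl pG,
        f u = F (0, act ⟨u, hle u.2⟩ (pt 1)) - F (0, pt 1) := ⟨_, fun _ => rfl⟩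
    have hfadd : ∀ a b, f (a * b) = f a + f b := by
      intro a b
      rw [hfd, hfd, hfd, ← hshift a (act ⟨b, hle b.2⟩ (pt 1))]
      have e1 : act ⟨((a * b : Cl pG) : (Mat n)ˣ), hle (a * b).2⟩ (pt (1 : G)) =
          act ⟨a, hle a.2⟩ (act ⟨b, hle b.2⟩ (pt (1 : G))) := by
        rw [act_pt, act_pt, act_pt, mul_one, mul_one]
        rfl
      rw [e1]
      ring
    have hfc : Continuous f := by
      have h1 : f = fun u : Cl pG => F (0, act ⟨u, hle u.2⟩ (pt 1)) - F (0, pt 1) := by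
        ext u
        exact hfd u
      rw [h1]
      have h2 : Continuous fun u : Cl pG => (⟨u, hle u.2⟩ : G) :=
        continuous_subtype_val.subtype_mk _
      exact (hFc.comp (continuous_const.prodMk ((act_cont (pt 1)).comp h2))).sub continuous_const
    have hcA : ∀ γ, (G.subtype.comp pG) γ ∈ NN pG → c γ = 0 := by
      intro γ hγ
      have h1 := hom_nor (Cl pG) (cl_closed pG)
        (lie_perfect hG (Cl pG) (cl_closed pG) hle hAd) (Cl pG) (nor_le _ _) f hfadd hfc _ hγ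
      rw [hfd] at h1
      have h2 := hFe γ (0, pt 1)
      rw [hp, prodHom_apply, hF0] at h2
      have h3 : F (0, (act.comp pG) γ (pt 1)) - F (0, pt 1) = 0 := h1
      simp only at h2
      linarith
    have hzero := soft pE (G.subtype.comp pG) q y0 (NN pG) hP
      (by
        obtain ⟨R, hR⟩ := hC
        refine ⟨R, fun e m hm y => ?_⟩
        exact hR e ⟨m, hle (nor_le _ _ hm)⟩ y)
      (nn1 pG) (nn2 pG) (nn3 hG pG) (nn4 hG pG hAd) (nn5 hG pG hAd) hYc hYu hrig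
      (fun γ h1 h2 h3 => hinj γ h1 (Subtype.ext h2) h3) hFG hirr c hadd hcA
    refine no_fibre φ hφ hK ?_ ?_ hE (q := q) (y0 := y0)
    · intro γ hγ
      have h1 := hcφ γ hγ
      rw [hzero] at h1
      apply Multiplicative.toAdd.injective
      rw [toAdd_one]
      exact_mod_cast h1.symm
    · obtain ⟨R, hR⟩ := hC'
      refine ⟨R, fun y => ?_⟩
      obtain ⟨γ, -, h⟩ := hR x0 y
      exact ⟨γ, h⟩

end

end Pool.Agent.E8helper46.FL
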