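import Pool.Agent.E8helper46.FL.Cent

/-!
# The closure of the projection
-/

set_option autoImplicit false
set_option linter.unusedSectionVars false

namespace Pool.Agent.E8helper46.FL

open Set Filter Topology

open scoped Matrix.Norms.L2Operator

variable {n : ℕ} {G : Subgroup (Mat n)ˣ} (hG : IsNoncompactType G) {Γ : Type*} [Group Γ]
  (pG : Γ →* G)

/-- the closure of the image in the group of matrices -/
def Cl : Subgroup (Mat n)ˣ := ((G.subtype.comp pG).range).topologicalClosure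

theorem cl_closed : IsClosed (Cl pG : Set (Mat n)ˣ) := Subgroup.isClosed_topologicalClosure _

theorem mem_cl (γ : Γ) : ((pG γ : G) : (Mat n)ˣ) ∈ Cl pG :=
  Subgroup.le_topologicalClosure _ ⟨γ, rfl⟩

include hG in
theorem cl_le : Cl pG ≤ G := by
  refine Subgroup.topologicalClosure_minimal _ ?_ hG.closed
  rintro _ ⟨γ, rfl⟩
  exact (pG γ).2

theorem cl_near {g : (Mat n)ˣ} (hg : g ∈ Cl pG) (O : Set (Mat n)ˣ) (hO : IsOpen O) (hgO : g ∈ O) :
    ∃ γ, ((pG γ : G) : (Mat n)ˣ) ∈ O := by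
  have h1 : g ∈ closure (((G.subtype.comp pG).range : Subgroup (Mat n)ˣ) : Set (Mat n)ˣ) := hg
  obtain ⟨_, h2, ⟨γ, rfl⟩⟩ := mem_closure_iff.1 h1 O hO hgO
  exact ⟨γ, h2⟩

/-- the normal subgroup of the closure -/
abbrev NN : Subgroup (Mat n)ˣ := Nor (Cl pG) (cl_closed pG)

theorem nn1 (γ : Γ) (h : (Mat n)ˣ) (hh : h ∈ NN pG) :
    ((pG γ : G) : (Mat n)ˣ) * h * ((pG γ : G) : (Mat n)ˣ)⁻¹ ∈ NN pG :=
  nor_conj _ _ hh (mem_cl pG γ)

theorem nn2 (P : (Mat n)ˣ → Prop)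
    (hP : ∀ m ∈ NN pG, ∀ h ∈ NN pG, len h ≤ 1 → P m → P (m * h)) (h1 : P 1) :
    ∀ m ∈ NN pG, P m := by
  have hpow : ∀ u ∈ NN pG, len u ≤ 1 → ∀ (j : ℕ), ∀ m ∈ NN pG, P m → P (m * u ^ j) := by
    intro u hu hl j
    induction j with
    | zero => intro m _ h; rw [pow_zero, mul_one]; exact h
    | succ j ih =>
      intro m hm h
      rw [pow_succ, ← mul_assoc]
      exact hP _ ((NN pG).mul_mem hm ((NN pG).pow_mem hu j)) u hu hl (ih m hm h)
  have key : ∀ h (_ : h ∈ Subgroup.closure {u | ∃ X ∈ lieAlg (Cl pG) (cl_closed pG), u = ex X}),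
      ∀ m ∈ NN pG, (P m ↔ P (m * h)) := by
    intro h hh
    induction hh using Subgroup.closure_induction with
    | mem x hx =>
      obtain ⟨X, hX, rfl⟩ := hx
      have hlim : Tendsto (fun k : ℕ => len (ex ((1 / ((k : ℝ) + 1)) • X))) atTop (𝓝 0) := by
        have h1 : Tendsto (fun t : ℝ => len (ex (t • X))) (𝓝 0) (𝓝 0) := by
          have h2 : Continuous fun t : ℝ => len (ex (t • X)) :=
            len_cont.comp (ex_cont.comp (continuous_id.smul continuous_const))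
          have h3 := h2.tendsto 0
          rw [zero_smul, ex_zero, len_one] at h3
          exact h3
        exact h1.comp tendsto_one_div_add_atTop_nhds_zero_nat
      obtain ⟨k, hk⟩ := (hlim.eventually_lt_const one_pos).exists
      obtain ⟨u, hu⟩ : ∃ u, u = ex ((1 / ((k : ℝ) + 1)) • X) := ⟨_, rfl⟩
      rw [← hu] at hk
      have huN : u ∈ NN pG := by
        rw [hu]
        exact ex_mem_nor _ _ (Submodule.smul_mem _ _ hX)
      have hX2 : ex X = u ^ (k + 1) := by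
        rw [hu, ← ex_nsmul, ← Nat.cast_smul_eq_nsmul ℝ, smul_smul]
        have : ((k + 1 : ℕ) : ℝ) * (1 / ((k : ℝ) + 1)) = 1 := by
          push_cast
          field_simp
        rw [this, one_smul]
      intro m hm
      rw [hX2]
      constructor
      · exact fun h => hpow u huN hk.le _ m hm h
      · intro h
        have h2 := hpow u⁻¹ ((NN pG).inv_mem huN) (by rw [len_inv]; exact hk.le) (k + 1) _
          ((NN pG).mul_mem hm ((NN pG).pow_mem huN (k + 1))) h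
        rw [inv_pow, mul_inv_cancel_right] at h2
        exact h2
    | one => intro m _; rw [mul_one]
    | mul x y hx hy ihx ihy =>
      intro m hm
      rw [← mul_assoc, ← ihy _ ((NN pG).mul_mem hm hx)]
      exact ihx m hm
    | inv x hx ih =>
      intro m hm
      have h2 := ih (m * x⁻¹) ((NN pG).mul_mem hm ((NN pG).inv_mem hx))
      rw [inv_mul_cancel_right] at h2
      exact h2.symm
  intro m hm
  have h2 := key m hm 1 (NN pG).one_mem
  rw [one_mul] at h2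
  exact h2.1 h1

include hG in
theorem nn3 (r : ℝ) : ∃ F : Finset Γ, ∀ m ∈ NN pG, ∀ γ : Γ,
    len (m⁻¹ * ((pG γ : G) : (Mat n)ˣ)) ≤ r →
      ∃ δ ∈ F, m⁻¹ * ((pG γ : G) : (Mat n)ˣ) * ((pG δ : G) : (Mat n)ˣ)⁻¹ ∈ NN pG := by
  classical
  obtain ⟨U, hUo, hU1, hU⟩ := nor_nhds (Cl pG) (cl_closed pG)
  have hK : IsCompact ({g : (Mat n)ˣ | len g ≤ r} ∩ (Cl pG : Set (Mat n)ˣ)) :=
    (isCompact_len r).inter_right (cl_closed pG)
  obtain ⟨F, hF⟩ := hK.elim_finite_subcover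
    (fun δ : Γ => {g : (Mat n)ˣ | g * ((pG δ : G) : (Mat n)ˣ)⁻¹ ∈ U})
    (fun δ => hUo.preimage (continuous_id.mul continuous_const)) (by
      rintro g ⟨-, hg⟩
      obtain ⟨δ, hδ⟩ := cl_near pG hg {x : (Mat n)ˣ | g * x⁻¹ ∈ U}
        (hUo.preimage (continuous_const.mul continuous_inv)) (by
          show g * g⁻¹ ∈ U
          rw [mul_inv_cancel]
          exact hU1)
      rw [mem_iUnion]
      exact ⟨δ, hδ⟩)
  refine ⟨F, fun m hm γ hl => ?_⟩
  have hmem : m⁻¹ * ((pG γ : G) : (Mat n)ˣ) ∈ Cl pG :=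
    (Cl pG).mul_mem ((Cl pG).inv_mem (nor_le _ _ hm)) (mem_cl pG γ)
  obtain ⟨δ, hδ, h1⟩ := mem_iUnion₂.1 (hF ⟨hl, hmem⟩)
  exact ⟨δ, hδ, hU _ h1 ((Cl pG).mul_mem hmem ((Cl pG).inv_mem (mem_cl pG δ)))⟩

section

variable (hAd : ∀ X ∈ SymPart G, ∀ Z ∈ lieAlg (Cl pG) (cl_closed pG),
    (ex X : Mat n) * Z * ((ex X)⁻¹ : (Mat n)ˣ) ∈ lieAlg (Cl pG) (cl_closed pG))

include hG hAd in
theorem nn4 (γ : Γ) : ∃ k z m : (Mat n)ˣ, len k = 0 ∧ m ∈ NN pG ∧
    (∀ h ∈ NN pG, z * h = h * z) ∧ ((pG γ : G) : (Mat n)ˣ) = k * z * m := by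
  obtain ⟨k, z, m, hk, hm, hz, h⟩ := nor_decomp hG (Cl pG) (cl_closed pG) (cl_le hG pG) hAd
    (pG γ).2
  exact ⟨k, z, m, len_orth hk, hm, hz, h⟩

include hG hAd in
theorem nn5 (g : (Mat n)ˣ) (hg : g ∈ NN pG)
    (hc : ∀ γ, ((pG γ : G) : (Mat n)ˣ) ∈ NN pG →
      g * ((pG γ : G) : (Mat n)ˣ) = ((pG γ : G) : (Mat n)ˣ) * g) : g = 1 := by
  refine nor_center hG (Cl pG) (cl_closed pG) (cl_le hG pG) hAd hg fun h hh => ?_
  have hcl : IsClosed {x : (Mat n)ˣ | g * x = x * g} :=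
    isClosed_eq (continuous_const.mul continuous_id) (continuous_id.mul continuous_const)
  have hsub : {x : (Mat n)ˣ | ∃ γ, x = ((pG γ : G) : (Mat n)ˣ) ∧ x ∈ NN pG} ⊆
      {x : (Mat n)ˣ | g * x = x * g} := by
    rintro _ ⟨γ, rfl, h1⟩
    exact hc γ h1
  refine hcl.closure_subset_iff.2 hsub ?_
  obtain ⟨U, hUo, hU1, hU⟩ := nor_nhds (Cl pG) (cl_closed pG)
  rw [mem_closure_iff]
  intro O hO hhO
  obtain ⟨γ, h1, h2⟩ := cl_near pG (nor_le _ _ hh) (O ∩ {x : (Mat n)ˣ | h⁻¹ * x ∈ U})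
    (hO.inter (hUo.preimage (continuous_const.mul continuous_id))) ⟨hhO, by
      show h⁻¹ * h ∈ U
      rw [inv_mul_cancel]
      exact hU1⟩
  refine ⟨_, h1, γ, rfl, ?_⟩
  have h3 := hU _ h2 ((Cl pG).mul_mem ((Cl pG).inv_mem (nor_le _ _ hh)) (mem_cl pG γ))
  have h4 := (NN pG).mul_mem hh h3
  rwa [mul_inv_cancel_left] at h4

end

end Pool.Agent.E8helper46.FL
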