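import Mathlib

/-!
# The Lie algebra of a closed subgroup of the units of a Banach algebra
-/

set_option autoImplicit false

namespace Pool.Agent.E8helper46.FL

open Set Filter Topology NormedSpace

section basic

variable {A : Type*} [NormedRing A] [NormedAlgebra ℝ A] [CompleteSpace A]

/-- the exponential as a unit -/
noncomputable def ex (x : A) : Aˣ :=
  letI := NormedAlgebra.restrictScalars ℚ ℝ A
  ⟨exp x, exp (-x), by
    rw [← exp_add_of_commute (Commute.refl x).neg_right, add_neg_cancel, exp_zero], by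
    rw [← exp_add_of_commute (Commute.refl x).neg_left, neg_add_cancel, exp_zero]⟩

theorem ex_val (x : A) : (ex x : A) = exp x := rfl

theorem ex_inv_val (x : A) : ((ex x)⁻¹ : Aˣ).val = exp (-x) := rfl

theorem ex_add {x y : A} (h : Commute x y) : ex (x + y) = ex x * ex y := by
  let _ := NormedAlgebra.restrictScalars ℚ ℝ A
  ext
  rw [Units.val_mul, ex_val, ex_val, ex_val, exp_add_of_commute h]

theorem ex_zero : ex (0 : A) = 1 := by
  let _ := NormedAlgebra.restrictScalars ℚ ℝ A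
  ext
  rw [ex_val, exp_zero, Units.val_one]

theorem ex_neg (x : A) : ex (-x) = (ex x)⁻¹ := by
  ext
  rw [ex_val, ex_inv_val]

theorem ex_nsmul (n : ℕ) (x : A) : ex (n • x) = ex x ^ n := by
  let _ := NormedAlgebra.restrictScalars ℚ ℝ A
  ext
  rw [Units.val_pow_eq_pow_val, ex_val, ex_val, exp_nsmul]

theorem ex_conj (u : Aˣ) (x : A) : ex (u * x * ↑u⁻¹) = u * ex x * u⁻¹ := by
  let _ := NormedAlgebra.restrictScalars ℚ ℝ A
  ext
  rw [Units.val_mul, Units.val_mul, ex_val, ex_val, exp_units_conj]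

theorem ex_add_smul (s t : ℝ) (x : A) : ex ((s + t) • x) = ex (s • x) * ex (t • x) := by
  rw [add_smul]
  exact ex_add (((Commute.refl x).smul_left s).smul_right t)

theorem exp_cont : Continuous (exp : A → A) := by
  let _ := NormedAlgebra.restrictScalars ℚ ℝ A
  exact exp_continuous

theorem ex_cont : Continuous (ex : A → Aˣ) := by
  rw [Units.continuous_iff]
  refine ⟨exp_cont, ?_⟩
  exact exp_cont.comp continuous_neg

theorem ex_deriv (x : A) : HasDerivAt (fun t : ℝ => exp (t • x)) x 0 := by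
  have := hasDerivAt_exp_smul_const (𝕂 := ℝ) x (0 : ℝ)
  rwa [zero_smul, exp_zero, one_mul] at this

/-- the strict derivative of the exponential as an equivalence -/
theorem exp_strict : HasStrictFDerivAt (exp : A → A)
    ((ContinuousLinearEquiv.refl ℝ A : A ≃L[ℝ] A) : A →L[ℝ] A) 0 :=
  hasStrictFDerivAt_exp_zero (𝕂 := ℝ)

/-- the local logarithm -/
noncomputable def lg : A → A := (exp_strict (A := A)).localInverse _ _ _

theorem lg_one : lg (1 : A) = 0 := by
  have := (exp_strict (A := A)).localInverse_apply_image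
  rwa [exp_zero] at this

theorem exp_lg : ∀ᶠ y in 𝓝 (1 : A), exp (lg y) = y := by
  have := (exp_strict (A := A)).eventually_right_inverse
  rwa [exp_zero] at this

theorem lg_deriv : HasFDerivAt (lg : A → A) (ContinuousLinearMap.id ℝ A) 1 := by
  have := (exp_strict (A := A)).to_localInverse.hasFDerivAt
  rw [exp_zero] at this
  exact this

/-- `n` times the logarithm of `exp (X / n) exp (Y / n)` tends to `X + Y` -/
theorem trotter_log (X Y : A) : ∃ Z : ℕ → A,
    (∀ᶠ n : ℕ in atTop, ex (Z n) = ex ((1 / ((n : ℝ) + 1)) • X) * ex ((1 / ((n : ℝ) + 1)) • Y)) ∧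
    Tendsto (fun n : ℕ => ((n : ℝ) + 1) • Z n) atTop (𝓝 (X + Y)) := by
  obtain ⟨f, hf⟩ : ∃ f : ℝ → A, f = fun s => exp (s • X) * exp (s • Y) := ⟨_, rfl⟩
  have hf0 : f 0 = 1 := by rw [hf]; simp
  have hfd : HasDerivAt f (X + Y) 0 := by
    have h := (ex_deriv X).mul (ex_deriv Y)
    rw [zero_smul, exp_zero, zero_smul, exp_zero, mul_one, one_mul] at h
    rw [hf]
    exact h
  have hg : HasDerivAt (fun s => lg (f s)) (X + Y) 0 := by
    have h1 : HasFDerivAt (lg : A → A) (ContinuousLinearMap.id ℝ A) (f 0) := by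
      rw [hf0]; exact lg_deriv
    have h2 := h1.comp_hasDerivAt (0 : ℝ) hfd
    rw [ContinuousLinearMap.id_apply] at h2
    exact h2
  have hs : Tendsto (fun n : ℕ => 1 / ((n : ℝ) + 1)) atTop (𝓝 0) :=
    tendsto_one_div_add_atTop_nhds_zero_nat
  refine ⟨fun n => lg (f (1 / ((n : ℝ) + 1))), ?_, ?_⟩
  · have h1 : Tendsto (fun n : ℕ => f (1 / ((n : ℝ) + 1))) atTop (𝓝 1) := by
      have := hfd.continuousAt.tendsto.comp hs
      rwa [hf0] at this
    refine (h1.eventually exp_lg).mono fun n hn => ?_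
    ext
    rw [Units.val_mul, ex_val, ex_val, ex_val, hn, hf]
  · have h1 := hg.tendsto_slope
    have h2 : Tendsto (fun n : ℕ => 1 / ((n : ℝ) + 1)) atTop (𝓝[≠] 0) := by
      rw [tendsto_nhdsWithin_iff]
      refine ⟨hs, Eventually.of_forall fun n => ?_⟩
      have : (0 : ℝ) < 1 / ((n : ℝ) + 1) := by positivity
      exact this.ne'
    refine (h1.comp h2).congr fun n => ?_
    show slope (fun s => lg (f s)) 0 (1 / ((n : ℝ) + 1)) = _
    rw [slope, hf0, lg_one]
    simp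

/-- Lemma on limits of powers. -/
theorem limit_power (D : Subgroup Aˣ) (hD : IsClosed (D : Set Aˣ)) (X : A) (Z : ℕ → A) (r : ℕ → ℝ)
    (hr : Tendsto r atTop atTop) (hZ : ∀ᶠ n in atTop, ex (Z n) ∈ D)
    (hl : Tendsto (fun n => r n • Z n) atTop (𝓝 X)) : ∀ t : ℝ, ex (t • X) ∈ D := by
  have hpos : ∀ t : ℝ, 0 ≤ t → ex (t • X) ∈ D := by
    intro t ht
    have h1 : Tendsto (fun n => (⌊t * r n⌋₊ : ℝ) / r n) atTop (𝓝 t) :=
      (tendsto_nat_floor_mul_div_atTop ht).comp hr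
    have h2 : Tendsto (fun n => ex (((⌊t * r n⌋₊ : ℝ) / r n) • (r n • Z n))) atTop
        (𝓝 (ex (t • X))) := (ex_cont.tendsto _).comp (h1.smul hl)
    refine hD.mem_of_tendsto h2 ?_
    filter_upwards [hZ, hr.eventually_gt_atTop 0] with n hn hrn
    rw [smul_smul, div_mul_cancel₀ _ hrn.ne', Nat.cast_smul_eq_nsmul, ex_nsmul]
    exact D.pow_mem hn _
  intro t
  rcases le_total 0 t with ht | ht
  · exact hpos t ht
  · have h1 := D.inv_mem (hpos (-t) (neg_nonneg.2 ht))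
    rw [← ex_neg, neg_smul, neg_neg] at h1
    exact h1

/-- The Lie algebra of a closed subgroup of the units. -/
noncomputable def lieAlg (D : Subgroup Aˣ) (hD : IsClosed (D : Set Aˣ)) : Submodule ℝ A where
  carrier := {X | ∀ t : ℝ, ex (t • X) ∈ D}
  zero_mem' := by
    intro t
    rw [smul_zero, ex_zero]
    exact D.one_mem
  add_mem' := by
    intro X Y hX hY
    obtain ⟨Z, hZ, hl⟩ := trotter_log X Y
    refine limit_power D hD (X + Y) Z (fun n => (n : ℝ) + 1) ?_ ?_ hl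
    · exact tendsto_atTop_add_const_right _ _ tendsto_natCast_atTop_atTop
    · filter_upwards [hZ] with n hn
      rw [hn]
      exact D.mul_mem (hX _) (hY _)
  smul_mem' := by
    intro c X hX t
    rw [smul_smul]
    exact hX _

theorem mem_lieAlg {D : Subgroup Aˣ} {hD : IsClosed (D : Set Aˣ)} {X : A} :
    X ∈ lieAlg D hD ↔ ∀ t : ℝ, ex (t • X) ∈ D := Iff.rfl

theorem ex_mem {D : Subgroup Aˣ} {hD : IsClosed (D : Set Aˣ)} {X : A} (hX : X ∈ lieAlg D hD) :
    ex X ∈ D := by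
  have := hX 1
  rwa [one_smul] at this

theorem conj_mem_lieAlg {D : Subgroup Aˣ} {hD : IsClosed (D : Set Aˣ)} {X : A}
    (hX : X ∈ lieAlg D hD) {u : Aˣ} (hu : u ∈ D) : (u : A) * X * ↑u⁻¹ ∈ lieAlg D hD := by
  intro t
  have h1 : t • ((u : A) * X * ↑u⁻¹) = u * (t • X) * ↑u⁻¹ := by
    rw [mul_smul_comm, smul_mul_assoc]
  rw [h1, ex_conj]
  exact D.mul_mem (D.mul_mem hu (hX t)) (D.inv_mem hu)

/-- the derivative of conjugation along a one-parameter group -/
theorem conj_deriv (X Y : A) :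
    HasDerivAt (fun t : ℝ => exp (t • X) * Y * exp (-(t • X))) (X * Y - Y * X) 0 := by
  have h1 := ex_deriv X
  have h2 : HasDerivAt (fun t : ℝ => exp (-(t • X))) (-X) 0 := by
    have := ex_deriv (-X)
    simpa [smul_neg] using this
  have h3 := (h1.mul_const Y).mul h2
  rw [zero_smul, neg_zero, exp_zero, mul_one, one_mul] at h3
  rw [mul_neg, ← sub_eq_add_neg] at h3
  exact h3

/-- A subspace invariant under conjugation by a one-parameter group is invariant under the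
bracket. -/
theorem bracket_mem (U : Submodule ℝ A) (hU : IsClosed (U : Set A)) (X Y : A) (hY : Y ∈ U)
    (h : ∀ᶠ t : ℝ in 𝓝 0, exp (t • X) * Y * exp (-(t • X)) ∈ U) : X * Y - Y * X ∈ U := by
  have h1 := (conj_deriv X Y).tendsto_slope
  refine hU.mem_of_tendsto h1 ?_
  refine (h.filter_mono nhdsWithin_le_nhds).mono fun t ht => ?_
  rw [slope]
  refine U.smul_mem _ ?_
  simp only [zero_smul, neg_zero, exp_zero, mul_one, one_mul, vsub_eq_sub]
  exact U.sub_mem ht hY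

/-- A continuous additive function on a subgroup, evaluated on one-parameter groups. -/
theorem hom_smul (U : Subgroup Aˣ) (f : U → ℝ) (hf : ∀ a b, f (a * b) = f a + f b)
    (hfc : Continuous f) (X : A) (hX : ∀ t : ℝ, ex (t • X) ∈ U) (t : ℝ) :
    f ⟨ex (t • X), hX t⟩ = t * f ⟨ex ((1 : ℝ) • X), hX 1⟩ := by
  obtain ⟨g, hg⟩ : ∃ g : ℝ →+ ℝ, ∀ t, g t = f ⟨ex (t • X), hX t⟩ := by
    refine ⟨⟨⟨fun t => f ⟨ex (t • X), hX t⟩, ?_⟩, ?_⟩, fun t => rfl⟩
    · have h1 : (⟨ex ((0 : ℝ) • X), hX 0⟩ : U) = 1 := by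
        apply Subtype.ext
        show ex ((0 : ℝ) • X) = 1
        rw [zero_smul, ex_zero]
      have h2 := hf 1 1
      rw [mul_one] at h2
      rw [h1]
      linarith
    · intro s t
      show f ⟨ex ((s + t) • X), hX (s + t)⟩ = f ⟨ex (s • X), hX s⟩ + f ⟨ex (t • X), hX t⟩
      rw [← hf]
      congr 1
      apply Subtype.ext
      exact ex_add_smul s t X
  have hgc : Continuous g := by
    have h1 : Continuous fun t : ℝ => f ⟨ex (t • X), hX t⟩ := by
      refine hfc.comp ?_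
      exact (ex_cont.comp (continuous_id.smul continuous_const)).subtype_mk _
    exact h1.congr fun t => (hg t).symm
  have h1 := (g.toRealLinearMap hgc).map_smul t 1
  rw [smul_eq_mul, mul_one, smul_eq_mul] at h1
  rw [← hg, ← hg]
  exact h1

theorem hom_add (U : Subgroup Aˣ) (f : U → ℝ) (hf : ∀ a b, f (a * b) = f a + f b)
    (hfc : Continuous f) (X Y : A) (hX : ∀ t : ℝ, ex (t • X) ∈ U) (hY : ∀ t : ℝ, ex (t • Y) ∈ U)
    (hXY : ∀ t : ℝ, ex (t • (X + Y)) ∈ U) :
    f ⟨ex ((1 : ℝ) • (X + Y)), hXY 1⟩ =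
      f ⟨ex ((1 : ℝ) • X), hX 1⟩ + f ⟨ex ((1 : ℝ) • Y), hY 1⟩ := by
  obtain ⟨Z, hZ, hl⟩ := trotter_log X Y
  obtain ⟨w, hw⟩ : ∃ w : ℕ → U, w = fun n =>
      (⟨ex ((1 / ((n : ℝ) + 1)) • X), hX _⟩ * ⟨ex ((1 / ((n : ℝ) + 1)) • Y), hY _⟩) ^ (n + 1) :=
    ⟨_, rfl⟩
  have hfone : f 1 = 0 := by
    have h2 := hf 1 1
    rw [mul_one] at h2
    linarith
  have hfp : ∀ (a : U) (n : ℕ), f (a ^ n) = n * f a := by
    intro a n
    induction n with
    | zero => rw [pow_zero, hfone]; simp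
    | succ n ih => rw [pow_succ, hf, ih]; push_cast; ring
  have hfw : ∀ n, f (w n) = f ⟨ex ((1 : ℝ) • X), hX 1⟩ + f ⟨ex ((1 : ℝ) • Y), hY 1⟩ := by
    intro n
    rw [hw]
    simp only
    rw [hfp, hf, hom_smul U f hf hfc X hX, hom_smul U f hf hfc Y hY]
    push_cast
    field_simp
  have hwt : Tendsto w atTop (𝓝 ⟨ex ((1 : ℝ) • (X + Y)), hXY 1⟩) := by
    rw [tendsto_subtype_rng]
    have h1 : Tendsto (fun n : ℕ => ex (((n : ℝ) + 1) • Z n)) atTop
        (𝓝 (ex ((1 : ℝ) • (X + Y)))) := by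
      rw [one_smul]
      exact (ex_cont.tendsto _).comp hl
    refine h1.congr' ?_
    filter_upwards [hZ] with n hn
    have h2 : ((n : ℝ) + 1) • Z n = (n + 1) • Z n := by
      rw [← Nat.cast_smul_eq_nsmul ℝ]
      push_cast
      rfl
    rw [h2, ex_nsmul, hn, hw]
    rfl
  have h1 := (hfc.tendsto _).comp hwt
  refine tendsto_nhds_unique h1 ?_
  refine tendsto_const_nhds.congr fun n => ?_
  exact (hfw n).symm

theorem hom_conj (U : Subgroup Aˣ) (f : U → ℝ) (hf : ∀ a b, f (a * b) = f a + f b)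
    (u : U) (X : A) (hX : ex X ∈ U) (hX' : ex ((u : Aˣ) * X * ↑(u : Aˣ)⁻¹) ∈ U) :
    f ⟨ex ((u : Aˣ) * X * ↑(u : Aˣ)⁻¹), hX'⟩ = f ⟨ex X, hX⟩ := by
  have h1 : (⟨ex ((u : Aˣ) * X * ↑(u : Aˣ)⁻¹), hX'⟩ : U) = u * ⟨ex X, hX⟩ * u⁻¹ := by
    apply Subtype.ext
    exact ex_conj _ _
  have hfone : f 1 = 0 := by
    have h2 := hf 1 1
    rw [mul_one] at h2
    linarith
  have h2 := hf u u⁻¹
  rw [mul_inv_cancel, hfone] at h2
  rw [h1, hf, hf]
  linarith

end basic

section fin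

variable {A : Type*} [NormedRing A] [NormedAlgebra ℝ A] [FiniteDimensional ℝ A]
  [CompleteSpace A]

/-- **The closed subgroup theorem**: small elements of a closed subgroup are exponentials of
elements of the Lie algebra. -/
theorem near_one (D : Subgroup Aˣ) (hD : IsClosed (D : Set Aˣ)) :
    ∀ᶠ u : Aˣ in 𝓝 1, u ∈ D → ∃ X ∈ lieAlg D hD, u = ex X := by
  obtain ⟨m, hm⟩ := (lieAlg D hD).exists_isCompl
  obtain ⟨e, he⟩ : ∃ e : (lieAlg D hD × m) ≃L[ℝ] A, ∀ p, e p = (p.1 : A) + p.2 := by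
    refine ⟨(Submodule.prodEquivOfIsCompl _ _ hm).toContinuousLinearEquiv, fun p => ?_⟩
    simp
  obtain ⟨ψ, hψ⟩ : ∃ ψ : lieAlg D hD × m → A, ψ = fun p => exp (p.1 : A) * exp (p.2 : A) :=
    ⟨_, rfl⟩
  have hψ0 : ψ 0 = 1 := by rw [hψ]; simp
  have hψd : HasStrictFDerivAt ψ (e : (lieAlg D hD × m) →L[ℝ] A) 0 := by
    have h1 : HasStrictFDerivAt (fun p : lieAlg D hD × m => exp (p.1 : A))
        ((lieAlg D hD).subtypeL.comp (ContinuousLinearMap.fst ℝ _ _)) 0 := by
      have h := (hasStrictFDerivAt_exp_zero (𝕂 := ℝ) (𝔸 := A))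
      have h' : HasStrictFDerivAt (exp : A → A) (1 : A →L[ℝ] A)
          (((lieAlg D hD).subtypeL.comp (ContinuousLinearMap.fst ℝ (lieAlg D hD) m)) 0) := by
        simpa using h
      exact h'.comp 0 ((lieAlg D hD).subtypeL.comp
        (ContinuousLinearMap.fst ℝ (lieAlg D hD) m)).hasStrictFDerivAt
    have h2 : HasStrictFDerivAt (fun p : lieAlg D hD × m => exp (p.2 : A))
        (m.subtypeL.comp (ContinuousLinearMap.snd ℝ _ _)) 0 := by
      have h := (hasStrictFDerivAt_exp_zero (𝕂 := ℝ) (𝔸 := A))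
      have h' : HasStrictFDerivAt (exp : A → A) (1 : A →L[ℝ] A)
          ((m.subtypeL.comp (ContinuousLinearMap.snd ℝ (lieAlg D hD) m)) 0) := by
        simpa using h
      exact h'.comp 0 (m.subtypeL.comp
        (ContinuousLinearMap.snd ℝ (lieAlg D hD) m)).hasStrictFDerivAt
    have h3 := h1.mul' h2
    rw [hψ]
    refine h3.congr_fderiv ?_
    ext p
    · simp [he]
    · simp [he]
  obtain ⟨L, hL⟩ : ∃ L, L = hψd.localInverse _ _ _ := ⟨_, rfl⟩
  have hL1 : ∀ᶠ y in 𝓝 (1 : A), ψ (L y) = y := by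
    have := hψd.eventually_right_inverse
    rwa [hψ0, ← hL] at this
  have hL2 : Tendsto L (𝓝 1) (𝓝 0) := by
    have := hψd.localInverse_tendsto
    rwa [hψ0, ← hL] at this
  by_contra hcon
  have hfr : ∃ᶠ u : Aˣ in 𝓝 1, u ∈ D ∧ ∀ X ∈ lieAlg D hD, u ≠ ex X := by
    intro h
    apply hcon
    filter_upwards [h] with u hu huD
    by_contra h'
    push Not at h'
    exact hu ⟨huD, h'⟩
  have hfc : FirstCountableTopology Aˣ :=
    (Units.isOpenEmbedding_val (R := A)).isInducing.firstCountableTopology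
  obtain ⟨u, hu1, hu2⟩ := exists_seq_forall_of_frequently hfr
  have huv : Tendsto (fun n => (u n : A)) atTop (𝓝 1) := by
    have := (Units.continuous_val (M := A)).tendsto 1
    exact this.comp hu1
  have hp : Tendsto (fun n => L (u n)) atTop (𝓝 0) := hL2.comp huv
  have hex : ∀ᶠ n in atTop, u n = ex ((L (u n)).1 : A) * ex ((L (u n)).2 : A) := by
    filter_upwards [huv.eventually hL1] with n hn
    ext
    rw [Units.val_mul, ex_val, ex_val]
    rw [hψ] at hn
    exact hn.symm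
  have hZ0 : ∀ᶠ n in atTop, (L (u n)).2 ≠ 0 := by
    filter_upwards [hex] with n hn h0
    rw [h0, Submodule.coe_zero, ex_zero, mul_one] at hn
    exact (hu2 n).2 _ (L (u n)).1.2 hn
  have hZD : ∀ᶠ n in atTop, ex ((L (u n)).2 : A) ∈ D := by
    filter_upwards [hex] with n hn
    have h1 : ex ((L (u n)).2 : A) = (ex ((L (u n)).1 : A))⁻¹ * u n := by
      rw [eq_inv_mul_iff_mul_eq]
      exact hn.symm
    rw [h1]
    exact D.mul_mem (D.inv_mem (ex_mem (L (u n)).1.2)) (hu2 n).1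
  have hZt : Tendsto (fun n => (L (u n)).2) atTop (𝓝 0) := by
    have := (continuous_snd (X := lieAlg D hD) (Y := m)).tendsto 0
    exact this.comp hp
  -- normalize
  have hsph : ∀ᶠ n in atTop, (‖(L (u n)).2‖⁻¹ • (L (u n)).2) ∈ Metric.sphere (0 : m) 1 := by
    filter_upwards [hZ0] with n hn
    rw [mem_sphere_zero_iff_norm, norm_smul, norm_inv, norm_norm,
      inv_mul_cancel₀ (norm_ne_zero_iff.2 hn)]
  obtain ⟨Z, hZ, φ, hφ, hlim⟩ := (isCompact_sphere (0 : m) 1).tendsto_subseq' hsph.frequently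
  have hr : Tendsto (fun n => ‖(L (u n)).2‖⁻¹) atTop atTop := by
    refine tendsto_inv_nhdsGT_zero.comp ?_
    rw [tendsto_nhdsWithin_iff]
    refine ⟨?_, ?_⟩
    · have := hZt.norm
      rwa [norm_zero] at this
    · filter_upwards [hZ0] with n hn
      exact norm_pos_iff.2 hn
  have hmem : (Z : A) ∈ lieAlg D hD := by
    refine limit_power D hD Z (fun n => ((L (u (φ n))).2 : A)) (fun n => ‖(L (u (φ n))).2‖⁻¹)
      (hr.comp hφ.tendsto_atTop) (hφ.tendsto_atTop.eventually hZD) ?_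
    have := (m.subtypeL.continuous.tendsto Z).comp hlim
    exact this
  have h0 : (Z : A) = 0 := by
    have h1 : (Z : A) ∈ lieAlg D hD ⊓ m := ⟨hmem, Z.2⟩
    rw [hm.inf_eq_bot] at h1
    exact (Submodule.mem_bot ℝ).1 h1
  have h1 : Z = 0 := Subtype.ext h0
  rw [h1, mem_sphere_zero_iff_norm, norm_zero] at hZ
  exact zero_ne_one hZ

/-- A continuous additive function vanishes on exponentials of brackets. -/
theorem hom_bracket (U : Subgroup Aˣ) (f : U → ℝ) (hf : ∀ a b, f (a * b) = f a + f b)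
    (hfc : Continuous f) (S : Submodule ℝ A) (hS : ∀ X ∈ S, ∀ t : ℝ, ex (t • X) ∈ U)
    (hSc : ∀ X ∈ S, ∀ Y ∈ S, ∀ t : ℝ, (ex (t • X) : A) * Y * ↑(ex (t • X))⁻¹ ∈ S)
    (hbr : ∀ X ∈ S, ∀ Y ∈ S, X * Y - Y * X ∈ S)
    (hperf : ∀ X ∈ S, X ∈ Submodule.span ℝ {Z | ∃ X ∈ S, ∃ Y ∈ S, Z = X * Y - Y * X}) :
    ∀ X (hX : X ∈ S) (t : ℝ), f ⟨ex (t • X), hS X hX t⟩ = 0 := by
  obtain ⟨l, hl⟩ : ∃ l : S →ₗ[ℝ] ℝ, ∀ X : S, l X = f ⟨ex ((1 : ℝ) • (X : A)), hS X X.2 1⟩ := by
    refine ⟨⟨⟨fun X => f ⟨ex ((1 : ℝ) • (X : A)), hS X X.2 1⟩, ?_⟩, ?_⟩, fun X => rfl⟩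
    · intro X Y
      exact hom_add U f hf hfc X Y (hS X X.2) (hS Y Y.2) (hS _ (X + Y).2)
    · intro t X
      have h1 := hom_smul U f hf hfc X (hS X X.2) t
      rw [RingHom.id_apply, smul_eq_mul, ← h1]
      show f ⟨ex ((1 : ℝ) • ((t • X : S) : A)), _⟩ = f ⟨ex (t • (X : A)), _⟩
      congr 2
      rw [one_smul]
      rfl
  have hlc : Continuous l := LinearMap.continuous_of_finiteDimensional l
  have hlb : ∀ X Y : S, l ⟨(X : A) * Y - Y * X, hbr X X.2 Y Y.2⟩ = 0 := by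
    intro X Y
    obtain ⟨g, hg⟩ : ∃ g : ℝ → S, ∀ t, (g t : A) =
        exp (t • (X : A)) * Y * exp (-(t • (X : A))) :=
      ⟨fun t => ⟨_, hSc X X.2 Y Y.2 t⟩, fun t => rfl⟩
    have hg0 : g 0 = Y := by
      apply Subtype.ext
      rw [hg]
      simp
    have h1 : ∀ t, l (g t) = l Y := by
      intro t
      rw [hl, hl]
      have h2 := hom_conj U f hf ⟨ex (t • (X : A)), hS X X.2 t⟩ ((1 : ℝ) • (Y : A)) (hS Y Y.2 1)
        (by
          have h3 := hS _ (hSc X X.2 Y Y.2 t) 1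
          rwa [show (1 : ℝ) • ((ex (t • (X : A)) : A) * Y * ↑(ex (t • (X : A)))⁻¹) =
            (ex (t • (X : A)) : A) * ((1 : ℝ) • (Y : A)) * ↑(ex (t • (X : A)))⁻¹ by
              rw [one_smul, one_smul]] at h3)
      rw [← h2]
      congr 2
      rw [hg, one_smul, one_smul]
      rfl
    have h2 : Tendsto (fun t : ℝ => t⁻¹ • (g t - Y)) (𝓝[≠] 0)
        (𝓝 ⟨(X : A) * Y - Y * X, hbr X X.2 Y Y.2⟩) := by
      rw [tendsto_subtype_rng]
      refine (conj_deriv (X : A) Y).tendsto_slope.congr fun t => ?_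
      rw [slope]
      simp [hg]
    have h3 := (hlc.tendsto _).comp h2
    refine tendsto_nhds_unique h3 (tendsto_const_nhds.congr fun t => ?_)
    show (0 : ℝ) = l (t⁻¹ • (g t - Y))
    rw [map_smul, map_sub, h1, sub_self, smul_zero]
  have hl0 : ∀ X : S, l X = 0 := by
    rintro ⟨X, hX⟩
    have h1 := hperf X hX
    have h2 : ∀ Z ∈ Submodule.span ℝ {Z | ∃ X ∈ S, ∃ Y ∈ S, Z = X * Y - Y * X},
        ∀ hZ : Z ∈ S, l ⟨Z, hZ⟩ = 0 := by
      intro Z hZ
      have hle : Submodule.span ℝ {Z | ∃ X ∈ S, ∃ Y ∈ S, Z = X * Y - Y * X} ≤ S := by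
        rw [Submodule.span_le]
        rintro _ ⟨X, hX, Y, hY, rfl⟩
        exact hbr X hX Y hY
      induction hZ using Submodule.span_induction with
      | mem x hx =>
        obtain ⟨X, hX, Y, hY, rfl⟩ := hx
        intro _
        exact hlb ⟨X, hX⟩ ⟨Y, hY⟩
      | zero => intro _; exact l.map_zero
      | add x y hx hy ihx ihy =>
        intro hxy
        have h3 : (⟨x + y, hxy⟩ : S) = ⟨x, hle hx⟩ + ⟨y, hle hy⟩ := rfl
        rw [h3, map_add, ihx, ihy, add_zero]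
      | smul a x hx ih =>
        intro hax
        have h3 : (⟨a • x, hax⟩ : S) = a • ⟨x, hle hx⟩ := rfl
        rw [h3, map_smul, ih, smul_zero]
    exact h2 X h1 hX
  intro X hX t
  rw [hom_smul U f hf hfc X (hS X hX) t, ← hl ⟨X, hX⟩, hl0, mul_zero]

end fin

end Pool.Agent.E8helper46.FL
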