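import Pool.Agent.E8helper46.FL.Alg

/-!
# Gram determinants of a subspace of matrices under conjugation
-/

set_option autoImplicit false

namespace Pool.Agent.E8helper46.FL

open Matrix

theorem det_one_add_ge {m : ℕ} (S : Matrix (Fin m) (Fin m) ℝ) (hS : S.PosSemidef) :
    1 ≤ (1 + S).det ∧ ((1 + S).det = 1 → S = 0) := by
  have hH : (-S).IsHermitian := hS.1.neg
  have hle : ∀ i, hH.eigenvalues i ≤ 0 := by
    intro i
    have h1 := hH.eigenvalues_eq i
    rw [h1]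
    have h2 := hS.re_dotProduct_nonneg (hH.eigenvectorBasis i)
    rw [Matrix.neg_mulVec, dotProduct_neg, map_neg]
    linarith
  have hdet : (1 + S).det = ∏ i, (1 - hH.eigenvalues i) := by
    have h1 := Matrix.eval_charpoly (-S) 1
    rw [hH.charpoly_eq, Polynomial.eval_prod] at h1
    have h2 : (Matrix.scalar (Fin m) (1 : ℝ)) - (-S) = 1 + S := by
      rw [map_one, sub_neg_eq_add]
    rw [h2] at h1
    rw [← h1]
    refine Finset.prod_congr rfl fun i _ => ?_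
    simp
  have hge : ∀ i, 1 ≤ 1 - hH.eigenvalues i := fun i => by linarith [hle i]
  refine ⟨?_, ?_⟩
  · rw [hdet]
    exact Finset.one_le_prod fun i _ => hge i
  · intro h
    rw [hdet] at h
    have hall : ∀ i, hH.eigenvalues i = 0 := by
      by_contra hcon
      push Not at hcon
      obtain ⟨i, hi⟩ := hcon
      have hlt : 1 < 1 - hH.eigenvalues i := by
        have := lt_of_le_of_ne (hle i) hi
        linarith
      have h2 : 1 - hH.eigenvalues i ≤ ∏ i, (1 - hH.eigenvalues i) := by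
        rw [← Finset.mul_prod_erase _ _ (Finset.mem_univ i)]
        have h3 : 1 ≤ ∏ j ∈ Finset.univ.erase i, (1 - hH.eigenvalues j) :=
          Finset.one_le_prod fun j _ => hge j
        nlinarith
      rw [h] at h2
      linarith
    have h4 : -S = 0 := hH.eigenvalues_eq_zero_iff.1 (funext hall)
    exact neg_eq_zero.1 h4

open scoped MatrixOrder in
theorem exists_root {m : ℕ} (A : Matrix (Fin m) (Fin m) ℝ) (hA : A.PosSemidef) :
    ∃ R : Matrix (Fin m) (Fin m) ℝ, A = R * Rᵀ := by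
  obtain ⟨B, hB⟩ := CStarAlgebra.nonneg_iff_eq_star_mul_self.mp hA.nonneg
  refine ⟨Bᵀ, ?_⟩
  rw [Matrix.transpose_transpose, hB, Matrix.star_eq_conjTranspose,
    Matrix.conjTranspose_eq_transpose_of_trivial]

theorem gram_ineq {m : ℕ} {N : Type*} [Fintype N] [DecidableEq N] (X Y : Matrix N (Fin m) ℝ)
    (hC : (Xᵀ * Y).det ≠ 0) :
    (Xᵀ * Y).det ^ 2 ≤ (Xᵀ * X).det * (Yᵀ * Y).det ∧
      ((Xᵀ * Y).det ^ 2 = (Xᵀ * X).det * (Yᵀ * Y).det →
        ∃ R : Matrix (Fin m) (Fin m) ℝ, Y = X * R) := by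
  obtain ⟨C, hCd⟩ : ∃ C, C = Xᵀ * Y := ⟨_, rfl⟩
  rw [← hCd] at hC ⊢
  have hCu : IsUnit C.det := isUnit_iff_ne_zero.2 hC
  have hCi : C * C⁻¹ = 1 := Matrix.mul_nonsing_inv C hCu
  have hCi' : C⁻¹ * C = 1 := Matrix.nonsing_inv_mul C hCu
  obtain ⟨Z, hZ⟩ : ∃ Z, Z = Y * C⁻¹ := ⟨_, rfl⟩
  have hXZ : Xᵀ * Z = 1 := by rw [hZ, ← Matrix.mul_assoc, ← hCd, hCi]
  have hZX : Zᵀ * X = 1 := by
    have := congrArg Matrix.transpose hXZ
    rwa [Matrix.transpose_mul, Matrix.transpose_transpose, Matrix.transpose_one] at this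
  have hYZ : Y = Z * C := by rw [hZ, Matrix.mul_assoc, hCi', Matrix.mul_one]
  have hXinj : Function.Injective X.mulVec := by
    intro v w h
    have h1 := congrArg (fun u => Zᵀ.mulVec u) h
    simp only [Matrix.mulVec_mulVec, hZX, Matrix.one_mulVec] at h1
    exact h1
  have hA : (Xᵀ * X).PosDef := by
    have := Matrix.PosDef.conjTranspose_mul_self X hXinj
    rwa [Matrix.conjTranspose_eq_transpose_of_trivial] at this
  obtain ⟨A, hAd⟩ : ∃ A, A = Xᵀ * X := ⟨_, rfl⟩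
  rw [← hAd] at hA ⊢
  have hAdet : 0 < A.det := hA.det_pos
  have hAu : IsUnit A.det := isUnit_iff_ne_zero.2 hAdet.ne'
  have hAT : Aᵀ = A := by rw [hAd, Matrix.transpose_mul, Matrix.transpose_transpose]
  have hAiT : (A⁻¹)ᵀ = A⁻¹ := by rw [Matrix.transpose_nonsing_inv, hAT]
  -- square root of `A`
  obtain ⟨R, hR⟩ := exists_root A hA.posSemidef
  have hRdet : R.det * R.det = A.det := by rw [hR, Matrix.det_mul, Matrix.det_transpose]
  have hRne : R.det ≠ 0 := by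
    intro h
    rw [h, zero_mul] at hRdet
    exact hAdet.ne hRdet
  have hRu : IsUnit R.det := isUnit_iff_ne_zero.2 hRne
  have hRuT : IsUnit Rᵀ.det := by rw [Matrix.det_transpose]; exact hRu
  have hRA : Rᵀ * A⁻¹ * R = 1 := by
    rw [hR, Matrix.mul_inv_rev, ← Matrix.mul_assoc, Matrix.mul_nonsing_inv Rᵀ hRuT,
      Matrix.one_mul, Matrix.nonsing_inv_mul R hRu]
  obtain ⟨W, hW⟩ : ∃ W, W = (Z - X * A⁻¹) * R := ⟨_, rfl⟩
  have hE : (Z - X * A⁻¹)ᵀ * (Z - X * A⁻¹) = Zᵀ * Z - A⁻¹ := by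
    rw [Matrix.transpose_sub, Matrix.transpose_mul, hAiT, Matrix.sub_mul, Matrix.mul_sub,
      Matrix.mul_sub, ← Matrix.mul_assoc Zᵀ X, hZX, Matrix.one_mul, Matrix.mul_assoc A⁻¹ Xᵀ Z,
      hXZ, Matrix.mul_one, Matrix.mul_assoc A⁻¹ Xᵀ, ← Matrix.mul_assoc Xᵀ X, ← hAd,
      Matrix.mul_nonsing_inv A hAu, Matrix.mul_one]
    abel
  have hWW : 1 + Wᵀ * W = Rᵀ * (Zᵀ * Z) * R := by
    have h1 : Wᵀ * W = Rᵀ * ((Z - X * A⁻¹)ᵀ * (Z - X * A⁻¹)) * R := by
      rw [hW, Matrix.transpose_mul]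
      simp only [Matrix.mul_assoc]
    rw [h1, hE, Matrix.mul_sub, Matrix.sub_mul, hRA]
    abel
  have hWpsd : (Wᵀ * W).PosSemidef := by
    have := Matrix.posSemidef_conjTranspose_mul_self W
    rwa [Matrix.conjTranspose_eq_transpose_of_trivial] at this
  obtain ⟨h1, h2⟩ := det_one_add_ge _ hWpsd
  have hYY : (Yᵀ * Y).det = C.det ^ 2 * (Zᵀ * Z).det := by
    have h3 : Yᵀ * Y = Cᵀ * (Zᵀ * Z) * C := by
      rw [hYZ, Matrix.transpose_mul]
      simp only [Matrix.mul_assoc]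
    rw [h3, Matrix.det_mul, Matrix.det_mul, Matrix.det_transpose]
    ring
  have hdet : (1 + Wᵀ * W).det = A.det * (Zᵀ * Z).det := by
    rw [hWW, Matrix.det_mul, Matrix.det_mul, Matrix.det_transpose, ← hRdet]
    ring
  rw [hdet] at h1 h2
  have hC2 : 0 < C.det ^ 2 := by positivity
  refine ⟨?_, fun heq => ?_⟩
  · rw [hYY]
    nlinarith
  · rw [hYY] at heq
    have h3 : A.det * (Zᵀ * Z).det = 1 := by
      have h4 : C.det ^ 2 * (A.det * (Zᵀ * Z).det) = C.det ^ 2 * 1 := by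
        rw [mul_one]
        nth_rewrite 2 [heq]
        ring
      exact mul_left_cancel₀ hC2.ne' h4
    have h4 := h2 h3
    have h5 : W = 0 := by
      have := Matrix.conjTranspose_mul_self_eq_zero.1
        (show Wᴴ * W = 0 by rwa [Matrix.conjTranspose_eq_transpose_of_trivial])
      exact this
    have h6 : Z - X * A⁻¹ = 0 := by
      have h7 : (Z - X * A⁻¹) * R * R⁻¹ = 0 := by rw [← hW, h5, Matrix.zero_mul]
      rwa [Matrix.mul_assoc, Matrix.mul_nonsing_inv R hRu, Matrix.mul_one] at h7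
    refine ⟨A⁻¹ * C, ?_⟩
    rw [hYZ, sub_eq_zero.1 h6, Matrix.mul_assoc]

end Pool.Agent.E8helper46.FL
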