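import Pool.Agent.E8helper46.FL.Non

/-!
# The Lie algebra of a closed subgroup which is invariant under the transvections
-/

set_option autoImplicit false

namespace Pool.Agent.E8helper46.FL

open Set Filter Topology Matrix NormedSpace

open scoped Matrix.Norms.L2Operator

variable {n : ℕ}

theorem lie_closed (D : Subgroup (Mat n)ˣ) (hD : IsClosed (D : Set (Mat n)ˣ)) :
    IsClosed (lieAlg D hD : Set (Mat n)) :=
  Submodule.closed_of_finiteDimensional (𝕜 := ℝ) (E := Mat n) _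

section

variable {G : Subgroup (Mat n)ˣ} (hG : IsNoncompactType G) (D : Subgroup (Mat n)ˣ)
  (hD : IsClosed (D : Set (Mat n)ˣ)) (hDG : D ≤ G)
  (hAd : ∀ X ∈ SymPart G, ∀ Z ∈ lieAlg D hD,
    (ex X : Mat n) * Z * ((ex X)⁻¹ : (Mat n)ˣ) ∈ lieAlg D hD)

include hAd in
theorem br_P (X : Mat n) (hX : X ∈ SymPart G) (Z : Mat n) (hZ : Z ∈ lieAlg D hD) :
    X * Z - Z * X ∈ lieAlg D hD :=
  bracket_mem (lieAlg D hD) (lie_closed D hD) X Z hZ
    (Eventually.of_forall fun t => hAd _ (symPart_smul hX t) Z hZ)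

theorem br_d (X : Mat n) (hX : X ∈ lieAlg D hD) (Z : Mat n) (hZ : Z ∈ lieAlg D hD) :
    X * Z - Z * X ∈ lieAlg D hD :=
  bracket_mem (lieAlg D hD) (lie_closed D hD) X Z hZ
    (Eventually.of_forall fun t => by
      have h : ((ex (t • X) : (Mat n)ˣ) : Mat n) * Z * ((ex (t • X))⁻¹ : (Mat n)ˣ) ∈ lieAlg D hD :=
        conj_mem_lieAlg hZ (hX t)
      exact h)

include hG hDG hAd in
theorem br_dT (Y : Mat n) (hY : Y ∈ lieAlg D hD) (Z : Mat n) (hZ : Z ∈ lieAlg D hD) :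
    Y * Zᵀ - Zᵀ * Y ∈ lieAlg D hD := by
  have h1 : (-Zᵀ) * Y - Y * (-Zᵀ) ∈ lieAlg D hD := by
    refine bracket_mem (lieAlg D hD) (lie_closed D hD) (-Zᵀ) Y hY
      (Eventually.of_forall fun t => ?_)
    obtain ⟨u, hu⟩ : ∃ u : (Mat n)ˣ, u = ex (t • Z) := ⟨_, rfl⟩
    have huD : u ∈ D := hu ▸ hZ t
    obtain ⟨X, hX, k, hk, hk2, hkX⟩ := polar_right hG (hDG huD)
    have hX' := symPart_smul hX (-1)
    rw [neg_one_smul] at hX'
    have e1 : ex (t • (-Zᵀ)) = u * (ex (-X) * ex (-X)) := by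
      have h2 : ex (t • (-Zᵀ)) = (tu u)⁻¹ := by
        rw [hu, tu_ex, Matrix.transpose_smul, ← ex_neg, smul_neg]
      have h3 : tu k = k⁻¹ := by
        rw [orth_iff] at hk2
        exact eq_inv_of_mul_eq_one_left hk2
      rw [h2, hkX, tu_mul, tu_ex, (mem_symPart.1 hX).1, h3, ex_neg]
      group
    have e2 : exp (t • (-Zᵀ)) * Y * exp (-(t • (-Zᵀ))) =
        ((ex (t • (-Zᵀ)) : (Mat n)ˣ) : Mat n) * Y * ((ex (t • (-Zᵀ)))⁻¹ : (Mat n)ˣ) := rfl
    rw [e2, e1]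
    have h4 := hAd _ hX' _ (hAd _ hX' _ hY)
    have h5 := conj_mem_lieAlg h4 huD
    rw [_root_.mul_inv_rev, _root_.mul_inv_rev]
    simp only [Units.val_mul, ← mul_assoc] at h5 ⊢
    exact h5
  have h2 : (-Zᵀ) * Y - Y * (-Zᵀ) = Y * Zᵀ - Zᵀ * Y := by
    rw [neg_mul, mul_neg]
    abel
  rwa [h2] at h1

include hG in
theorem lie_transpose {Y : Mat n} (hY : Y ∈ lieAlg G hG.closed) : Yᵀ ∈ lieAlg G hG.closed := by
  intro t
  have h := tu_mem hG (hY t)
  rw [tu_ex, Matrix.transpose_smul] at h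
  exact h

include hDG in
theorem lie_mono {Y : Mat n} (hY : Y ∈ lieAlg D hD) (hGc : IsClosed (G : Set (Mat n)ˣ)) :
    Y ∈ lieAlg G hGc := fun t => hDG (hY t)

include hG hDG in
theorem add_tr (Y : Mat n) (hY : Y ∈ lieAlg D hD) : Y + Yᵀ ∈ SymPart G := by
  rw [mem_symPart' hG.closed]
  have h1 := lie_mono D hD hDG hY hG.closed
  refine ⟨?_, (lieAlg G hG.closed).add_mem h1 (lie_transpose hG h1)⟩
  rw [Matrix.transpose_add, Matrix.transpose_transpose, add_comm]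

include hG hDG in
theorem sub_sym (X : Mat n) (hX : X ∈ SymPart G) (X1 : Mat n) (hX1 : X1 ∈ lieAlg D hD)
    (hX1s : X1ᵀ = X1) : X - X1 ∈ SymPart G := by
  rw [mem_symPart' hG.closed] at hX ⊢
  refine ⟨by rw [Matrix.transpose_sub, hX.1, hX1s], ?_⟩
  exact (lieAlg G hG.closed).sub_mem hX.2 (lie_mono D hD hDG hX1 hG.closed)

include hG hDG hAd in
theorem lieD_transpose (Y : Mat n) (hY : Y ∈ lieAlg D hD) : Yᵀ ∈ lieAlg D hD :=
  transpose_mem (lieAlg D hD) (SymPart G) (fun _ hX => hX.1) (br_P D hD hAd)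
    (br_d D hD) (br_dT hG D hD hDG hAd) (add_tr hG D hD hDG) hG.noFlat Y hY

theorem commute_ex {X Y : Mat n} (h : X * Y = Y * X) : Commute (ex X : Mat n) Y := by
  have h1 : Commute X Y := h
  exact h1.exp_left

include hG hDG in
theorem skew_zero (Y : Mat n) (hY : Y ∈ lieAlg D hD) (hYs : Yᵀ = -Y)
    (hc : ∀ X ∈ SymPart G, X * Y = Y * X) : Y = 0 := by
  have h1 : ∀ t : ℝ, ex (t • Y) = 1 := by
    intro t
    refine hG.faithful _ (hDG (hY t)) ?_ fun X hX => ?_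
    · rw [orth_iff, tu_ex, Matrix.transpose_smul, hYs, smul_neg, ex_neg, inv_mul_cancel]
    · refine (commute_ex ?_).eq
      rw [smul_mul_assoc, mul_smul_comm, hc X hX]
  have h2 := ex_deriv Y
  have h3 : (fun t : ℝ => exp (t • Y)) = fun _ => (1 : Mat n) := by
    ext1 t
    exact congrArg Units.val (h1 t)
  rw [h3] at h2
  exact h2.unique (hasDerivAt_const (0 : ℝ) (1 : Mat n))

include hG hDG hAd in
theorem lie_perfect (X : Mat n) (hX : X ∈ lieAlg D hD) :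
    X ∈ Submodule.span ℝ {Z | ∃ X ∈ lieAlg D hD, ∃ Y ∈ lieAlg D hD, Z = X * Y - Y * X} :=
  perfect (lieAlg D hD) (SymPart G) (fun _ hX => hX.1) (br_P D hD hAd)
    (br_d D hD) (add_tr hG D hD hDG) hG.noFlat (lieD_transpose hG D hD hDG hAd)
    (sub_sym hG D hD hDG) (skew_zero hG D hD hDG) X hX

/-- the group generated by the exponentials -/
def Nor : Subgroup (Mat n)ˣ := Subgroup.closure {u | ∃ X ∈ lieAlg D hD, u = ex X}

theorem ex_mem_nor {X : Mat n} (hX : X ∈ lieAlg D hD) : ex X ∈ Nor D hD :=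
  Subgroup.subset_closure ⟨X, hX, rfl⟩

theorem nor_le : Nor D hD ≤ D := by
  refine (Subgroup.closure_le _).2 ?_
  rintro _ ⟨X, hX, rfl⟩
  exact ex_mem hX

theorem nor_conj {g u : (Mat n)ˣ} (hg : g ∈ Nor D hD) (hu : u ∈ D) : u * g * u⁻¹ ∈ Nor D hD := by
  unfold Nor at hg
  induction hg using Subgroup.closure_induction with
  | mem x hx =>
    obtain ⟨X, hX, rfl⟩ := hx
    rw [← ex_conj]
    exact ex_mem_nor D hD (conj_mem_lieAlg hX hu)
  | one => rw [mul_one, mul_inv_cancel]; exact Subgroup.one_mem _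
  | mul x y _ _ hx hy =>
    have : u * (x * y) * u⁻¹ = (u * x * u⁻¹) * (u * y * u⁻¹) := by group
    rw [this]
    exact Subgroup.mul_mem _ hx hy
  | inv x _ hx =>
    have : u * x⁻¹ * u⁻¹ = (u * x * u⁻¹)⁻¹ := by group
    rw [this]
    exact Subgroup.inv_mem _ hx

theorem nor_nhds : ∃ U : Set (Mat n)ˣ, IsOpen U ∧ 1 ∈ U ∧ ∀ u ∈ U, u ∈ D → u ∈ Nor D hD := by
  obtain ⟨U, hU, hUo, h1⟩ := eventually_nhds_iff.1 (near_one D hD)
  refine ⟨U, hUo, h1, fun u hu huD => ?_⟩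
  obtain ⟨X, hX, rfl⟩ := hU u hu huD
  exact ex_mem_nor D hD hX

/-- continuous additive functions vanish -/
theorem hom_nor (hperf : ∀ X ∈ lieAlg D hD,
      X ∈ Submodule.span ℝ {Z | ∃ X ∈ lieAlg D hD, ∃ Y ∈ lieAlg D hD, Z = X * Y - Y * X})
    (U : Subgroup (Mat n)ˣ) (hU : Nor D hD ≤ U) (f : U → ℝ) (hf : ∀ a b, f (a * b) = f a + f b)
    (hfc : Continuous f) (g : (Mat n)ˣ) (hg : g ∈ Nor D hD) : f ⟨g, hU hg⟩ = 0 := by
  have hS : ∀ X ∈ lieAlg D hD, ∀ t : ℝ, ex (t • X) ∈ U := fun X hX t =>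
    hU (ex_mem_nor D hD ((lieAlg D hD).smul_mem t hX))
  have h1 := hom_bracket U f hf hfc (lieAlg D hD) hS
    (fun X hX Y hY t => conj_mem_lieAlg hY (hX t)) (br_d D hD) hperf
  have hone : f 1 = 0 := by
    have h2 := hf 1 1
    rw [mul_one] at h2
    linarith
  have key : ∀ g (hg : g ∈ Subgroup.closure {u | ∃ X ∈ lieAlg D hD, u = ex X}),
      f ⟨g, hU hg⟩ = 0 := by
    intro g hg
    induction hg using Subgroup.closure_induction with
    | mem x hx =>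
      obtain ⟨X, hX, rfl⟩ := hx
      have h2 := h1 X hX 1
      have h3 : (⟨ex X, hU (Subgroup.subset_closure ⟨X, hX, rfl⟩)⟩ : U) =
          ⟨ex ((1 : ℝ) • X), hS X hX 1⟩ := by
        apply Subtype.ext
        show ex X = ex ((1 : ℝ) • X)
        rw [one_smul]
      rw [h3]
      exact h2
    | one => exact hone
    | mul x y hx hy ihx ihy =>
      have h2 := hf ⟨x, hU hx⟩ ⟨y, hU hy⟩
      rw [ihx, ihy, add_zero] at h2
      exact h2
    | inv x hx ih =>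
      have h2 := hf ⟨x, hU hx⟩ ⟨x, hU hx⟩⁻¹
      rw [mul_inv_cancel, hone, ih, zero_add] at h2
      exact h2.symm
  exact key g hg

include hG hDG hAd in
theorem nor_tu {g : (Mat n)ˣ} (hg : g ∈ Nor D hD) : tu g ∈ Nor D hD := by
  unfold Nor at hg
  induction hg using Subgroup.closure_induction with
  | mem x hx =>
    obtain ⟨X, hX, rfl⟩ := hx
    rw [tu_ex]
    exact ex_mem_nor D hD (lieD_transpose hG D hD hDG hAd X hX)
  | one => rw [tu_one]; exact Subgroup.one_mem _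
  | mul x y _ _ hx hy =>
    rw [tu_mul]
    exact Subgroup.mul_mem _ hy hx
  | inv x _ hx =>
    rw [tu_inv]
    exact Subgroup.inv_mem _ hx

theorem commute_nor {z : (Mat n)ˣ} (hz : ∀ Y ∈ lieAlg D hD, (z : Mat n) * Y = Y * z)
    {g : (Mat n)ˣ} (hg : g ∈ Nor D hD) : z * g = g * z := by
  unfold Nor at hg
  induction hg using Subgroup.closure_induction with
  | mem x hx =>
    obtain ⟨X, hX, rfl⟩ := hx
    ext1
    rw [Units.val_mul, Units.val_mul]
    exact (commute_ex (hz X hX).symm).eq.symm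
  | one => rw [one_mul, mul_one]
  | mul x y _ _ hx hy => rw [← mul_assoc, hx, mul_assoc, hy, mul_assoc]
  | inv x _ hx => rw [eq_inv_mul_iff_mul_eq, ← mul_assoc, ← hx, mul_inv_cancel_right]

include hG hDG hAd in
/-- decomposition of all elements of the group -/
theorem nor_decomp {g : (Mat n)ˣ} (hg : g ∈ G) : ∃ k z m : (Mat n)ˣ,
    (k : Mat n)ᵀ * k = 1 ∧ m ∈ Nor D hD ∧ (∀ h ∈ Nor D hD, z * h = h * z) ∧ g = k * z * m := by
  obtain ⟨X, hX, k, hk, hk2, h⟩ := polar_right hG hg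
  obtain ⟨X1, hX1, -, -, hc⟩ := decomp (lieAlg D hD) (SymPart G) (fun _ hX => hX.1)
    (br_P D hD hAd) (br_d D hD) (lieD_transpose hG D hD hDG hAd) X hX (sub_sym hG D hD hDG X hX)
  refine ⟨k, ex (X - X1), ex X1, hk2, ex_mem_nor D hD hX1, fun h hh => ?_, ?_⟩
  · exact commute_nor D hD (fun Y hY => (commute_ex (hc Y hY)).eq) hh
  · rw [mul_assoc, ← ex_add (hc X1 hX1), sub_add_cancel]
    exact h

end

end Pool.Agent.E8helper46.FL
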