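import Pool.Agent.E8helper46.FL.Stm

/-!
# The isometry group of a proper metric space as a topological group

The topology is that of pointwise convergence (for isometries this is uniform convergence on
compact sets).
-/

set_option autoImplicit false

namespace Pool.Agent.E8helper46.FL

open Set Filter Topology

variable {X : Type*} [MetricSpace X]

theorem isInducing_coe : IsInducing (fun (g : X ≃ᵢ X) (x : X) => g x) := ⟨rfl⟩

theorem continuous_coe : Continuous (fun (g : X ≃ᵢ X) (x : X) => g x) :=
  continuous_induced_dom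

theorem continuous_ev (x : X) : Continuous (fun g : X ≃ᵢ X => g x) :=
  (continuous_apply x).comp continuous_coe

theorem continuous_ev_prod : Continuous (fun p : (X ≃ᵢ X) × X => p.1 p.2) := by
  rw [continuous_iff_continuousAt]
  rintro ⟨g, x⟩
  rw [ContinuousAt, tendsto_iff_dist_tendsto_zero]
  have h1 : Tendsto (fun p : (X ≃ᵢ X) × X => dist p.2 x + dist (p.1 x) (g x)) (𝓝 (g, x))
      (𝓝 (dist x x + dist (g x) (g x))) := by
    refine Tendsto.add ?_ ?_
    · exact ((continuous_snd.dist continuous_const).tendsto _)
    · exact ((((continuous_ev x).comp continuous_fst).dist continuous_const).tendsto _)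
  rw [dist_self, dist_self, add_zero] at h1
  refine squeeze_zero (fun _ => dist_nonneg) (fun p => ?_) h1
  calc dist (p.1 p.2) (g x) ≤ dist (p.1 p.2) (p.1 x) + dist (p.1 x) (g x) := dist_triangle _ _ _
    _ = dist p.2 x + dist (p.1 x) (g x) := by rw [p.1.isometry.dist_eq]

theorem continuous_ev_inv (x : X) : Continuous (fun g : X ≃ᵢ X => g⁻¹ x) := by
  rw [continuous_iff_continuousAt]
  intro g
  rw [ContinuousAt, tendsto_iff_dist_tendsto_zero]
  have h1 : Tendsto (fun h : X ≃ᵢ X => dist x (h (g⁻¹ x))) (𝓝 g) (𝓝 (dist x (g (g⁻¹ x)))) :=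
    (continuous_const.dist (continuous_ev (g⁻¹ x))).tendsto _
  have e : g (g⁻¹ x) = x := g.apply_symm_apply x
  rw [e, dist_self] at h1
  refine h1.congr fun h => ?_
  have e2 : h (h⁻¹ x) = x := h.apply_symm_apply x
  calc dist x (h (g⁻¹ x)) = dist (h (h⁻¹ x)) (h (g⁻¹ x)) := by rw [e2]
    _ = dist (h⁻¹ x) (g⁻¹ x) := h.isometry.dist_eq _ _

instance isomGroup : IsTopologicalGroup (X ≃ᵢ X) where
  continuous_mul := by
    rw [isInducing_coe.continuous_iff]
    refine continuous_pi fun x => ?_
    have h : Continuous (fun p : (X ≃ᵢ X) × (X ≃ᵢ X) => (p.1, p.2 x)) :=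
      continuous_fst.prodMk ((continuous_ev x).comp continuous_snd)
    exact continuous_ev_prod.comp h
  continuous_inv := by
    rw [isInducing_coe.continuous_iff]
    exact continuous_pi fun x => continuous_ev_inv x

instance isomT2 : T2Space (X ≃ᵢ X) := by
  refine T2Space.of_injective_continuous (f := fun (g : X ≃ᵢ X) (x : X) => g x) ?_ continuous_coe
  intro g h hgh
  ext x
  exact congrFun hgh x

/-- the pair of an isometry and its inverse -/
def pairMap (g : X ≃ᵢ X) : (X → X) × (X → X) := (fun x => g x, fun x => g⁻¹ x)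

theorem continuous_pairMap : Continuous (pairMap (X := X)) :=
  continuous_coe.prodMk (continuous_pi fun x => continuous_ev_inv x)

theorem isInducing_pairMap : IsInducing (pairMap (X := X)) :=
  IsInducing.of_comp continuous_pairMap continuous_fst isInducing_coe

theorem isCompact_bdd [ProperSpace X] (x0 : X) (r : ℝ) :
    IsCompact {g : X ≃ᵢ X | dist (g x0) x0 ≤ r} := by
  rw [isInducing_pairMap.isCompact_iff]
  have himg : pairMap '' {g : X ≃ᵢ X | dist (g x0) x0 ≤ r} =
      {p : (X → X) × (X → X) | (∀ x y, dist (p.1 x) y = dist x (p.2 y)) ∧ dist (p.1 x0) x0 ≤ r} := by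
    ext p
    constructor
    · rintro ⟨g, hg, rfl⟩
      refine ⟨fun x y => ?_, hg⟩
      show dist (g x) y = dist x (g⁻¹ y)
      have e : g (g⁻¹ y) = y := g.apply_symm_apply y
      rw [← g.isometry.dist_eq x (g⁻¹ y), e]
    · rintro ⟨h1, h2⟩
      have h3 : ∀ x, p.2 (p.1 x) = x := by
        intro x
        have := h1 x (p.1 x)
        rw [dist_self] at this
        exact (dist_eq_zero.1 this.symm).symm
      have h4 : ∀ y, p.1 (p.2 y) = y := by
        intro y
        have := h1 (p.2 y) y
        rw [dist_self] at this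
        exact dist_eq_zero.1 this
      have h5 : Isometry p.1 := Isometry.of_dist_eq fun x y => by
        rw [h1, h3]
      refine ⟨⟨⟨p.1, p.2, h3, h4⟩, h5⟩, h2, rfl⟩
  rw [himg]
  have hK : IsCompact ((Set.univ.pi fun x : X => Metric.closedBall x0 (r + dist x x0)) ×ˢ
      (Set.univ.pi fun x : X => Metric.closedBall x0 (r + dist x x0))) :=
    (isCompact_univ_pi fun x => isCompact_closedBall _ _).prod
      (isCompact_univ_pi fun x => isCompact_closedBall _ _)
  refine hK.of_isClosed_subset ?_ ?_
  · refine IsClosed.inter ?_ ?_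
    · have : {p : (X → X) × (X → X) | ∀ x y, dist (p.1 x) y = dist x (p.2 y)} =
          ⋂ x, ⋂ y, {p : (X → X) × (X → X) | dist (p.1 x) y = dist x (p.2 y)} := by
        ext p; simp
      show IsClosed {p : (X → X) × (X → X) | ∀ x y, dist (p.1 x) y = dist x (p.2 y)}
      rw [this]
      refine isClosed_iInter fun x => isClosed_iInter fun y => isClosed_eq ?_ ?_
      · exact ((continuous_apply x).comp continuous_fst).dist continuous_const
      · exact continuous_const.dist ((continuous_apply y).comp continuous_snd)
    · exact isClosed_le (((continuous_apply x0).comp continuous_fst).dist continuous_const)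
        continuous_const
  · rintro p ⟨h1, h2⟩
    have h3 : ∀ x, p.2 (p.1 x) = x := by
      intro x
      have := h1 x (p.1 x)
      rw [dist_self] at this
      exact (dist_eq_zero.1 this.symm).symm
    have h4 : ∀ y, p.1 (p.2 y) = y := by
      intro y
      have := h1 (p.2 y) y
      rw [dist_self] at this
      exact dist_eq_zero.1 this
    refine ⟨fun x _ => ?_, fun y _ => ?_⟩
    · rw [Metric.mem_closedBall]
      have e1 : dist (p.1 x) (p.1 x0) = dist x x0 := by rw [h1, h3]
      have := dist_triangle (p.1 x) (p.1 x0) x0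
      show dist (p.1 x) x0 ≤ r + dist x x0
      linarith
    · rw [Metric.mem_closedBall]
      show dist (p.2 y) x0 ≤ r + dist y x0
      have e1 : dist x0 (p.2 y) = dist (p.1 x0) y := (h1 x0 y).symm
      rw [dist_comm, e1]
      have := dist_triangle (p.1 x0) x0 y
      rw [dist_comm x0 y] at this
      linarith

instance isomLC [ProperSpace X] : WeaklyLocallyCompactSpace (X ≃ᵢ X) where
  exists_compact_mem_nhds g := by
    rcases isEmpty_or_nonempty X with hX | ⟨⟨x0⟩⟩
    · refine ⟨Set.univ, ?_, univ_mem⟩
      have : Subsingleton (X ≃ᵢ X) := ⟨fun a b => by ext x; exact (hX.false x).elim⟩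
      exact Set.subsingleton_univ.isCompact
    · refine ⟨_, isCompact_bdd x0 (dist (g x0) x0 + 1), ?_⟩
      have hc : Continuous (fun h : X ≃ᵢ X => dist (h x0) x0) :=
        (continuous_ev x0).dist continuous_const
      have : {h : X ≃ᵢ X | dist (h x0) x0 < dist (g x0) x0 + 1} ∈ 𝓝 g :=
        (isOpen_lt hc continuous_const).mem_nhds (by simp)
      exact mem_of_superset this fun h hh => (show dist (h x0) x0 < _ from hh).le

end Pool.Agent.E8helper46.FL
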