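import Pool.Agent.E8helper46.FL.Phi
import Pool.Agent.E8helper46.FL.ExpLie

/-!
# The length function of the general linear group
-/

set_option autoImplicit false

namespace Pool.Agent.E8helper46.FL

open Set Filter Topology Matrix

open scoped Matrix.Norms.L2Operator

variable {n : ℕ}

theorem norm_one_le : ‖(1 : Mat n)‖ ≤ 1 := by
  have h := Matrix.l2_opNorm_conjTranspose_mul_self (𝕜 := ℝ) (1 : Mat n)
  rw [Matrix.conjTranspose_one, mul_one] at h
  by_contra hcon
  push Not at hcon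
  nlinarith

/-- the length of an invertible matrix -/
noncomputable def len (g : (Mat n)ˣ) : ℝ :=
  Real.log (max 1 (max ‖(g : Mat n)‖ ‖(↑g⁻¹ : Mat n)‖))

theorem len_arg_pos (g : (Mat n)ˣ) : 1 ≤ max 1 (max ‖(g : Mat n)‖ ‖(↑g⁻¹ : Mat n)‖) :=
  le_max_left _ _

theorem len_nonneg (g : (Mat n)ˣ) : 0 ≤ len g := Real.log_nonneg (len_arg_pos g)

theorem len_le_iff (g : (Mat n)ˣ) {r : ℝ} (hr : 0 ≤ r) :
    len g ≤ r ↔ ‖(g : Mat n)‖ ≤ Real.exp r ∧ ‖(↑g⁻¹ : Mat n)‖ ≤ Real.exp r := by
  unfold len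
  rw [Real.log_le_iff_le_exp (by linarith [len_arg_pos g]), max_le_iff, max_le_iff]
  constructor
  · exact fun h => h.2
  · exact fun h => ⟨Real.one_le_exp hr, h⟩

theorem norm_le_len (g : (Mat n)ˣ) : ‖(g : Mat n)‖ ≤ Real.exp (len g) :=
  ((len_le_iff g (len_nonneg g)).1 le_rfl).1

theorem norm_inv_le_len (g : (Mat n)ˣ) : ‖(↑g⁻¹ : Mat n)‖ ≤ Real.exp (len g) :=
  ((len_le_iff g (len_nonneg g)).1 le_rfl).2

theorem len_inv (g : (Mat n)ˣ) : len g⁻¹ = len g := by
  unfold len
  rw [inv_inv, max_comm ‖(↑g⁻¹ : Mat n)‖]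

theorem len_mul (g h : (Mat n)ˣ) : len (g * h) ≤ len g + len h := by
  rw [len_le_iff _ (add_nonneg (len_nonneg g) (len_nonneg h)), Real.exp_add]
  constructor
  · rw [Units.val_mul]
    exact (norm_mul_le _ _).trans (mul_le_mul (norm_le_len g) (norm_le_len h) (norm_nonneg _)
      (Real.exp_pos _).le)
  · rw [_root_.mul_inv_rev, Units.val_mul, mul_comm (Real.exp _)]
    exact (norm_mul_le _ _).trans (mul_le_mul (norm_inv_le_len h) (norm_inv_le_len g)
      (norm_nonneg _) (Real.exp_pos _).le)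

theorem norm_transpose_eq (A : Mat n) : ‖Aᵀ‖ = ‖A‖ := by
  rw [← Matrix.conjTranspose_eq_transpose_of_trivial, Matrix.l2_opNorm_conjTranspose]

theorem norm_sq (A : Mat n) : ‖Aᵀ * A‖ = ‖A‖ * ‖A‖ := by
  rw [← Matrix.conjTranspose_eq_transpose_of_trivial, Matrix.l2_opNorm_conjTranspose_mul_self]

/-- the transpose of a unit -/
def tu (g : (Mat n)ˣ) : (Mat n)ˣ :=
  ⟨(g : Mat n)ᵀ, (↑g⁻¹ : Mat n)ᵀ, by
    rw [← Matrix.transpose_mul, Units.inv_mul, Matrix.transpose_one], by
    rw [← Matrix.transpose_mul, Units.mul_inv, Matrix.transpose_one]⟩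

theorem tu_val (g : (Mat n)ˣ) : (tu g : Mat n) = (g : Mat n)ᵀ := rfl

theorem tu_inv_val (g : (Mat n)ˣ) : ((tu g)⁻¹ : (Mat n)ˣ).val = (↑g⁻¹ : Mat n)ᵀ := rfl

theorem tu_mul (g h : (Mat n)ˣ) : tu (g * h) = tu h * tu g := by
  ext1
  rw [tu_val, Units.val_mul, Units.val_mul, Matrix.transpose_mul, tu_val, tu_val]

theorem tu_tu (g : (Mat n)ˣ) : tu (tu g) = g := by
  ext1
  rw [tu_val, tu_val, Matrix.transpose_transpose]

theorem tu_inv (g : (Mat n)ˣ) : tu g⁻¹ = (tu g)⁻¹ := by
  ext1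
  rw [tu_val, tu_inv_val]

theorem tu_one : tu (1 : (Mat n)ˣ) = 1 := by
  ext1
  rw [tu_val, Units.val_one, Matrix.transpose_one]

theorem tu_cont : Continuous (tu : (Mat n)ˣ → (Mat n)ˣ) := by
  rw [Units.continuous_iff]
  exact ⟨Units.continuous_val.matrix_transpose, Units.continuous_coe_inv.matrix_transpose⟩

theorem len_tu (g : (Mat n)ˣ) : len (tu g) = len g := by
  unfold len
  rw [tu_val, tu_inv_val, norm_transpose_eq, norm_transpose_eq]

theorem len_orth {k : (Mat n)ˣ} (hk : (k : Mat n)ᵀ * k = 1) : len k = 0 := by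
  refine le_antisymm ?_ (len_nonneg k)
  rw [len_le_iff _ le_rfl, Real.exp_zero]
  have h1 := norm_sq (k : Mat n)
  rw [hk] at h1
  have h2 : ‖(k : Mat n)‖ ≤ 1 := by
    by_contra hcon
    push Not at hcon
    have := norm_one_le (n := n)
    nlinarith
  refine ⟨h2, ?_⟩
  rw [inv_of_orth hk, norm_transpose_eq]
  exact h2

theorem orth_iff (k : (Mat n)ˣ) : (k : Mat n)ᵀ * k = 1 ↔ tu k * k = 1 := by
  constructor
  · intro h
    ext1
    rw [Units.val_mul, tu_val, h, Units.val_one]
  · intro h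
    have := congrArg Units.val h
    rwa [Units.val_mul, tu_val, Units.val_one] at this

/-- elements of length zero are orthogonal -/
theorem orth_of_len {k : (Mat n)ˣ} (hk : len k = 0) : (k : Mat n)ᵀ * k = 1 := by
  have h1 := (len_le_iff k le_rfl).1 hk.le
  rw [Real.exp_zero] at h1
  obtain ⟨f, hf⟩ : ∃ f, f = (Matrix.toEuclideanCLM (n := Fin n) (𝕜 := ℝ)) := ⟨_, rfl⟩
  have hn : ∀ A : Mat n, ‖f A‖ = ‖A‖ := by
    intro A
    rw [hf]
    rfl
  have h2 : ∀ x, ‖f (k : Mat n) x‖ = ‖x‖ := by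
    intro x
    refine le_antisymm ?_ ?_
    · have := (f (k : Mat n)).le_opNorm x
      rw [hn] at this
      refine this.trans ?_
      exact mul_le_of_le_one_left (norm_nonneg _) h1.1
    · have h3 : f (↑k⁻¹ : Mat n) (f (k : Mat n) x) = x := by
        have : (f (↑k⁻¹ : Mat n) * f (k : Mat n)) x = x := by
          rw [← map_mul, Units.inv_mul, map_one]
          rfl
        exact this
      have := (f (↑k⁻¹ : Mat n)).le_opNorm (f (k : Mat n) x)
      rw [hn, h3] at this
      refine this.trans ?_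
      exact mul_le_of_le_one_left (norm_nonneg _) h1.2
  have h3 := (ContinuousLinearMap.norm_map_iff_adjoint_comp_self _).1 h2
  have h4 : f ((k : Mat n)ᵀ * k) = f 1 := by
    rw [map_mul, map_one, ← h3, ← Matrix.conjTranspose_eq_transpose_of_trivial,
      ← Matrix.star_eq_conjTranspose, map_star]
    rfl
  exact f.injective h4

theorem len_sq {s : (Mat n)ˣ} (hs : (s : Mat n)ᵀ = s) : len (s * s) = 2 * len s := by
  have hsi : (↑s⁻¹ : Mat n)ᵀ = ↑s⁻¹ := by
    have h1 : tu s = s := by ext1; rw [tu_val, hs]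
    have h2 := tu_inv_val s
    rw [h1] at h2
    exact h2.symm
  have h1 : ‖(s : Mat n) * s‖ = ‖(s : Mat n)‖ ^ 2 := by
    have := norm_sq (s : Mat n)
    rw [hs] at this
    rw [this, sq]
  have h2 : ‖(↑s⁻¹ : Mat n) * ↑s⁻¹‖ = ‖(↑s⁻¹ : Mat n)‖ ^ 2 := by
    have := norm_sq (↑s⁻¹ : Mat n)
    rw [hsi] at this
    rw [this, sq]
  unfold len
  rw [_root_.mul_inv_rev, Units.val_mul, Units.val_mul, h1, h2, ← Real.log_rpow (by
    linarith [len_arg_pos s])]
  congr 1
  have e : ∀ a b : ℝ, 0 ≤ a → 0 ≤ b → max 1 (max (a ^ 2) (b ^ 2)) = (max 1 (max a b)) ^ (2 : ℝ) := by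
    intro a b ha hb
    rw [Real.rpow_two]
    rcases le_total a b with h | h
    · rw [max_eq_right h, max_eq_right (pow_le_pow_left₀ ha h 2)]
      rcases le_total 1 b with h' | h'
      · rw [max_eq_right h', max_eq_right (by nlinarith)]
      · rw [max_eq_left h', max_eq_left (by nlinarith), one_pow]
    · rw [max_eq_left h, max_eq_left (pow_le_pow_left₀ hb h 2)]
      rcases le_total 1 a with h' | h'
      · rw [max_eq_right h', max_eq_right (by nlinarith)]
      · rw [max_eq_left h', max_eq_left (by nlinarith), one_pow]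
  exact e _ _ (norm_nonneg _) (norm_nonneg _)

theorem len_cont : Continuous (len : (Mat n)ˣ → ℝ) := by
  unfold len
  refine Continuous.log ?_ fun g => by linarith [len_arg_pos g]
  exact continuous_const.max ((continuous_norm.comp Units.continuous_val).max
    (continuous_norm.comp Units.continuous_coe_inv))

theorem len_one : len (1 : (Mat n)ˣ) = 0 :=
  len_orth (by rw [Units.val_one, Matrix.transpose_one, mul_one])

theorem isCompact_len (r : ℝ) : IsCompact {g : (Mat n)ˣ | len g ≤ r} := by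
  rcases lt_or_ge r 0 with hr | hr
  · have : {g : (Mat n)ˣ | len g ≤ r} = ∅ := by
      ext g
      simp only [mem_ofPred_eq, mem_empty_iff_false, iff_false, not_le]
      exact hr.trans_le (len_nonneg g)
    rw [this]
    exact isCompact_empty
  have hK : IsCompact ((Metric.closedBall (0 : Mat n) (Real.exp r)) ×ˢ
      (MulOpposite.opHomeomorph '' (Metric.closedBall (0 : Mat n) (Real.exp r)))) :=
    (isCompact_closedBall _ _).prod ((isCompact_closedBall _ _).image
      MulOpposite.opHomeomorph.continuous)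
  have h := (Units.isClosedEmbedding_embedProduct (α := Mat n)).isCompact_preimage hK
  refine h.of_isClosed_subset (isClosed_le len_cont continuous_const) ?_
  intro g hg
  have h1 := (len_le_iff g hr).1 hg
  refine ⟨?_, (↑g⁻¹ : Mat n), ?_, rfl⟩
  · rw [mem_closedBall_zero_iff]
    exact h1.1
  · rw [mem_closedBall_zero_iff]
    exact h1.2

end Pool.Agent.E8helper46.FL
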