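import Pool.Agent.E8helper46.FL.Core

/-!
# Irreducible uniform lattices: definitions and the main theorem
-/

set_option autoImplicit false

namespace Pool.Agent.E8helper46.FL

open Set

universe u v w

/-- A CAT(0) space (inequality of Bruhat and Tits) with a point reflection at every point. A proper
metric space of this kind is a symmetric space of non-positive curvature, and conversely. -/
structure IsSymmetricCAT0 (M : Type*) [MetricSpace M] : Prop where
  cn : HasCN M
  refl : ∀ a : M, ∃ s : M ≃ᵢ M, IsReflection s a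

theorem main {V : Type u} [Finite V] (L : SimpleGraph V) (hL : ¬ L.Connected)
    {M : Type v} [MetricSpace M] [ProperSpace M] [Nonempty M] (hM : IsSymmetricCAT0 M)
    (Γ : Subgroup ((M ≃ᵢ M) × (Vert L ≃ᵢ Vert L)))
    (hd : DiscreteTopology Γ) (hc : CompactSpace (((M ≃ᵢ M) × (Vert L ≃ᵢ Vert L)) ⧸ Γ))
    (hirr : IsIrreducible Γ)
    (hD : ∀ (s t : M ≃ᵢ M) (a b : M), IsReflection s a → IsReflection t b →
      t.trans s ∈ closure (Γ.map (MonoidHom.fst (M ≃ᵢ M) (Vert L ≃ᵢ Vert L)) : Set (M ≃ᵢ M))) :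
    ¬ AlgFibred Γ := by
  rintro ⟨φ, hφ, hK⟩
  obtain ⟨x0⟩ := (inferInstance : Nonempty M)
  rcases isEmpty_or_nonempty V with hV | hV
  · -- the group is trivial
    have hsub : Subsingleton (Raag L) := by
      refine ⟨fun a b => ?_⟩
      have h1 : ∀ g : Raag L, g = 1 := by
        intro g
        have hg : g ∈ Subgroup.closure (Set.range (PresentedGroup.of (rels := raagRels L))) := by
          rw [PresentedGroup.closure_range_of]
          exact Subgroup.mem_top g
        rw [Set.range_eq_empty, Subgroup.closure_empty, Subgroup.mem_bot] at hg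
        exact hg
      rw [h1 a, h1 b]
    have hsubV : Subsingleton (Vert L) := ⟨fun a b => Vert.ext' L (Subsingleton.elim _ _)⟩
    have hsubI : Subsingleton (Vert L ≃ᵢ Vert L) :=
      ⟨fun a b => IsometryEquiv.ext fun x => Subsingleton.elim _ _⟩
    exact hirr.right inferInstance
  · have hpre : ¬ L.Preconnected := fun h => hL ⟨h⟩
    obtain ⟨R, hR⟩ := lattice_cobounded Γ x0 (⟨1⟩ : Vert L) hc
    refine core hM.cn hM.refl ((MonoidHom.fst _ _).comp Γ.subtype)
      ((MonoidHom.snd _ _).comp Γ.subtype) x0 (⟨1⟩ : Vert L) ?_ ?_ (vert_ball L)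
      (threeEnds_vert L hpre) hirr.notProduct φ hφ hK ?_
    · intro r
      refine Set.Finite.of_finite_image (f := Subtype.val) ?_ Subtype.val_injective.injOn
      refine (lattice_finite Γ x0 (⟨1⟩ : Vert L) hd r).subset ?_
      rintro _ ⟨γ, ⟨h1, h2⟩, rfl⟩
      exact ⟨γ.2, h1, h2⟩
    · refine ⟨R, fun x y => ?_⟩
      obtain ⟨g1, hg1⟩ := exists_reflect hM.cn hM.refl x x0
      obtain ⟨g2, hg2⟩ := vert_trans L y ⟨1⟩
      obtain ⟨γ, hγ, h1, h2⟩ := hR (g1, g2)
      refine ⟨⟨γ, hγ⟩, ?_, ?_⟩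
      · have h3 : dist (g1 (γ.1 x0)) (g1 x) < R := by rw [hg1]; exact h1
        rw [g1.isometry.dist_eq] at h3
        exact h3.le
      · have h3 : dist (g2 (γ.2 ⟨1⟩)) (g2 y) < R := by rw [hg2]; exact h2
        rw [g2.isometry.dist_eq] at h3
        exact h3.le
    · intro s t a b hs ht
      have h1 := hD s t a b hs ht
      have h2 : (Γ.map (MonoidHom.fst (M ≃ᵢ M) (Vert L ≃ᵢ Vert L)) : Set (M ≃ᵢ M)) =
          Set.range ((MonoidHom.fst (M ≃ᵢ M) (Vert L ≃ᵢ Vert L)).comp Γ.subtype) := by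
        ext g
        constructor
        · rintro ⟨γ, hγ, rfl⟩
          exact ⟨⟨γ, hγ⟩, rfl⟩
        · rintro ⟨γ, rfl⟩
          exact ⟨γ, γ.2, rfl⟩
      rw [h2] at h1
      exact h1

end Pool.Agent.E8helper46.FL
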