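import Pool.Agent.E8helper46.FL.Branch

/-!
# Isometries of bounded displacement are trivial
-/

set_option autoImplicit false

namespace Pool.Agent.E8helper46.FL

open Set Monoid

universe u

section

variable {V : Type u} (L : SimpleGraph V) (side : V → Bool)
  (hside : ∀ a b, L.Adj a b → side a = side b)

theorem iso_adj (ζ : Vert L ≃ᵢ Vert L) (x y : Vert L) (h : (cayley L).Adj x.el y.el) :
    (cayley L).Adj (ζ x).el (ζ y).el := by
  have h1 : dist x y = 1 := by
    rw [vert_dist, SimpleGraph.dist_eq_one_iff_adj.2 h, Nat.cast_one]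
  rw [← ζ.isometry.dist_eq, vert_dist] at h1
  exact SimpleGraph.dist_eq_one_iff_adj.1 (by exact_mod_cast h1)

theorem ray (ζ : Vert L ≃ᵢ Vert L) (C : ℝ) (hC : ∀ y, dist (ζ y) y ≤ C) (ε : Raag L)
    (hadj : ∀ h : Raag L, (cayley L).Adj h (h * ε))
    (hchi : (chi L ε).toAdd = 1 ∨ (chi L ε).toAdd = -1) (i : Option Bool)
    (hi : branch L side hside ε = i) (hg : ∀ j : ℕ, ε ^ j ≠ (ζ ⟨1⟩).el) :
    branch L side hside (ζ.symm ⟨1⟩).el = i := by
  have hC0 : 0 ≤ C := dist_nonneg.trans (hC ⟨1⟩)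
  have habs : ∀ j : ℕ, |(((chi L (ε ^ j)).toAdd : ℤ) : ℝ)| = j := by
    intro j
    rw [map_pow, toAdd_pow, nsmul_eq_mul]
    rcases hchi with h | h
    · rw [h]; simp
    · rw [h]; simp
  have hne : ∀ j : ℕ, ε ^ (j + 1) ≠ 1 := by
    intro j h
    have h1 := habs (j + 1)
    rw [h, map_one, toAdd_one] at h1
    simp at h1
    have : (0 : ℝ) < j + 1 := by positivity
    linarith
  have hb : ∀ j : ℕ, branch L side hside (ε ^ (j + 1)) = i := by
    intro j
    induction j with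
    | zero => rw [zero_add, pow_one]; exact hi
    | succ j ih =>
      rw [← ih]
      symm
      refine branch_adj L side hside ?_ (hne j) (hne (j + 1))
      rw [pow_succ _ (j + 1)]
      exact hadj _
  have hη : ∀ j : ℕ, (ζ.symm ⟨ε ^ j⟩).el ≠ 1 := by
    intro j h
    have h1 : ζ.symm ⟨ε ^ j⟩ = ⟨1⟩ := Vert.ext' L h
    have h2 : ζ (ζ.symm ⟨ε ^ j⟩) = ζ ⟨1⟩ := by rw [h1]
    rw [ζ.apply_symm_apply] at h2
    exact hg j (congrArg Vert.el h2)
  have hconst : ∀ j : ℕ, branch L side hside (ζ.symm ⟨ε ^ j⟩).el =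
      branch L side hside (ζ.symm ⟨1⟩).el := by
    intro j
    induction j with
    | zero => rw [pow_zero]
    | succ j ih =>
      rw [← ih]
      symm
      refine branch_adj L side hside (iso_adj L ζ.symm _ _ ?_) (hη j) (hη (j + 1))
      show (cayley L).Adj (ε ^ j) (ε ^ (j + 1))
      rw [pow_succ]
      exact hadj _
  obtain ⟨j, hj⟩ := exists_nat_gt C
  rw [← hconst (j + 1), ← hb j]
  have hd : dist (⟨ε ^ (j + 1)⟩ : Vert L) (ζ.symm ⟨ε ^ (j + 1)⟩) ≤ C := by
    have h1 := hC (ζ.symm ⟨ε ^ (j + 1)⟩)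
    rwa [ζ.apply_symm_apply] at h1
  have h2 := branch_near L side hside ⟨1⟩ ⟨ε ^ (j + 1)⟩ (ζ.symm ⟨ε ^ (j + 1)⟩) C hd (by
    have h3 := chi_dist L ⟨ε ^ (j + 1)⟩ ⟨1⟩
    rw [map_one, toAdd_one] at h3
    have h4 := habs (j + 1)
    simp only [Int.cast_zero, sub_zero] at h3
    rw [h4] at h3
    push_cast at h3
    linarith)
  simp only [inv_one, one_mul] at h2
  exact h2.symm

theorem branch_letter (i : Bool) (ε y : Raag L)
    (hx : split L side hside ε = CoprodI.of (i := i) y) (hε : ε ≠ 1) :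
    branch L side hside ε = some i := by
  have h1 : branch L side hside (1 * ε) ≠ none := by
    rw [one_mul, Ne, branch_eq_none]
    exact hε
  have h2 : branch L side hside 1 = none := (branch_eq_none L side hside 1).2 rfl
  rcases branch_mul L side hside 1 _ _ _ hx with h | h | h
  · exact absurd h h1
  · exact absurd (h.trans h2) h1
  · rw [one_mul] at h
    exact h.2

theorem adj_gen (v : V) (h : Raag L) : (cayley L).Adj h (h * gen L v) := by
  refine ⟨fun he => gen_ne_one L v ?_, v, Or.inl rfl⟩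
  simpa using he.symm

theorem adj_gen_inv (v : V) (h : Raag L) : (cayley L).Adj h (h * (gen L v)⁻¹) := by
  refine ⟨fun he => gen_ne_one L v ?_, v, Or.inr (by rw [inv_mul_cancel_right])⟩
  simpa using he.symm

include hside in
theorem rigid_one (a b : V) (ha : side a = false) (hb : side b = true)
    (ζ : Vert L ≃ᵢ Vert L) (C : ℝ) (hC : ∀ y, dist (ζ y) y ≤ C) : ζ ⟨1⟩ = ⟨1⟩ := by
  by_contra hne
  obtain ⟨g, hg⟩ : ∃ g, g = (ζ ⟨1⟩).el := ⟨_, rfl⟩
  have hg1 : g ≠ 1 := by
    intro h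
    apply hne
    apply Vert.ext'
    rw [← hg, h]
  obtain ⟨s, hs⟩ : ∃ s, branch L side hside g = some s := by
    cases h : branch L side hside g with
    | none => exact absurd ((branch_eq_none L side hside g).1 h) hg1
    | some s => exact ⟨s, rfl⟩
  obtain ⟨vs, hvs⟩ : ∃ v, side v = s := by
    cases s
    · exact ⟨a, ha⟩
    · exact ⟨b, hb⟩
  obtain ⟨vt, hvt⟩ : ∃ v, side v = !s := by
    cases s
    · exact ⟨b, hb⟩
    · exact ⟨a, ha⟩
  -- the ray on the other side
  have h1 : branch L side hside (ζ.symm ⟨1⟩).el = some (!s) := by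
    refine ray L side hside ζ C hC (gen L vt) (adj_gen L vt) (Or.inl (by rw [chi_gen]; rfl))
      (some (!s)) (by rw [branch_gen, hvt]) ?_
    intro j hj
    rw [← hg] at hj
    cases j with
    | zero => exact hg1 (by rw [← hj, pow_zero])
    | succ j =>
      have h2 := branch_base L side hside 1 (gen L vt) vt j rfl rfl vt
      rw [inv_one, one_mul, ← pow_succ', hj, hs, hvt] at h2
      cases s <;> simp at h2
  have hray : ∀ ε : Raag L, (∀ h : Raag L, (cayley L).Adj h (h * ε)) →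
      ((chi L ε).toAdd = 1 ∨ (chi L ε).toAdd = -1) → branch L side hside ε = some s →
      ∃ j : ℕ, ε ^ j = g := by
    intro ε e1 e2 e3
    by_contra hcon
    push Not at hcon
    have h2 := ray L side hside ζ C hC ε e1 e2 (some s) e3 (fun j => by rw [← hg]; exact hcon j)
    rw [h1] at h2
    cases s <;> simp at h2
  obtain ⟨j1, hj1⟩ := hray (gen L vs) (adj_gen L vs) (Or.inl (by rw [chi_gen]; rfl))
    (by rw [branch_gen, hvs])
  obtain ⟨j2, hj2⟩ := hray (gen L vs)⁻¹ (adj_gen_inv L vs)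
    (Or.inr (by rw [map_inv, chi_gen]; rfl))
    (branch_letter L side hside s _ (gen L vs)⁻¹ (by
      rw [map_inv, split_gen, hvs, map_inv]) (inv_ne_one.2 (gen_ne_one L vs)))
  have h3 : (chi L g).toAdd = j1 := by
    rw [← hj1, map_pow, chi_gen, toAdd_pow]
    simp
  have h4 : (chi L g).toAdd = -j2 := by
    rw [← hj2, map_pow, map_inv, chi_gen, toAdd_pow]
    simp
  have h5 : j1 = 0 := by omega
  rw [h5, pow_zero] at hj1
  exact hg1 hj1.symm

end

/-- **Isometries of bounded displacement are trivial.** -/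
theorem rigid {V : Type u} (L : SimpleGraph V) (hL : ¬ L.Preconnected)
    (ζ : Vert L ≃ᵢ Vert L) (C : ℝ) (hC : ∀ y, dist (ζ y) y ≤ C) : ζ = 1 := by
  classical
  have key : ∀ (ζ : Vert L ≃ᵢ Vert L) (C : ℝ), (∀ y, dist (ζ y) y ≤ C) → ζ ⟨1⟩ = ⟨1⟩ := by
    intro ζ C hC
    unfold SimpleGraph.Preconnected at hL
    push Not at hL
    obtain ⟨a, b, hab⟩ := hL
    refine rigid_one L (fun v => decide (¬ L.Reachable a v)) ?_ a b ?_ ?_ ζ C hC
    · intro u v huv
      have : L.Reachable a u ↔ L.Reachable a v :=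
        ⟨fun h => h.trans huv.reachable, fun h => h.trans huv.symm.reachable⟩
      simp [this]
    · simp
    · simpa using hab
  ext1 v
  obtain ⟨T, hT⟩ := vert_trans L ⟨1⟩ v
  have h1 := key (T⁻¹ * ζ * T) C (fun y => by
    have e : (T⁻¹ * ζ * T) y = T⁻¹ (ζ (T y)) := rfl
    have e2 : T (T⁻¹ (ζ (T y))) = ζ (T y) := T.apply_symm_apply _
    rw [e, ← T.isometry.dist_eq, e2]
    exact hC (T y))
  have e : (T⁻¹ * ζ * T) ⟨1⟩ = T⁻¹ (ζ (T ⟨1⟩)) := rfl
  rw [e, hT] at h1
  have e2 : T (T⁻¹ (ζ v)) = ζ v := T.apply_symm_apply _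
  rw [h1, hT] at e2
  exact e2.symm

end Pool.Agent.E8helper46.FL
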