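import Pool.Agent.E8helper46.FL.Core2
import Pool.Agent.E8helper46.FL.Rigid
import Pool.Agent.E8helper46.FL.Main

/-!
# Irreducible uniform lattices in products of isometry groups of symmetric spaces and `S_L`
-/

set_option autoImplicit false

namespace Pool.Agent.E8helper46.FL

open Set Filter Topology

universe u

section

variable {k n : ℕ} {G : Subgroup (Matrix.GeneralLinearGroup (Fin n) ℝ)}
  {Y : Type*} [MetricSpace Y] [ProperSpace Y]
  (Γ : Subgroup (((EuclideanSpace ℝ (Fin k) ≃ᵢ EuclideanSpace ℝ (Fin k)) × G) × (Y ≃ᵢ Y)))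
  (y0 : Y)

theorem lattice_finite2 (hGc : IsClosed (G : Set (Matrix.GeneralLinearGroup (Fin n) ℝ)))
    (hd : DiscreteTopology Γ) (r : ℝ) :
    {g : ((EuclideanSpace ℝ (Fin k) ≃ᵢ EuclideanSpace ℝ (Fin k)) × G) × (Y ≃ᵢ Y) |
      g ∈ Γ ∧ dist (g.1.1 0) 0 ≤ r ∧ len ((g.1.2 : G) : (Mat n)ˣ) ≤ r ∧
        dist (g.2 y0) y0 ≤ r}.Finite := by
  have hcl : IsClosed (Γ : Set (((EuclideanSpace ℝ (Fin k) ≃ᵢ EuclideanSpace ℝ (Fin k)) × G) ×
    (Y ≃ᵢ Y))) := Subgroup.isClosed_of_discrete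
  have hK : IsCompact (({g : EuclideanSpace ℝ (Fin k) ≃ᵢ EuclideanSpace ℝ (Fin k) |
      dist (g 0) 0 ≤ r} ×ˢ {g : G | len ((g : G) : (Mat n)ˣ) ≤ r}) ×ˢ
        {g : Y ≃ᵢ Y | dist (g y0) y0 ≤ r}) :=
    ((isCompact_bdd _ r).prod (isCompact_lenG hGc r)).prod (isCompact_bdd y0 r)
  have h1 := hK.inter_left hcl
  have h2 : DiscreteTopology ↥((Γ : Set (((EuclideanSpace ℝ (Fin k) ≃ᵢ
      EuclideanSpace ℝ (Fin k)) × G) × (Y ≃ᵢ Y))) ∩
      (({g : EuclideanSpace ℝ (Fin k) ≃ᵢ EuclideanSpace ℝ (Fin k) |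
      dist (g 0) 0 ≤ r} ×ˢ {g : G | len ((g : G) : (Mat n)ˣ) ≤ r}) ×ˢ
        {g : Y ≃ᵢ Y | dist (g y0) y0 ≤ r})) :=
    DiscreteTopology.of_subset (s := (Γ : Set (((EuclideanSpace ℝ (Fin k) ≃ᵢ
      EuclideanSpace ℝ (Fin k)) × G) × (Y ≃ᵢ Y)))) hd inter_subset_left
  refine (h1.finite ⟨h2⟩).subset ?_
  rintro g ⟨h3, h4, h5, h6⟩
  exact ⟨h3, ⟨h4, h5⟩, h6⟩

theorem lattice_cobounded2 (hc : CompactSpace ((((EuclideanSpace ℝ (Fin k) ≃ᵢ
    EuclideanSpace ℝ (Fin k)) × G) × (Y ≃ᵢ Y)) ⧸ Γ)) :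
    ∃ R : ℝ, ∀ g : ((EuclideanSpace ℝ (Fin k) ≃ᵢ EuclideanSpace ℝ (Fin k)) × G) × (Y ≃ᵢ Y),
      ∃ γ ∈ Γ, dist ((g * γ).1.1 0) 0 < R ∧ len (((g * γ).1.2 : G) : (Mat n)ˣ) < R ∧
        dist ((g * γ).2 y0) y0 < R := by
  obtain ⟨U, hU⟩ : ∃ U : ℕ → Set (((EuclideanSpace ℝ (Fin k) ≃ᵢ EuclideanSpace ℝ (Fin k)) × G) ×
      (Y ≃ᵢ Y)), ∀ m g, g ∈ U m ↔ dist (g.1.1 0) 0 < m ∧ len ((g.1.2 : G) : (Mat n)ˣ) < m ∧
        dist (g.2 y0) y0 < m := ⟨fun (m : ℕ) => {g | dist (g.1.1 0) 0 < m ∧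
          len ((g.1.2 : G) : (Mat n)ˣ) < m ∧ dist (g.2 y0) y0 < m}, fun _ _ => Iff.rfl⟩
  have hUo : ∀ m, IsOpen (U m) := by
    intro m
    have : U m = {g | dist (g.1.1 0) 0 < m} ∩ ({g | len ((g.1.2 : G) : (Mat n)ˣ) < m} ∩
        {g | dist (g.2 y0) y0 < m}) := by
      ext g
      exact hU m g
    rw [this]
    refine IsOpen.inter ?_ (IsOpen.inter ?_ ?_)
    · exact isOpen_lt (((continuous_ev _).comp (continuous_fst.comp continuous_fst)).dist
        continuous_const) continuous_const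
    · exact isOpen_lt (len_cont.comp (continuous_subtype_val.comp
        (continuous_snd.comp continuous_fst))) continuous_const
    · exact isOpen_lt (((continuous_ev y0).comp continuous_snd).dist continuous_const)
        continuous_const
  have hmono : ∀ a b, a ≤ b → U a ⊆ U b := by
    intro a b hab g hg
    rw [hU] at hg ⊢
    have : (a : ℝ) ≤ b := by exact_mod_cast hab
    exact ⟨hg.1.trans_le this, hg.2.1.trans_le this, hg.2.2.trans_le this⟩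
  have hcov : (Set.univ : Set ((((EuclideanSpace ℝ (Fin k) ≃ᵢ
      EuclideanSpace ℝ (Fin k)) × G) × (Y ≃ᵢ Y)) ⧸ Γ)) ⊆
      ⋃ m, (QuotientGroup.mk : _ → (((EuclideanSpace ℝ (Fin k) ≃ᵢ
      EuclideanSpace ℝ (Fin k)) × G) × (Y ≃ᵢ Y)) ⧸ Γ) '' U m := by
    intro q _
    obtain ⟨g, rfl⟩ := QuotientGroup.mk_surjective q
    obtain ⟨m, hm⟩ := exists_nat_gt (max (dist (g.1.1 0) 0) (max (len ((g.1.2 : G) : (Mat n)ˣ))
      (dist (g.2 y0) y0)))
    rw [mem_iUnion]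
    refine ⟨m, g, ?_, rfl⟩
    rw [hU]
    exact ⟨(le_max_left _ _).trans_lt hm, ((le_max_left _ _).trans (le_max_right _ _)).trans_lt hm,
      ((le_max_right _ _).trans (le_max_right _ _)).trans_lt hm⟩
  obtain ⟨m, hm⟩ := isCompact_univ.elim_directed_cover
    (fun m => (QuotientGroup.mk : _ → (((EuclideanSpace ℝ (Fin k) ≃ᵢ
      EuclideanSpace ℝ (Fin k)) × G) × (Y ≃ᵢ Y)) ⧸ Γ) '' U m)
    (fun m => QuotientGroup.isOpenMap_coe _ (hUo m)) hcov
    (fun a b => ⟨max a b, image_mono (hmono _ _ (le_max_left _ _)),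
      image_mono (hmono _ _ (le_max_right _ _))⟩)
  refine ⟨m, fun g => ?_⟩
  obtain ⟨h, hh, he⟩ := hm (mem_univ (QuotientGroup.mk g))
  refine ⟨g⁻¹ * h, ?_, ?_⟩
  · exact QuotientGroup.eq.1 he.symm
  · rw [mul_inv_cancel_left]
    exact (hU m h).1 hh

end

theorem vert_chain {V : Type u} (L : SimpleGraph V) (P : Vert L → Prop)
    (hP : ∀ y y', dist y y' ≤ 1 → P y → P y') (y y' : Vert L) (h : P y) : P y' := by
  obtain ⟨p, -⟩ := walk_of_dist L y y' _ le_rfl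
  have key : ∀ (a b : Raag L) (w : (cayley L).Walk a b), P ⟨a⟩ → P ⟨b⟩ := by
    intro a b w
    induction w with
    | nil => exact id
    | @cons a b c hab w ih =>
      intro ha
      refine ih (hP ⟨a⟩ ⟨b⟩ ?_ ha)
      rw [vert_dist, SimpleGraph.dist_eq_one_iff_adj.2 hab, Nat.cast_one]
  exact key _ _ p h

/-- **The main theorem** -/
theorem main2 {V : Type u} [Finite V] (L : SimpleGraph V) (hL : ¬ L.Connected)
    {k n : ℕ} {G : Subgroup (Matrix.GeneralLinearGroup (Fin n) ℝ)} (hG : IsNoncompactType G)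
    (Γ : Subgroup (((EuclideanSpace ℝ (Fin k) ≃ᵢ EuclideanSpace ℝ (Fin k)) × G) ×
      (Vert L ≃ᵢ Vert L)))
    (hd : DiscreteTopology Γ)
    (hc : CompactSpace ((((EuclideanSpace ℝ (Fin k) ≃ᵢ EuclideanSpace ℝ (Fin k)) × G) ×
      (Vert L ≃ᵢ Vert L)) ⧸ Γ))
    (hirr : IsIrreducible Γ) : ¬ AlgFibred Γ := by
  rintro ⟨φ, hφ, hK⟩
  rcases isEmpty_or_nonempty V with hV | hV
  · -- the group is trivial
    have hsub : Subsingleton (Raag L) := by
      refine ⟨fun a b => ?_⟩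
      have h1 : ∀ g : Raag L, g = 1 := by
        intro g
        have hg : g ∈ Subgroup.closure (Set.range (PresentedGroup.of (rels := raagRels L))) := by
          rw [PresentedGroup.closure_range_of]
          exact Subgroup.mem_top g
        rw [Set.range_eq_empty, Subgroup.closure_empty, Subgroup.mem_bot] at hg
        exact hg
      rw [h1 a, h1 b]
    have hsubV : Subsingleton (Vert L) := ⟨fun a b => Vert.ext' L (Subsingleton.elim _ _)⟩
    have hsubI : Subsingleton (Vert L ≃ᵢ Vert L) :=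
      ⟨fun a b => IsometryEquiv.ext fun x => Subsingleton.elim _ _⟩
    exact hirr.right inferInstance
  · have hpre : ¬ L.Preconnected := fun h => hL ⟨h⟩
    obtain ⟨R, hR⟩ := lattice_cobounded2 Γ (⟨1⟩ : Vert L) hc
    refine core2 (E := EuclideanSpace ℝ (Fin k)) hG
      (((MonoidHom.fst _ _).comp (MonoidHom.fst _ _)).comp Γ.subtype)
      (((MonoidHom.snd _ _).comp (MonoidHom.fst _ _)).comp Γ.subtype)
      ((MonoidHom.snd _ _).comp Γ.subtype) (⟨1⟩ : Vert L) ?_ ?_ ?_ (vert_ball L)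
      (threeEnds_vert L hpre) (vert_chain L) (rigid L hpre) hirr.notProduct φ hφ hK
    · rintro ⟨⟨⟨a, b⟩, c⟩, hγ⟩ h1 h2 h3
      apply Subtype.ext
      exact Prod.ext (Prod.ext h1 h2) h3
    · intro r
      refine Set.Finite.of_finite_image (f := Subtype.val) ?_ Subtype.val_injective.injOn
      refine (lattice_finite2 Γ (⟨1⟩ : Vert L) hG.closed hd r).subset ?_
      rintro _ ⟨γ, ⟨h1, h2, h3⟩, rfl⟩
      exact ⟨γ.2, h1, h2, h3⟩
    · refine ⟨R, fun e g y => ?_⟩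
      obtain ⟨g2, hg2⟩ := vert_trans L y ⟨1⟩
      obtain ⟨γ, hγ, h1, h2, h3⟩ := hR ((IsometryEquiv.addRight (-e), g⁻¹), g2)
      refine ⟨⟨γ, hγ⟩, ?_, ?_, ?_⟩
      · have h4 : dist (γ.1.1 0 + -e) 0 < R := h1
        rw [← sub_eq_add_neg, dist_zero_right, ← dist_eq_norm] at h4
        exact h4.le
      · exact h2.le
      · have h4 : dist (g2 (γ.2 ⟨1⟩)) (g2 y) < R := by rw [hg2]; exact h3
        rw [g2.isometry.dist_eq] at h4
        exact h4.le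

end Pool.Agent.E8helper46.FL
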