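import Pool.Agent.E8helper46.FL.Main2

/-!
# Irreducible uniform lattices in `H × S_L`
-/

set_option autoImplicit false
set_option linter.unusedSectionVars false

namespace Pool.Agent.E8helper46.FL

open Set Filter Topology

universe u v

section

variable {k n : ℕ} {G : Subgroup (Matrix.GeneralLinearGroup (Fin n) ℝ)}
  {H : Type v} [Group H] [TopologicalSpace H] [IsTopologicalGroup H]
  (e : H ≃ₜ* ((EuclideanSpace ℝ (Fin k) ≃ᵢ EuclideanSpace ℝ (Fin k)) × G))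
  {Y : Type*} [MetricSpace Y] [ProperSpace Y] (Γ : Subgroup (H × (Y ≃ᵢ Y))) (y0 : Y)

include e in
theorem lattice_finite3 (hGc : IsClosed (G : Set (Matrix.GeneralLinearGroup (Fin n) ℝ)))
    (hd : DiscreteTopology Γ) (r : ℝ) :
    {g : H × (Y ≃ᵢ Y) | g ∈ Γ ∧ dist ((e g.1).1 0) 0 ≤ r ∧
      len (((e g.1).2 : G) : (Mat n)ˣ) ≤ r ∧ dist (g.2 y0) y0 ≤ r}.Finite := by
  have hT2 : T2Space H := T2Space.of_injective_continuous e.injective e.continuous
  have hcl : IsClosed (Γ : Set (H × (Y ≃ᵢ Y))) := Subgroup.isClosed_of_discrete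
  obtain ⟨W, hW⟩ : ∃ W : Set H, W = e ⁻¹' ({g : EuclideanSpace ℝ (Fin k) ≃ᵢ
      EuclideanSpace ℝ (Fin k) | dist (g 0) 0 ≤ r} ×ˢ {g : G | len ((g : G) : (Mat n)ˣ) ≤ r}) :=
    ⟨_, rfl⟩
  have hWc : IsCompact W := by
    rw [hW]
    exact e.toHomeomorph.isCompact_preimage.2 ((isCompact_bdd _ r).prod (isCompact_lenG hGc r))
  have hK : IsCompact (W ×ˢ {g : Y ≃ᵢ Y | dist (g y0) y0 ≤ r}) := hWc.prod (isCompact_bdd y0 r)
  have h1 := hK.inter_left hcl
  have h2 : DiscreteTopology ↥((Γ : Set (H × (Y ≃ᵢ Y))) ∩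
      (W ×ˢ {g : Y ≃ᵢ Y | dist (g y0) y0 ≤ r})) :=
    DiscreteTopology.of_subset (s := (Γ : Set (H × (Y ≃ᵢ Y)))) hd inter_subset_left
  refine (h1.finite ⟨h2⟩).subset ?_
  rintro g ⟨h3, h4, h5, h6⟩
  rw [hW]
  exact ⟨h3, ⟨h4, h5⟩, h6⟩

theorem lattice_cobounded3 (hc : CompactSpace ((H × (Y ≃ᵢ Y)) ⧸ Γ)) :
    ∃ R : ℝ, ∀ g : H × (Y ≃ᵢ Y), ∃ γ ∈ Γ, dist ((e (g * γ).1).1 0) 0 < R ∧
      len (((e (g * γ).1).2 : G) : (Mat n)ˣ) < R ∧ dist ((g * γ).2 y0) y0 < R := by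
  obtain ⟨U, hU⟩ : ∃ U : ℕ → Set (H × (Y ≃ᵢ Y)), ∀ m g, g ∈ U m ↔ dist ((e g.1).1 0) 0 < m ∧
      len (((e g.1).2 : G) : (Mat n)ˣ) < m ∧ dist (g.2 y0) y0 < m :=
    ⟨fun (m : ℕ) => {g | dist ((e g.1).1 0) 0 < m ∧
      len (((e g.1).2 : G) : (Mat n)ˣ) < m ∧ dist (g.2 y0) y0 < m}, fun _ _ => Iff.rfl⟩
  have hUo : ∀ m, IsOpen (U m) := by
    intro m
    have : U m = {g | dist ((e g.1).1 0) 0 < m} ∩ ({g | len (((e g.1).2 : G) : (Mat n)ˣ) < m} ∩
        {g | dist (g.2 y0) y0 < m}) := by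
      ext g
      exact hU m g
    rw [this]
    have he : Continuous fun g : H × (Y ≃ᵢ Y) => e g.1 := e.continuous.comp continuous_fst
    refine IsOpen.inter ?_ (IsOpen.inter ?_ ?_)
    · exact isOpen_lt (((continuous_ev _).comp (continuous_fst.comp he)).dist
        continuous_const) continuous_const
    · exact isOpen_lt (len_cont.comp (continuous_subtype_val.comp
        (continuous_snd.comp he))) continuous_const
    · exact isOpen_lt (((continuous_ev y0).comp continuous_snd).dist continuous_const)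
        continuous_const
  have hmono : ∀ a b, a ≤ b → U a ⊆ U b := by
    intro a b hab g hg
    rw [hU] at hg ⊢
    have : (a : ℝ) ≤ b := by exact_mod_cast hab
    exact ⟨hg.1.trans_le this, hg.2.1.trans_le this, hg.2.2.trans_le this⟩
  have hcov : (Set.univ : Set ((H × (Y ≃ᵢ Y)) ⧸ Γ)) ⊆
      ⋃ m, (QuotientGroup.mk : _ → (H × (Y ≃ᵢ Y)) ⧸ Γ) '' U m := by
    intro q _
    obtain ⟨g, rfl⟩ := QuotientGroup.mk_surjective q
    obtain ⟨m, hm⟩ := exists_nat_gt (max (dist ((e g.1).1 0) 0)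
      (max (len (((e g.1).2 : G) : (Mat n)ˣ)) (dist (g.2 y0) y0)))
    rw [mem_iUnion]
    refine ⟨m, g, ?_, rfl⟩
    rw [hU]
    exact ⟨(le_max_left _ _).trans_lt hm, ((le_max_left _ _).trans (le_max_right _ _)).trans_lt hm,
      ((le_max_right _ _).trans (le_max_right _ _)).trans_lt hm⟩
  obtain ⟨m, hm⟩ := isCompact_univ.elim_directed_cover
    (fun m => (QuotientGroup.mk : _ → (H × (Y ≃ᵢ Y)) ⧸ Γ) '' U m)
    (fun m => QuotientGroup.isOpenMap_coe _ (hUo m)) hcov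
    (fun a b => ⟨max a b, image_mono (hmono _ _ (le_max_left _ _)),
      image_mono (hmono _ _ (le_max_right _ _))⟩)
  refine ⟨m, fun g => ?_⟩
  obtain ⟨h, hh, he⟩ := hm (mem_univ (QuotientGroup.mk g))
  refine ⟨g⁻¹ * h, ?_, ?_⟩
  · exact QuotientGroup.eq.1 he.symm
  · rw [mul_inv_cancel_left]
    exact (hU m h).1 hh

end

/-- **The main theorem.** -/
theorem main3 {V : Type u} [Finite V] (L : SimpleGraph V) (hL : ¬ L.Connected)
    {H : Type v} [Group H] [TopologicalSpace H] [IsTopologicalGroup H]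
    (hH : IsSymmetricSpaceGroup H) (Γ : Subgroup (H × (Vert L ≃ᵢ Vert L)))
    (hd : DiscreteTopology Γ) (hc : CompactSpace ((H × (Vert L ≃ᵢ Vert L)) ⧸ Γ))
    (hirr : IsIrreducible Γ) : ¬ AlgFibred Γ := by
  obtain ⟨k, n, G, hG, ⟨e⟩⟩ := hH
  rintro ⟨φ, hφ, hK⟩
  rcases isEmpty_or_nonempty V with hV | hV
  · -- the group is trivial
    have hsub : Subsingleton (Raag L) := by
      refine ⟨fun a b => ?_⟩
      have h1 : ∀ g : Raag L, g = 1 := by
        intro g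
        have hg : g ∈ Subgroup.closure (Set.range (PresentedGroup.of (rels := raagRels L))) := by
          rw [PresentedGroup.closure_range_of]
          exact Subgroup.mem_top g
        rw [Set.range_eq_empty, Subgroup.closure_empty, Subgroup.mem_bot] at hg
        exact hg
      rw [h1 a, h1 b]
    have hsubV : Subsingleton (Vert L) := ⟨fun a b => Vert.ext' L (Subsingleton.elim _ _)⟩
    have hsubI : Subsingleton (Vert L ≃ᵢ Vert L) :=
      ⟨fun a b => IsometryEquiv.ext fun x => Subsingleton.elim _ _⟩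
    exact hirr.right inferInstance
  · have hpre : ¬ L.Preconnected := fun h => hL ⟨h⟩
    obtain ⟨R, hR⟩ := lattice_cobounded3 e Γ (⟨1⟩ : Vert L) hc
    obtain ⟨eh, heh⟩ : ∃ eh : H →* ((EuclideanSpace ℝ (Fin k) ≃ᵢ EuclideanSpace ℝ (Fin k)) × G),
        ∀ h, eh h = e h := ⟨e.toMulEquiv.toMonoidHom, fun _ => rfl⟩
    refine core2 (E := EuclideanSpace ℝ (Fin k)) hG
      (((MonoidHom.fst _ _).comp eh).comp ((MonoidHom.fst _ _).comp Γ.subtype))
      (((MonoidHom.snd _ _).comp eh).comp ((MonoidHom.fst _ _).comp Γ.subtype))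
      ((MonoidHom.snd _ _).comp Γ.subtype) (⟨1⟩ : Vert L) ?_ ?_ ?_ (vert_ball L)
      (threeEnds_vert L hpre) (vert_chain L) (rigid L hpre) hirr.notProduct φ hφ hK
    · rintro ⟨⟨a, b⟩, hγ⟩ h1 h2 h3
      have h4 : (eh a).1 = 1 := h1
      have h5 : (eh a).2 = 1 := h2
      rw [heh] at h4 h5
      have h6 : a = 1 := e.injective ((Prod.ext h4 h5 : e a = 1).trans (map_one e).symm)
      apply Subtype.ext
      exact Prod.ext h6 h3
    · intro r
      refine Set.Finite.of_finite_image (f := Subtype.val) ?_ Subtype.val_injective.injOn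
      refine (lattice_finite3 e Γ (⟨1⟩ : Vert L) hG.closed hd r).subset ?_
      rintro _ ⟨γ, ⟨h1, h2, h3⟩, rfl⟩
      refine ⟨γ.2, ?_, ?_, h3⟩
      · rw [← heh]
        exact h1
      · rw [← heh]
        exact h2
    · refine ⟨R, fun x g y => ?_⟩
      obtain ⟨g2, hg2⟩ := vert_trans L y ⟨1⟩
      obtain ⟨h, hh⟩ := e.surjective (IsometryEquiv.addRight (-x), g⁻¹)
      obtain ⟨γ, hγ, h1, h2, h3⟩ := hR (h, g2)
      rw [Prod.fst_mul, map_mul, hh] at h1 h2
      refine ⟨⟨γ, hγ⟩, ?_, ?_, ?_⟩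
      · have h4 : dist ((e γ.1).1 0 + -x) 0 < R := h1
        rw [← sub_eq_add_neg, dist_zero_right, ← dist_eq_norm, ← heh] at h4
        exact h4.le
      · rw [← heh] at h2
        exact h2.le
      · have h4 : dist (g2 (γ.2 ⟨1⟩)) (g2 y) < R := by rw [hg2]; exact h3
        rw [g2.isometry.dist_eq] at h4
        exact h4.le

end Pool.Agent.E8helper46.FL
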