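import Pool.Agent.E8helper46.FL.CN

/-!
# The averaging operator
-/

set_option autoImplicit false
set_option linter.unusedSectionVars false

namespace Pool.Agent.E8helper46.FL

open Set Filter Topology MeasureTheory

variable {M : Type*} [MetricSpace M]

/-- the kernel -/
noncomputable def ker (R : ℝ) (x y : M) : ℝ := max 0 (R - dist x y)

theorem ker_nonneg (R : ℝ) (x y : M) : 0 ≤ ker R x y := le_max_left _ _

theorem ker_cont (R : ℝ) : Continuous (fun p : M × M => ker R p.1 p.2) :=
  continuous_const.max (continuous_const.sub (continuous_fst.dist continuous_snd))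

theorem ker_cont_right (R : ℝ) (x : M) : Continuous (fun y : M => ker R x y) :=
  continuous_const.max (continuous_const.sub (continuous_const.dist continuous_id))

theorem ker_eq_zero {R : ℝ} {x y : M} (h : R ≤ dist x y) : ker R x y = 0 :=
  max_eq_left (by linarith)

theorem ker_pos {R : ℝ} {x y : M} (h : dist x y < R) : 0 < ker R x y :=
  lt_max_of_lt_right (by linarith)

theorem le_ker {R : ℝ} {x y : M} : R - dist x y ≤ ker R x y := le_max_right _ _

theorem ker_map (R : ℝ) (g : M ≃ᵢ M) (x y : M) : ker R (g x) (g y) = ker R x y := by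
  unfold ker
  rw [g.isometry.dist_eq]

theorem ker_hcs [ProperSpace M] (R : ℝ) (x : M) (f : M → ℝ) :
    HasCompactSupport (fun y : M => ker R x y * f y) := by
  refine HasCompactSupport.intro (isCompact_closedBall x R) fun y hy => ?_
  rw [Metric.mem_closedBall, not_le, dist_comm] at hy
  rw [ker_eq_zero hy.le, zero_mul]

variable [ProperSpace M] [MeasurableSpace M] [BorelSpace M] (ν : Measure M)
  [IsFiniteMeasureOnCompacts ν] [ν.IsOpenPosMeasure]

theorem ker_integrable (R : ℝ) (x : M) {f : M → ℝ} (hf : Continuous f) :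
    Integrable (fun y : M => ker R x y * f y) ν :=
  ((ker_cont_right R x).mul hf).integrable_of_hasCompactSupport (ker_hcs R x f)

/-- the integral against the kernel -/
noncomputable def kint (R : ℝ) (f : M → ℝ) (x : M) : ℝ := ∫ y, ker R x y * f y ∂ν

theorem kint_cont (R : ℝ) {f : M → ℝ} (hf : Continuous f) : Continuous (kint ν R f) := by
  rw [continuous_iff_continuousAt]
  intro x1
  have h1 : Continuous (fun x : M => ∫ y in Metric.closedBall x1 (R + 1), ker R x y * f y ∂ν) := by
    refine continuous_parametric_integral_of_continuous (f := fun x y => ker R x y * f y) ?_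
      (isCompact_closedBall x1 (R + 1))
    exact (ker_cont R).mul (hf.comp continuous_snd)
  refine h1.continuousAt.congr ?_
  filter_upwards [Metric.ball_mem_nhds x1 one_pos] with x hx
  refine setIntegral_eq_integral_of_forall_compl_eq_zero fun y hy => ?_
  rw [Metric.mem_closedBall, not_le] at hy
  rw [Metric.mem_ball] at hx
  have : R ≤ dist x y := by
    have := dist_triangle y x x1
    rw [dist_comm y x] at this
    linarith
  rw [ker_eq_zero this, zero_mul]

theorem kint_one_pos {R : ℝ} (hR : 0 < R) (x : M) : 0 < kint ν R (fun _ => 1) x := by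
  refine ((ker_cont_right R x).mul continuous_const).integral_pos_of_hasCompactSupport_nonneg_nonzero
    (x := x) (ker_hcs R x _) (fun y => ?_) ?_
  · exact mul_nonneg (ker_nonneg R x y) zero_le_one
  · have := ker_pos (R := R) (x := x) (y := x) (by rwa [dist_self])
    simp only [mul_one]
    exact this.ne'

/-- the average of `f` -/
noncomputable def av (R : ℝ) (f : M → ℝ) (x : M) : ℝ := kint ν R f x / kint ν R (fun _ => 1) x

theorem av_cont {R : ℝ} (hR : 0 < R) {f : M → ℝ} (hf : Continuous f) : Continuous (av ν R f) :=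
  (kint_cont ν R hf).div (kint_cont ν R continuous_const) fun x => (kint_one_pos ν hR x).ne'

theorem kint_const (R : ℝ) (c : ℝ) (x : M) :
    kint ν R (fun _ => c) x = c * kint ν R (fun _ => 1) x := by
  unfold kint
  rw [← integral_const_mul]
  congr 1
  ext y
  ring

theorem kint_sub (R : ℝ) {f g : M → ℝ} (hf : Continuous f) (hg : Continuous g) (x : M) :
    kint ν R (fun y => f y - g y) x = kint ν R f x - kint ν R g x := by
  unfold kint
  rw [← integral_sub (ker_integrable ν R x hf) (ker_integrable ν R x hg)]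
  congr 1
  ext y
  ring

theorem av_sub (R : ℝ) {f g : M → ℝ} (hf : Continuous f) (hg : Continuous g) (x : M) :
    av ν R (fun y => f y - g y) x = av ν R f x - av ν R g x := by
  unfold av
  rw [kint_sub ν R hf hg, sub_div]

theorem av_const {R : ℝ} (hR : 0 < R) (c : ℝ) (x : M) : av ν R (fun _ => c) x = c := by
  unfold av
  rw [kint_const, mul_div_assoc, div_self (kint_one_pos ν hR x).ne', mul_one]

theorem av_le {R : ℝ} (hR : 0 < R) {f : M → ℝ} (hf : Continuous f) {c : ℝ} (h : ∀ y, f y ≤ c)
    (x : M) : av ν R f x ≤ c := by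
  have h1 := kint_one_pos ν hR x
  unfold av
  rw [div_le_iff₀ h1, ← kint_const]
  unfold kint
  exact integral_mono (ker_integrable ν R x hf) (ker_integrable ν R x continuous_const)
    fun y => mul_le_mul_of_nonneg_left (h y) (ker_nonneg R x y)

theorem le_av {R : ℝ} (hR : 0 < R) {f : M → ℝ} (hf : Continuous f) {c : ℝ} (h : ∀ y, c ≤ f y)
    (x : M) : c ≤ av ν R f x := by
  have h1 := kint_one_pos ν hR x
  unfold av
  rw [le_div_iff₀ h1, ← kint_const]
  unfold kint
  exact integral_mono (ker_integrable ν R x continuous_const) (ker_integrable ν R x hf)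
    fun y => mul_le_mul_of_nonneg_left (h y) (ker_nonneg R x y)

theorem kint_map (R : ℝ) (g : M ≃ᵢ M) (hg : MeasurePreserving g ν ν) (f : M → ℝ) (x : M) :
    kint ν R (fun y => f (g y)) x = kint ν R f (g x) := by
  unfold kint
  have h := hg.integral_comp g.toHomeomorph.measurableEmbedding (fun y => ker R (g x) y * f y)
  rw [← h]
  congr 1
  ext y
  show ker R x y * f (g y) = ker R (g x) (g y) * f (g y)
  rw [ker_map]

theorem av_map (R : ℝ) (g : M ≃ᵢ M) (hg : MeasurePreserving g ν ν) (f : M → ℝ) (x : M) :
    av ν R (fun y => f (g y)) x = av ν R f (g x) := by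
  unfold av
  rw [kint_map ν R g hg, ← kint_map ν R g hg (fun _ => 1)]

theorem av_shift {R : ℝ} (hR : 0 < R) (g : M ≃ᵢ M) (hg : MeasurePreserving g ν ν) {f : M → ℝ}
    (hf : Continuous f) {c : ℝ} (h : ∀ y, f (g y) = f y + c) (x : M) :
    av ν R f (g x) = av ν R f x + c := by
  rw [← av_map ν R g hg]
  have h1 : (fun y => f (g y)) = fun y => f y - (fun _ => -c) y := by
    ext y
    rw [h]
    ring
  rw [h1, av_sub ν R hf continuous_const, av_const ν hR]
  ring

/-- the contraction -/
theorem contraction (x0 : M) {D R : ℝ} (hD : 0 < D) (hDR : 2 * D < R) :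
    ∃ θ : ℝ, 0 ≤ θ ∧ θ < 1 ∧ ∀ u : M → ℝ, Continuous u → ∀ a b : ℝ, (∀ y, a ≤ u y) →
      (∀ y, u y ≤ b) → ∀ x x', dist x x0 ≤ D → dist x' x0 ≤ D →
        av ν R u x' - av ν R u x ≤ θ * (b - a) := by
  have hR : 0 < R := by linarith
  -- an upper bound of the normalisation
  obtain ⟨W, hW⟩ := (isCompact_closedBall x0 D).bddAbove_image
    (kint_cont ν R (f := fun _ => (1 : ℝ)) continuous_const).continuousOn
  have hW' : ∀ x, dist x x0 ≤ D → kint ν R (fun _ => 1) x ≤ W :=
    fun x hx => hW ⟨x, hx, rfl⟩
  have hWpos : 0 < W := lt_of_lt_of_le (kint_one_pos ν hR x0) (hW' x0 (by rw [dist_self]; exact hD.le))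
  obtain ⟨B, hB⟩ : ∃ B, B = Metric.closedBall x0 D := ⟨_, rfl⟩
  have hBc : IsCompact B := hB ▸ isCompact_closedBall x0 D
  have hBm : MeasurableSet B := hBc.measurableSet
  have hνB : 0 < ν.real B := by
    rw [Measure.real, ENNReal.toReal_pos_iff]
    refine ⟨?_, hBc.measure_lt_top⟩
    refine lt_of_lt_of_le ?_ (measure_mono (hB ▸ Metric.ball_subset_closedBall))
    exact Metric.isOpen_ball.measure_pos ν ⟨x0, Metric.mem_ball_self hD⟩
  -- lower bound
  have low : ∀ v : M → ℝ, Continuous v → (∀ y, 0 ≤ v y) → ∀ x, dist x x0 ≤ D →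
      (R - 2 * D) / W * ∫ y in B, v y ∂ν ≤ av ν R v x := by
    intro v hv hv0 x hx
    have h1 := kint_one_pos ν hR x
    have h2 : (R - 2 * D) * ∫ y in B, v y ∂ν ≤ kint ν R v x := by
      unfold kint
      calc (R - 2 * D) * ∫ y in B, v y ∂ν = ∫ y in B, (R - 2 * D) * v y ∂ν :=
            (integral_const_mul _ _).symm
        _ ≤ ∫ y in B, ker R x y * v y ∂ν := by
            refine setIntegral_mono_on ?_ (ker_integrable ν R x hv).integrableOn hBm ?_
            · exact (continuous_const.mul hv).continuousOn.integrableOn_compact hBc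
            · intro y hy
              refine mul_le_mul_of_nonneg_right ?_ (hv0 y)
              refine le_trans ?_ le_ker
              rw [hB, Metric.mem_closedBall] at hy
              have := dist_triangle x x0 y
              rw [dist_comm x0 y] at this
              linarith
        _ ≤ ∫ y, ker R x y * v y ∂ν := by
            refine setIntegral_le_integral (ker_integrable ν R x hv) ?_
            exact Eventually.of_forall fun y => mul_nonneg (ker_nonneg R x y) (hv0 y)
    have h3 : 0 ≤ ∫ y in B, v y ∂ν := setIntegral_nonneg hBm fun y _ => hv0 y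
    have h4 : 0 ≤ (R - 2 * D) * ∫ y in B, v y ∂ν := mul_nonneg (by linarith) h3
    unfold av
    rw [div_mul_eq_mul_div, div_le_div_iff₀ hWpos h1]
    calc (R - 2 * D) * (∫ y in B, v y ∂ν) * kint ν R (fun _ => 1) x
        ≤ (R - 2 * D) * (∫ y in B, v y ∂ν) * W := mul_le_mul_of_nonneg_left (hW' x hx) h4
      _ ≤ kint ν R v x * W := mul_le_mul_of_nonneg_right h2 hWpos.le
  obtain ⟨η, hη⟩ : ∃ η, η = (R - 2 * D) / W * ν.real B := ⟨_, rfl⟩
  have hηpos : 0 < η := by
    rw [hη]
    exact mul_pos (div_pos (by linarith) hWpos) hνB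
  have main : ∀ u : M → ℝ, Continuous u → ∀ a b : ℝ, (∀ y, a ≤ u y) →
      (∀ y, u y ≤ b) → ∀ x x', dist x x0 ≤ D → dist x' x0 ≤ D →
        av ν R u x' - av ν R u x ≤ (1 - η) * (b - a) := by
    intro u hu a b ha hb x x' hx hx'
    have h1 := low (fun y => u y - a) (hu.sub continuous_const) (fun y => sub_nonneg.2 (ha y)) x hx
    have h2 := low (fun y => b - u y) (continuous_const.sub hu) (fun y => sub_nonneg.2 (hb y)) x' hx'
    rw [av_sub ν R hu continuous_const, av_const ν hR] at h1
    rw [av_sub ν R continuous_const hu, av_const ν hR] at h2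
    have hiu : IntegrableOn u B ν := hu.continuousOn.integrableOn_compact hBc
    have hia : IntegrableOn (fun _ : M => a) B ν := continuousOn_const.integrableOn_compact hBc
    have hib : IntegrableOn (fun _ : M => b) B ν := continuousOn_const.integrableOn_compact hBc
    rw [integral_sub hiu hia] at h1
    rw [integral_sub hib hiu] at h2
    rw [setIntegral_const] at h1 h2
    simp only [smul_eq_mul] at h1 h2
    have h3 : (R - 2 * D) / W * (ν.real B * b - ν.real B * a) = η * (b - a) := by
      rw [hη]; ring
    have h4 : (R - 2 * D) / W * ((∫ y in B, u y ∂ν) - ν.real B * a) +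
        (R - 2 * D) / W * (ν.real B * b - ∫ y in B, u y ∂ν) = η * (b - a) := by
      rw [← h3]; ring
    linarith
  refine ⟨max 0 (1 - η), le_max_left _ _, ?_, ?_⟩
  · rw [max_lt_iff]
    exact ⟨one_pos, by linarith⟩
  · intro u hu a b ha hb x x' hx hx'
    have hab : 0 ≤ b - a := by
      have := (ha x0).trans (hb x0)
      linarith
    exact (main u hu a b ha hb x x' hx hx').trans
      (mul_le_mul_of_nonneg_right (le_max_right _ _) hab)

end Pool.Agent.E8helper46.FL
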