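import Pool.Agent.E8helper46.FL.Len
import Pool.Agent.E8helper46.FL.Iso
import Pool.Agent.E8helper46.FL.CN

/-!
# The homogeneous space of a closed group of matrices modulo its orthogonal matrices
-/

set_option autoImplicit false

namespace Pool.Agent.E8helper46.FL

open Set Filter Topology Matrix

open scoped Matrix.Norms.L2Operator

variable {n : ℕ}

/-- the group as a pseudometric space -/
structure PG (G : Subgroup (Mat n)ˣ) where
  /-- the element -/
  el : G

noncomputable instance pgMetric (G : Subgroup (Mat n)ˣ) : PseudoMetricSpace (PG G) where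
  dist x y := len ((x.el : (Mat n)ˣ)⁻¹ * (y.el : (Mat n)ˣ))
  dist_self x := by rw [inv_mul_cancel, len_one]
  dist_comm x y := by
    rw [← len_inv, _root_.mul_inv_rev, inv_inv]
  dist_triangle x y z := by
    have h : (x.el : (Mat n)ˣ)⁻¹ * (z.el : (Mat n)ˣ) =
        ((x.el : (Mat n)ˣ)⁻¹ * (y.el : (Mat n)ˣ)) *
          ((y.el : (Mat n)ˣ)⁻¹ * (z.el : (Mat n)ˣ)) := by group
    rw [h]
    exact len_mul _ _

/-- the quotient metric space -/
abbrev SG (G : Subgroup (Mat n)ˣ) : Type := SeparationQuotient (PG G)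

/-- the point of an element of the group -/
noncomputable def pt {G : Subgroup (Mat n)ˣ} (a : G) : SG G := SeparationQuotient.mk ⟨a⟩

variable {G : Subgroup (Mat n)ˣ}

theorem dist_pt (a b : G) : dist (pt a) (pt b) = len ((a : (Mat n)ˣ)⁻¹ * (b : (Mat n)ˣ)) := by
  unfold pt
  rw [SeparationQuotient.dist_mk]
  rfl

theorem pt_surj (x : SG G) : ∃ a : G, pt a = x := by
  obtain ⟨⟨a⟩, rfl⟩ := SeparationQuotient.surjective_mk x
  exact ⟨a, rfl⟩

theorem pt_eq_iff (a b : G) : pt a = pt b ↔ len ((a : (Mat n)ˣ)⁻¹ * (b : (Mat n)ˣ)) = 0 := by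
  rw [← dist_pt, dist_eq_zero]

/-- the isometry of a pair of inverse maps -/
noncomputable def mkIso (f f' : G → G)
    (hf : ∀ a b, len (((f a : G) : (Mat n)ˣ)⁻¹ * ((f b : G) : (Mat n)ˣ)) = len ((a : (Mat n)ˣ)⁻¹ * (b : (Mat n)ˣ)))
    (_h1 : ∀ a, f' (f a) = a) (h2 : ∀ a, f (f' a) = a) : SG G ≃ᵢ SG G :=
  IsometryEquiv.mk' (Function.invFun (pt (G := G)) |> fun r x => pt (f (r x)))
    (Function.invFun (pt (G := G)) |> fun r x => pt (f' (r x)))
    (by
      have hr : ∀ x : SG G, pt (Function.invFun (pt (G := G)) x) = x :=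
        fun x => Function.invFun_eq (pt_surj x)
      have hc : ∀ a b : G, pt a = pt b → pt (f a) = pt (f b) := by
        intro a b h
        rw [pt_eq_iff] at h ⊢
        rw [hf, h]
      intro x
      show pt (f (Function.invFun (pt (G := G)) (pt (f' (Function.invFun (pt (G := G)) x))))) = x
      rw [hc _ _ (hr _), h2, hr])
    (by
      refine Isometry.of_dist_eq fun x y => ?_
      show dist (pt (f (Function.invFun (pt (G := G)) x)))
        (pt (f (Function.invFun (pt (G := G)) y))) = _
      rw [dist_pt, hf, ← dist_pt, Function.invFun_eq (pt_surj x), Function.invFun_eq (pt_surj y)])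

theorem mkIso_pt (f f' : G → G)
    (hf : ∀ a b, len (((f a : G) : (Mat n)ˣ)⁻¹ * ((f b : G) : (Mat n)ˣ)) = len ((a : (Mat n)ˣ)⁻¹ * (b : (Mat n)ˣ)))
    (h1 : ∀ a, f' (f a) = a) (h2 : ∀ a, f (f' a) = a) (a : G) :
    mkIso f f' hf h1 h2 (pt a) = pt (f a) := by
  show pt (f (Function.invFun (pt (G := G)) (pt a))) = pt (f a)
  have hr := Function.invFun_eq (pt_surj (pt a))
  rw [pt_eq_iff] at hr ⊢
  rw [hf, hr]

theorem iso_ext {s t : SG G ≃ᵢ SG G} (h : ∀ a, s (pt a) = t (pt a)) : s = t := by
  ext x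
  obtain ⟨a, rfl⟩ := pt_surj x
  exact h a

/-- left translation as an isometry -/
noncomputable def ltG (g : G) : SG G ≃ᵢ SG G :=
  mkIso (fun a => g * a) (fun a => g⁻¹ * a) (by
    intro a b
    congr 1
    rw [Subgroup.coe_mul, Subgroup.coe_mul]
    group) (fun a => inv_mul_cancel_left g a) (fun a => mul_inv_cancel_left g a)

theorem ltG_pt (g a : G) : ltG g (pt a) = pt (g * a) := mkIso_pt (fun a => g * a)
  (fun a => g⁻¹ * a) _ _ _ a

/-- left translation -/
noncomputable def act : G →* (SG G ≃ᵢ SG G) where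
  toFun g := ltG g
  map_one' := by
    refine iso_ext fun a => ?_
    rw [ltG_pt, one_mul]
    rfl
  map_mul' g h := by
    refine iso_ext fun a => ?_
    rw [ltG_pt]
    show _ = ltG g (ltG h (pt a))
    rw [ltG_pt, ltG_pt, mul_assoc]

theorem act_pt (g a : G) : act g (pt a) = pt (g * a) := ltG_pt g a

theorem act_trans (x y : SG G) : ∃ g : G, act g x = y := by
  obtain ⟨a, rfl⟩ := pt_surj x
  obtain ⟨b, rfl⟩ := pt_surj y
  exact ⟨b * a⁻¹, by rw [act_pt, inv_mul_cancel_right]⟩

theorem pt_cont : Continuous (pt (G := G)) := by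
  rw [continuous_iff_continuousAt]
  intro a
  rw [ContinuousAt, tendsto_iff_dist_tendsto_zero]
  have h : Continuous fun b : G => len (((b : G) : (Mat n)ˣ)⁻¹ * (a : (Mat n)ˣ)) :=
    len_cont.comp (continuous_subtype_val.inv.mul continuous_const)
  have h1 := h.tendsto a
  rw [inv_mul_cancel, len_one] at h1
  exact h1.congr fun b => (dist_pt b a).symm

theorem act_cont (x : SG G) : Continuous fun g : G => act g x := by
  obtain ⟨a, rfl⟩ := pt_surj x
  have : (fun g : G => act g (pt a)) = fun g => pt (g * a) := by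
    ext g
    exact act_pt g a
  rw [this]
  exact pt_cont.comp (continuous_id.mul continuous_const)

theorem isCompact_lenG (hG : IsClosed (G : Set (Mat n)ˣ)) (r : ℝ) :
    IsCompact {g : G | len (g : (Mat n)ˣ) ≤ r} :=
  (hG.isClosedEmbedding_subtypeVal).isCompact_preimage (isCompact_len r)

theorem sg_proper (hG : IsClosed (G : Set (Mat n)ˣ)) : ProperSpace (SG G) where
  isCompact_closedBall x r := by
    obtain ⟨a, rfl⟩ := pt_surj x
    have h := ((isCompact_lenG hG r).image (continuous_const_mul a)).image pt_cont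
    have e : Metric.closedBall (pt a) r =
        pt '' ((fun x => a * x) '' {g : G | len (g : (Mat n)ˣ) ≤ r}) := by
      ext y
      constructor
      · intro hy
        obtain ⟨b, rfl⟩ := pt_surj y
        rw [Metric.mem_closedBall, dist_comm, dist_pt] at hy
        refine ⟨b, ⟨a⁻¹ * b, ?_, mul_inv_cancel_left _ _⟩, rfl⟩
        exact hy
      · rintro ⟨_, ⟨b, hb, rfl⟩, rfl⟩
        rw [Metric.mem_closedBall, dist_comm, dist_pt, Subgroup.coe_mul, inv_mul_cancel_left]
        exact hb
    rw [e]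
    exact h

theorem pt_quot (hG : IsClosed (G : Set (Mat n)ˣ)) : IsQuotientMap (pt (G := G)) := by
  have hp := sg_proper hG
  have h : IsProperMap (pt (G := G)) := by
    rw [isProperMap_iff_isCompact_preimage]
    refine ⟨pt_cont, fun K hK => ?_⟩
    obtain ⟨r, hr⟩ := hK.isBounded.subset_closedBall (pt (1 : G))
    refine (isCompact_lenG hG r).of_isClosed_subset (hK.isClosed.preimage pt_cont) ?_
    intro g hg
    have h1 := hr hg
    rw [Metric.mem_closedBall, dist_comm, dist_pt, Subgroup.coe_one, inv_one, one_mul] at h1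
    exact h1
  exact h.isClosedMap.isQuotientMap pt_cont fun x => pt_surj x

/-- a continuous right invariant function descends -/
theorem exists_descend (hG : IsClosed (G : Set (Mat n)ˣ)) (f : (Mat n)ˣ → ℝ) (hf : Continuous f)
    (hk : ∀ g k : (Mat n)ˣ, (k : Mat n)ᵀ * k = 1 → f (g * k) = f g) :
    ∃ F : SG G → ℝ, Continuous F ∧ ∀ a : G, F (pt a) = f a := by
  obtain ⟨F, hF⟩ : ∃ F : SG G → ℝ, ∀ a : G, F (pt a) = f a := by
    refine ⟨fun x => f ((Function.invFun (pt (G := G)) x : G) : (Mat n)ˣ), fun a => ?_⟩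
    have hr := Function.invFun_eq (pt_surj (pt a))
    rw [pt_eq_iff] at hr
    have h1 := hk ((Function.invFun (pt (G := G)) (pt a) : G) : (Mat n)ˣ) _ (orth_of_len hr)
    rw [mul_inv_cancel_left] at h1
    exact h1.symm
  refine ⟨F, ?_, hF⟩
  rw [(pt_quot hG).continuous_iff]
  have : F ∘ pt = fun a : G => f a := by
    ext a
    exact hF a
  rw [this]
  exact hf.comp continuous_subtype_val

end Pool.Agent.E8helper46.FL
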