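import Pool.Agent.E8helper46.FL.MetG

/-!
# The symmetric space of a group of noncompact type
-/

set_option autoImplicit false

namespace Pool.Agent.E8helper46.FL

open Set Filter Topology Matrix

open scoped Matrix.Norms.L2Operator

variable {n : ℕ}

theorem tu_ex (X : Mat n) : tu (ex X) = ex Xᵀ := by
  ext1
  rw [tu_val, ex_val, ex_val]
  exact (Matrix.exp_transpose X).symm

theorem ex_sym {X : Mat n} (hX : Xᵀ = X) : ((ex X : (Mat n)ˣ) : Mat n)ᵀ = (ex X : (Mat n)ˣ) := by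
  have h := tu_ex X
  rw [hX] at h
  exact congrArg Units.val h

variable {G : Subgroup (Mat n)ˣ}

theorem mem_symPart {X : Mat n} : X ∈ SymPart G ↔ Xᵀ = X ∧ ∀ t : ℝ, ex (t • X) ∈ G := by
  constructor
  · rintro ⟨h1, h2⟩
    refine ⟨h1, fun t => ?_⟩
    obtain ⟨g, hg, h3⟩ := h2 t
    have : ex (t • X) = g := by
      ext1
      exact h3.symm
    rw [this]
    exact hg
  · rintro ⟨h1, h2⟩
    exact ⟨h1, fun t => ⟨ex (t • X), h2 t, rfl⟩⟩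

theorem mem_symPart' (hG : IsClosed (G : Set (Mat n)ˣ)) {X : Mat n} :
    X ∈ SymPart G ↔ Xᵀ = X ∧ X ∈ lieAlg G hG := mem_symPart

theorem symPart_smul {X : Mat n} (hX : X ∈ SymPart G) (s : ℝ) : s • X ∈ SymPart G := by
  rw [mem_symPart] at hX ⊢
  refine ⟨by rw [Matrix.transpose_smul, hX.1], fun t => ?_⟩
  rw [smul_smul]
  exact hX.2 _

theorem ex_symPart {X : Mat n} (hX : X ∈ SymPart G) : ex X ∈ G := by
  have := (mem_symPart.1 hX).2 1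
  rwa [one_smul] at this

variable (hG : IsNoncompactType G)

include hG in
theorem tu_mem {g : (Mat n)ˣ} (hg : g ∈ G) : tu g ∈ G := by
  obtain ⟨h, hh, h1⟩ := hG.transpose g hg
  have : tu g = h := by
    ext1
    exact h1.symm
  rw [this]
  exact hh

theorem orth_of_right {k : (Mat n)ˣ} (h : k * tu k = 1) : (k : Mat n)ᵀ * k = 1 := by
  rw [orth_iff]
  exact mul_eq_one_comm.1 h

include hG in
/-- `g = k exp X` -/
theorem polar_right {g : (Mat n)ˣ} (hg : g ∈ G) :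
    ∃ X ∈ SymPart G, ∃ k ∈ G, (k : Mat n)ᵀ * k = 1 ∧ g = k * ex X := by
  obtain ⟨X, hX, h⟩ := hG.polar g hg
  have h1 : tu g * g = ex X := by
    ext1
    exact h
  have hX2 := symPart_smul hX (1 / 2)
  have hs : tu (ex ((1 / 2 : ℝ) • X)) = ex ((1 / 2 : ℝ) • X) := by
    rw [tu_ex, (mem_symPart.1 hX2).1]
  have h2 : ex X = ex ((1 / 2 : ℝ) • X) * ex ((1 / 2 : ℝ) • X) := by
    rw [← ex_add_smul]
    norm_num
  refine ⟨(1 / 2 : ℝ) • X, hX2, g * (ex ((1 / 2 : ℝ) • X))⁻¹,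
    G.mul_mem hg (G.inv_mem (ex_symPart hX2)), ?_, by rw [inv_mul_cancel_right]⟩
  rw [orth_iff, tu_mul, tu_inv, hs]
  have h3 : (ex ((1 / 2 : ℝ) • X))⁻¹ * tu g * (g * (ex ((1 / 2 : ℝ) • X))⁻¹) =
      (ex ((1 / 2 : ℝ) • X))⁻¹ * (tu g * g) * (ex ((1 / 2 : ℝ) • X))⁻¹ := by
    simp only [mul_assoc]
  rw [h3, h1, h2]
  group

include hG in
/-- `g = exp X k` -/
theorem polar_left {g : (Mat n)ˣ} (hg : g ∈ G) :
    ∃ X ∈ SymPart G, ∃ k ∈ G, (k : Mat n)ᵀ * k = 1 ∧ g = ex X * k := by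
  obtain ⟨X, hX, k, hk, hk2, h⟩ := polar_right hG (tu_mem hG hg)
  refine ⟨X, hX, tu k, tu_mem hG hk, ?_, ?_⟩
  · rw [orth_iff, tu_tu]
    rw [orth_iff] at hk2
    exact mul_eq_one_comm.1 hk2
  · have := congrArg tu h
    rw [tu_tu, tu_mul, tu_ex, (mem_symPart.1 hX).1] at this
    exact this

/-- the point `a exp X` -/
theorem pt_orth (a k : G) (hk : ((k : (Mat n)ˣ) : Mat n)ᵀ * ((k : (Mat n)ˣ) : Mat n) = 1) :
    pt (a * k) = pt a := by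
  rw [pt_eq_iff, ← len_inv, Subgroup.coe_mul, _root_.mul_inv_rev, inv_inv, inv_mul_cancel_left]
  exact len_orth hk

include hG in
theorem exists_pt (a : G) (y : SG G) :
    ∃ X, ∃ hX : X ∈ SymPart G, y = pt (a * ⟨ex X, ex_symPart hX⟩) := by
  obtain ⟨b, rfl⟩ := pt_surj y
  obtain ⟨X, hX, k, hk, hk2, h⟩ := polar_left hG (a⁻¹ * b).2
  refine ⟨X, hX, ?_⟩
  have : b = a * ⟨ex X, ex_symPart hX⟩ * ⟨k, hk⟩ := by
    rw [mul_assoc, ← inv_mul_eq_iff_eq_mul]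
    apply Subtype.ext
    exact h
  rw [this]
  exact pt_orth _ _ hk2

theorem len_half {X : Mat n} (hX : Xᵀ = X) : len (ex ((1 / 2 : ℝ) • X)) = len (ex X) / 2 := by
  have h2 : ex X = ex ((1 / 2 : ℝ) • X) * ex ((1 / 2 : ℝ) • X) := by
    rw [← ex_add_smul]
    norm_num
  rw [h2, len_sq]
  · ring
  · exact ex_sym (by rw [Matrix.transpose_smul, hX])

include hG in
theorem sg_mid (x y : SG G) : ∃ m, IsMid m x y := by
  obtain ⟨a, rfl⟩ := pt_surj x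
  obtain ⟨X, hX, rfl⟩ := exists_pt hG a y
  have hX' := (mem_symPart.1 hX).1
  have hX2 := symPart_smul hX (1 / 2)
  have h2 : ex X = ex ((1 / 2 : ℝ) • X) * ex ((1 / 2 : ℝ) • X) := by
    rw [← ex_add_smul]
    norm_num
  refine ⟨pt (a * ⟨ex ((1 / 2 : ℝ) • X), ex_symPart hX2⟩), ?_, ?_⟩
  · rw [dist_pt, dist_pt, Subgroup.coe_mul, Subgroup.coe_mul, inv_mul_cancel_left,
      inv_mul_cancel_left]
    exact len_half hX'
  · rw [dist_pt, dist_pt, Subgroup.coe_mul, Subgroup.coe_mul, inv_mul_cancel_left,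
      ← len_half hX', ← len_inv]
    congr 1
    show (((a : (Mat n)ˣ) * ex X)⁻¹ * ((a : (Mat n)ˣ) * ex ((1 / 2 : ℝ) • X)))⁻¹ =
      ex ((1 / 2 : ℝ) • X)
    rw [h2]
    group

include hG in
/-- the reflection in a point -/
theorem sg_reflect (a : G) : ∃ s : SG G ≃ᵢ SG G, s (pt a) = pt a ∧
    ∀ X, ∀ hX : X ∈ SymPart G, s (pt (a * ⟨ex X, ex_symPart hX⟩)) =
      pt (a * ⟨ex X, ex_symPart hX⟩⁻¹) := by
  have hmem : ∀ b : G, (a : (Mat n)ˣ) * (tu ((a : (Mat n)ˣ)⁻¹ * (b : (Mat n)ˣ)))⁻¹ ∈ G := fun b =>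
    G.mul_mem a.2 (G.inv_mem (tu_mem hG (G.mul_mem (G.inv_mem a.2) b.2)))
  obtain ⟨f, hf⟩ : ∃ f : G → G, ∀ b : G, ((f b : G) : (Mat n)ˣ) =
      (a : (Mat n)ˣ) * (tu ((a : (Mat n)ˣ)⁻¹ * (b : (Mat n)ˣ)))⁻¹ := ⟨fun b => ⟨_, hmem b⟩, fun b => rfl⟩
  have hinv : ∀ b, f (f b) = b := by
    intro b
    apply Subtype.ext
    rw [hf, hf, inv_mul_cancel_left, ← tu_inv, inv_inv, tu_tu, mul_inv_cancel_left]
  have hiso : ∀ b c : G, len (((f b : G) : (Mat n)ˣ)⁻¹ * ((f c : G) : (Mat n)ˣ)) =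
      len ((b : (Mat n)ˣ)⁻¹ * (c : (Mat n)ˣ)) := by
    intro b c
    rw [hf, hf]
    have h1 : ((a : (Mat n)ˣ) * (tu ((a : (Mat n)ˣ)⁻¹ * (b : (Mat n)ˣ)))⁻¹)⁻¹ *
        ((a : (Mat n)ˣ) * (tu ((a : (Mat n)ˣ)⁻¹ * (c : (Mat n)ˣ)))⁻¹) =
        tu ((a : (Mat n)ˣ)⁻¹ * (b : (Mat n)ˣ)) * (tu ((a : (Mat n)ˣ)⁻¹ * (c : (Mat n)ˣ)))⁻¹ := by group
    rw [h1, ← tu_inv, ← tu_mul, len_tu, ← len_inv]
    congr 1
    group
  refine ⟨mkIso f f hiso hinv hinv, ?_, ?_⟩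
  · rw [mkIso_pt]
    congr 1
    apply Subtype.ext
    rw [hf, inv_mul_cancel, tu_one, inv_one, mul_one]
  · intro X hX
    rw [mkIso_pt]
    congr 1
    apply Subtype.ext
    rw [hf, Subgroup.coe_mul, inv_mul_cancel_left, tu_ex, (mem_symPart.1 hX).1]
    rfl

end Pool.Agent.E8helper46.FL
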