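import Pool.Agent.E8helper46.FL.Gram

/-!
# The volume of a conjugated subspace of matrices
-/

set_option autoImplicit false

namespace Pool.Agent.E8helper46.FL

open Matrix

variable {n m : ℕ}

/-- vectorization -/
def vm (Z : Fin m → Mat n) : Matrix (Fin n × Fin n) (Fin m) ℝ :=
  Matrix.of fun ij a => Z a ij.1 ij.2

theorem vm_apply (Z : Fin m → Mat n) (ij : Fin n × Fin n) (a : Fin m) :
    vm Z ij a = Z a ij.1 ij.2 := rfl

theorem vm_gram (Z W : Fin m → Mat n) (a b : Fin m) :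
    ((vm Z)ᵀ * vm W) a b = ((Z a)ᵀ * W b).trace := by
  rw [Matrix.mul_apply, Matrix.trace, Fintype.sum_prod_type, Finset.sum_comm]
  refine Finset.sum_congr rfl fun i _ => ?_
  rw [Matrix.diag_apply, Matrix.mul_apply]
  rfl

theorem vm_mul (Z : Fin m → Mat n) (R : Matrix (Fin m) (Fin m) ℝ) :
    vm Z * R = vm fun b => ∑ a, R a b • Z a := by
  ext ij b
  rw [Matrix.mul_apply, vm_apply, Matrix.sum_apply]
  refine Finset.sum_congr rfl fun a _ => ?_
  rw [Matrix.smul_apply, vm_apply, smul_eq_mul, mul_comm]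

theorem vm_injective : Function.Injective (vm : (Fin m → Mat n) → _) := by
  intro Z W h
  ext a i j
  exact congrFun (congrFun h (i, j)) a

/-- conjugation -/
def cj (g : (Mat n)ˣ) (Y : Fin m → Mat n) : Fin m → Mat n :=
  fun a => (↑g⁻¹ : Mat n) * Y a * g

/-- the Gram determinant of the conjugated vectors -/
noncomputable def phi (Y : Fin m → Mat n) (g : (Mat n)ˣ) : ℝ :=
  ((vm (cj g Y))ᵀ * vm (cj g Y)).det

theorem cj_mul (g h : (Mat n)ˣ) (Y : Fin m → Mat n) : cj (g * h) Y = cj h (cj g Y) := by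
  ext1 a
  unfold cj
  rw [_root_.mul_inv_rev, Units.val_mul, Units.val_mul]
  simp only [mul_assoc]

theorem inv_of_orth {k : (Mat n)ˣ} (hk : (k : Mat n)ᵀ * k = 1) : (↑k⁻¹ : Mat n) = (k : Mat n)ᵀ := by
  calc (↑k⁻¹ : Mat n) = (k : Mat n)ᵀ * k * ↑k⁻¹ := by rw [hk, one_mul]
    _ = (k : Mat n)ᵀ := by rw [mul_assoc, Units.mul_inv, mul_one]

theorem orth_comm {k : (Mat n)ˣ} (hk : (k : Mat n)ᵀ * k = 1) : (k : Mat n) * (k : Mat n)ᵀ = 1 := by
  rw [← inv_of_orth hk, Units.mul_inv]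

theorem phi_orth (Y : Fin m → Mat n) (g k : (Mat n)ˣ) (hk : (k : Mat n)ᵀ * k = 1) :
    phi Y (g * k) = phi Y g := by
  unfold phi
  congr 1
  ext a b
  rw [vm_gram, vm_gram, cj_mul]
  unfold cj
  rw [inv_of_orth hk, Matrix.transpose_mul, Matrix.transpose_mul, Matrix.transpose_transpose]
  have h1 : (k : Mat n)ᵀ * (((↑g⁻¹ : Mat n) * Y a * (g : Mat n))ᵀ * (k : Mat n)) *
      ((k : Mat n)ᵀ * ((↑g⁻¹ : Mat n) * Y b * (g : Mat n)) * (k : Mat n)) =
      (k : Mat n)ᵀ * ((((↑g⁻¹ : Mat n) * Y a * (g : Mat n))ᵀ * ((k : Mat n) * (k : Mat n)ᵀ)) *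
        ((↑g⁻¹ : Mat n) * Y b * (g : Mat n)) * (k : Mat n)) := by
    simp only [mul_assoc]
  rw [h1, orth_comm hk, mul_one, Matrix.trace_mul_comm, mul_assoc, orth_comm hk, mul_one]

theorem phi_left (Y : Fin m → Mat n) (u g : (Mat n)ˣ) (R : Matrix (Fin m) (Fin m) ℝ)
    (hR : ∀ b, (↑u⁻¹ : Mat n) * Y b * u = ∑ a, R a b • Y a) :
    phi Y (u * g) = R.det ^ 2 * phi Y g := by
  have h1 : vm (cj (u * g) Y) = vm (cj g Y) * R := by
    rw [vm_mul]
    congr 1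
    ext1 b
    rw [cj_mul]
    unfold cj
    rw [hR, Finset.mul_sum, Finset.sum_mul]
    refine Finset.sum_congr rfl fun a _ => ?_
    rw [mul_smul_comm, smul_mul_assoc]
  unfold phi
  rw [h1, Matrix.transpose_mul]
  have h2 : Rᵀ * (vm (cj g Y))ᵀ * (vm (cj g Y) * R) =
      Rᵀ * ((vm (cj g Y))ᵀ * vm (cj g Y)) * R := by simp only [Matrix.mul_assoc]
  rw [h2, Matrix.det_mul, Matrix.det_mul, Matrix.det_transpose]
  ring

theorem phi_pos (Y : Fin m → Mat n) (hY : LinearIndependent ℝ Y) (g : (Mat n)ˣ) : 0 < phi Y g := by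
  have hinj : Function.Injective (vm (cj g Y)).mulVec := by
    rw [← Matrix.coe_mulVecLin, injective_iff_map_eq_zero]
    intro v hv
    have h1 : ∑ a, v a • cj g Y a = 0 := by
      ext i j
      have h2 := congrFun hv (i, j)
      rw [Matrix.mulVecLin_apply, Matrix.mulVec, dotProduct] at h2
      rw [Matrix.sum_apply, Matrix.zero_apply]
      refine Eq.trans ?_ h2
      refine Finset.sum_congr rfl fun a _ => ?_
      rw [Matrix.smul_apply, vm_apply, smul_eq_mul, mul_comm]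
    have h2 : (↑g⁻¹ : Mat n) * (∑ a, v a • Y a) * g = 0 := by
      rw [← h1, Finset.mul_sum, Finset.sum_mul]
      refine Finset.sum_congr rfl fun a _ => ?_
      unfold cj
      rw [mul_smul_comm, smul_mul_assoc]
    have h3 : ∑ a, v a • Y a = 0 := by
      have h4 : (g : Mat n) * ((↑g⁻¹ : Mat n) * (∑ a, v a • Y a) * g) * ↑g⁻¹ = 0 := by
        rw [h2, mul_zero, zero_mul]
      have h5 : (g : Mat n) * ((↑g⁻¹ : Mat n) * (∑ a, v a • Y a) * g) * ↑g⁻¹ =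
          ((g : Mat n) * ↑g⁻¹) * (∑ a, v a • Y a) * ((g : Mat n) * ↑g⁻¹) := by
        simp only [mul_assoc]
      rw [h5, Units.mul_inv, one_mul, mul_one] at h4
      exact h4
    ext a
    exact (Fintype.linearIndependent_iff.1 hY) v h3 a
  have h := Matrix.PosDef.conjTranspose_mul_self (vm (cj g Y)) hinj
  rw [Matrix.conjTranspose_eq_transpose_of_trivial] at h
  exact h.det_pos

theorem phi_convex (Y : Fin m → Mat n) (hY : LinearIndependent ℝ Y) (g p : (Mat n)ˣ)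
    (hp : (p : Mat n)ᵀ = p) :
    phi Y g ^ 2 ≤ phi Y (g * p) * phi Y (g * p⁻¹) ∧
      (phi Y g ^ 2 = phi Y (g * p) * phi Y (g * p⁻¹) →
        ∃ R : Matrix (Fin m) (Fin m) ℝ, ∀ b, cj (g * p⁻¹) Y b = ∑ a, R a b • cj (g * p) Y a) := by
  have hpi : (↑p⁻¹ : Mat n)ᵀ = ↑p⁻¹ := by
    have h1 : (↑p⁻¹ : Mat n)ᵀ * (p : Mat n) = 1 := by
      calc (↑p⁻¹ : Mat n)ᵀ * (p : Mat n) = (↑p⁻¹ : Mat n)ᵀ * (p : Mat n)ᵀ := by rw [hp]
        _ = 1 := by rw [← Matrix.transpose_mul, Units.mul_inv, Matrix.transpose_one]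
    calc (↑p⁻¹ : Mat n)ᵀ = (↑p⁻¹ : Mat n)ᵀ * (p * ↑p⁻¹) := by rw [Units.mul_inv, mul_one]
      _ = ↑p⁻¹ := by rw [← mul_assoc, h1, one_mul]
  have hG : (vm (cj (g * p) Y))ᵀ * vm (cj (g * p⁻¹) Y) = (vm (cj g Y))ᵀ * vm (cj g Y) := by
    ext a b
    rw [vm_gram, vm_gram, cj_mul, cj_mul]
    have h1 : cj p (cj g Y) a = (↑p⁻¹ : Mat n) * cj g Y a * p := rfl
    have h2 : cj p⁻¹ (cj g Y) b = (p : Mat n) * cj g Y b * ↑p⁻¹ := by
      unfold cj
      rw [inv_inv]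
    rw [h1, h2, Matrix.transpose_mul, Matrix.transpose_mul, hp, hpi]
    have h3 : (p : Mat n) * ((cj g Y a)ᵀ * (↑p⁻¹ : Mat n)) * ((p : Mat n) * cj g Y b * ↑p⁻¹) =
        (p : Mat n) * ((cj g Y a)ᵀ * ((↑p⁻¹ : Mat n) * p) * cj g Y b * ↑p⁻¹) := by
      simp only [mul_assoc]
    rw [h3, Units.inv_mul, mul_one, Matrix.trace_mul_comm, mul_assoc, Units.inv_mul, mul_one]
  have hpos := phi_pos Y hY g
  have hne : ((vm (cj (g * p) Y))ᵀ * vm (cj (g * p⁻¹) Y)).det ≠ 0 := by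
    rw [hG]
    exact hpos.ne'
  obtain ⟨h1, h2⟩ := gram_ineq (vm (cj (g * p) Y)) (vm (cj (g * p⁻¹) Y)) hne
  rw [hG] at h1 h2
  refine ⟨h1, fun h => ?_⟩
  obtain ⟨R, hR⟩ := h2 h
  refine ⟨R, fun b => ?_⟩
  rw [vm_mul] at hR
  exact congrFun (vm_injective hR) b

theorem phi_cont (Y : Fin m → Mat n) : Continuous (phi Y) := by
  unfold phi
  refine Continuous.matrix_det ?_
  have h : Continuous fun g : (Mat n)ˣ => vm (cj g Y) := by
    refine continuous_matrix fun ij a => ?_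
    have h1 : Continuous fun g : (Mat n)ˣ => (↑g⁻¹ : Mat n) * Y a * g :=
      ((Units.continuous_coe_inv.matrix_mul continuous_const).matrix_mul Units.continuous_val)
    exact h1.matrix_elem ij.1 ij.2
  exact h.matrix_transpose.matrix_mul h

end Pool.Agent.E8helper46.FL
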