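import Pool.Agent.E8helper46.FL.Iso

/-!
# Right-angled Artin groups and the vertex set of the universal cover of the Salvetti complex
-/

set_option autoImplicit false

namespace Pool.Agent.E8helper46.FL

open Set

universe u

variable {V : Type u} (L : SimpleGraph V)

theorem cayley_smul {g h : Raag L} (k : Raag L) (hgh : (cayley L).Adj g h) :
    (cayley L).Adj (k * g) (k * h) := by
  obtain ⟨hne, v, hv⟩ := hgh
  refine ⟨fun h => hne (mul_left_cancel h), v, ?_⟩
  rcases hv with rfl | rfl
  · exact Or.inl (mul_assoc _ _ _).symm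
  · exact Or.inr (mul_assoc _ _ _).symm

theorem finite_nbrs [Finite V] (g : Raag L) : {h | (cayley L).Adj g h}.Finite := by
  refine ((Set.finite_range fun v : V => g * gen L v).union
    (Set.finite_range fun v : V => g * (gen L v)⁻¹)).subset ?_
  rintro h ⟨-, v, hv | hv⟩
  · exact Or.inl ⟨v, hv.symm⟩
  · refine Or.inr ⟨v, ?_⟩
    show g * (gen L v)⁻¹ = h
    rw [hv, mul_inv_cancel_right]

theorem finite_ball [Finite V] (n : ℕ) : ∀ g : Raag L,
    {h | ∃ p : (cayley L).Walk g h, p.length ≤ n}.Finite := by
  induction n with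
  | zero =>
    intro g
    refine (Set.finite_singleton g).subset ?_
    rintro h ⟨p, hp⟩
    cases p with
    | nil => rfl
    | cons h q => simp at hp
  | succ n ih =>
    intro g
    refine ((Set.finite_singleton g).union
      ((finite_nbrs L g).biUnion fun x _ => ih x)).subset ?_
    rintro h ⟨p, hp⟩
    cases p with
    | nil => exact Or.inl rfl
    | @cons _ x _ hx q =>
      refine Or.inr (Set.mem_biUnion (show x ∈ {h | (cayley L).Adj g h} from hx) ⟨q, ?_⟩)
      simpa using hp

theorem vert_dist (x y : Vert L) : dist x y = ((cayley L).dist x.el y.el : ℝ) := rfl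

theorem walk_of_dist (x y : Vert L) (D : ℝ) (h : dist x y ≤ D) :
    ∃ p : (cayley L).Walk x.el y.el, (p.length : ℝ) ≤ D := by
  obtain ⟨p, hp⟩ := (cayley_connected L).exists_walk_length_eq_dist x.el y.el
  refine ⟨p, ?_⟩
  rw [hp]
  exact h

theorem dist_le_walk (x y : Vert L) (p : (cayley L).Walk x.el y.el) : dist x y ≤ p.length := by
  rw [vert_dist]
  exact_mod_cast SimpleGraph.dist_le p

theorem vert_ball [Finite V] (y : Vert L) (r : ℝ) : {z : Vert L | dist z y ≤ r}.Finite := by
  obtain ⟨n, hn⟩ := exists_nat_ge r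
  have hinj : Function.Injective (Vert.el (L := L)) := fun a b h => Vert.ext' L h
  refine Set.Finite.of_finite_image ((finite_ball L n y.el).subset ?_) hinj.injOn
  rintro _ ⟨z, hz, rfl⟩
  obtain ⟨p, hp⟩ := walk_of_dist L y z n (by rw [dist_comm]; exact le_trans hz hn)
  exact ⟨p, by exact_mod_cast hp⟩

instance vertProper [Finite V] : ProperSpace (Vert L) where
  isCompact_closedBall y r := (vert_ball L y r).isCompact

/-- left translation -/
noncomputable def ltr (k : Raag L) : Vert L ≃ᵢ Vert L where
  toFun x := ⟨k * x.el⟩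
  invFun x := ⟨k⁻¹ * x.el⟩
  left_inv x := by
    apply Vert.ext'
    exact inv_mul_cancel_left _ _
  right_inv x := by
    apply Vert.ext'
    exact mul_inv_cancel_left _ _
  isometry_toFun := by
    have key : ∀ (k : Raag L) (x y : Vert L),
        dist (⟨k * x.el⟩ : Vert L) ⟨k * y.el⟩ ≤ dist x y := by
      intro k x y
      obtain ⟨p, hp⟩ := walk_of_dist L x y _ le_rfl
      let f : cayley L →g cayley L := ⟨fun g => k * g, fun h => cayley_smul L k h⟩
      have h1 := dist_le_walk L (⟨k * x.el⟩ : Vert L) ⟨k * y.el⟩ (p.map f)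
      rw [SimpleGraph.Walk.length_map] at h1
      exact h1.trans hp
    refine Isometry.of_dist_eq fun x y => le_antisymm (key k x y) ?_
    have h1 := key k⁻¹ ⟨k * x.el⟩ ⟨k * y.el⟩
    simp only [inv_mul_cancel_left] at h1
    exact h1

theorem vert_trans (x y : Vert L) : ∃ g : Vert L ≃ᵢ Vert L, g x = y := by
  refine ⟨ltr L (y.el * x.el⁻¹), ?_⟩
  apply Vert.ext'
  show y.el * x.el⁻¹ * x.el = y.el
  rw [inv_mul_cancel_right]

/-! ### the length homomorphism -/

/-- the homomorphism to the integers which is one on all generators -/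
def chi : Raag L →* Multiplicative ℤ :=
  PresentedGroup.toGroup (f := fun _ => Multiplicative.ofAdd 1) (by
    rintro _ ⟨a, b, -, rfl⟩
    simp)

theorem chi_gen (v : V) : chi L (gen L v) = Multiplicative.ofAdd 1 :=
  PresentedGroup.toGroup.of _

theorem gen_ne_one (v : V) : gen L v ≠ 1 := by
  intro h
  have h1 := chi_gen L v
  rw [h, map_one] at h1
  have h2 : (Multiplicative.ofAdd (1 : ℤ)).toAdd = (1 : Multiplicative ℤ).toAdd := by rw [← h1]
  simp at h2

theorem chi_walk {x y : Raag L} (p : (cayley L).Walk x y) :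
    |(chi L x).toAdd - (chi L y).toAdd| ≤ p.length := by
  induction p with
  | nil => simp
  | @cons a b c h q ih =>
    have h1 : |(chi L a).toAdd - (chi L b).toAdd| ≤ 1 := by
      obtain ⟨-, v, rfl | rfl⟩ := h
      · rw [map_mul, chi_gen, toAdd_mul, toAdd_ofAdd]
        rw [abs_le]; constructor <;> linarith
      · rw [map_mul, chi_gen, toAdd_mul, toAdd_ofAdd]
        rw [abs_le]; constructor <;> linarith
    rw [SimpleGraph.Walk.length_cons]
    have h2 := abs_sub_le (chi L a).toAdd (chi L b).toAdd (chi L c).toAdd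
    push_cast
    linarith

theorem chi_dist (x y : Vert L) : |((chi L x.el).toAdd : ℝ) - (chi L y.el).toAdd| ≤ dist x y := by
  obtain ⟨p, hp⟩ := walk_of_dist L x y _ le_rfl
  refine le_trans ?_ hp
  exact_mod_cast chi_walk L p

end Pool.Agent.E8helper46.FL
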