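import Pool.Agent.E8helper46.FL.Harm

/-!
# Functions with a convexity inequality and a quasi-invariance
-/

set_option autoImplicit false
set_option linter.unusedSectionVars false

namespace Pool.Agent.E8helper46.FL

open Set Filter Topology MeasureTheory

section part

variable {M : Type*} [MetricSpace M] {Λ : Type*} [Group Λ] (p : Λ →* (M ≃ᵢ M)) (x0 : M)

theorem p_mul_apply (a b : Λ) (x : M) : p (a * b) x = p a (p b x) := by rw [map_mul]; rfl

theorem p_inv_apply (a : Λ) (x : M) : p a⁻¹ (p a x) = x := by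
  rw [← p_mul_apply, inv_mul_cancel, map_one]; rfl

theorem p_apply_inv (a : Λ) (x : M) : p a (p a⁻¹ x) = x := by
  rw [← p_mul_apply, mul_inv_cancel, map_one]; rfl

theorem dist_inv (a : Λ) : dist (p a⁻¹ x0) x0 = dist (p a x0) x0 := by
  rw [← (p a).isometry.dist_eq, p_apply_inv, dist_comm]

/-- a partition of unity -/
theorem exists_partition (A1 : ∀ r : ℝ, {l : Λ | dist (p l x0) x0 ≤ r}.Finite) {D : ℝ}
    (A2 : ∀ x, ∃ l, dist (p l x0) x ≤ D) :
    ∃ w : M → ℝ, Continuous w ∧ (∀ x, 0 ≤ w x) ∧ 0 < w x0 ∧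
      (∀ x, D + 1 ≤ dist x x0 → w x = 0) ∧ ∀ x, ∑ᶠ l : Λ, w (p l x) = 1 := by
  have hD : 0 ≤ D := by
    obtain ⟨l, hl⟩ := A2 x0
    exact dist_nonneg.trans hl
  obtain ⟨ψ, hψ⟩ : ∃ ψ : Λ → M → ℝ, ψ = fun (l : Λ) x => ker (D + 1) (p l x) x0 := ⟨_, rfl⟩
  have hψc : ∀ l, Continuous (ψ l) := by
    intro l
    rw [hψ]
    exact (ker_cont (D + 1)).comp ((p l).continuous.prodMk continuous_const)
  have hψ0 : ∀ l x, 0 ≤ ψ l x := by
    intro l x
    rw [hψ]
    exact ker_nonneg _ _ _
  have hsupp : ∀ l x, ψ l x ≠ 0 → dist (p l x) x0 ≤ D + 1 := by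
    intro l x h
    by_contra hlt
    push Not at hlt
    apply h
    rw [hψ]
    exact ker_eq_zero hlt.le
  have hlf : LocallyFinite fun l : Λ => Function.support (ψ l) := by
    intro x1
    refine ⟨Metric.ball x1 1, Metric.ball_mem_nhds x1 one_pos, ?_⟩
    refine (A1 (dist x1 x0 + 1 + (D + 1))).subset ?_
    rintro l ⟨y, hy1, hy2⟩
    rw [Metric.mem_ball] at hy2
    have h1 := hsupp l y hy1
    have h2 := dist_triangle (p l x0) (p l y) x0
    have h3 := dist_triangle x0 x1 y
    rw [(p l).isometry.dist_eq] at h2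
    rw [dist_comm x0 x1, dist_comm x1 y] at h3
    show dist (p l x0) x0 ≤ dist x1 x0 + 1 + (D + 1)
    linarith
  have hfs : ∀ x, (fun l : Λ => ψ l x).HasFiniteSupport := by
    intro x
    exact hlf.point_finite x
  obtain ⟨S, hS⟩ : ∃ S : M → ℝ, S = fun x => ∑ᶠ l : Λ, ψ l x := ⟨_, rfl⟩
  have hSc : Continuous S := by
    rw [hS]
    exact continuous_finsum hψc hlf
  have hSpos : ∀ x, 0 < S x := by
    intro x
    obtain ⟨l, hl⟩ := A2 x
    have h1 : ψ l⁻¹ x ≤ S x := by
      rw [hS]
      exact single_le_finsum l⁻¹ (hfs x) fun l => hψ0 l x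
    refine lt_of_lt_of_le ?_ h1
    rw [hψ]
    apply ker_pos
    rw [← (p l).isometry.dist_eq, p_apply_inv, dist_comm]
    linarith
  have hSm : ∀ (m : Λ) (x : M), S (p m x) = S x := by
    intro m x
    rw [hS]
    show ∑ᶠ l : Λ, ψ l (p m x) = ∑ᶠ l : Λ, ψ l x
    have h1 : ∀ l, ψ l (p m x) = ψ (l * m) x := by
      intro l
      rw [hψ]
      simp only
      rw [p_mul_apply]
    simp_rw [h1]
    exact finsum_comp_equiv (Equiv.mulRight m) (f := fun l => ψ l x)
  refine ⟨fun x => ker (D + 1) x x0 / S x, ?_, fun x => div_nonneg (ker_nonneg _ _ _) (hSpos x).le,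
    div_pos (ker_pos (by rw [dist_self]; linarith)) (hSpos _), fun x hx => ?_, fun x => ?_⟩
  · exact ((ker_cont (D + 1)).comp (continuous_id.prodMk continuous_const)).div hSc
      fun x => (hSpos x).ne'
  · simp only
    rw [ker_eq_zero hx, zero_div]
  · have h1 : ∀ l, ker (D + 1) (p l x) x0 / S (p l x) = (S x)⁻¹ * ψ l x := by
      intro l
      rw [hSm, hψ, div_eq_inv_mul]
    simp_rw [h1]
    rw [← mul_finsum]
    have h2 : ∑ᶠ l : Λ, ψ l x = S x := by rw [hS]
    rw [h2, inv_mul_cancel₀ (hSpos x).ne']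

end part

section star

variable {M : Type*} [MetricSpace M] [ProperSpace M] [MeasurableSpace M] [BorelSpace M]
  (ν : Measure M) [IsFiniteMeasureOnCompacts ν] [ν.IsOpenPosMeasure]
  (hν : ∀ g : M ≃ᵢ M, MeasurePreserving g ν ν)
  {Λ : Type*} [Group Λ] (p : Λ →* (M ≃ᵢ M)) (x0 : M)

theorem kint_add (R : ℝ) {f g : M → ℝ} (hf : Continuous f) (hg : Continuous g) (x : M) :
    kint ν R (fun y => f y + g y) x = kint ν R f x + kint ν R g x := by
  unfold kint
  rw [← integral_add (ker_integrable ν R x hf) (ker_integrable ν R x hg)]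
  congr 1
  ext y
  ring

include hν in
theorem int_map (g : M ≃ᵢ M) (f : M → ℝ) : ∫ y, f (g y) ∂ν = ∫ y, f y ∂ν :=
  (hν g).integral_comp g.toHomeomorph.measurableEmbedding f

include hν in
theorem double_kint (Φ : M → ℝ) (hΦ : Continuous Φ) (s : M ≃ᵢ M) (x : M) (hs : s x = x) :
    kint ν 1 (fun y => Φ y + Φ (s y) - 2 * Φ x) x = 2 * kint ν 1 (fun y => Φ y - Φ x) x := by
  have hc : Continuous (fun y => Φ (s y)) := hΦ.comp s.continuous
  have h1 := kint_sub ν 1 (f := fun y => Φ y + Φ (s y)) (g := fun _ => 2 * Φ x) (hΦ.add hc)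
    continuous_const x
  have h2 := kint_sub ν 1 (f := Φ) (g := fun _ => Φ x) hΦ continuous_const x
  rw [h1, h2, kint_add ν 1 hΦ hc, kint_map ν 1 s (hν s), hs, kint_const ν 1 (2 * Φ x),
    kint_const ν 1 (Φ x)]
  ring

include hν in
theorem star (A1 : ∀ r : ℝ, {l : Λ | dist (p l x0) x0 ≤ r}.Finite)
    (A2 : ∃ D : ℝ, ∀ x, ∃ l, dist (p l x0) x ≤ D)
    (Φ : M → ℝ) (hΦ : Continuous Φ) (χ : Λ → ℝ) (hχ : ∀ l x, Φ (p l x) = Φ x + χ l)
    (hs : ∀ x, ∃ s : M ≃ᵢ M, s x = x ∧ ∀ y, 2 * Φ x ≤ Φ y + Φ (s y))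
    (s : M ≃ᵢ M) (hsx : s x0 = x0) (hsc : ∀ y, 2 * Φ x0 ≤ Φ y + Φ (s y)) (y : M)
    (hy : dist x0 y < 1) : Φ y + Φ (s y) = 2 * Φ x0 := by
  classical
  obtain ⟨D, hD⟩ := A2
  obtain ⟨w, hwc, hw0, hwx, hws, hwp⟩ := exists_partition p x0 A1 hD
  obtain ⟨h, hh⟩ : ∃ h : M → M → ℝ, h = fun x y => ker 1 x y * (Φ y - Φ x) := ⟨_, rfl⟩
  obtain ⟨u, hu⟩ : ∃ u : M → ℝ, u = fun x => ∫ y, h x y ∂ν := ⟨_, rfl⟩
  have huk : ∀ x, u x = kint ν 1 (fun y => Φ y - Φ x) x := by
    intro x
    rw [hu, hh]
    rfl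
  have hu0 : ∀ x, 0 ≤ u x := by
    intro x
    obtain ⟨s, hs1, hs2⟩ := hs x
    have h1 := double_kint ν hν Φ hΦ s x hs1
    have h2 : 0 ≤ kint ν 1 (fun y => Φ y + Φ (s y) - 2 * Φ x) x :=
      integral_nonneg fun y => mul_nonneg (ker_nonneg _ _ _) (sub_nonneg.2 (hs2 y))
    rw [huk]
    linarith
  have huc : Continuous u := by
    have h1 : u = fun x => kint ν 1 Φ x - Φ x * kint ν 1 (fun _ => 1) x := by
      ext x
      rw [huk, kint_sub ν 1 hΦ continuous_const, kint_const]
    rw [h1]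
    exact (kint_cont ν 1 hΦ).sub (hΦ.mul (kint_cont ν 1 continuous_const))
  -- the finite set
  obtain ⟨T, hT⟩ : ∃ T : Finset Λ, ∀ l, l ∈ T ↔ dist (p l x0) x0 ≤ 2 * (D + 1) + 1 :=
    ⟨(A1 (2 * (D + 1) + 1)).toFinset, fun l => by rw [Set.Finite.mem_toFinset]; rfl⟩
  have hwD : ∀ x, w x ≠ 0 → dist x x0 < D + 1 := by
    intro x hx
    by_contra hcon
    exact hx (hws x (not_lt.1 hcon))
  have hTsum : ∀ x y, w x ≠ 0 → ker 1 x y ≠ 0 → ∑ l ∈ T, w (p l y) = 1 := by
    intro x y hx hk
    rw [← hwp y]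
    symm
    refine finsum_eq_sum_of_support_subset _ fun l hl => ?_
    rw [Finset.mem_coe, hT]
    have h1 := hwD _ hl
    have h2 := hwD _ hx
    have h3 : dist x y < 1 := by
      by_contra hcon
      exact hk (ker_eq_zero (not_lt.1 hcon))
    have h4 := dist_triangle (p l x0) (p l y) x0
    rw [(p l).isometry.dist_eq] at h4
    have h5 := dist_triangle x0 x y
    rw [dist_comm x0 x] at h5
    linarith
  obtain ⟨J, hJ⟩ : ∃ J : Λ → ℝ, J = fun l => ∫ x, ∫ y, w x * w (p l y) * h x y ∂ν ∂ν := ⟨_, rfl⟩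
  have hhc : Continuous (Function.uncurry h) := by
    rw [hh]
    exact (ker_cont 1).mul ((hΦ.comp continuous_snd).sub (hΦ.comp continuous_fst))
  have hhs : ∀ x y, h x y ≠ 0 → dist x y < 1 := by
    intro x y hne
    by_contra hcon
    apply hne
    rw [hh]
    simp only
    rw [ker_eq_zero (not_lt.1 hcon), zero_mul]
  have hcont : ∀ l, Continuous (Function.uncurry fun x y => w x * w (p l y) * h x y) := by
    intro l
    exact ((hwc.comp continuous_fst).mul
      (hwc.comp ((p l).continuous.comp continuous_snd))).mul hhc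
  have hcs : ∀ l, HasCompactSupport (Function.uncurry fun x y => w x * w (p l y) * h x y) := by
    intro l
    refine HasCompactSupport.intro ((isCompact_closedBall x0 (D + 1)).prod
      (isCompact_closedBall x0 (D + 2))) ?_
    rintro ⟨x, y⟩ hxy
    by_contra hne
    apply hxy
    have h1 : w x * w (p l y) * h x y ≠ 0 := hne
    have h2 := hwD x (left_ne_zero_of_mul (left_ne_zero_of_mul h1))
    have h3 := hhs x y (right_ne_zero_of_mul h1)
    refine ⟨h2.le, ?_⟩
    have h4 := dist_triangle y x x0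
    rw [dist_comm y x] at h4
    show dist y x0 ≤ D + 2
    linarith
  have hint : ∀ l x, Integrable (fun y => w x * w (p l y) * h x y) ν := by
    intro l x
    refine Continuous.integrable_of_hasCompactSupport ?_ ?_
    · exact (hcont l).comp (continuous_const.prodMk continuous_id)
    · refine HasCompactSupport.intro (isCompact_closedBall x 1) fun y hy => ?_
      by_contra hne
      apply hy
      have h3 := hhs x y (right_ne_zero_of_mul hne)
      rw [Metric.mem_closedBall, dist_comm]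
      exact h3.le
  have hwu : ∀ x, w x * u x = ∑ l ∈ T, ∫ y, w x * w (p l y) * h x y ∂ν := by
    intro x
    rw [← integral_finsetSum T (fun l _ => hint l x), hu]
    simp only
    rw [← integral_const_mul]
    congr 1
    ext y
    by_cases hx : w x = 0
    · simp [hx]
    · by_cases hk : ker 1 x y = 0
      · have : h x y = 0 := by rw [hh]; simp only; rw [hk, zero_mul]
        simp [this]
      · have h1 := hTsum x y hx hk
        have h2 : ∑ l ∈ T, w x * w (p l y) * h x y = (w x * h x y) * ∑ l ∈ T, w (p l y) := by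
          rw [Finset.mul_sum]
          refine Finset.sum_congr rfl fun l _ => ?_
          ring
        rw [h2, h1, mul_one]
  have hintx : ∀ l, Integrable (fun x => ∫ y, w x * w (p l y) * h x y ∂ν) ν := by
    intro l
    have e : (fun x => ∫ y, w x * w (p l y) * h x y ∂ν) =
        fun x => w x * ∫ y, w (p l y) * h x y ∂ν := by
      ext x
      rw [← integral_const_mul]
      congr 1
      ext y
      ring
    have e2 : (fun x => ∫ y, w (p l y) * h x y ∂ν) =
        fun x => kint ν 1 (fun y => w (p l y) * Φ y) x - Φ x * kint ν 1 (fun y => w (p l y)) x := by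
      ext x
      have hc1 : Continuous (fun y => w (p l y)) := hwc.comp (p l).continuous
      have h1 : Φ x * kint ν 1 (fun y => w (p l y)) x = kint ν 1 (fun y => Φ x * w (p l y)) x := by
        unfold kint
        rw [← integral_const_mul]
        congr 1
        ext y
        ring
      rw [h1, ← kint_sub ν 1 (f := fun y => w (p l y) * Φ y) (g := fun y => Φ x * w (p l y))
        (hc1.mul hΦ) (continuous_const.mul hc1)]
      unfold kint
      rw [hh]
      congr 1
      ext y
      ring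
    have hc : Continuous (fun x => ∫ y, w (p l y) * h x y ∂ν) := by
      have hc1 : Continuous (fun y => w (p l y)) := hwc.comp (p l).continuous
      rw [e2]
      exact (kint_cont ν 1 (hc1.mul hΦ)).sub (hΦ.mul (kint_cont ν 1 hc1))
    rw [e]
    refine (hwc.mul hc).integrable_of_hasCompactSupport ?_
    refine HasCompactSupport.intro (isCompact_closedBall x0 (D + 1)) fun x hx => ?_
    have : w x = 0 := by
      by_contra hne
      exact hx (hwD x hne).le
    rw [Pi.mul_apply, this, zero_mul]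
  have hsum : ∫ x, w x * u x ∂ν = ∑ l ∈ T, J l := by
    simp_rw [hwu]
    rw [integral_finsetSum T (fun l _ => hintx l), hJ]
  have hJinv : ∀ l, J l⁻¹ = - J l := by
    intro l
    rw [hJ]
    simp only
    have s1 : ∀ x, ∫ y, w x * w (p l⁻¹ y) * h x y ∂ν = ∫ y, w x * w y * h x (p l y) ∂ν := by
      intro x
      rw [← int_map ν hν (p l) (fun y => w x * w (p l⁻¹ y) * h x y)]
      congr 1
      ext y
      rw [p_inv_apply]
    simp_rw [s1]
    rw [← int_map ν hν (p l) (fun x => ∫ y, w x * w y * h x (p l y) ∂ν)]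
    have s2 : ∀ x y, w (p l x) * w y * h (p l x) (p l y) = -(w y * w (p l x) * h y x) := by
      intro x y
      rw [hh]
      simp only
      rw [hχ, hχ, ker_map]
      have : ker 1 y x = ker 1 x y := by unfold ker; rw [dist_comm]
      rw [this]
      ring
    simp_rw [s2]
    simp_rw [integral_neg]
    rw [integral_integral_swap_of_hasCompactSupport (hcont l) (hcs l)]
  have hzero : ∑ l ∈ T, J l = 0 := by
    have h1 : ∑ l ∈ T, J l = ∑ l ∈ T, J l⁻¹ := by
      refine Finset.sum_bij' (fun l _ => l⁻¹) (fun l _ => l⁻¹) ?_ ?_ ?_ ?_ ?_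
      · intro l hl
        rw [hT] at hl ⊢
        rw [dist_inv]
        exact hl
      · intro l hl
        rw [hT] at hl ⊢
        rw [dist_inv]
        exact hl
      · intro l _
        exact inv_inv l
      · intro l _
        exact inv_inv l
      · intro l _
        rw [inv_inv]
    have h2 : ∑ l ∈ T, J l⁻¹ = - ∑ l ∈ T, J l := by
      rw [← Finset.sum_neg_distrib]
      exact Finset.sum_congr rfl fun l _ => hJinv l
    linarith
  have hux : u x0 = 0 := by
    by_contra hne
    have hpos : 0 < ∫ x, w x * u x ∂ν := by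
      refine (hwc.mul huc).integral_pos_of_hasCompactSupport_nonneg_nonzero (x := x0) ?_ ?_ ?_
      · refine HasCompactSupport.intro (isCompact_closedBall x0 (D + 1)) fun x hx => ?_
        have : w x = 0 := by
          by_contra hne
          exact hx (hwD x hne).le
        rw [this, zero_mul]
      · intro x
        exact mul_nonneg (hw0 x) (hu0 x)
      · exact mul_ne_zero hwx.ne' hne
    rw [hsum, hzero] at hpos
    exact lt_irrefl _ hpos
  by_contra hne
  have hcs' : Continuous (fun y => Φ y + Φ (s y) - 2 * Φ x0) :=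
    (hΦ.add (hΦ.comp s.continuous)).sub continuous_const
  have hpos : 0 < kint ν 1 (fun y => Φ y + Φ (s y) - 2 * Φ x0) x0 := by
    refine ((ker_cont_right 1 x0).mul
      hcs').integral_pos_of_hasCompactSupport_nonneg_nonzero (x := y) (ker_hcs 1 x0 _) ?_ ?_
    · intro z
      exact mul_nonneg (ker_nonneg 1 x0 z) (sub_nonneg.2 (hsc z))
    · exact mul_ne_zero (ker_pos hy).ne' (sub_ne_zero.2 hne)
  rw [double_kint ν hν Φ hΦ s x0 hsx, ← huk, hux, mul_zero] at hpos
  exact lt_irrefl _ hpos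

end star

end Pool.Agent.E8helper46.FL
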