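import Pool.Agent.E8helper46.FL.Cent
import Pool.Agent.E8helper46.FL.Cliff
import Pool.Agent.E8helper46.FL.Haar

/-!
# The Lie algebra of the closure of a projection of a lattice is invariant under transvections
-/

set_option autoImplicit false
set_option linter.unusedSectionVars false

namespace Pool.Agent.E8helper46.FL

open Set Filter Topology MeasureTheory NormedSpace

open scoped Matrix.Norms.L2Operator

section

variable {E : Type*} [NormedAddCommGroup E] [InnerProductSpace ℝ E] [FiniteDimensional ℝ E]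
  {n : ℕ} {G : Subgroup (Mat n)ˣ} (hG : IsNoncompactType G)

theorem eucl_mid (x y : E) : ∃ m, IsMid m x y := by
  refine ⟨midpoint ℝ x y, ?_, ?_⟩
  · rw [dist_left_midpoint, Real.norm_of_nonneg (by norm_num)]
    ring
  · rw [dist_comm, dist_midpoint_right, Real.norm_of_nonneg (by norm_num)]
    ring

include hG in
theorem prod_trans (x y : E × SG G) : ∃ g : (E × SG G) ≃ᵢ (E × SG G), g x = y := by
  obtain ⟨g, hg⟩ := act_trans x.2 y.2
  refine ⟨prodI (IsometryEquiv.addRight (y.1 - x.1)) (act g), ?_⟩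
  rw [prodI_apply, hg]
  ext1
  · show x.1 + (y.1 - x.1) = y.1
    rw [add_sub_cancel]
  · rfl

include hG in
theorem conj_inv {Λ : Type*} [Group Λ] (pE : Λ →* (E ≃ᵢ E)) (pG : Λ →* G)
    (A1 : ∀ r : ℝ, {l : Λ | dist (prodHom pE (act.comp pG) l (0, pt 1)) (0, pt 1) ≤ r}.Finite)
    (A2 : ∃ D : ℝ, ∀ x, ∃ l, dist (prodHom pE (act.comp pG) l (0, pt 1)) x ≤ D)
    (D : Subgroup (Mat n)ˣ) (hD : IsClosed (D : Set (Mat n)ˣ))
    (hDp : ∀ l, ((pG l : G) : (Mat n)ˣ) ∈ D) :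
    ∀ X ∈ SymPart G, ∀ Z ∈ lieAlg D hD,
      (ex X : Mat n) * Z * ((ex X)⁻¹ : (Mat n)ˣ) ∈ lieAlg D hD := by
  classical
  have hprop : ProperSpace (SG G) := sg_proper hG.closed
  let _ : MeasurableSpace (E × SG G) := borel _
  have _ : BorelSpace (E × SG G) := ⟨rfl⟩
  have _ : Nonempty (E × SG G) := ⟨(0, pt 1)⟩
  obtain ⟨ν, hν1, hν2, hν3⟩ := exists_measure (E × SG G) (prod_trans hG)
  obtain ⟨m, b⟩ : Σ m, Module.Basis (Fin m) ℝ (lieAlg D hD) := ⟨_, Module.finBasis ℝ _⟩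
  obtain ⟨Y, hY⟩ : ∃ Y : Fin m → Mat n, ∀ a, Y a = (b a : Mat n) := ⟨_, fun _ => rfl⟩
  have hYl : LinearIndependent ℝ Y := by
    have h1 : Y = (lieAlg D hD).subtype ∘ b := by
      ext1 a
      exact hY a
    rw [h1]
    exact b.linearIndependent.map' _ (Submodule.ker_subtype _)
  have hYm : ∀ a, Y a ∈ lieAlg D hD := fun a => by rw [hY]; exact (b a).2
  have hrepr : ∀ Z ∈ lieAlg D hD, ∃ z : Fin m → ℝ, Z = ∑ a, z a • Y a := by
    intro Z hZ
    refine ⟨fun a => b.repr ⟨Z, hZ⟩ a, ?_⟩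
    have h1 := congrArg Subtype.val (b.sum_repr ⟨Z, hZ⟩)
    rw [Submodule.coe_sum] at h1
    refine Eq.trans h1.symm ?_
    refine Finset.sum_congr rfl fun a _ => ?_
    rw [hY]
    rfl
  have hYpos := phi_pos Y hYl
  obtain ⟨Φ, hΦc, hΦ⟩ := exists_descend hG.closed (fun g => Real.log (phi Y g))
    ((phi_cont Y).log fun g => (hYpos g).ne') (fun g k hk => by rw [phi_orth Y g k hk])
  have hquasi : ∀ u ∈ D, ∃ s : ℝ, ∀ g, Real.log (phi Y (u * g)) = Real.log (phi Y g) + s := by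
    intro u hu
    have h1 : ∀ a, ∃ z : Fin m → ℝ, (↑u⁻¹ : Mat n) * Y a * u = ∑ c, z c • Y c := by
      intro a
      refine hrepr _ ?_
      have := conj_mem_lieAlg (hYm a) (D.inv_mem hu)
      rwa [inv_inv] at this
    choose R hR using h1
    refine ⟨Real.log ((Matrix.of fun a c => R c a).det ^ 2), fun g => ?_⟩
    have h2 := phi_left Y u g (Matrix.of fun a c => R c a) (fun c => hR c)
    have h3 := hYpos (u * g)
    rw [h2] at h3 ⊢
    have h4 : (Matrix.of fun a c => R c a).det ^ 2 ≠ 0 := by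
      intro h0
      rw [h0, zero_mul] at h3
      exact lt_irrefl _ h3
    rw [Real.log_mul h4 (hYpos g).ne', add_comm]
  have hsym : ∀ (a : G) X (hX : X ∈ SymPart G),
      2 * Φ (pt a) ≤ Φ (pt (a * ⟨ex X, ex_symPart hX⟩)) + Φ (pt (a * ⟨ex X, ex_symPart hX⟩⁻¹)) := by
    intro a X hX
    rw [hΦ, hΦ, hΦ]
    have h1 := (phi_convex Y hYl a (ex X) (ex_sym (mem_symPart.1 hX).1)).1
    show 2 * Real.log (phi Y a) ≤ Real.log (phi Y ((a : (Mat n)ˣ) * ex X)) +
      Real.log (phi Y ((a : (Mat n)ˣ) * (ex X)⁻¹))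
    rw [← Real.log_mul (hYpos _).ne' (hYpos _).ne']
    have h2 : 2 * Real.log (phi Y a) = Real.log (phi Y a ^ 2) := by
      rw [Real.log_pow]
      norm_num
    rw [h2]
    exact Real.log_le_log (pow_pos (hYpos _) 2) h1
  have hrefl : ∀ (e : E) (a : G), ∃ s : (E × SG G) ≃ᵢ (E × SG G), s (e, pt a) = (e, pt a) ∧
      (∀ y, 2 * Φ (pt a) ≤ Φ y.2 + Φ (s y).2) ∧ ∀ e' X,
        ∀ hX : X ∈ SymPart G, (s (e', pt (a * ⟨ex X, ex_symPart hX⟩))).2 =
          pt (a * ⟨ex X, ex_symPart hX⟩⁻¹) := by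
    intro e a
    obtain ⟨s, hs1, hs2⟩ := sg_reflect hG a
    refine ⟨prodI (IsometryEquiv.refl E) s, ?_, ?_, ?_⟩
    · rw [prodI_apply]
      simp only
      rw [hs1]
      rfl
    · rintro ⟨e', y⟩
      obtain ⟨X, hX, rfl⟩ := exists_pt hG a y
      have h1 := hsym a X hX
      rw [← hs2 X hX] at h1
      exact h1
    · intro e' X hX
      exact hs2 X hX
  have hs : ∀ x : E × SG G, ∃ s : (E × SG G) ≃ᵢ (E × SG G), s x = x ∧
      ∀ y, 2 * Φ x.2 ≤ Φ y.2 + Φ (s y).2 := by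
    rintro ⟨e, x⟩
    obtain ⟨a, rfl⟩ := pt_surj x
    obtain ⟨s, h1, h2, -⟩ := hrefl e a
    exact ⟨s, h1, h2⟩
  have hχ : ∀ l : Λ, ∃ s : ℝ, ∀ x : E × SG G,
      Φ (prodHom pE (act.comp pG) l x).2 = Φ x.2 + s := by
    intro l
    obtain ⟨s, h1⟩ := hquasi _ (hDp l)
    refine ⟨s, fun x => ?_⟩
    obtain ⟨a, ha⟩ := pt_surj x.2
    rw [prodHom_apply]
    show Φ (act (pG l) x.2) = _
    rw [← ha, act_pt, hΦ, hΦ]
    exact h1 a
  choose χ hχ using hχ
  obtain ⟨s, hs1, hs2, hs3⟩ := hrefl (0 : E) (1 : G)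
  have hstar := star ν hν3 (prodHom pE (act.comp pG)) ((0 : E), pt (1 : G)) A1 A2
    (fun x => Φ x.2) (hΦc.comp continuous_snd) χ hχ hs s hs1 hs2
  -- small elements
  have hsmall : ∀ X ∈ SymPart G, len (ex X) < 1 → ∀ Z ∈ lieAlg D hD,
      (ex X : Mat n) * ((ex X : Mat n) * Z * ((ex X)⁻¹ : (Mat n)ˣ)) * ((ex X)⁻¹ : (Mat n)ˣ) ∈
        lieAlg D hD := by
    intro X hX hlen Z hZ
    have h1 := hstar (0, pt (1 * ⟨ex X, ex_symPart hX⟩)) (by
      rw [Prod.dist_eq, dist_self]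
      simp only
      rw [dist_pt, Subgroup.coe_mul, inv_mul_cancel_left, max_lt_iff]
      exact ⟨one_pos, hlen⟩)
    rw [hs3 0 X hX] at h1
    simp only at h1
    rw [hΦ, hΦ, hΦ, one_mul, one_mul] at h1
    have h2 : phi Y ((1 : G) : (Mat n)ˣ) ^ 2 = phi Y (((1 : G) : (Mat n)ˣ) * ex X) *
        phi Y (((1 : G) : (Mat n)ˣ) * (ex X)⁻¹) := by
      have h3 : Real.log (phi Y (ex X)) + Real.log (phi Y (ex X)⁻¹) =
          2 * Real.log (phi Y (1 : (Mat n)ˣ)) := h1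
      rw [Subgroup.coe_one, one_mul, one_mul]
      rw [← Real.log_mul (hYpos _).ne' (hYpos _).ne'] at h3
      have h4 : 2 * Real.log (phi Y (1 : (Mat n)ˣ)) = Real.log (phi Y (1 : (Mat n)ˣ) ^ 2) := by
        rw [Real.log_pow]
        norm_num
      rw [h4] at h3
      exact (Real.log_injOn_pos (mul_pos (hYpos _) (hYpos _)) (pow_pos (hYpos _) 2) h3).symm
    obtain ⟨R, hR⟩ := (phi_convex Y hYl _ (ex X) (ex_sym (mem_symPart.1 hX).1)).2 h2
    have h5 : ∀ c, (ex X : Mat n) * ((ex X : Mat n) * Y c * ((ex X)⁻¹ : (Mat n)ˣ)) *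
        ((ex X)⁻¹ : (Mat n)ˣ) ∈ lieAlg D hD := by
      intro c
      have h6 := hR c
      rw [Subgroup.coe_one, one_mul, one_mul] at h6
      unfold cj at h6
      rw [inv_inv] at h6
      rw [h6]
      have h7 : (ex X : Mat n) * (∑ a, R a c • ((((ex X)⁻¹ : (Mat n)ˣ) : Mat n) * Y a * ex X)) *
          ((ex X)⁻¹ : (Mat n)ˣ) = ∑ a, R a c • Y a := by
        rw [Finset.mul_sum, Finset.sum_mul]
        refine Finset.sum_congr rfl fun a _ => ?_
        rw [mul_smul_comm, smul_mul_assoc]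
        congr 1
        have : (ex X : Mat n) * ((((ex X)⁻¹ : (Mat n)ˣ) : Mat n) * Y a * ex X) *
            ((ex X)⁻¹ : (Mat n)ˣ) = ((ex X : Mat n) * ((ex X)⁻¹ : (Mat n)ˣ)) * Y a *
              ((ex X : Mat n) * ((ex X)⁻¹ : (Mat n)ˣ)) := by
          simp only [mul_assoc]
        rw [this, Units.mul_inv, one_mul, mul_one]
      rw [h7]
      exact Submodule.sum_mem _ fun a _ => Submodule.smul_mem _ _ (hYm a)
    obtain ⟨z, rfl⟩ := hrepr Z hZ
    have h6 : (ex X : Mat n) * ((ex X : Mat n) * (∑ a, z a • Y a) * ((ex X)⁻¹ : (Mat n)ˣ)) *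
        ((ex X)⁻¹ : (Mat n)ˣ) = ∑ a, z a • ((ex X : Mat n) * ((ex X : Mat n) * Y a *
          ((ex X)⁻¹ : (Mat n)ˣ)) * ((ex X)⁻¹ : (Mat n)ˣ)) := by
      simp only [Finset.mul_sum, Finset.sum_mul, mul_smul_comm, smul_mul_assoc]
    rw [h6]
    exact Submodule.sum_mem _ fun a _ => Submodule.smul_mem _ _ (h5 a)
  intro X hX Z hZ
  have hlim : Tendsto (fun k : ℕ => len (ex ((1 / ((k : ℝ) + 1)) • ((1 / 2 : ℝ) • X)))) atTop
      (𝓝 0) := by
    have h1 : Tendsto (fun t : ℝ => len (ex (t • ((1 / 2 : ℝ) • X)))) (𝓝 0) (𝓝 0) := by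
      have h2 : Continuous fun t : ℝ => len (ex (t • ((1 / 2 : ℝ) • X))) :=
        len_cont.comp (ex_cont.comp (continuous_id.smul continuous_const))
      have h3 := h2.tendsto 0
      rw [zero_smul, ex_zero, len_one] at h3
      exact h3
    exact h1.comp tendsto_one_div_add_atTop_nhds_zero_nat
  obtain ⟨k, hk⟩ := (hlim.eventually_lt_const one_pos).exists
  obtain ⟨W, hW⟩ : ∃ W, W = (1 / ((k : ℝ) + 1)) • ((1 / 2 : ℝ) • X) := ⟨_, rfl⟩
  rw [← hW] at hk
  have hWs : W ∈ SymPart G := by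
    rw [hW]
    exact symPart_smul (symPart_smul hX _) _
  have hXW : X = (k + 1) • (W + W) := by
    rw [hW, ← Nat.cast_smul_eq_nsmul ℝ, ← two_smul ℝ, smul_smul, smul_smul, smul_smul]
    have : ((k + 1 : ℕ) : ℝ) * 2 * (1 / ((k : ℝ) + 1)) * (1 / 2) = 1 := by
      push_cast
      field_simp
    rw [this, one_smul]
  have hiter : ∀ (j : ℕ) (Z : Mat n), Z ∈ lieAlg D hD →
      (ex (j • (W + W)) : Mat n) * Z * ((ex (j • (W + W)))⁻¹ : (Mat n)ˣ) ∈ lieAlg D hD := by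
    intro j
    induction j with
    | zero =>
      intro Z hZ
      rw [zero_smul, ex_zero, inv_one, Units.val_one, one_mul, mul_one]
      exact hZ
    | succ j ih =>
      intro Z hZ
      have h1 := ih _ (hsmall W hWs hk Z hZ)
      rw [ex_nsmul] at h1 ⊢
      rw [pow_succ, ex_add (Commute.refl W), _root_.mul_inv_rev, _root_.mul_inv_rev]
      rw [ex_add (Commute.refl W)] at h1
      simp only [Units.val_mul, mul_assoc] at h1 ⊢
      exact h1
  rw [hXW]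
  exact hiter (k + 1) Z hZ

end

end Pool.Agent.E8helper46.FL
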