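import Mathlib

/-!
# Definitions

The groups `H` (isometry groups of symmetric spaces of non-positive curvature) and `S_L` (isometry
groups of the universal covers of Salvetti complexes), irreducible subgroups of products, and
algebraically fibred groups.
-/

set_option autoImplicit false

namespace Pool.Agent.E8helper46.FL

universe u v

/-! ### Isometry groups -/

/-- The topology of pointwise convergence on the isometry group; for isometries it is the topology
of uniform convergence on compact sets. -/
instance isomTopology (X : Type*) [MetricSpace X] : TopologicalSpace (X ≃ᵢ X) :=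
  TopologicalSpace.induced (fun (g : X ≃ᵢ X) (x : X) => g x) inferInstance

/-! ### Isometry groups of symmetric spaces of non-positive curvature -/

/-- The symmetric matrices all of whose real multiples have their exponential in `G` (the
symmetric part of the Lie algebra of `G`; the tangent space of the symmetric space of `G`). -/
def SymPart {n : ℕ} (G : Subgroup (Matrix.GeneralLinearGroup (Fin n) ℝ)) :
    Set (Matrix (Fin n) (Fin n) ℝ) :=
  {X | X.transpose = X ∧ ∀ t : ℝ, ∃ g ∈ G,
    (g : Matrix (Fin n) (Fin n) ℝ) = NormedSpace.exp (t • X)}

/-- A closed group of real matrices, closed under transposition, with polar decomposition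
(`gᵀ g` is the exponential of an element of `SymPart G` for all `g ∈ G`), such that only `0` in
`SymPart G` commutes with `SymPart G` (no Euclidean factor) and only `1` among the orthogonal
matrices in `G` commutes with `SymPart G` (`G` acts faithfully on the symmetric space
`G / (G ∩ O(n))`).

The isometry group of a symmetric space of noncompact type is such a group in its adjoint
representation (written in an orthonormal basis for the inner product given by the Killing form and
the Cartan involution). -/
structure IsNoncompactType {n : ℕ} (G : Subgroup (Matrix.GeneralLinearGroup (Fin n) ℝ)) :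
    Prop where
  closed : IsClosed (G : Set (Matrix.GeneralLinearGroup (Fin n) ℝ))
  transpose : ∀ g ∈ G, ∃ h ∈ G,
    (h : Matrix (Fin n) (Fin n) ℝ) = (g : Matrix (Fin n) (Fin n) ℝ).transpose
  polar : ∀ g ∈ G, ∃ X ∈ SymPart G,
    (g : Matrix (Fin n) (Fin n) ℝ).transpose * (g : Matrix (Fin n) (Fin n) ℝ) =
      NormedSpace.exp X
  noFlat : ∀ X ∈ SymPart G, (∀ Y ∈ SymPart G, X * Y = Y * X) → X = 0
  faithful : ∀ g ∈ G,
    (g : Matrix (Fin n) (Fin n) ℝ).transpose * (g : Matrix (Fin n) (Fin n) ℝ) = 1 →
    (∀ Y ∈ SymPart G, (g : Matrix (Fin n) (Fin n) ℝ) * Y = Y * (g : Matrix (Fin n) (Fin n) ℝ)) →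
    g = 1

/-- `H` is isomorphic as a topological group to the product of the isometry group of a Euclidean
space and a group of noncompact type.

By the de Rham decomposition and the adjoint representation the isometry group of every symmetric
space of non-positive curvature has this property. -/
def IsSymmetricSpaceGroup (H : Type v) [Group H] [TopologicalSpace H] : Prop :=
  ∃ (k n : ℕ) (G : Subgroup (Matrix.GeneralLinearGroup (Fin n) ℝ)), IsNoncompactType G ∧
    Nonempty (H ≃ₜ* ((EuclideanSpace ℝ (Fin k) ≃ᵢ EuclideanSpace ℝ (Fin k)) × G))

/-! ### Right-angled Artin groups and the universal covers of their Salvetti complexes -/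

section raag

variable {V : Type u} (L : SimpleGraph V)

/-- The commutators of adjacent generators. -/
def raagRels : Set (FreeGroup V) :=
  {r | ∃ a b, L.Adj a b ∧
    r = FreeGroup.of a * FreeGroup.of b * (FreeGroup.of a)⁻¹ * (FreeGroup.of b)⁻¹}

/-- The right-angled Artin group of the graph `L` (of the flag complex with 1-skeleton `L`). -/
abbrev Raag : Type u := PresentedGroup (raagRels L)

/-- the generator of a vertex -/
def gen (v : V) : Raag L := PresentedGroup.of v

/-- The Cayley graph of the right-angled Artin group: `g` and `h` are adjacent if they are different
and `h = g v` or `g = h v` for a generator `v`. It is the 1-skeleton of the universal cover of the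
Salvetti complex. -/
def cayley : SimpleGraph (Raag L) where
  Adj g h := g ≠ h ∧ ∃ v, h = g * gen L v ∨ g = h * gen L v
  symm := ⟨fun _ _ h => ⟨h.1.symm, h.2.imp fun _ => Or.symm⟩⟩
  loopless := ⟨fun _ h => h.1 rfl⟩

theorem reach_gen (g : Raag L) (v : V) : (cayley L).Reachable g (g * gen L v) := by
  by_cases h : g = g * gen L v
  · rw [← h]
  · exact SimpleGraph.Adj.reachable ⟨h, v, Or.inl rfl⟩

theorem reach_all (g : Raag L) : ∀ h, (cayley L).Reachable h (h * g) := by
  have hg : g ∈ Subgroup.closure (Set.range (PresentedGroup.of (rels := raagRels L))) := by
    rw [PresentedGroup.closure_range_of]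
    exact Subgroup.mem_top g
  induction hg using Subgroup.closure_induction with
  | mem x hx =>
    obtain ⟨v, rfl⟩ := hx
    exact fun h => reach_gen L h v
  | one => intro h; rw [mul_one]
  | mul x y _ _ hx hy => exact fun h => (hx h).trans (by rw [← mul_assoc]; exact hy (h * x))
  | inv x _ hx =>
    intro h
    have := (hx (h * x⁻¹)).symm
    rwa [inv_mul_cancel_right] at this

theorem cayley_connected : (cayley L).Connected where
  preconnected g h := by
    have := reach_all L (g⁻¹ * h) g
    rwa [mul_inv_cancel_left] at this
  nonempty := ⟨1⟩

/-- The vertices of the universal cover of the Salvetti complex: the elements of the right-angled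
Artin group, at their distance in the 1-skeleton (the Cayley graph).

If `L` is not connected, the isometries of the universal cover (a CAT(0) cube complex) permute the
vertices, and two vertices are adjacent if and only if their CAT(0) distance is one; an automorphism
of the 1-skeleton extends to the cubes. Hence `S_L` is the isometry group of `Vert L`. -/
structure Vert where
  /-- the group element -/
  el : Raag L

theorem Vert.ext' {x y : Vert L} (h : x.el = y.el) : x = y := by
  cases x; cases y; cases h; rfl

noncomputable instance vertMetric : MetricSpace (Vert L) where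
  dist x y := ((cayley L).dist x.el y.el : ℝ)
  dist_self x := by simp
  dist_comm x y := by rw [SimpleGraph.dist_comm]
  dist_triangle x y z := by exact_mod_cast (cayley_connected L).dist_triangle
  eq_of_dist_eq_zero {x y} h := by
    apply Vert.ext'
    have h1 : (cayley L).dist x.el y.el = 0 := by exact_mod_cast h
    exact (cayley_connected L).dist_eq_zero_iff.1 h1

end raag

/-! ### Irreducible subgroups and algebraic fibring -/

/-- No subgroup of finite index is the (internal) direct product of two infinite subgroups. -/
def NotProduct (G : Type*) [Group G] : Prop :=
  ∀ A B : Subgroup G, Infinite A → Infinite B → (∀ a ∈ A, ∀ b ∈ B, a * b = b * a) → A ⊓ B = ⊥ →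
    ¬ (A ⊔ B).FiniteIndex

/-- A subgroup of `G₁ × G₂` is irreducible if its projections to both factors are not discrete and
no subgroup of finite index is a direct product of two infinite groups. -/
structure IsIrreducible {G₁ : Type*} {G₂ : Type*} [Group G₁] [Group G₂] [TopologicalSpace G₁]
    [TopologicalSpace G₂] (Γ : Subgroup (G₁ × G₂)) : Prop where
  left : ¬ DiscreteTopology (Γ.map (MonoidHom.fst G₁ G₂))
  right : ¬ DiscreteTopology (Γ.map (MonoidHom.snd G₁ G₂))
  notProduct : NotProduct Γ

/-- There is a surjective homomorphism to the integers with finitely generated kernel. -/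
def AlgFibred (G : Type*) [Group G] : Prop :=
  ∃ φ : G →* Multiplicative ℤ, Function.Surjective φ ∧ φ.ker.FG

end Pool.Agent.E8helper46.FL
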